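import Pool.Agent.Lib.MP_ff61db_al.Cg.BA1

/-! First properties of the two gradings. -/

namespace Pool.Agent.Lib.MP_ff61db_al.Cg

open Submodule TensorProduct

variable {k H : Type} [Field k] [Ring H] [HopfAlgebra k H] {Γ : Type} [Group Γ]

variable {δ : Γ → Du k H}

theorem ba_left (h : Bi δ) (g : Γ) : (1 : H) ∈ Sm (Lt δ g) * Rt δ g := by
  obtain ⟨u, h1, h2, h3⟩ := h.ne g
  obtain ⟨t, ht⟩ := comul_mem (fun φ => Lt_lact φ h2) fun φ => Rt_ract φ h1
  have e := HopfAlgebra.mul_antipode_rTensor_comul_apply (R := k) u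
  rw [h3, map_one, ← ht] at e
  rw [← e]
  clear e ht
  induction t with
  | zero => simp only [map_zero]; exact zero_mem _
  | add s t hs ht => simp only [map_add]; exact add_mem hs ht
  | tmul a b =>
    rw [map_tmul, LinearMap.rTensor_tmul, LinearMap.mul'_apply]
    exact mul_mem_mul (mem_map_of_mem a.2) b.2

theorem ba_right (h : Bi δ) (g : Γ) : (1 : H) ∈ Lt δ g * Sm (Rt δ g) := by
  obtain ⟨u, h1, h2, h3⟩ := h.ne g
  obtain ⟨t, ht⟩ := comul_mem (fun φ => Lt_lact φ h2) fun φ => Rt_ract φ h1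
  have e := HopfAlgebra.mul_antipode_lTensor_comul_apply (R := k) u
  rw [h3, map_one, ← ht] at e
  rw [← e]
  clear e ht
  induction t with
  | zero => simp only [map_zero]; exact zero_mem _
  | add s t hs ht => simp only [map_add]; exact add_mem hs ht
  | tmul a b =>
    rw [map_tmul, LinearMap.lTensor_tmul, LinearMap.mul'_apply]
    exact mul_mem_mul a.2 (mem_map_of_mem b.2)

theorem Bi.sgR (h : Bi δ) : SG (Rt δ) :=
  ⟨h.one, h.mulR, fun g =>
    hc_mul ((h.antiL g⁻¹).trans_eq (by rw [inv_inv])) le_rfl (ba_left h g⁻¹)⟩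

theorem Bi.sgL (h : Bi δ) : SG (Lt δ) :=
  ⟨h.eq ▸ h.one, h.mulL, fun g => hc_mul le_rfl (h.antiR g) (ba_right h g)⟩

theorem Bi.inj (h : Bi δ) (h1 : ∀ x ∈ Rt δ 1, HopfAlgebra.antipode k x = 0 → x = 0) :
    Function.Injective (HopfAlgebra.antipode k : H →ₗ[k] H) := by
  have h2 : ∀ g, ∀ x ∈ Rt δ g, HopfAlgebra.antipode k x = 0 → x = 0 := fun g x hx h0 => by
    have h3 : ∀ w ∈ Sm (Lt δ g) * Rt δ g, x * w = 0 := fun w hw => by
      refine Submodule.mul_induction_on hw (fun y hy z _ => ?_) fun a b ha hb => ?_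
      · have h4 := h.mulR g g⁻¹ (mul_mem_mul hx (h.antiL g hy))
        rw [mul_inv_cancel] at h4
        rw [← mul_assoc, h1 _ h4 (by rw [HopfAlgebra.antipode_mul_antidistrib, h0, mul_zero]),
          zero_mul]
      · rw [mul_add, ha, hb, add_zero]
    exact (mul_one x).symm.trans (h3 1 (ba_left h g))
  refine (injective_iff_map_eq_zero _).2 fun x hx => ?_
  obtain ⟨f, f1, rfl⟩ := (mem_iSup_iff_exists_finsupp (Rt δ) x).1 (h.topR ▸ mem_top)
  rw [Finsupp.sum, map_sum] at hx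
  exact Finset.sum_eq_zero fun g hg => h2 g _ (f1 g)
    ((iSupIndep_iff_finsetSum_eq_zero_imp_eq_zero _).1 (h.indL.comp inv_injective) _ _
      (fun g _ => h.antiR g (mem_map_of_mem (f1 g))) hx g hg)

theorem Bi.sgS (h : Bi δ) : SG fun g => Sm (Lt δ g⁻¹) := by
  refine ⟨⟨1, by rw [inv_one]; exact h.sgL.one, HopfAlgebra.antipode_one⟩, fun a b => ?_,
    fun g => ?_⟩
  · rw [← Sm_mul, mul_inv_rev]
    exact map_mono (h.mulL _ _)
  · rw [← Sm_mul, inv_inv]
    exact ⟨1, h.sgL.strong g, HopfAlgebra.antipode_one⟩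

theorem Bi.topS (h : Bi δ) : ⨆ g, Sm (Lt δ g⁻¹) = Sm ⊤ := by
  refine le_antisymm (iSup_le fun g => map_mono le_top) ?_
  rw [← h.topL, Sm, Submodule.map_iSup]
  exact iSup_le fun g => le_iSup_of_le g⁻¹ (by simp only [inv_inv, le_refl])

end Pool.Agent.Lib.MP_ff61db_al.Cg
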