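import Pool.Agent.Lib.MP_ff61db_al.Cg.BDefs

/-! Comultiplication and the two actions of the dual algebra. -/

namespace Pool.Agent.Lib.MP_ff61db_al.Cg

open Submodule TensorProduct

variable {k H : Type} [Field k] [Ring H] [HopfAlgebra k H] {Γ : Type} [Group Γ]

theorem ba0_ext {s t : H ⊗[k] H} (h : ∀ α β : Du k H, pair α.ofConv β.ofConv s =
    pair α.ofConv β.ofConv t) : s = t := by
  rw [← sub_eq_zero]
  refine tensor_zero fun α β => ?_
  rw [map_sub, sub_eq_zero]
  exact h (WithConv.toConv α) (WithConv.toConv β)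

theorem ba0_l (α φ : Du k H) : α.ofConv ∘ₗ lact φ = (α * φ).ofConv :=
  LinearMap.ext fun x => du_lact α φ x

theorem ba0_r (α φ : Du k H) : α.ofConv ∘ₗ ract φ = (φ * α).ofConv :=
  LinearMap.ext fun x => du_ract α φ x

theorem comul_ract (φ : Du k H) (x : H) :
    Coalgebra.comul (R := k) (ract φ x) =
      LinearMap.rTensor H (ract φ) (Coalgebra.comul (R := k) x) := by
  refine ba0_ext fun α β => ?_
  rw [LinearMap.rTensor, pair_map, ba0_r, LinearMap.comp_id, ← du_mul, ← du_mul, du_ract,
    mul_assoc]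

theorem comul_lact (φ : Du k H) (x : H) :
    Coalgebra.comul (R := k) (lact φ x) =
      LinearMap.lTensor H (lact φ) (Coalgebra.comul (R := k) x) := by
  refine ba0_ext fun α β => ?_
  rw [LinearMap.lTensor, pair_map, ba0_l, LinearMap.comp_id, ← du_mul, ← du_mul, du_lact,
    mul_assoc]

theorem comul_mid (φ : Du k H) (x : H) :
    LinearMap.rTensor H (lact φ) (Coalgebra.comul (R := k) x) =
      LinearMap.lTensor H (ract φ) (Coalgebra.comul (R := k) x) := by
  refine ba0_ext fun α β => ?_
  rw [LinearMap.lTensor, LinearMap.rTensor, pair_map, pair_map, ba0_l, ba0_r, LinearMap.comp_id,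
    LinearMap.comp_id, ← du_mul, ← du_mul, mul_assoc]

theorem counit_lact (φ : Du k H) (x : H) : Coalgebra.counit (R := k) (lact φ x) = φ.ofConv x := by
  rw [← du_one, du_lact, one_mul]

theorem counit_ract (φ : Du k H) (x : H) : Coalgebra.counit (R := k) (ract φ x) = φ.ofConv x := by
  rw [← du_one, du_ract, mul_one]

theorem ract_antipode (φ ψ : Du k H) (h : ∀ y, φ.ofConv (HopfAlgebra.antipode k y) = ψ.ofConv y)
    (x : H) : ract φ (HopfAlgebra.antipode k x) = HopfAlgebra.antipode k (lact ψ x) := by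
  simp only [ract, lact, LinearMap.comp_apply, comul_antipode]
  generalize Coalgebra.comul (R := k) x = t
  induction t with
  | zero => simp
  | tmul u v => simp [h]
  | add s t hs ht => simp only [map_add, hs, ht]

theorem lact_antipode (φ ψ : Du k H) (h : ∀ y, φ.ofConv (HopfAlgebra.antipode k y) = ψ.ofConv y)
    (x : H) : lact φ (HopfAlgebra.antipode k x) = HopfAlgebra.antipode k (ract ψ x) := by
  simp only [ract, lact, LinearMap.comp_apply, comul_antipode]
  generalize Coalgebra.comul (R := k) x = t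
  induction t with
  | zero => simp
  | tmul u v => simp [h]
  | add s t hs ht => simp only [map_add, hs, ht]

/-- If `P` contains all `lact φ x` and `Q` all `ract φ x`, then `comul x` lies in `P ⊗ Q`. -/
theorem comul_mem {P Q : Submodule k H} {x : H} (hP : ∀ φ : Du k H, lact φ x ∈ P)
    (hQ : ∀ φ : Du k H, ract φ x ∈ Q) :
    Coalgebra.comul (R := k) x ∈ LinearMap.range (TensorProduct.map P.subtype Q.subtype) := by
  obtain ⟨p, p1, p2⟩ := exists_proj P
  obtain ⟨q, q1, q2⟩ := exists_proj Q
  refine ⟨TensorProduct.map (p.codRestrict P p1) (q.codRestrict Q q1) (Coalgebra.comul x), ?_⟩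
  rw [← LinearMap.comp_apply, ← TensorProduct.map_comp, LinearMap.subtype_comp_codRestrict,
    LinearMap.subtype_comp_codRestrict]
  refine ba0_ext fun α β => ?_
  have h1 := du_ract (WithConv.toConv (β.ofConv.comp q)) (WithConv.toConv (α.ofConv.comp p)) x
  have h2 := du_ract β (WithConv.toConv (α.ofConv.comp p)) x
  have h3 := du_lact (WithConv.toConv (α.ofConv.comp p)) β x
  have h4 := du_lact α β x
  simp only [du_mul, LinearMap.comp_apply] at h1 h2 h3 h4
  rw [pair_map, ← h1, ← h4, q2 _ (hQ _), h2, ← h3, p2 _ (hP _)]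

end Pool.Agent.Lib.MP_ff61db_al.Cg
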