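import Pool.Agent.Lib.MP_ff61db_al.Cg.BA0

/-! The two gradings are gradings. -/

namespace Pool.Agent.Lib.MP_ff61db_al.Cg

open Submodule TensorProduct

variable {k H : Type} [Field k] [Ring H] [HopfAlgebra k H] {Γ : Type} [Group Γ]

variable {δ : Γ → Du k H}

omit [Group Γ] in
theorem ba1_ind {V : Γ → Submodule k H} {P : Γ → H →ₗ[k] H} (h1 : ∀ g, ∀ x ∈ V g, P g x = x)
    (h2 : ∀ g h, g ≠ h → ∀ x ∈ V h, P g x = 0) : iSupIndep V := by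
  rw [iSupIndep_def]
  intro g
  rw [Submodule.disjoint_def]
  intro x hx hx'
  have h3 : (⨆ j, ⨆ (_ : j ≠ g), V j) ≤ LinearMap.ker (P g) :=
    iSup_le fun j => iSup_le fun hj y hy => LinearMap.mem_ker.2 (h2 g j hj.symm y hy)
  rw [← h1 g x hx]
  exact LinearMap.mem_ker.1 (h3 hx')

omit [Group Γ] in
theorem ba1_top {V : Γ → Submodule k H} {P : Γ → H →ₗ[k] H} (h1 : ∀ g x, P g x ∈ V g)
    (h2 : ∀ x : H, ∃ s : Finset Γ, (∀ g ∉ s, P g x = 0) ∧ ∑ g ∈ s, P g x = x) :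
    ⨆ g, V g = ⊤ := by
  rw [eq_top_iff]
  intro x _
  obtain ⟨s, -, hs⟩ := h2 x
  rw [← hs]
  exact Submodule.sum_mem _ fun g _ => Submodule.mem_iSup_of_mem g (h1 g x)

omit [Group Γ] in
theorem ba1_comm {V : Γ → Submodule k H} {P : Γ → H →ₗ[k] H} (h0 : ∀ g x, P g x ∈ V g)
    (h1 : ∀ g, ∀ x ∈ V g, P g x = x) (h2 : ∀ g h, g ≠ h → ∀ x ∈ V h, P g x = 0)
    (h3 : ∀ x : H, ∃ s : Finset Γ, (∀ g ∉ s, P g x = 0) ∧ ∑ g ∈ s, P g x = x)
    (T : H →ₗ[k] H) (hT : ∀ g, ∀ x ∈ V g, T x ∈ V g) (η : Γ) (x : H) :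
    P η (T x) = T (P η x) := by
  have key : ∀ g, ∀ y ∈ V g, P η (T y) = T (P η y) := by
    intro g y hy
    by_cases e : η = g
    · subst e
      rw [h1 _ _ (hT _ _ hy), h1 _ _ hy]
    · rw [h2 _ _ e _ (hT _ _ hy), h2 _ _ e _ hy, map_zero]
  obtain ⟨s, -, hs⟩ := h3 x
  rw [← hs]
  simp only [map_sum]
  exact Finset.sum_congr rfl fun g _ => key g _ (h0 g x)

theorem Bi.indR (h : Bi δ) : iSupIndep (Rt δ) := by
  exact ba1_ind (P := fun g => lact (δ g)) (fun _ _ hx => mem_Rt.1 hx) h.pO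

theorem Bi.indL (h : Bi δ) : iSupIndep (Lt δ) := by
  exact ba1_ind (P := fun g => ract (δ g)) (fun _ _ hx => mem_Lt.1 hx) h.qO

theorem Bi.topR (h : Bi δ) : ⨆ g, Rt δ g = ⊤ := by
  exact ba1_top (P := fun g => lact (δ g)) h.pR h.pS

theorem Bi.topL (h : Bi δ) : ⨆ g, Lt δ g = ⊤ := by
  exact ba1_top (P := fun g => ract (δ g)) h.qL h.qS

theorem Bi.cl_one (h : Bi δ) : Cl (Rt δ 1) := by
  refine ⟨fun φ x hx => ?_, fun φ x hx => Rt_ract φ hx⟩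
  rw [h.eq] at hx ⊢
  exact Lt_lact φ hx

theorem Bi.anti_one (h : Bi δ) : Sm (Rt δ 1) ≤ Rt δ 1 := by
  have h1 := h.antiR 1
  rwa [inv_one, ← h.eq] at h1

theorem Bi.ract_mul_right (h : Bi δ) (η : Γ) (x : H) {a : H} (ha : a ∈ Rt δ 1) :
    ract (δ η) (x * a) = ract (δ η) x * a := by
  rw [h.eq] at ha
  refine ba1_comm (V := Lt δ) (P := fun g => ract (δ g)) h.qL (fun _ _ hx => mem_Lt.1 hx) h.qO h.qS
    (LinearMap.mulRight k a) (fun g y hy => ?_) η x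
  have h1 := h.mulL g 1 (Submodule.mul_mem_mul hy ha)
  rwa [mul_one] at h1

theorem Bi.ract_mul_left (h : Bi δ) (η : Γ) (x : H) {a : H} (ha : a ∈ Rt δ 1) :
    ract (δ η) (a * x) = a * ract (δ η) x := by
  rw [h.eq] at ha
  refine ba1_comm (V := Lt δ) (P := fun g => ract (δ g)) h.qL (fun _ _ hx => mem_Lt.1 hx) h.qO h.qS
    (LinearMap.mulLeft k a) (fun g y hy => ?_) η x
  have h1 := h.mulL 1 g (Submodule.mul_mem_mul ha hy)
  rwa [one_mul] at h1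

theorem Bi.lact_mul_right (h : Bi δ) (η : Γ) (x : H) {a : H} (ha : a ∈ Rt δ 1) :
    lact (δ η) (x * a) = lact (δ η) x * a := by
  refine ba1_comm (V := Rt δ) (P := fun g => lact (δ g)) h.pR (fun _ _ hx => mem_Rt.1 hx) h.pO h.pS
    (LinearMap.mulRight k a) (fun g y hy => ?_) η x
  have h1 := h.mulR g 1 (Submodule.mul_mem_mul hy ha)
  rwa [mul_one] at h1

theorem Bi.lact_mul_left (h : Bi δ) (η : Γ) (x : H) {a : H} (ha : a ∈ Rt δ 1) :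
    lact (δ η) (a * x) = a * lact (δ η) x := by
  refine ba1_comm (V := Rt δ) (P := fun g => lact (δ g)) h.pR (fun _ _ hx => mem_Rt.1 hx) h.pO h.pS
    (LinearMap.mulLeft k a) (fun g y hy => ?_) η x
  have h1 := h.mulR 1 g (Submodule.mul_mem_mul ha hy)
  rwa [one_mul] at h1

theorem Bi.eq_zero_L (h : Bi δ) {η θ : Γ} (hne : η ≠ θ) {x : H} (h1 : x ∈ Lt δ η)
    (h2 : x ∈ Lt δ θ) : x = 0 := by
  rw [← mem_Lt.1 h1]
  exact h.qO η θ hne x h2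

theorem Bi.eq_zero_R (h : Bi δ) {η θ : Γ} (hne : η ≠ θ) {x : H} (h1 : x ∈ Rt δ η)
    (h2 : x ∈ Rt δ θ) : x = 0 := by
  rw [← mem_Rt.1 h1]
  exact h.pO η θ hne x h2

end Pool.Agent.Lib.MP_ff61db_al.Cg
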