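import Pool.Agent.Lib.MP_ff61db_al.Cg.BE2

/-! Products of diagonal idempotents. -/

namespace Pool.Agent.Lib.MP_ff61db_al.Cg

open Submodule TensorProduct

variable {k H : Type} [Field k] [Ring H] [HopfAlgebra k H] {Γ : Type} [Group Γ]

variable {δ : Γ → Du k H} {e : Γ → Γ → H}

theorem dg_nil : dg e [] = 1 := rfl

theorem dg_cons (γ : Γ) (l : List Γ) : dg e (γ :: l) = e γ γ * dg e l := rfl

theorem bc_AR (h : Bi δ) {a x : H} {c : Γ} (ha : a ∈ Rt δ 1) (hx : x ∈ Rt δ c) :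
    a * x ∈ Rt δ c := one_mul c ▸ h.mulR 1 c (mul_mem_mul ha hx)

theorem Mg.dg_mem (m : Mg δ e) (h : Bi δ) (l : List Γ) : dg e l ∈ Rt δ 1 := by
  induction l with
  | nil => exact h.one
  | cons γ l ih => exact bc_AR h (m.mem γ γ) ih

theorem Mg.dg_comm (m : Mg δ e) (l : List Γ) {a : H} (ha : a ∈ Rt δ 1) :
    dg e l * a = a * dg e l := by
  induction l with
  | nil => rw [dg_nil, one_mul, mul_one]
  | cons γ l ih => rw [dg_cons, mul_assoc, ih, ← mul_assoc, m.comm γ γ a ha, mul_assoc]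

theorem Mg.dg_idem (m : Mg δ e) (h : Bi δ) (l : List Γ) : dg e l * dg e l = dg e l := by
  induction l with
  | nil => rw [dg_nil, one_mul]
  | cons γ l ih =>
    rw [dg_cons, mul_assoc, ← mul_assoc (dg e l), m.dg_comm l (m.mem γ γ), mul_assoc, ih,
      ← mul_assoc, m.idem]

theorem bc_dia (m : Mg δ e) (h : Bi δ) {g x : H} {c : Γ} (hg : g ∈ Rt δ 1) (hc : g * e c c = g)
    (hx : x ∈ Rt δ c) : g * x ∈ Lt δ c := by
  rw [← hc, mul_assoc, ← m.q c c x hx]
  have h1 := h.mulL 1 c (mul_mem_mul (h.eq ▸ hg) (h.qL c x))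
  rwa [one_mul] at h1

theorem bc_right (h : Bi δ) (c : Γ) {y : H} (hy : ∀ z ∈ Rt δ c, y * z = 0) : y = 0 := by
  rw [← mul_one y]
  refine Submodule.mul_induction_on (C := fun w => y * w = 0) (h.sgR.strong c)
    (fun a ha b _ => ?_) fun a b ha hb => ?_
  · rw [← mul_assoc, hy a ha, zero_mul]
  · rw [mul_add, ha, hb, add_zero]

theorem bc_left (h : Bi δ) (c : Γ) {y : H} (hy : ∀ z ∈ Rt δ c, z * y = 0) : y = 0 := by
  rw [← one_mul y]
  refine Submodule.mul_induction_on (C := fun w => w * y = 0) (h.sgR.strong c⁻¹)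
    (fun a _ b hb => ?_) fun a b ha hb => ?_
  · rw [mul_assoc, hy b (inv_inv c ▸ hb), mul_zero]
  · rw [add_mul, ha, hb, add_zero]

theorem bc_split (h : Bi δ) (s c : Γ) {x : H} (hx : x ∈ Rt δ (s * c)) :
    x ∈ Rt δ s * Rt δ c := by
  rw [← one_mul x]
  refine Submodule.mul_induction_on (C := fun w => w * x ∈ Rt δ s * Rt δ c) (h.sgR.strong s)
    (fun a ha b hb => ?_) fun a b ha hb => ?_
  · have h1 := h.mulR _ _ (mul_mem_mul hb hx)
    rw [inv_mul_cancel_left] at h1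
    rw [mul_assoc]
    exact mul_mem_mul ha h1
  · rw [add_mul]
    exact add_mem ha hb

theorem bc_eps (m : Mg δ e) (h : Bi δ) (l : List Γ) : Coalgebra.counit (R := k) (dg e l) = 1 := by
  induction l with
  | nil => exact Bialgebra.counit_one
  | cons γ l ih => rw [dg_cons, Bialgebra.counit_mul, ih, m.counit_diag h, one_mul]

theorem bc_anti (m : Mg δ e) (h : Bi δ) (l : List Γ) :
    HopfAlgebra.antipode k (dg e l) = dg e l := by
  induction l with
  | nil => exact HopfAlgebra.antipode_one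
  | cons γ l ih =>
    rw [dg_cons, HopfAlgebra.antipode_mul_antidistrib, ih, m.anti h, m.dg_comm l (m.mem γ γ)]

theorem bc_com (m : Mg δ e) (h : Bi δ) (l : List Γ) {a b : H} (ha : a ∈ Rt δ 1)
    (hb : b ∈ Rt δ 1) : (a ⊗ₜ[k] b) * Coalgebra.comul (R := k) (dg e l) =
      Coalgebra.comul (R := k) (dg e l) * (a ⊗ₜ[k] b) := by
  induction l with
  | nil => rw [dg_nil, Bialgebra.comul_one, one_mul, mul_one]
  | cons γ l ih =>
    rw [dg_cons, Bialgebra.comul_mul, ← mul_assoc, m.cop_comm h γ γ ha hb, mul_assoc, ih,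
      mul_assoc]

theorem bc_cop (m : Mg δ e) (h : Bi δ) (l : List Γ) :
    (dg e l ⊗ₜ[k] (1 : H)) * Coalgebra.comul (R := k) (dg e l) = dg e l ⊗ₜ[k] dg e l := by
  induction l with
  | nil => rw [dg_nil, Bialgebra.comul_one, mul_one]
  | cons γ l ih =>
    have e1 : (e γ γ * dg e l) ⊗ₜ[k] (1 : H) = (e γ γ ⊗ₜ[k] (1 : H)) * (dg e l ⊗ₜ[k] (1 : H)) := by
      rw [Algebra.TensorProduct.tmul_mul_tmul, one_mul]
    rw [dg_cons, Bialgebra.comul_mul, e1, mul_assoc, ← mul_assoc (dg e l ⊗ₜ[k] (1 : H)),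
      m.cop_comm h γ γ (m.dg_mem h l) h.one, mul_assoc, ih, ← mul_assoc, m.cop' h,
      Algebra.TensorProduct.tmul_mul_tmul]

/-- If the product fixes all degrees of length at most `n + 1`, it is the required idempotent. -/
theorem Mg.pj (m : Mg δ e) (h : Bi δ) {F : Set Γ} (hF : ∀ γ, ∃ n, Len F n γ) {l : List Γ} {n : ℕ}
    (hl : ∀ γ ∈ l, Len F n γ) (hs : ∀ γ, Len F (n + 1) γ → dg e l * e γ γ = dg e l) :
    Pj δ (dg e l) := by
  have hg := m.dg_mem h l
  have hi := m.dg_idem h l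
  have d1 : ∀ s ∈ F, ∀ x ∈ Rt δ s, dg e l * x ∈ Lt δ s := fun s hsF x hx =>
    bc_dia m h hg (hs s ⟨[s], by simp, by simpa using hsF, by simp⟩) hx
  have s1 : ∀ s ∈ F, ∀ x ∈ Rt δ s, ∀ c ∈ l, dg e l * x * e c c = dg e l * x := by
    intro s hsF x hx c hc
    obtain ⟨w, hw1, hw2, hw3⟩ := hl c hc
    have hsc := hs (s * c) ⟨s :: w, by simpa using hw1, by simpa [hsF] using hw2, by simp [hw3]⟩
    have h0 : ∀ t, t ≠ c → dg e l * x * e t c = 0 := fun t ht =>
      bc_right h c fun z hz => by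
        refine h.eq_zero_L (η := s * t) (θ := s * c) (fun he => ht (mul_left_cancel he)) ?_ ?_
        · rw [mul_assoc, ← m.q t c z hz]
          exact h.mulL s t (mul_mem_mul (d1 s hsF x hx) (h.qL t z))
        · rw [mul_assoc, mul_assoc]
          exact bc_dia m h hg hsc (h.mulR s c (mul_mem_mul hx (bc_AR h (m.mem t c) hz)))
    obtain ⟨S, hS, hS1⟩ := m.sumcol c
    conv_rhs => rw [← mul_one (dg e l * x), ← hS1, Finset.mul_sum]
    exact (Finset.sum_eq_single c (fun t _ ht => h0 t ht) fun hc' => by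
      rw [hS c hc', mul_zero]).symm
  have s2 : ∀ s ∈ F, ∀ x ∈ Rt δ s, dg e l * x * dg e l = dg e l * x := by
    intro s hsF x hx
    have : ∀ l' : List Γ, (∀ c ∈ l', c ∈ l) → dg e l * x * dg e l' = dg e l * x := by
      intro l'
      induction l' with
      | nil => exact fun _ => mul_one _
      | cons c l' ih =>
        intro hc
        rw [dg_cons, ← mul_assoc, s1 s hsF x hx c (hc c (List.mem_cons_self ..)),
          ih fun d hd => hc d (List.mem_cons_of_mem _ hd)]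
    exact this l fun _ hc => hc
  have s3 : ∀ w : List Γ, (∀ s ∈ w, s ∈ F) → ∀ x ∈ Rt δ w.prod,
      dg e l * x * dg e l = dg e l * x ∧ dg e l * x ∈ Lt δ w.prod := by
    intro w
    induction w with
    | nil =>
      intro _ x hx
      rw [List.prod_nil] at hx ⊢
      exact ⟨by rw [mul_assoc, ← m.dg_comm l hx, ← mul_assoc, hi], h.eq ▸ bc_AR h hg hx⟩
    | cons s w ih =>
      intro hw x hx
      have hsF := hw s (List.mem_cons_self ..)
      rw [List.prod_cons] at hx ⊢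
      refine Submodule.mul_induction_on (bc_split h s w.prod hx) (fun a ha b hb => ?_)
        fun a b ha hb => ?_
      · obtain ⟨h1, h2⟩ := ih (fun d hd => hw d (List.mem_cons_of_mem _ hd)) b hb
        have e1 : dg e l * (a * b) = dg e l * a * (dg e l * b) := by
          rw [← mul_assoc (dg e l * a), s2 s hsF a ha, mul_assoc]
        rw [e1]
        exact ⟨by rw [mul_assoc (dg e l * a), h1], h.mulL _ _ (mul_mem_mul (d1 s hsF a ha) h2)⟩
      · rw [mul_add, add_mul, ha.1, hb.1]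
        exact ⟨rfl, add_mem ha.2 hb.2⟩
  have s4 : ∀ γ, ∀ x ∈ Rt δ γ, dg e l * x * dg e l = dg e l * x ∧ dg e l * x ∈ Lt δ γ := by
    intro γ
    obtain ⟨_, w, -, hw, rfl⟩ := hF γ
    exact s3 w hw
  have s5 : ∀ γ, ∀ x ∈ Rt δ γ, dg e l * x = x * dg e l := by
    intro γ x hx
    have h0 : (x - dg e l * x) * dg e l = 0 := bc_left h γ⁻¹ fun y hy => by
      have h1 : y * (x - dg e l * x) ∈ Rt δ 1 := by
        rw [← inv_mul_cancel γ]
        exact h.mulR _ _ (mul_mem_mul hy (sub_mem hx (bc_AR h hg hx)))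
      rw [← mul_assoc, ← m.dg_comm l h1, ← mul_assoc, mul_sub, ← mul_assoc, (s4 _ y hy).1,
        sub_self]
    rw [sub_mul, (s4 γ x hx).1, sub_eq_zero] at h0
    exact h0.symm
  refine ⟨hg, fun x => ?_, hi, bc_eps m h l, bc_anti m h l, bc_cop m h l,
    fun a ha => bc_com m h l h.one ha, fun γ x hx => (s4 γ x hx).2⟩
  have hx : x ∈ ⨆ γ, Rt δ γ := h.topR ▸ mem_top
  refine Submodule.iSup_induction (Rt δ) (motive := fun x => dg e l * x = x * dg e l) hx s5
    (by rw [mul_zero, zero_mul]) fun a b ha hb => ?_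
  rw [mul_add, add_mul, ha, hb]

end Pool.Agent.Lib.MP_ff61db_al.Cg
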