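import Pool.Agent.Lib.MP_ff61db_al.Cg.Defs

/-! Closure properties of subcoalgebras. -/

namespace Pool.Agent.Lib.MP_ff61db_al.Cg

open Submodule TensorProduct

variable {k H : Type} [Field k] [Ring H] [HopfAlgebra k H]

theorem cl_bot : Cl (⊥ : Submodule k H) :=
  ⟨fun φ x hx => by rw [(mem_bot k).1 hx, map_zero]; exact zero_mem _,
    fun φ x hx => by rw [(mem_bot k).1 hx, map_zero]; exact zero_mem _⟩

theorem hb_tmul {X : Submodule k H} {a b : H} (ha : a ∈ X) (hb : b ∈ X) :
    a ⊗ₜ[k] b ∈ LinearMap.range (TensorProduct.map X.subtype X.subtype) :=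
  ⟨(⟨a, ha⟩ : X) ⊗ₜ[k] (⟨b, hb⟩ : X), by simp⟩

theorem cl_one : Cl (1 : Submodule k H) := by
  refine IsSubcoalgebra.cl fun x hx => ?_
  rw [one_eq_span, mem_span_singleton] at hx
  obtain ⟨c, rfl⟩ := hx
  rw [map_smul, Bialgebra.comul_one, Algebra.TensorProduct.one_def]
  exact smul_mem _ _ (hb_tmul (one_le.1 le_rfl) (one_le.1 le_rfl))

theorem hb_mul {X Y : Submodule k H} (s : X ⊗[k] X) (t : Y ⊗[k] Y) :
    TensorProduct.map X.subtype X.subtype s * TensorProduct.map Y.subtype Y.subtype t ∈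
      LinearMap.range (TensorProduct.map (X * Y).subtype (X * Y).subtype) := by
  induction s with
  | zero => rw [map_zero, zero_mul]; exact zero_mem _
  | add s s' hs hs' => rw [map_add, add_mul]; exact add_mem hs hs'
  | tmul a b =>
    induction t with
    | zero => rw [map_zero, mul_zero]; exact zero_mem _
    | add t t' ht ht' => rw [map_add, mul_add]; exact add_mem ht ht'
    | tmul c d =>
      rw [map_tmul, map_tmul, Algebra.TensorProduct.tmul_mul_tmul]
      exact hb_tmul (mul_mem_mul a.2 c.2) (mul_mem_mul b.2 d.2)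

theorem cl_mul {X Y : Submodule k H} (hX : Cl X) (hY : Cl Y) : Cl (X * Y) := by
  refine IsSubcoalgebra.cl fun z hz => ?_
  refine Submodule.mul_induction_on hz (fun x hx y hy => ?_) fun x y hx hy => ?_
  · obtain ⟨s, hs⟩ := hX.isSub x hx
    obtain ⟨t, ht⟩ := hY.isSub y hy
    rw [Bialgebra.comul_mul, ← hs, ← ht]
    exact hb_mul s t
  · rw [map_add]
    exact add_mem hx hy

theorem cl_pow {X : Submodule k H} (hX : Cl X) (n : ℕ) : Cl (X ^ n) := by
  induction n with
  | zero => rw [pow_zero]; exact cl_one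
  | succ n ih => rw [pow_succ]; exact cl_mul ih hX

theorem cl_sup {X Y : Submodule k H} (hX : Cl X) (hY : Cl Y) : Cl (X ⊔ Y) := by
  rw [← sSup_pair]
  refine Cl.sSup fun C hC => ?_
  rcases hC with rfl | rfl
  · exact hX
  · exact hY

theorem cl_iSup {ι : Sort _} {X : ι → Submodule k H} (hX : ∀ i, Cl (X i)) : Cl (⨆ i, X i) :=
  Cl.sSup (S := Set.range X) fun _ ⟨i, hi⟩ => hi ▸ hX i

theorem hb_gen (X : Submodule k H) : gen X = ⨆ n : ℕ, X ^ n := by
  refine le_antisymm (gen_le_left ?_ ?_) (iSup_le fun n => ?_)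
  · exact mem_iSup_of_mem 0 (by rw [pow_zero]; exact one_le.1 le_rfl)
  · rw [Submodule.mul_iSup]
    exact iSup_le fun n => le_iSup_of_le (n + 1) (by rw [pow_succ'])
  · induction n with
    | zero => rw [pow_zero]; exact one_le.2 (one_mem_gen X)
    | succ n ih => rw [pow_succ]; exact (mul_le_mul' ih (le_gen X)).trans (gen_mul_gen X)

theorem cl_gen {X : Submodule k H} (hX : Cl X) : Cl (gen X) := by
  rw [hb_gen]
  exact cl_iSup fun n => cl_pow hX n

theorem exists_counit {X : Submodule k H} (hX : Cl X) (h : X ≠ ⊥) :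
    ∃ x ∈ X, Coalgebra.counit (R := k) x = 1 := by
  obtain ⟨x, hx, hx0⟩ := Submodule.exists_mem_ne_zero_of_ne_bot h
  obtain ⟨f, hf⟩ := Module.Projective.exists_dual_eq_one k hx0
  refine ⟨ract (WithConv.toConv f) x, hX.r _ x hx, ?_⟩
  rw [← du_one, du_ract, mul_one]
  exact hf

theorem one_mem_mul_Sm {X : Submodule k H} (hX : Cl X) (h : X ≠ ⊥) : (1 : H) ∈ X * Sm X := by
  obtain ⟨x, hx, h1⟩ := exists_counit hX h
  obtain ⟨t, ht⟩ := hX.isSub x hx
  have e := HopfAlgebra.mul_antipode_lTensor_comul_apply (R := k) x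
  rw [h1, map_one, ← ht] at e
  rw [← e]
  clear e ht
  induction t with
  | zero => simp only [map_zero]; exact zero_mem _
  | add s t hs ht => simp only [map_add]; exact add_mem hs ht
  | tmul a b =>
    rw [map_tmul, LinearMap.lTensor_tmul, LinearMap.mul'_apply]
    exact mul_mem_mul a.2 (mem_map_of_mem b.2)

theorem one_mem_Sm_mul {X : Submodule k H} (hX : Cl X) (h : X ≠ ⊥) : (1 : H) ∈ Sm X * X := by
  obtain ⟨x, hx, h1⟩ := exists_counit hX h
  obtain ⟨t, ht⟩ := hX.isSub x hx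
  have e := HopfAlgebra.mul_antipode_rTensor_comul_apply (R := k) x
  rw [h1, map_one, ← ht] at e
  rw [← e]
  clear e ht
  induction t with
  | zero => simp only [map_zero]; exact zero_mem _
  | add s t hs ht => simp only [map_add]; exact add_mem hs ht
  | tmul a b =>
    rw [map_tmul, LinearMap.rTensor_tmul, LinearMap.mul'_apply]
    exact mul_mem_mul (mem_map_of_mem a.2) b.2

/-- A nonzero subcoalgebra contains a nonzero finite-dimensional one. -/
theorem exists_fd_ne {X : Submodule k H} (hX : Cl X) (h : X ≠ ⊥) :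
    ∃ Y ≤ X, Y.FG ∧ Cl Y ∧ Y ≠ ⊥ := by
  obtain ⟨x, hx, hx0⟩ := Submodule.exists_mem_ne_zero_of_ne_bot h
  obtain ⟨C, h1, h2, h3, h4⟩ := exists_fd (span k {x}) (fg_span_singleton x)
  refine ⟨C, h4 X hX ((span_singleton_le_iff_mem x X).2 hx), h1, h2, fun e => hx0 ?_⟩
  exact (mem_bot k).1 (e ▸ h3 (mem_span_singleton_self x))

theorem Gr.sg {Γ : Type} [Group Γ] {B : Γ → Submodule k H} (h : Gr B) : SG B :=
  ⟨h.one, h.mul, fun g => mul_le_mul' le_rfl (h.anti g) (one_mem_mul_Sm (h.cl g) (h.ne g))⟩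

end Pool.Agent.Lib.MP_ff61db_al.Cg
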