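import Pool.Agent.Lib.MP_ff61db_al.Cg.Defs

/-! Finite-dimensional pieces of graded families. -/

namespace Pool.Agent.Lib.MP_ff61db_al.Cg

open Submodule TensorProduct

variable {k H : Type} [Field k] [Ring H] [Algebra k H] {Γ : Type} [Group Γ]

theorem exists_homog {ι : Type} (P : ι → Submodule k H) {V : Submodule k H} (hV : V.FG)
    (h : V ≤ ⨆ i, P i) : ∃ (F : Finset ι) (W : ι → Submodule k H),
      (∀ i, (W i).FG ∧ W i ≤ P i) ∧ V ≤ ⨆ i ∈ F, W i := by
  classical
  let Q : Submodule k H → Prop := fun U => ∃ (F : Finset ι) (W : ι → Submodule k H),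
    (∀ i, (W i).FG ∧ W i ≤ P i) ∧ U ≤ ⨆ i ∈ F, W i
  have hbot : Q ⊥ := ⟨∅, fun _ => ⊥, fun _ => ⟨fg_bot, bot_le⟩, bot_le⟩
  have hsup : ∀ U U', Q U → Q U' → Q (U ⊔ U') := by
    rintro U U' ⟨F, W, hW, hU⟩ ⟨F', W', hW', hU'⟩
    refine ⟨F ∪ F', fun i => W i ⊔ W' i, fun i =>
      ⟨(hW i).1.sup (hW' i).1, sup_le (hW i).2 (hW' i).2⟩, sup_le ?_ ?_⟩
    · exact hU.trans (iSup₂_le fun i hi =>
        le_iSup₂_of_le (f := fun i (_ : i ∈ F ∪ F') => W i ⊔ W' i) i
          (Finset.mem_union_left _ hi) le_sup_left)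
    · exact hU'.trans (iSup₂_le fun i hi =>
        le_iSup₂_of_le (f := fun i (_ : i ∈ F ∪ F') => W i ⊔ W' i) i
          (Finset.mem_union_right _ hi) le_sup_right)
  have hx : ∀ x ∈ ⨆ i, P i, Q (span k {x}) := by
    intro x hx
    induction hx using Submodule.iSup_induction' with
    | mem i x hx =>
      refine ⟨{i}, fun j => if j = i then span k {x} else ⊥, fun j => ?_, by simp⟩
      beta_reduce
      split_ifs with hj
      · exact ⟨fg_span_singleton x, hj ▸ (span_singleton_le_iff_mem _ _).2 hx⟩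
      · exact ⟨fg_bot, bot_le⟩
    | zero => rwa [span_zero_singleton]
    | add x y _ _ hx hy =>
      obtain ⟨F, W, hW, hU⟩ := hsup _ _ hx hy
      exact ⟨F, W, hW, ((span_singleton_le_iff_mem _ _).2 (add_mem
        (mem_sup_left (mem_span_singleton_self x))
        (mem_sup_right (mem_span_singleton_self y)))).trans hU⟩
  obtain ⟨s, rfl⟩ := hV
  change Q _
  induction s using Finset.induction_on with
  | empty => rwa [Finset.coe_empty, span_empty]
  | insert a s _ ih =>
    rw [Finset.coe_insert, span_insert] at h ⊢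
    exact hsup _ _ (hx a (h (mem_sup_left (mem_span_singleton_self a))))
      (ih (le_sup_right.trans h))

theorem hc_mul {X X' Y Y' : Submodule k H} (hX : X ≤ X') (hY : Y ≤ Y') {x : H} (h : x ∈ X * Y) :
    x ∈ X' * Y' := (mul_le_mul' hX hY : X * Y ≤ X' * Y') h

theorem exists_fg_mul {P Q : Submodule k H} {x : H} (h : x ∈ P * Q) :
    ∃ X ≤ P, ∃ Y ≤ Q, X.FG ∧ Y.FG ∧ x ∈ X * Y := by
  refine Submodule.mul_induction_on h (fun m hm n hn => ?_) ?_
  · exact ⟨span k {m}, (span_singleton_le_iff_mem _ _).2 hm, span k {n},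
      (span_singleton_le_iff_mem _ _).2 hn, fg_span_singleton m, fg_span_singleton n,
      mul_mem_mul (mem_span_singleton_self m) (mem_span_singleton_self n)⟩
  · rintro x y ⟨X, hX, Y, hY, h1, h2, h3⟩ ⟨X', hX', Y', hY', h1', h2', h3'⟩
    exact ⟨X ⊔ X', sup_le hX hX', Y ⊔ Y', sup_le hY hY', h1.sup h1', h2.sup h2',
      add_mem (hc_mul le_sup_left le_sup_left h3) (hc_mul le_sup_right le_sup_right h3')⟩

theorem SG.exists_fg {B : Γ → Submodule k H} (h : SG B) (g : Γ) :
    ∃ X ≤ B g, ∃ X' ≤ B g⁻¹, X.FG ∧ X'.FG ∧ (1 : H) ∈ X * X' ∧ (1 : H) ∈ X' * X := by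
  obtain ⟨X, hX, Y, hY, h1, h2, h3⟩ := exists_fg_mul (h.strong g)
  have h4 := h.strong g⁻¹
  rw [inv_inv] at h4
  obtain ⟨Y', hY', X', hX', h2', h1', h3'⟩ := exists_fg_mul h4
  exact ⟨X ⊔ X', sup_le hX hX', Y ⊔ Y', sup_le hY hY', h1.sup h1', h2.sup h2',
    hc_mul le_sup_left le_sup_left h3, hc_mul le_sup_right le_sup_right h3'⟩

theorem exists_le_of_mono {B : ℕ → Submodule k H} (hB : Monotone B) {V : Submodule k H}
    (hV : V.FG) (h : V ≤ ⨆ n, B n) : ∃ n, V ≤ B n := by
  classical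
  obtain ⟨s, rfl⟩ := hV
  induction s using Finset.induction_on with
  | empty => exact ⟨0, by simp⟩
  | insert a s _ ih =>
    rw [Finset.coe_insert, span_insert] at h ⊢
    obtain ⟨n, hn⟩ := ih (le_sup_right.trans h)
    obtain ⟨m, hm⟩ := (mem_iSup_of_directed B hB.directed_le).1
      (h (mem_sup_left (mem_span_singleton_self a)))
    exact ⟨max m n, sup_le ((span_singleton_le_iff_mem _ _).2 (hB (le_max_left _ _) hm))
      (hn.trans (hB (le_max_right _ _)))⟩

/-- Doubling. -/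
theorem doubling {E C M : Submodule k H} (hE : E.FG) (hC : C.FG) (h1 : (1 : H) ∈ C) (hM : E ≤ M)
    (h : ∀ x ∈ E, (∀ c ∈ C, x * c ∈ M) → x = 0) :
    (Module.finrank k C + 1) * Module.finrank k E ≤
      Module.finrank k C * Module.finrank k (E * C : Submodule k H) := by
  have : Module.Finite k E := Module.Finite.iff_fg.2 hE
  have : Module.Finite k C := Module.Finite.iff_fg.2 hC
  have : Module.Finite k (E * C : Submodule k H) := Module.Finite.iff_fg.2 (hE.mul hC)
  let K : Submodule k (E * C : Submodule k H) := M.comap (E * C).subtype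
  let μ : E →ₗ[k] C →ₗ[k] (E * C : Submodule k H) :=
    LinearMap.mk₂ k (fun e c => ⟨e * c, mul_mem_mul e.2 c.2⟩)
      (fun _ _ _ => Subtype.ext (add_mul _ _ _)) (fun _ _ _ => Subtype.ext (smul_mul_assoc _ _ _))
      (fun _ _ _ => Subtype.ext (mul_add _ _ _)) (fun _ _ _ => Subtype.ext (mul_smul_comm _ _ _))
  have h2 : Function.Injective (μ.compr₂ K.mkQ) := by
    rw [injective_iff_map_eq_zero]
    intro e he
    refine Subtype.ext (h e e.2 fun c hc => ?_)
    have h3 : K.mkQ (μ e ⟨c, hc⟩) = 0 := LinearMap.congr_fun he ⟨c, hc⟩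
    exact (Submodule.Quotient.mk_eq_zero K).1 h3
  have h3 := LinearMap.finrank_le_finrank_of_injective h2
  rw [Module.finrank_linearMap] at h3
  have h4 := K.finrank_quotient_add_finrank
  let ν : E →ₗ[k] K :=
    { toFun := fun e => ⟨⟨e, le_mul_one h1 e.2⟩, hM e.2⟩
      map_add' := fun _ _ => rfl
      map_smul' := fun _ _ => rfl }
  have h5 : Function.Injective ν := fun a b hab =>
    Subtype.ext (congrArg (fun z : K => ((z : (E * C : Submodule k H)) : H)) hab)
  have h6 := Nat.mul_le_mul_left (Module.finrank k C)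
    (LinearMap.finrank_le_finrank_of_injective h5)
  rw [← h4, mul_add, add_mul, one_mul, add_comm]
  exact add_le_add h3 h6

theorem hc_pow {V : Submodule k H} (hV : Growth V) (hgen : Algebra.adjoin k (V : Set H) = ⊤)
    (a : H) : ∃ n, a ∈ V ^ n := by
  have ha : a ∈ Algebra.adjoin k (V : Set H) := hgen ▸ Algebra.mem_top
  induction ha using Algebra.adjoin_induction with
  | mem x hx => exact ⟨1, by rwa [pow_one]⟩
  | algebraMap r => exact ⟨0, by rw [pow_zero]; exact algebraMap_mem r⟩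
  | add x y _ _ hx hy =>
    obtain ⟨a, ha⟩ := hx
    obtain ⟨b, hb⟩ := hy
    exact ⟨a + b, add_mem (hV.mono (by omega) ha) (hV.mono (by omega) hb)⟩
  | mul x y _ _ hx hy =>
    obtain ⟨a, ha⟩ := hx
    obtain ⟨b, hb⟩ := hy
    exact ⟨a + b, mul_mem_pow ha hb⟩

theorem pg_of_gk {V : Submodule k H} (hV : Growth V) (hgen : Algebra.adjoin k (V : Set H) = ⊤) :
    PG k H := by
  obtain ⟨C, d, hC⟩ := hV.poly
  refine ⟨d, fun W hW => ?_⟩
  obtain ⟨m, hm⟩ := exists_le_of_mono (B := fun n => V ^ n) (fun _ _ => hV.mono) hW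
    fun a _ => by
      obtain ⟨n, hn⟩ := hc_pow hV hgen a
      exact mem_iSup_of_mem n hn
  refine ⟨C * (m + 1) ^ d, fun n => ?_⟩
  have : Module.Finite k (V ^ (m * n) : Submodule k H) := Module.Finite.iff_fg.2 (hV.fg.pow _)
  have h1 : W ^ n ≤ V ^ (m * n) := by
    rw [pow_mul]
    exact pow_le_pow_left' hm n
  refine (Submodule.finrank_mono h1).trans ((hC _).trans ?_)
  rw [mul_assoc, ← mul_pow]
  exact Nat.mul_le_mul_left _ (Nat.pow_le_pow_left (by nlinarith) _)

end Pool.Agent.Lib.MP_ff61db_al.Cg
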