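import Pool.Agent.Lib.MP_ff61db_al.Cg.HA
import Pool.Agent.Lib.MP_ff61db_al.Cg.HB
import Pool.Agent.Lib.MP_ff61db_al.Cg.HC

/-! Bialgebra maps to a group algebra: definitions. -/

namespace Pool.Agent.Lib.MP_ff61db_al.Cg

open Submodule TensorProduct

variable {k H : Type} [Field k] [Ring H] [HopfAlgebra k H] {Γ : Type} [Group Γ]

/-- The elements of right degree `g`. -/
noncomputable def Rt (δ : Γ → Du k H) (g : Γ) : Submodule k H :=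
  LinearMap.eqLocus (lact (δ g)) LinearMap.id

/-- The elements of left degree `g`. -/
noncomputable def Lt (δ : Γ → Du k H) (g : Γ) : Submodule k H :=
  LinearMap.eqLocus (ract (δ g)) LinearMap.id

theorem mem_Rt {δ : Γ → Du k H} {g : Γ} {x : H} : x ∈ Rt δ g ↔ lact (δ g) x = x := Iff.rfl

theorem mem_Lt {δ : Γ → Du k H} {g : Γ} {x : H} : x ∈ Lt δ g ↔ ract (δ g) x = x := Iff.rfl

/-- The coefficient functionals of a bialgebra map to the group algebra. -/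
structure De (δ : Γ → Du k H) : Prop where
  idem : ∀ g, δ g * δ g = δ g
  orth : ∀ g h, g ≠ h → δ g * δ h = 0
  fin : ∀ x : H, ∃ s : Finset Γ, (∀ g ∉ s, (δ g).ofConv x = 0) ∧
    ∑ g ∈ s, (δ g).ofConv x = Coalgebra.counit (R := k) x
  one : (δ 1).ofConv 1 = 1
  mul : ∀ (g h : Γ) (x y : H), (∀ a ≠ g, (δ a).ofConv x = 0) → (∀ b ≠ h, (δ b).ofConv y = 0) →
    ∀ c ≠ g * h, (δ c).ofConv (x * y) = 0
  anti : ∀ (g : Γ) (x : H), (δ g⁻¹).ofConv (HopfAlgebra.antipode k x) = (δ g).ofConv x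

/-- The two gradings of a Hopf algebra extension of a group algebra. -/
structure Bi (δ : Γ → Du k H) : Prop where
  pR : ∀ g x, lact (δ g) x ∈ Rt δ g
  qL : ∀ g x, ract (δ g) x ∈ Lt δ g
  pO : ∀ g h, g ≠ h → ∀ x ∈ Rt δ h, lact (δ g) x = 0
  qO : ∀ g h, g ≠ h → ∀ x ∈ Lt δ h, ract (δ g) x = 0
  pS : ∀ x : H, ∃ s : Finset Γ, (∀ g ∉ s, lact (δ g) x = 0) ∧ ∑ g ∈ s, lact (δ g) x = x
  qS : ∀ x : H, ∃ s : Finset Γ, (∀ g ∉ s, ract (δ g) x = 0) ∧ ∑ g ∈ s, ract (δ g) x = x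
  mulR : ∀ g h, Rt δ g * Rt δ h ≤ Rt δ (g * h)
  mulL : ∀ g h, Lt δ g * Lt δ h ≤ Lt δ (g * h)
  one : (1 : H) ∈ Rt δ 1
  eq : Rt δ 1 = Lt δ 1
  antiR : ∀ g, Sm (Rt δ g) ≤ Lt δ g⁻¹
  antiL : ∀ g, Sm (Lt δ g) ≤ Rt δ g⁻¹
  ne : ∀ g, ∃ u ∈ Rt δ g, u ∈ Lt δ g ∧ Coalgebra.counit (R := k) u = 1

/-- The matrix of central idempotents that compares the two gradings. -/
structure Mg (δ : Γ → Du k H) (e : Γ → Γ → H) : Prop where
  mem : ∀ η γ, e η γ ∈ Rt δ 1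
  q : ∀ η γ, ∀ x ∈ Rt δ γ, ract (δ η) x = e η γ * x
  p : ∀ η γ, ∀ x ∈ Lt δ η, lact (δ γ) x = e η γ * x
  comm : ∀ η γ, ∀ a ∈ Rt δ 1, e η γ * a = a * e η γ
  idem : ∀ η γ, e η γ * e η γ = e η γ
  col : ∀ η θ γ, η ≠ θ → e η γ * e θ γ = 0
  row : ∀ η γ θ, γ ≠ θ → e η γ * e η θ = 0
  sumcol : ∀ γ, ∃ s : Finset Γ, (∀ η ∉ s, e η γ = 0) ∧ ∑ η ∈ s, e η γ = 1
  sumrow : ∀ η, ∃ s : Finset Γ, (∀ γ ∉ s, e η γ = 0) ∧ ∑ γ ∈ s, e η γ = 1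

/-- The product of the diagonal idempotents along a list. -/
def dg (e : Γ → Γ → H) (l : List Γ) : H := (l.map fun γ => e γ γ).prod

/-- `γ` is a product of at most `n` elements of `F`. -/
def Len (F : Set Γ) (n : ℕ) (γ : Γ) : Prop :=
  ∃ w : List Γ, w.length ≤ n ∧ (∀ s ∈ w, s ∈ F) ∧ w.prod = γ

/-- A central idempotent on which the two gradings agree. -/
structure Pj (δ : Γ → Du k H) (f : H) : Prop where
  mem : f ∈ Rt δ 1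
  cen : ∀ x, f * x = x * f
  idem : f * f = f
  eps : Coalgebra.counit (R := k) f = 1
  anti : HopfAlgebra.antipode k f = f
  cop : (f ⊗ₜ[k] (1 : H)) * Coalgebra.comul (R := k) f = f ⊗ₜ[k] f
  com : ∀ a ∈ Rt δ 1, ((1 : H) ⊗ₜ[k] a) * Coalgebra.comul (R := k) f =
    Coalgebra.comul (R := k) f * ((1 : H) ⊗ₜ[k] a)
  dia : ∀ γ, ∀ x ∈ Rt δ γ, f * x ∈ Lt δ γ

theorem Rt_ract {δ : Γ → Du k H} {g : Γ} (φ : Du k H) {x : H} (h : x ∈ Rt δ g) :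
    ract φ x ∈ Rt δ g := by
  rw [mem_Rt, lact_ract, mem_Rt.1 h]

theorem Lt_lact {δ : Γ → Du k H} {g : Γ} (φ : Du k H) {x : H} (h : x ∈ Lt δ g) :
    lact φ x ∈ Lt δ g := by
  rw [mem_Lt, ← lact_ract, mem_Lt.1 h]

end Pool.Agent.Lib.MP_ff61db_al.Cg
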