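import Pool.Agent.Lib.MP_ff61db_al.Cg.BA

/-! The matrix of idempotents exists. -/

namespace Pool.Agent.Lib.MP_ff61db_al.Cg

open Submodule TensorProduct

variable {k H : Type} [Field k] [Ring H] [HopfAlgebra k H] {Γ : Type} [Group Γ]

theorem be1_ext {B : Γ → Submodule k H} (hB : SG B) (γ : Γ) {a b : H}
    (h : ∀ x ∈ B γ, a * x = b * x) : a = b := by
  have h1 : ∀ w ∈ B γ * B γ⁻¹, a * w = b * w := fun w hw =>
    Submodule.mul_induction_on hw (fun x hx y _ => by rw [← mul_assoc, h x hx, mul_assoc])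
      fun x y hx hy => by rw [mul_add, mul_add, hx, hy]
  simpa using h1 1 (hB.strong γ)

theorem be1_half {B C : Γ → Submodule k H} {q : Γ → H →ₗ[k] H} (hB : SG B)
    (hC : ∀ g h, C g * C h ≤ C (g * h)) (eq : B 1 = C 1) (qL : ∀ g x, q g x ∈ C g)
    (qI : ∀ g, ∀ x ∈ C g, q g x = x) (qO : ∀ g h, g ≠ h → ∀ x ∈ C h, q g x = 0)
    (qS : ∀ x : H, ∃ s : Finset Γ, (∀ g ∉ s, q g x = 0) ∧ ∑ g ∈ s, q g x = x)
    (qB : ∀ g h, ∀ x ∈ B h, q g x ∈ B h) :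
    ∃ e : Γ → Γ → H, (∀ η γ, e η γ ∈ B 1) ∧ (∀ η γ, ∀ x ∈ B γ, q η x = e η γ * x) ∧
      (∀ η γ, ∀ a ∈ B 1, e η γ * a = a * e η γ) ∧ (∀ η γ, e η γ * e η γ = e η γ) ∧
      (∀ η θ γ, η ≠ θ → e η γ * e θ γ = 0) ∧
      ∀ γ, ∃ s : Finset Γ, (∀ η ∉ s, e η γ = 0) ∧ ∑ η ∈ s, e η γ = 1 := by
  classical
  have lin : ∀ f : H →ₗ[k] H, (∀ g, ∀ x ∈ C g, f x ∈ C g) → ∀ η x, q η (f x) = f (q η x) := by
    intro f hf η x
    obtain ⟨s, -, h2⟩ := qS x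
    rw [← h2]
    simp only [map_sum]
    refine Finset.sum_congr rfl fun g _ => ?_
    by_cases e : η = g
    · rw [e, qI g _ (hf g _ (qL g x)), qI g _ (qL g x)]
    · rw [qO η g e _ (hf g _ (qL g x)), qO η g e _ (qL g x), map_zero]
  have lr : ∀ η x, ∀ a ∈ B 1, q η (x * a) = q η x * a := fun η x a ha =>
    lin (LinearMap.mulRight k a) (fun g y hy => mul_one g ▸ hC g 1 (mul_mem_mul hy (eq ▸ ha))) η x
  have ll : ∀ η x, ∀ a ∈ B 1, q η (a * x) = a * q η x := fun η x a ha =>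
    lin (LinearMap.mulLeft k a) (fun g y hy => one_mul g ▸ hC 1 g (mul_mem_mul (eq ▸ ha) hy)) η x
  have m1 : ∀ γ, ∀ y ∈ B γ⁻¹, ∀ x ∈ B γ, y * x ∈ B 1 := fun γ y hy x hx =>
    inv_mul_cancel γ ▸ hB.mul _ _ (mul_mem_mul hy hx)
  have h1 : ∀ η γ, ∀ w ∈ B γ * B γ⁻¹, ∃ E ∈ B 1, ∀ x ∈ B γ, q η (w * x) = E * x := by
    intro η γ w hw
    refine Submodule.mul_induction_on hw (fun x hx y hy => ⟨q η x * y,
      mul_inv_cancel γ ▸ hB.mul _ _ (mul_mem_mul (qB η γ x hx) hy), fun z hz => ?_⟩) ?_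
    · rw [mul_assoc, lr η x _ (m1 γ y hy z hz), mul_assoc]
    · rintro x y ⟨E, a1, a2⟩ ⟨E', b1, b2⟩
      exact ⟨E + E', add_mem a1 b1, fun z hz => by rw [add_mul, map_add, a2 z hz, b2 z hz, add_mul]⟩
  have h2 : ∀ γ, ∀ w ∈ B γ * B γ⁻¹, ∃ s : Finset Γ, ∀ η ∉ s, ∀ x ∈ B γ, q η (w * x) = 0 := by
    intro γ w hw
    refine Submodule.mul_induction_on hw (fun x _ y hy => (qS x).imp fun s hs η hη z hz => ?_) ?_
    · rw [mul_assoc, lr η x _ (m1 γ y hy z hz), hs.1 η hη, zero_mul]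
    · rintro x y ⟨s, a⟩ ⟨t, b⟩
      refine ⟨s ∪ t, fun η hη z hz => ?_⟩
      rw [Finset.mem_union, not_or] at hη
      rw [add_mul, map_add, a η hη.1 z hz, b η hη.2 z hz, add_zero]
  choose e e1 e2 using fun η γ => h1 η γ 1 (hB.strong γ)
  simp only [one_mul] at e2
  refine ⟨e, e1, e2, fun η γ a ha => be1_ext hB γ fun x hx => ?_,
    fun η γ => be1_ext hB γ fun x hx => ?_, fun η θ γ hne => be1_ext hB γ fun x hx => ?_,
    fun γ => (h2 γ 1 (hB.strong γ)).imp fun s hs =>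
      ⟨fun η hη => be1_ext hB γ fun x hx => ?_, be1_ext hB γ fun x hx => ?_⟩⟩
  · rw [mul_assoc, mul_assoc, ← e2 η γ x hx, ← ll η x a ha,
      e2 η γ _ (one_mul γ ▸ hB.mul _ _ (mul_mem_mul ha hx))]
  · rw [mul_assoc, ← e2 η γ x hx, ← e2 η γ _ (qB η γ x hx), qI η _ (qL η x)]
  · rw [mul_assoc, ← e2 θ γ x hx, ← e2 η γ _ (qB θ γ x hx), qO η θ hne _ (qL θ x), zero_mul]
  · rw [← e2 η γ x hx, zero_mul, ← hs η hη x hx, one_mul]
  · obtain ⟨t, a1, a2⟩ := qS x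
    rw [Finset.sum_mul, one_mul, ← Finset.sum_congr rfl fun η _ => e2 η γ x hx,
      Finset.sum_subset (Finset.subset_union_left (s₂ := t)) fun η _ hη => one_mul x ▸ hs η hη x hx,
      ← Finset.sum_subset Finset.subset_union_right fun η _ hη => a1 η hη, a2]

theorem Bi.exists_mg {δ : Γ → Du k H} (h : Bi δ) : ∃ e, Mg δ e := by
  obtain ⟨e, a1, a2, a3, a4, a5, a6⟩ := be1_half (q := fun g => ract (δ g)) h.sgR h.mulL h.eq h.qL
    (fun _ _ => mem_Lt.1) h.qO h.qS fun _ _ _ => Rt_ract _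
  obtain ⟨e', b1, b2, -, -, b5, b6⟩ := be1_half (q := fun g => lact (δ g)) h.sgL h.mulR h.eq.symm
    h.pR (fun _ _ => mem_Rt.1) h.pO h.pS fun _ _ _ => Lt_lact _
  have key : ∀ η γ, e' γ η = e η γ := fun η γ => by
    have h1 : e' γ η * e η γ = e η γ := be1_ext h.sgR γ fun x hx => by
      rw [mul_assoc, ← a2 η γ x hx, ← b2 γ η _ (h.qL η x), mem_Rt.1 (Rt_ract _ hx)]
    have h2 : e η γ * e' γ η = e' γ η := be1_ext h.sgL η fun x hx => by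
      rw [mul_assoc, ← b2 γ η x hx, ← a2 η γ _ (h.pR γ x), mem_Lt.1 (Lt_lact _ hx)]
    rw [← h2, a3 η γ _ (h.eq ▸ b1 γ η), h1]
  simp only [key] at b2 b5 b6
  exact ⟨e, a1, a2, fun η γ => b2 γ η, a3, a4, a5, fun η γ θ => b5 γ θ η, a6, b6⟩

end Pool.Agent.Lib.MP_ff61db_al.Cg
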