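import Pool.Agent.Lib.MP_ff61db_al.Cg.BE3

/-! The matrix of idempotents is multiplicative. -/

namespace Pool.Agent.Lib.MP_ff61db_al.Cg

open Submodule TensorProduct

variable {k H : Type} [Field k] [Ring H] [HopfAlgebra k H] {Γ : Type} [Group Γ]

variable {δ : Γ → Du k H} {e : Γ → Γ → H}

theorem Mg.counit_diag (m : Mg δ e) (h : Bi δ) (γ : Γ) : Coalgebra.counit (R := k) (e γ γ) = 1 := by
  obtain ⟨u, hR, hL, hu⟩ := h.ne γ
  have h1 := congrArg (Coalgebra.counit (R := k)) (m.q γ γ u hR)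
  rwa [mem_Lt.1 hL, Bialgebra.counit_mul, hu, mul_one, eq_comm] at h1

theorem Mg.counit_ne (m : Mg δ e) (h : Bi δ) {η γ : Γ} (hne : η ≠ γ) :
    Coalgebra.counit (R := k) (e η γ) = 0 := by
  obtain ⟨u, hR, hL, hu⟩ := h.ne γ
  have h1 := congrArg (Coalgebra.counit (R := k)) (m.q η γ u hR)
  rwa [h.qO η γ hne u hL, Bialgebra.counit_mul, hu, mul_one, map_zero, eq_comm] at h1

theorem Mg.anti (m : Mg δ e) (h : Bi δ) (η γ : Γ) : HopfAlgebra.antipode k (e η γ) = e γ η := by
  have key : ∀ c, HopfAlgebra.antipode k (e η γ) * e γ c =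
      Coalgebra.counit (R := k) (e η c) • e γ c := fun c => by
    obtain ⟨s, hs, h1⟩ := m.comul_eq h η c
    have h2 := HopfAlgebra.mul_antipode_rTensor_comul_apply (R := k) (e η c)
    simp only [h1, map_sum, LinearMap.rTensor_tmul, LinearMap.mul'_apply] at h2
    rw [Algebra.smul_def, ← h2, Finset.sum_mul, Finset.sum_eq_single γ
      (fun θ _ hθ => by rw [mul_assoc, m.col θ γ c hθ, mul_zero])
      (fun hγ => by rw [hs γ hγ, mul_zero]), mul_assoc, m.idem]
  obtain ⟨s, hs, h1⟩ := m.sumrow γ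
  rw [← mul_one (HopfAlgebra.antipode k (e η γ)), ← h1, Finset.mul_sum,
    Finset.sum_eq_single η (fun c _ hc => by rw [key, m.counit_ne h hc.symm, zero_smul])
      (fun hη => by rw [hs η hη, mul_zero]), key, m.counit_diag h, one_smul]

theorem Mg.mem_mul (m : Mg δ e) (η : Γ) {γ : Γ} {X Y U : Submodule k H} (hX : X ≤ Rt δ γ)
    (hU : X ≤ U) (hc : Cl U) (h1 : (1 : H) ∈ X * Y) : e η γ ∈ U * Y := by
  have key : ∀ z ∈ X * Y, e η γ * z ∈ U * Y := fun z hz =>
    Submodule.mul_induction_on hz (fun x hx y hy => by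
      rw [← mul_assoc, ← m.q η γ x (hX hx)]
      exact mul_mem_mul (hc.r _ _ (hU hx)) hy) fun x y hx hy => by
        rw [mul_add]
        exact add_mem hx hy
  simpa only [mul_one] using key 1 h1

end Pool.Agent.Lib.MP_ff61db_al.Cg
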