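import Pool.Agent.Lib.MP_ff61db_al.Cg.BA

/-! The coproduct of the idempotents. -/

namespace Pool.Agent.Lib.MP_ff61db_al.Cg

open Submodule TensorProduct

variable {k H : Type} [Field k] [Ring H] [HopfAlgebra k H] {Γ : Type} [Group Γ]

variable {δ : Γ → Du k H} {e : Γ → Γ → H}

theorem be3_p (m : Mg δ e) (h : Bi δ) (η θ : Γ) (t : H ⊗[k] H) :
    LinearMap.rTensor H (ract (δ η)) (LinearMap.rTensor H (lact (δ θ)) t) =
      (e η θ ⊗ₜ[k] (1 : H)) * LinearMap.rTensor H (lact (δ θ)) t := by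
  induction t with
  | zero => simp
  | add a b ha hb => simp only [map_add, mul_add, ha, hb]
  | tmul a b =>
    simp only [LinearMap.rTensor_tmul, Algebra.TensorProduct.tmul_mul_tmul, one_mul]
    rw [m.q η θ _ (h.pR θ a)]

theorem be3_q (m : Mg δ e) (θ γ : Γ) (f : H →ₗ[k] H) {t : H ⊗[k] H}
    (ht : t ∈ LinearMap.range
      (TensorProduct.map (⊤ : Submodule k H).subtype (Rt δ γ).subtype)) :
    LinearMap.rTensor H f (LinearMap.lTensor H (ract (δ θ)) t) =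
      ((1 : H) ⊗ₜ[k] e θ γ) * LinearMap.rTensor H f t := by
  obtain ⟨t, rfl⟩ := ht
  induction t with
  | zero => simp
  | add a b ha hb => simp only [map_add, mul_add, ha, hb]
  | tmul a b =>
    simp only [TensorProduct.map_tmul, LinearMap.rTensor_tmul, LinearMap.lTensor_tmul,
      Algebra.TensorProduct.tmul_mul_tmul, one_mul, coe_subtype]
    rw [m.q θ γ _ b.2]

theorem be3_x (m : Mg δ e) (h : Bi δ) (η θ γ : Γ) {x : H} (hx : x ∈ Rt δ γ) :
    ((1 : H) ⊗ₜ[k] e θ γ) * Coalgebra.comul (R := k) (e η γ * x) =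
      (e η θ ⊗ₜ[k] e θ γ) * Coalgebra.comul (R := k) x := by
  have ht := comul_mem (P := ⊤) (Q := Rt δ γ) (x := x) (fun _ => mem_top) fun φ => Rt_ract φ hx
  have h1 := be3_q m θ γ LinearMap.id ht
  rw [LinearMap.rTensor_id, LinearMap.id_apply, LinearMap.id_apply] at h1
  rw [← m.q η γ x hx, comul_ract, ← be3_q m θ γ _ ht, ← comul_mid, be3_p m h, comul_mid, h1,
    ← mul_assoc, Algebra.TensorProduct.tmul_mul_tmul, mul_one, one_mul]

theorem Mg.cop (m : Mg δ e) (h : Bi δ) (η θ γ : Γ) :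
    ((1 : H) ⊗ₜ[k] e θ γ) * Coalgebra.comul (R := k) (e η γ) = e η θ ⊗ₜ[k] e θ γ := by
  have key : ∀ z ∈ Rt δ γ * Rt δ γ⁻¹, ((1 : H) ⊗ₜ[k] e θ γ) *
      Coalgebra.comul (R := k) (e η γ * z) =
        (e η θ ⊗ₜ[k] e θ γ) * Coalgebra.comul (R := k) z := fun z hz => by
    refine Submodule.mul_induction_on hz (fun x hx y _ => ?_) fun x y hx hy => ?_
    · rw [← mul_assoc, Bialgebra.comul_mul _ y, ← mul_assoc, be3_x m h η θ γ hx,
        Bialgebra.comul_mul x y, mul_assoc]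
    · rw [mul_add, map_add, map_add, mul_add, mul_add, hx, hy]
  have h1 := key 1 (h.sgR.strong γ)
  rwa [mul_one, Bialgebra.comul_one, mul_one] at h1

theorem Mg.comul_eq (m : Mg δ e) (h : Bi δ) (η γ : Γ) : ∃ s : Finset Γ, (∀ θ ∉ s, e θ γ = 0) ∧
    Coalgebra.comul (R := k) (e η γ) = ∑ θ ∈ s, e η θ ⊗ₜ[k] e θ γ := by
  obtain ⟨s, h1, h2⟩ := m.sumcol γ
  refine ⟨s, h1, ?_⟩
  rw [← Finset.sum_congr rfl fun θ _ => m.cop h η θ γ, ← Finset.sum_mul, ← tmul_sum, h2,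
    ← Algebra.TensorProduct.one_def, one_mul]

theorem Mg.cop' (m : Mg δ e) (h : Bi δ) (η θ γ : Γ) :
    (e η θ ⊗ₜ[k] (1 : H)) * Coalgebra.comul (R := k) (e η γ) = e η θ ⊗ₜ[k] e θ γ := by
  obtain ⟨s, h1, h2⟩ := m.comul_eq h η γ
  rw [h2, Finset.mul_sum, Finset.sum_eq_single θ]
  · rw [Algebra.TensorProduct.tmul_mul_tmul, m.idem, one_mul]
  · intro b _ hb
    rw [Algebra.TensorProduct.tmul_mul_tmul, m.row η θ b hb.symm, zero_tmul]
  · intro hθ
    rw [h1 θ hθ, tmul_zero, mul_zero]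

theorem Mg.cop_comm (m : Mg δ e) (h : Bi δ) (η γ : Γ) {a b : H} (ha : a ∈ Rt δ 1)
    (hb : b ∈ Rt δ 1) : (a ⊗ₜ[k] b) * Coalgebra.comul (R := k) (e η γ) =
      Coalgebra.comul (R := k) (e η γ) * (a ⊗ₜ[k] b) := by
  obtain ⟨s, -, h2⟩ := m.comul_eq h η γ
  rw [h2, Finset.mul_sum, Finset.sum_mul]
  refine Finset.sum_congr rfl fun θ _ => ?_
  rw [Algebra.TensorProduct.tmul_mul_tmul, Algebra.TensorProduct.tmul_mul_tmul, m.comm _ _ a ha,
    m.comm _ _ b hb]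

end Pool.Agent.Lib.MP_ff61db_al.Cg
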