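import Pool.Agent.Lib.MP_ff61db_al.Cg.BG1

/-! Polynomial growth stops the chain of point stabilisers. -/

namespace Pool.Agent.Lib.MP_ff61db_al.Cg

open Submodule TensorProduct

variable {k H : Type} [Field k] [Ring H] [HopfAlgebra k H] {Γ : Type} [Group Γ]

variable {δ : Γ → Du k H} {e : Γ → Γ → H}

theorem bg_indep {ι : Type} [Fintype ι] {u : ι → H} (h0 : ∀ j, u j ≠ 0) (h1 : ∀ j, u j * u j = u j)
    (h2 : ∀ j j', j ≠ j' → u j * u j' = 0) : LinearIndependent k u := by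
  refine Fintype.linearIndependent_iff.2 fun g hg j => ?_
  have h3 := congrArg (u j * ·) hg
  simp only [Finset.mul_sum, mul_smul_comm, mul_zero] at h3
  rw [Finset.sum_eq_single j (fun i _ hi => by rw [h2 j i hi.symm, smul_zero])
    (fun e => absurd (Finset.mem_univ j) e), h1] at h3
  exact (smul_eq_zero.1 h3).resolve_right (h0 j)

theorem bg_cop (m : Mg δ e) (h : Bi δ) {u g : H} (hu : u ∈ Rt δ 1) (hg : g ∈ Rt δ 1)
    (hc : (u ⊗ₜ[k] g) * Coalgebra.comul (R := k) u = u ⊗ₜ[k] g) (η γ : Γ) :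
    ((u * e η γ) ⊗ₜ[k] (e γ γ * g)) * Coalgebra.comul (R := k) (u * e η γ) =
      (u * e η γ) ⊗ₜ[k] (e γ γ * g) := by
  have e1 : (u * e η γ) ⊗ₜ[k] (e γ γ * g) = (e η γ ⊗ₜ[k] e γ γ) * (u ⊗ₜ[k] g) := by
    rw [Algebra.TensorProduct.tmul_mul_tmul, m.comm η γ u hu]
  have e2 : (e η γ ⊗ₜ[k] e γ γ) * Coalgebra.comul (R := k) (e η γ) = e η γ ⊗ₜ[k] e γ γ := by
    have e3 := congrArg ((e η γ ⊗ₜ[k] (1 : H)) * ·) (m.cop h η γ γ)
    simpa only [← mul_assoc, Algebra.TensorProduct.tmul_mul_tmul, mul_one, one_mul, m.idem] using e3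
  rw [e1, Bialgebra.comul_mul, mul_assoc, ← mul_assoc (u ⊗ₜ[k] g), hc, m.cop_comm h η γ hu hg,
    ← mul_assoc, e2]

theorem bg_stage (m : Mg δ e) (h : Bi δ) {F : Set Γ} {W : Submodule k H}
    (hW : ∀ n γ η, Len F n γ → e η γ ∈ W ^ (2 * n))
    (hn : ∀ (l : List Γ) (n : ℕ), (∀ γ ∈ l, Len F n γ) →
      ∃ γ, Len F (n + 1) γ ∧ dg e l * e γ γ ≠ dg e l) (i : ℕ) :
    ∃ (l : List Γ) (ι : Type) (_ : Fintype ι) (u : ι → H), Fintype.card ι = 2 ^ i ∧
      (∀ γ ∈ l, Len F i γ) ∧ (∀ j, u j ∈ Rt δ 1 ∧ u j ≠ 0 ∧ u j * u j = u j ∧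
        u j ∈ W ^ (i * (i + 1)) ∧
        (u j ⊗ₜ[k] dg e l) * Coalgebra.comul (R := k) (u j) = u j ⊗ₜ[k] dg e l) ∧
      ∀ j j', j ≠ j' → u j * u j' = 0 := by
  induction i with
  | zero =>
    refine ⟨[], Unit, inferInstance, fun _ => 1, rfl, fun _ e => absurd e List.not_mem_nil,
      fun _ => ⟨h.one, fun e0 => ?_, mul_one 1, ?_, ?_⟩, fun _ _ e => absurd rfl e⟩
    · have e1 := congrArg (Coalgebra.counit (R := k)) e0
      rw [Bialgebra.counit_one, map_zero] at e1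
      exact one_ne_zero e1
    · simpa using one_le.1 (le_refl (1 : Submodule k H))
    · rw [Bialgebra.comul_one, mul_one]
  | succ i ih =>
    obtain ⟨l, ι, _, u, h1, h2, h3, h4⟩ := ih
    obtain ⟨c, hc, hm⟩ := hn l i h2
    choose η η' e1 e2 e3 using fun j =>
      m.split h (h3 j).1 (m.dg_mem h l) (h3 j).2.1 (h3 j).2.2.2.2 hm
    let θ : ι × Bool → Γ := fun p => if p.2 then η p.1 else η' p.1
    have pr : ∀ p q : ι × Bool, u p.1 * e (θ p) c * (u q.1 * e (θ q) c) =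
        u p.1 * u q.1 * (e (θ p) c * e (θ q) c) := fun p q => by
      rw [mul_assoc, ← mul_assoc (e (θ p) c), m.comm _ c _ (h3 q.1).1, mul_assoc, mul_assoc]
    refine ⟨c :: l, ι × Bool, inferInstance, fun p => u p.1 * e (θ p) c, ?_, fun γ hγ => ?_,
      fun p => ⟨?_, ?_, ?_, ?_, bg_cop m h (h3 p.1).1 (m.dg_mem h l) (h3 p.1).2.2.2.2 _ c⟩,
      fun p q hpq => ?_⟩
    · rw [Fintype.card_prod, h1, Fintype.card_bool, pow_succ]
    · rcases List.mem_cons.1 hγ with rfl | hγ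
      · exact hc
      · obtain ⟨w, a1, a2⟩ := h2 γ hγ
        exact ⟨w, by omega, a2⟩
    · have a := h.mulR 1 1 (mul_mem_mul (h3 p.1).1 (m.mem (θ p) c))
      rwa [mul_one] at a
    · obtain ⟨j, b⟩ := p
      cases b
      · exact e3 j
      · exact e2 j
    · rw [pr, (h3 p.1).2.2.1, m.idem]
    · rw [show (i + 1) * (i + 1 + 1) = i * (i + 1) + 2 * (i + 1) by ring]
      exact mul_mem_pow (h3 p.1).2.2.2.1 (hW _ _ _ hc)
    · rw [pr]
      obtain ⟨j, b⟩ := p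
      obtain ⟨j', b'⟩ := q
      rcases eq_or_ne j j' with rfl | a
      · rw [m.col (θ (j, b)) (θ (j, b')) c, mul_zero]
        cases b <;> cases b'
        · exact absurd rfl hpq
        · exact (e1 j).symm
        · exact e1 j
        · exact absurd rfl hpq
      · rw [h4 j j' a, zero_mul]

theorem Mg.exists_stable (m : Mg δ e) (h : Bi δ) (hP : PG k H) {F : Set Γ} (hF : F.Finite) :
    ∃ (l : List Γ) (n : ℕ), (∀ γ ∈ l, Len F n γ) ∧
      ∀ γ, Len F (n + 1) γ → dg e l * e γ γ = dg e l := by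
  by_contra hn
  push Not at hn
  obtain ⟨W, hW, h1, hm⟩ := m.exists_W h hF
  obtain ⟨d, hd⟩ := hP
  obtain ⟨C, hC⟩ := hd W hW
  obtain ⟨r, r1, r2⟩ := exists_pow_lt (C * 3 ^ d) (2 * d)
  obtain ⟨l, ι, _, u, a1, -, a2, a3⟩ := bg_stage m h hm hn r
  have a4 := Growth.card_le ⟨hW, h1, C, d, hC⟩
    (bg_indep (fun j => (a2 j).2.1) (fun j => (a2 j).2.2.1) a3) Finset.univ
    fun j _ => (a2 j).2.2.2.1
  rw [Finset.card_univ, a1] at a4
  have a5 : r * (r + 1) + 1 ≤ 3 * r ^ 2 := by nlinarith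
  have a6 := Nat.mul_le_mul_left C (Nat.pow_le_pow_left a5 d)
  rw [mul_pow, ← pow_mul, ← mul_assoc] at a6
  have := hC (r * (r + 1))
  omega

end Pool.Agent.Lib.MP_ff61db_al.Cg
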