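import Pool.Agent.Lib.MP_ff61db_al.Cg.BC

/-! Lengths of the idempotents; splitting. -/

namespace Pool.Agent.Lib.MP_ff61db_al.Cg

open Submodule TensorProduct

variable {k H : Type} [Field k] [Ring H] [HopfAlgebra k H] {Γ : Type} [Group Γ]

variable {δ : Γ → Du k H} {e : Γ → Γ → H}

theorem bg1_pow_mono {W : Submodule k H} (h1 : (1 : H) ∈ W) {a b : ℕ} (hab : a ≤ b) :
    W ^ a ≤ W ^ b := by
  induction b, hab using Nat.le_induction with
  | base => exact le_rfl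
  | succ b _ ih => rw [pow_succ]; exact ih.trans (le_mul_one h1)

omit [Group Γ] in
theorem bg1_fg {F : Set Γ} (hF : F.Finite) (X : Γ → Submodule k H) (hX : ∀ g, (X g).FG) :
    ∃ V : Submodule k H, V.FG ∧ ∀ g ∈ F, X g ≤ V := by
  induction F, hF using Set.Finite.induction_on with
  | empty => exact ⟨⊥, fg_bot, fun g hg => hg.elim⟩
  | @insert a s _ _ ih =>
    obtain ⟨V, hV, h⟩ := ih
    refine ⟨X a ⊔ V, (hX a).sup hV, fun g hg => ?_⟩
    rcases hg with rfl | hg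
    · exact le_sup_left
    · exact (h g hg).trans le_sup_right

theorem bg1_tmul {u y : H} (h0 : u ≠ 0) (h : u ⊗ₜ[k] y = 0) : y = 0 := by
  obtain ⟨φ, hφ⟩ := Module.Projective.exists_dual_ne_zero k h0
  have h2 := congrArg (fun t => TensorProduct.lid k H (LinearMap.rTensor H φ t)) h
  simp only [LinearMap.rTensor_tmul, TensorProduct.lid_tmul, map_zero] at h2
  exact (smul_eq_zero.1 h2).resolve_left hφ

theorem Mg.exists_W (m : Mg δ e) (h : Bi δ) {F : Set Γ} (hF : F.Finite) :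
    ∃ W : Submodule k H, W.FG ∧ (1 : H) ∈ W ∧ ∀ n γ η, Len F n γ → e η γ ∈ W ^ (2 * n) := by
  choose X hX Y _ fX fY h1 _ using h.sgR.exists_fg
  obtain ⟨V, hV, hXV⟩ := bg1_fg hF (fun g => X g ⊔ Y g) fun g => (fX g).sup (fY g)
  obtain ⟨W, hW, cW, hVW, -⟩ := exists_fd (V ⊔ span k {(1 : H)}) (hV.sup (fg_span_singleton 1))
  have oW : (1 : H) ∈ W := hVW (mem_sup_right (mem_span_singleton_self _))
  have key : ∀ w : List Γ, (∀ s ∈ w, s ∈ F) → ∃ P Q : Submodule k H, P ≤ Rt δ w.prod ∧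
      P ≤ W ^ w.length ∧ Q ≤ W ^ w.length ∧ (1 : H) ∈ P * Q := by
    intro w
    induction w with
    | nil =>
      intro _
      refine ⟨1, 1, one_le.2 h.one, by simp, by simp, ?_⟩
      rw [one_mul]
      exact one_le.1 le_rfl
    | cons a w ih =>
      intro hw
      obtain ⟨P, Q, hP, hPW, hQW, ho⟩ := ih fun s hs => hw s (List.mem_cons_of_mem a hs)
      have ha := (hXV a (hw a List.mem_cons_self)).trans (le_sup_left.trans hVW)
      refine ⟨X a * P, Q * Y a, ?_, ?_, ?_, ?_⟩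
      · rw [List.prod_cons]
        exact (mul_le_mul' (hX a) hP).trans (h.mulR _ _)
      · rw [List.length_cons, pow_succ']
        exact mul_le_mul' (le_sup_left.trans ha) hPW
      · rw [List.length_cons, pow_succ]
        exact mul_le_mul' hQW (le_sup_right.trans ha)
      · rw [mul_assoc, ← mul_assoc P]
        exact hc_mul le_rfl (le_one_mul ho) (h1 a)
  refine ⟨W, hW, oW, fun n γ η hl => ?_⟩
  obtain ⟨w, hn, hw, rfl⟩ := hl
  obtain ⟨P, Q, hP, hPW, hQW, ho⟩ := key w hw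
  have h2 := m.mem_mul η hP hPW (cl_pow cW _) ho
  rw [two_mul, pow_add]
  exact hc_mul (bg1_pow_mono oW hn) (hQW.trans (bg1_pow_mono oW hn)) h2

/-- A moved degree splits every idempotent of the family in two. -/
theorem Mg.split (m : Mg δ e) (h : Bi δ) {u g : H} (hu : u ∈ Rt δ 1) (hg : g ∈ Rt δ 1) (h0 : u ≠ 0)
    (hc : (u ⊗ₜ[k] g) * Coalgebra.comul (R := k) u = u ⊗ₜ[k] g) {γ : Γ} (hγ : g * e γ γ ≠ g) :
    ∃ η η', η ≠ η' ∧ u * e η γ ≠ 0 ∧ u * e η' γ ≠ 0 := by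
  by_contra hn
  obtain ⟨s, hs, hs1⟩ := m.sumcol γ
  have su : ∀ x : H, ∑ η ∈ s, x * e η γ = x := fun x => by rw [← Finset.mul_sum, hs1, mul_one]
  obtain ⟨η, -, hη⟩ := Finset.exists_ne_zero_of_sum_ne_zero ((su u).symm ▸ h0)
  have hz : ∀ θ, θ ≠ η → u * e θ γ = 0 := fun θ hθ => by
    by_contra h3
    exact hn ⟨θ, η, hθ, h3, hη⟩
  have ue : u * e η γ = u := by
    rw [← Finset.sum_eq_single (s := s) (f := fun θ => u * e θ γ) η (fun θ _ hθ => hz θ hθ)
      fun h3 => by rw [hs η h3, mul_zero]]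
    exact su u
  have h4 : (u ⊗ₜ[k] g) * Coalgebra.comul (R := k) (e η γ) = u ⊗ₜ[k] g := by
    have h5 : (u ⊗ₜ[k] g) * Coalgebra.comul (R := k) (u * e η γ) = u ⊗ₜ[k] g := by rw [ue, hc]
    rwa [Bialgebra.comul_mul, ← mul_assoc, hc] at h5
  have h6 : ∀ θ, θ ≠ γ → g * e θ γ = 0 := by
    intro θ hθ
    refine bg1_tmul (k := k) h0 ?_
    have a1 : u ⊗ₜ[k] (g * e θ γ) = ((1 : H) ⊗ₜ[k] e θ γ) * (u ⊗ₜ[k] g) := by
      rw [Algebra.TensorProduct.tmul_mul_tmul, one_mul, m.comm θ γ g hg]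
    have a2 : u ⊗ₜ[k] (g * e θ γ) = (u ⊗ₜ[k] g) * ((1 : H) ⊗ₜ[k] e θ γ) := by
      rw [Algebra.TensorProduct.tmul_mul_tmul, mul_one]
    have a3 : u * e η θ = 0 := by rw [← ue, mul_assoc, m.row η γ θ hθ.symm, mul_zero]
    rw [a1, ← h4, ← mul_assoc, ← a1, a2, mul_assoc, m.cop h, Algebra.TensorProduct.tmul_mul_tmul,
      a3, zero_tmul]
  refine hγ ?_
  rw [← Finset.sum_eq_single (s := s) (f := fun θ => g * e θ γ) γ (fun θ _ hθ => h6 θ hθ)
    fun h3 => by rw [hs γ h3, mul_zero]]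
  exact su g

end Pool.Agent.Lib.MP_ff61db_al.Cg
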