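import Pool.Agent.Lib.MP_ff61db_al.Cg.BDefs

/-! The coefficient functionals of a bialgebra map to a group algebra. -/

namespace Pool.Agent.Lib.MP_ff61db_al.Cg

open Submodule TensorProduct

variable {k H : Type} [Field k] [Ring H] [HopfAlgebra k H] {Γ : Type} [Group Γ]

/-- The coefficient of `g`. -/
noncomputable def p1c (k : Type) [Field k] {Γ : Type} [Group Γ] (g : Γ) :
    MonoidAlgebra k Γ →ₗ[k] k :=
  Finsupp.lapply g ∘ₗ (MonoidAlgebra.coeffLinearEquiv k).toLinearMap

theorem p1c_apply (g : Γ) (y : MonoidAlgebra k Γ) : p1c k g y = y.coeff g := rfl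

open Classical in
theorem p1c_mul (g h : Γ) (y : MonoidAlgebra k Γ) :
    (WithConv.toConv (p1c k g) * WithConv.toConv (p1c k h)).ofConv y =
      if g = h then p1c k g y else 0 := by
  induction y using MonoidAlgebra.induction_linear with
  | zero => simp
  | add y z hy hz =>
    rw [map_add, hy, hz, map_add]
    split_ifs <;> simp
  | single a r =>
    rw [LinearMap.convMul_apply, MonoidAlgebra.comul_single]
    simp only [CommSemiring.comul_apply, TensorProduct.map_tmul, LinearMap.mul'_apply,
      MonoidAlgebra.lsingle_apply, p1c_apply, MonoidAlgebra.coeff_single, Finsupp.single_apply]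
    split_ifs <;> simp_all

theorem p1_anti (π : H →ₐc[k] MonoidAlgebra k Γ) :
    π.toLinearMap ∘ₗ HopfAlgebra.antipode k = HopfAlgebra.antipode k ∘ₗ π.toLinearMap := by
  have h1 : WithConv.toConv (π.toLinearMap ∘ₗ HopfAlgebra.antipode k) *
      WithConv.toConv π.toLinearMap = 1 := by
    refine WithConv.ofConv_injective ?_
    have := LinearMap.algHom_comp_convMul_distrib (AlgHomClass.toAlgHom π)
      (WithConv.toConv (HopfAlgebra.antipode k (A := H))) (WithConv.toConv .id)
    rw [LinearMap.antipode_mul_id] at this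
    refine this.symm.trans (LinearMap.ext fun a => ?_)
    exact AlgHomClass.commutes π _
  have h2 : WithConv.toConv π.toLinearMap *
      WithConv.toConv (HopfAlgebra.antipode k ∘ₗ π.toLinearMap) = 1 := by
    refine WithConv.ofConv_injective ?_
    have := LinearMap.convMul_comp_coalgHom_distrib (WithConv.toConv .id)
      (WithConv.toConv (HopfAlgebra.antipode k (A := MonoidAlgebra k Γ))) π.toCoalgHom
    rw [LinearMap.id_mul_antipode] at this
    refine this.symm.trans ?_
    ext a : 1
    simp
  exact congrArg WithConv.ofConv (left_inv_eq_right_inv h1 h2)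

theorem p1c_anti (g : Γ) (y : MonoidAlgebra k Γ) :
    p1c k g⁻¹ (HopfAlgebra.antipode k y) = p1c k g y := by
  classical
  induction y using MonoidAlgebra.induction_linear with
  | zero => simp
  | add y z hy hz => rw [map_add, map_add, hy, hz, map_add]
  | single a r => simp [p1c_apply, Finsupp.single_apply, CommSemiring.antipode_eq_id]

theorem p1_counit (y : MonoidAlgebra k Γ) :
    ∑ g ∈ y.coeff.support, p1c k g y = Coalgebra.counit (R := k) y := by
  conv_rhs => rw [← MonoidAlgebra.sum_coeff_single y, Finsupp.sum, map_sum]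
  simp [p1c_apply]

theorem p1_single {g : Γ} {y : MonoidAlgebra k Γ} (h : ∀ a ≠ g, p1c k a y = 0) :
    y = MonoidAlgebra.single g (y.coeff g) := by
  classical
  ext a
  rcases eq_or_ne a g with rfl | e
  · simp
  · rw [← p1c_apply, h a e]
    simp [Finsupp.single_apply, e.symm]

theorem p1_extR {t t' : H ⊗[k] MonoidAlgebra k Γ}
    (h : ∀ g, TensorProduct.rid k H (LinearMap.lTensor H (p1c k g) t) =
      TensorProduct.rid k H (LinearMap.lTensor H (p1c k g) t')) : t = t' := by
  classical
  have key : ∀ (g : Γ) (t : H ⊗[k] MonoidAlgebra k Γ),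
      TensorProduct.equivFinsuppOfBasisRight (MonoidAlgebra.basis Γ k) t g =
        TensorProduct.rid k H (LinearMap.lTensor H (p1c k g) t) := fun g t => by
    induction t with
    | zero => simp
    | tmul x y =>
      rw [TensorProduct.equivFinsuppOfBasisRight_apply_tmul_apply]
      rfl
    | add s t hs ht => simp only [map_add, Finsupp.add_apply, hs, ht]
  exact (TensorProduct.equivFinsuppOfBasisRight (MonoidAlgebra.basis Γ k)).injective
    (Finsupp.ext fun g => by rw [key, key, h])

theorem p1_extL {t t' : MonoidAlgebra k Γ ⊗[k] H}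
    (h : ∀ g, TensorProduct.lid k H (LinearMap.rTensor H (p1c k g) t) =
      TensorProduct.lid k H (LinearMap.rTensor H (p1c k g) t')) : t = t' := by
  classical
  have key : ∀ (g : Γ) (t : MonoidAlgebra k Γ ⊗[k] H),
      TensorProduct.equivFinsuppOfBasisLeft (MonoidAlgebra.basis Γ k) t g =
        TensorProduct.lid k H (LinearMap.rTensor H (p1c k g) t) := fun g t => by
    induction t with
    | zero => simp
    | tmul x y =>
      rw [TensorProduct.equivFinsuppOfBasisLeft_apply_tmul_apply]
      rfl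
    | add s t hs ht => simp only [map_add, Finsupp.add_apply, hs, ht]
  exact (TensorProduct.equivFinsuppOfBasisLeft (MonoidAlgebra.basis Γ k)).injective
    (Finsupp.ext fun g => by rw [key, key, h])

theorem exists_de (π : H →ₐc[k] MonoidAlgebra k Γ) : ∃ δ : Γ → Du k H, De δ ∧
    (∀ x, x ∈ Rt δ 1 ↔ LinearMap.lTensor H π.toLinearMap (Coalgebra.comul x) = x ⊗ₜ[k] 1) ∧
    ∀ x, x ∈ Lt δ 1 ↔ LinearMap.rTensor H π.toLinearMap (Coalgebra.comul x) = 1 ⊗ₜ[k] x := by
  classical
  obtain ⟨δ, hδ⟩ : ∃ δ : Γ → Du k H, ∀ g, δ g = WithConv.toConv (p1c k g ∘ₗ π.toLinearMap) :=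
    ⟨_, fun _ => rfl⟩
  have h0 : ∀ g x, (δ g).ofConv x = p1c k g (π x) := fun g x => by
    rw [hδ]
    rfl
  have h1 : ∀ g h x, (δ g * δ h).ofConv x = if g = h then (δ g).ofConv x else 0 := fun g h x => by
    rw [h0, ← p1c_mul, hδ, hδ]
    exact (LinearMap.congr_fun (LinearMap.convMul_comp_coalgHom_distrib
      (WithConv.toConv (p1c k g)) (WithConv.toConv (p1c k h)) π.toCoalgHom) x).symm
  have h2 : ∀ g h, g ≠ h → δ g * δ h = 0 := fun g h e =>
    WithConv.ofConv_injective (LinearMap.ext fun x => by rw [h1, if_neg e]; rfl)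
  have h3 : ∀ g : Γ, p1c k g 1 = if 1 = g then 1 else 0 := fun g => by
    simp [p1c_apply, MonoidAlgebra.one_def, Finsupp.single_apply]
  have hl : ∀ g x, lact (δ g) x = TensorProduct.rid k H (LinearMap.lTensor H (p1c k g)
      (LinearMap.lTensor H π.toLinearMap (Coalgebra.comul x))) := fun g x => by
    rw [hδ, ← LinearMap.lTensor_comp_apply]
    rfl
  have hr : ∀ g x, ract (δ g) x = TensorProduct.lid k H (LinearMap.rTensor H (p1c k g)
      (LinearMap.rTensor H π.toLinearMap (Coalgebra.comul x))) := fun g x => by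
    rw [hδ, ← LinearMap.rTensor_comp_apply]
    rfl
  refine ⟨δ, ⟨fun g => WithConv.ofConv_injective (LinearMap.ext fun x => by rw [h1, if_pos rfl]),
    h2, fun x => ⟨(π x).coeff.support, fun g hg => ?_, ?_⟩, ?_, fun g h x y hx hy c hc => ?_,
    fun g x => ?_⟩, fun x => ⟨fun h => p1_extR fun g => ?_, fun h => ?_⟩,
    fun x => ⟨fun h => p1_extL fun g => ?_, fun h => ?_⟩⟩
  · rw [h0, p1c_apply, Finsupp.notMem_support_iff.1 hg]
  · simp only [h0]
    rw [p1_counit, CoalgHomClass.counit_comp_apply]
  · rw [h0, map_one, h3, if_pos rfl]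
  · simp only [h0] at hx hy ⊢
    rw [map_mul, p1_single hx, p1_single hy, MonoidAlgebra.single_mul_single, p1c_apply,
      MonoidAlgebra.coeff_single, Finsupp.single_eq_of_ne hc]
  · rw [h0, h0, ← p1c_anti g]
    exact congrArg _ (LinearMap.congr_fun (p1_anti π) x)
  · rw [← hl, LinearMap.lTensor_tmul, TensorProduct.rid_tmul, h3]
    split_ifs with e
    · rw [← e, mem_Rt.1 h, one_smul]
    · rw [← mem_Rt.1 h, ← lact_mul, h2 g 1 (Ne.symm e), lact_zero, zero_smul]
  · rw [mem_Rt, hl, h, LinearMap.lTensor_tmul, TensorProduct.rid_tmul, h3, if_pos rfl, one_smul]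
  · rw [← hr, LinearMap.rTensor_tmul, TensorProduct.lid_tmul, h3]
    split_ifs with e
    · rw [← e, mem_Lt.1 h, one_smul]
    · rw [← mem_Lt.1 h, ← ract_mul, h2 1 g e, zero_smul]
      exact eq_of_du (k := k) fun θ => by rw [map_zero, du_ract, zero_mul]; rfl
  · rw [mem_Lt, hr, h, LinearMap.rTensor_tmul, TensorProduct.lid_tmul, h3, if_pos rfl, one_smul]

end Pool.Agent.Lib.MP_ff61db_al.Cg
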