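import Pool.Agent.Lib.MP_ff61db_al.Cg.BA0

/-! From the functionals to the two gradings. -/

namespace Pool.Agent.Lib.MP_ff61db_al.Cg

open Submodule TensorProduct

variable {k H : Type} [Field k] [Ring H] [HopfAlgebra k H] {Γ : Type} [Group Γ]

theorem bp2_ract_zero (x : H) : ract (0 : Du k H) x = 0 :=
  eq_of_du (k := k) fun θ => by rw [map_zero, du_ract, zero_mul]; rfl

theorem bp2_one {φ : Du k H} (h : φ ≠ 0) : ∃ x : H, φ.ofConv x = 1 := by
  obtain ⟨x, hx⟩ : ∃ x : H, φ.ofConv x ≠ 0 := by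
    by_contra e
    exact h (WithConv.ofConv_injective (LinearMap.ext fun x => not_not.1 fun hx => e ⟨x, hx⟩))
  exact ⟨(φ.ofConv x)⁻¹ • x, by rw [map_smul, smul_eq_mul, inv_mul_cancel₀ hx]⟩

theorem De.bp2_R {δ : Γ → Du k H} (h : De δ) {g : Γ} {z : H} (hz : z ∈ Rt δ g) :
    ∀ a ≠ g, (δ a).ofConv z = 0 := fun a ha => by
  rw [← mem_Rt.1 hz, du_lact, h.orth a g ha]
  rfl

theorem De.bp2_L {δ : Γ → Du k H} (h : De δ) {g : Γ} {z : H} (hz : z ∈ Lt δ g) :
    ∀ a ≠ g, (δ a).ofConv z = 0 := fun a ha => by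
  rw [← mem_Lt.1 hz, du_ract, h.orth g a ha.symm]
  rfl

theorem De.bp2_mul {δ : Γ → Du k H} (h : De δ) {g g' : Γ} {x y : H}
    (hx : ∀ a ≠ g, (δ a).ofConv x = 0) (hy : ∀ b ≠ g', (δ b).ofConv y = 0) :
    (δ (g * g')).ofConv (x * y) = Coalgebra.counit (R := k) (x * y) := by
  obtain ⟨s, h1, h2⟩ := h.fin (x * y)
  rw [← h2, Finset.sum_eq_single (g * g') (fun b _ hb => h.mul g g' x y hx hy b hb) (h1 _)]

theorem De.bp2_pR {δ : Γ → Du k H} (h : De δ) (g : Γ) (x : H) : lact (δ g) x ∈ Rt δ g := by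
  rw [mem_Rt, ← lact_mul, h.idem]

theorem De.bp2_qL {δ : Γ → Du k H} (h : De δ) (g : Γ) (x : H) : ract (δ g) x ∈ Lt δ g := by
  rw [mem_Lt, ← ract_mul, h.idem]

theorem De.supp {δ : Γ → Du k H} (h : De δ) :
    ∃ K : Subgroup Γ, De (fun g : K => δ g) ∧ ∀ g : K, δ g ≠ 0 := by
  classical
  let K : Subgroup Γ :=
    { carrier := {g | δ g ≠ 0}
      mul_mem' := fun {g g'} hg hg' e => by
        obtain ⟨x, hx⟩ := bp2_one hg
        obtain ⟨y, hy⟩ := bp2_one hg'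
        have h1 := h.bp2_mul (h.bp2_R (h.bp2_pR g x)) (h.bp2_R (h.bp2_pR g' y))
        rw [e, Bialgebra.counit_mul, counit_lact, counit_lact, hx, hy, mul_one] at h1
        exact zero_ne_one h1
      one_mem' := fun e => by
        have h1 := h.one
        rw [e] at h1
        exact zero_ne_one h1
      inv_mem' := fun {g} hg e => by
        obtain ⟨x, hx⟩ := bp2_one hg
        have h1 := h.anti g x
        rw [e, hx] at h1
        exact zero_ne_one h1 }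
  have hK : ∀ g, g ∉ K → ∀ x : H, (δ g).ofConv x = 0 := fun g hg x => by
    rw [not_not.1 (hg : ¬ δ g ≠ 0)]
    rfl
  have hv : ∀ (g : K) (x : H), (∀ a : K, a ≠ g → (δ a).ofConv x = 0) →
      ∀ a ≠ (g : Γ), (δ a).ofConv x = 0 := fun g x hx a ha => by
    by_cases e : a ∈ K
    · exact hx ⟨a, e⟩ fun e' => ha (congrArg Subtype.val e')
    · exact hK a e x
  refine ⟨K, ⟨fun g => h.idem g, fun g g' e => h.orth g g' fun e' => e (Subtype.ext e'),
    fun x => ?_, h.one, fun g g' x y hx hy c hc => h.mul g g' x y (hv g x hx) (hv g' y hy) c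
      fun e => hc (Subtype.ext e), fun g x => h.anti g x⟩, fun g => g.2⟩
  obtain ⟨s, h1, h2⟩ := h.fin x
  refine ⟨s.subtype (· ∈ K), fun g hg => h1 g fun e => hg (Finset.mem_subtype.2 e), ?_⟩
  rw [← h2, Finset.sum_subtype_eq_sum_filter (fun g => (δ g).ofConv x)]
  exact Finset.sum_filter_of_ne fun g _ hg => by
    by_contra e
    exact hg (hK g e x)

omit [Group Γ] in
theorem bp2_sum {δ : Γ → Du k H} (L : Du k H → H ⊗[k] H →ₗ[k] H)
    (hL : ∀ x y : H, ∃ s : Finset Γ, (∀ g ∉ s, L (δ g) (x ⊗ₜ y) = 0) ∧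
      ∑ g ∈ s, L (δ g) (x ⊗ₜ y) = L 1 (x ⊗ₜ y)) (t : H ⊗[k] H) :
    ∃ s : Finset Γ, (∀ g ∉ s, L (δ g) t = 0) ∧ ∑ g ∈ s, L (δ g) t = L 1 t := by
  classical
  induction t with
  | zero => exact ⟨∅, fun _ _ => map_zero _, by simp⟩
  | tmul x y => exact hL x y
  | add t t' ht ht' =>
    obtain ⟨s, h1, h2⟩ := ht
    obtain ⟨s', h3, h4⟩ := ht'
    refine ⟨s ∪ s', fun g hg => ?_, ?_⟩
    · rw [Finset.notMem_union] at hg
      rw [map_add, h1 g hg.1, h3 g hg.2, add_zero]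
    · simp only [map_add]
      rw [Finset.sum_add_distrib, ← h2, ← h4,
        ← Finset.sum_subset Finset.subset_union_left fun g _ hg => h1 g hg,
        ← Finset.sum_subset Finset.subset_union_right fun g _ hg => h3 g hg]

theorem bp2_tens {P Q P' Q' : Submodule k H} (F G : H ⊗[k] H →ₗ[k] H)
    (h : ∀ a ∈ P, ∀ b ∈ Q, ∀ a' ∈ P', ∀ b' ∈ Q',
      F ((a * a') ⊗ₜ (b * b')) = G ((a * a') ⊗ₜ (b * b'))) {u v : H ⊗[k] H}
    (hu : u ∈ LinearMap.range (TensorProduct.map P.subtype Q.subtype))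
    (hv : v ∈ LinearMap.range (TensorProduct.map P'.subtype Q'.subtype)) :
    F (u * v) = G (u * v) := by
  obtain ⟨s, rfl⟩ := hu
  obtain ⟨t, rfl⟩ := hv
  induction s with
  | zero => simp only [map_zero, zero_mul]
  | add s s' hs hs' => simp only [map_add, add_mul, hs, hs']
  | tmul a b =>
    induction t with
    | zero => simp only [map_zero, mul_zero]
    | add t t' ht ht' => simp only [map_add, mul_add, ht, ht']
    | tmul c d =>
      rw [map_tmul, map_tmul, Algebra.TensorProduct.tmul_mul_tmul]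
      exact h _ a.2 _ b.2 _ c.2 _ d.2

theorem De.bi {δ : Γ → Du k H} (h : De δ) (he : Rt δ 1 = Lt δ 1) (hne : ∀ g, δ g ≠ 0) : Bi δ := by
  let L : Du k H → H ⊗[k] H →ₗ[k] H := fun φ =>
    (TensorProduct.rid k H).toLinearMap ∘ₗ LinearMap.lTensor H φ.ofConv
  let R : Du k H → H ⊗[k] H →ₗ[k] H := fun φ =>
    (TensorProduct.lid k H).toLinearMap ∘ₗ LinearMap.rTensor H φ.ofConv
  have hL : ∀ φ x, lact φ x = L φ (Coalgebra.comul x) := fun _ _ => rfl
  have hR : ∀ φ x, ract φ x = R φ (Coalgebra.comul x) := fun _ _ => rfl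
  have tL : ∀ φ x y, L φ (x ⊗ₜ y) = φ.ofConv y • x := fun φ x y => by simp [L]
  have tR : ∀ φ x y, R φ (x ⊗ₜ y) = φ.ofConv x • y := fun φ x y => by simp [R]
  refine ⟨h.bp2_pR, h.bp2_qL, fun g g' e x hx => ?_, fun g g' e x hx => ?_, fun x => ?_,
    fun x => ?_, fun g g' => mul_le.2 fun x hx y hy => ?_,
    fun g g' => mul_le.2 fun x hx y hy => ?_, ?_, he, fun g => ?_, fun g => ?_, fun g => ?_⟩
  · rw [← mem_Rt.1 hx, ← lact_mul, h.orth g g' e, lact_zero]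
  · rw [← mem_Lt.1 hx, ← ract_mul, h.orth g' g e.symm, bp2_ract_zero]
  · obtain ⟨s, h1, h2⟩ := bp2_sum (δ := δ) L (fun x y => by
      obtain ⟨s, h1, h2⟩ := h.fin y
      refine ⟨s, fun g hg => by rw [tL, h1 g hg, zero_smul], ?_⟩
      simp only [tL]
      rw [← Finset.sum_smul, h2, du_one]) (Coalgebra.comul x)
    exact ⟨s, h1, h2.trans (lact_one x)⟩
  · obtain ⟨s, h1, h2⟩ := bp2_sum (δ := δ) R (fun x y => by
      obtain ⟨s, h1, h2⟩ := h.fin x
      refine ⟨s, fun g hg => by rw [tR, h1 g hg, zero_smul], ?_⟩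
      simp only [tR]
      rw [← Finset.sum_smul, h2, du_one]) (Coalgebra.comul x)
    exact ⟨s, h1, h2.trans (ract_one x)⟩
  · refine mem_Rt.2 (Eq.trans ?_ (lact_one (k := k) (x * y)))
    rw [hL, hL, Bialgebra.comul_mul]
    refine bp2_tens (P := ⊤) (P' := ⊤) _ _ (fun a _ b hb a' _ b' hb' => ?_)
      (comul_mem (fun _ => mem_top) fun φ => Rt_ract φ hx)
      (comul_mem (fun _ => mem_top) fun φ => Rt_ract φ hy)
    rw [tL, tL, du_one, h.bp2_mul (h.bp2_R hb) (h.bp2_R hb')]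
  · refine mem_Lt.2 (Eq.trans ?_ (ract_one (k := k) (x * y)))
    rw [hR, hR, Bialgebra.comul_mul]
    refine bp2_tens (Q := ⊤) (Q' := ⊤) _ _ (fun a ha b _ a' ha' b' _ => ?_)
      (comul_mem (fun φ => Lt_lact φ hx) fun _ => mem_top)
      (comul_mem (fun φ => Lt_lact φ hy) fun _ => mem_top)
    rw [tR, tR, du_one, h.bp2_mul (h.bp2_L ha) (h.bp2_L ha')]
  · rw [mem_Rt, hL, Bialgebra.comul_one, Algebra.TensorProduct.one_def, tL, h.one, one_smul]
  · rintro _ ⟨x, hx, rfl⟩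
    rw [mem_Lt, ract_antipode _ _ (h.anti g), mem_Rt.1 hx]
  · rintro _ ⟨x, hx, rfl⟩
    rw [mem_Rt, lact_antipode _ _ (h.anti g), mem_Lt.1 hx]
  · obtain ⟨x, hx⟩ := bp2_one (hne g)
    refine ⟨lact (δ g) (ract (δ g) x), h.bp2_pR g _, Lt_lact _ (h.bp2_qL g x), ?_⟩
    rw [counit_lact, du_ract, h.idem, hx]

end Pool.Agent.Lib.MP_ff61db_al.Cg
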