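import Pool.Agent.Lib.MP_ff61db_al.Cg.BQ1

/-! The cocentrally graded quotient. -/

namespace Pool.Agent.Lib.MP_ff61db_al.Cg

open Submodule TensorProduct

variable {k H : Type} [Field k] [Ring H] [HopfAlgebra k H] {Γ : Type} [Group Γ]

variable {δ : Γ → Du k H} {f : H}

theorem bq_comul {Q : Type} [Ring Q] [HopfAlgebra k Q] (π : H →ₐc[k] Q) (y : H) :
    Coalgebra.comul (R := k) (π y) =
      TensorProduct.map π.toLinearMap π.toLinearMap (Coalgebra.comul (R := k) y) :=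
  (LinearMap.congr_fun π.map_comp_comul y).symm

theorem bq_lact {Q : Type} [Ring Q] [HopfAlgebra k Q] (π : H →ₐc[k] Q) (φ : Du k Q) (y : H) :
    lact φ (π y) = π.toLinearMap (lact (WithConv.toConv (φ.ofConv ∘ₗ π.toLinearMap)) y) := by
  rw [lact, lact, LinearMap.comp_apply, LinearMap.comp_apply, LinearMap.comp_apply,
    LinearMap.comp_apply, bq_comul]
  generalize (Coalgebra.comul y : H ⊗[k] H) = t
  induction t with
  | zero => simp only [map_zero]
  | tmul x z =>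
    simp only [TensorProduct.map_tmul, LinearMap.lTensor_tmul, LinearEquiv.coe_coe,
      TensorProduct.rid_tmul, map_smul, LinearMap.comp_apply]
  | add s t hs ht => simp only [map_add, hs, ht]

theorem bq_ract {Q : Type} [Ring Q] [HopfAlgebra k Q] (π : H →ₐc[k] Q) (φ : Du k Q) (y : H) :
    ract φ (π y) = π.toLinearMap (ract (WithConv.toConv (φ.ofConv ∘ₗ π.toLinearMap)) y) := by
  rw [ract, ract, LinearMap.comp_apply, LinearMap.comp_apply, LinearMap.comp_apply,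
    LinearMap.comp_apply, bq_comul]
  generalize (Coalgebra.comul y : H ⊗[k] H) = t
  induction t with
  | zero => simp only [map_zero]
  | tmul x z =>
    simp only [TensorProduct.map_tmul, LinearMap.rTensor_tmul, LinearEquiv.coe_coe,
      TensorProduct.lid_tmul, map_smul, LinearMap.comp_apply]
  | add s t hs ht => simp only [map_add, hs, ht]

theorem bq_mulR (p : Pj δ f) (h : Bi δ) {c : Γ} {x : H} (hx : x ∈ Rt δ c) : f * x ∈ Rt δ c := by
  have := h.mulR 1 c (mul_mem_mul p.mem hx)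
  rwa [one_mul] at this

theorem bq_mulL (p : Pj δ f) (h : Bi δ) {c : Γ} {x : H} (hx : x ∈ Lt δ c) : f * x ∈ Lt δ c := by
  have := h.mulL 1 c (mul_mem_mul (h.eq ▸ p.mem) hx)
  rwa [one_mul] at this

theorem bq_f (p : Pj δ f) {Q : Type} [Ring Q] [HopfAlgebra k Q] (π : H →ₐc[k] Q)
    (hk : ∀ x, π x = 0 ↔ f * x = 0) (x : H) : π (f * x) = π x := by
  rw [← sub_eq_zero, ← map_sub, hk, mul_sub, ← mul_assoc, p.idem, sub_self]

theorem bq_dia (p : Pj δ f) (h : Bi δ) {Q : Type} [Ring Q] [HopfAlgebra k Q] (π : H →ₐc[k] Q)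
    (hk : ∀ x, π x = 0 ↔ f * x = 0) {c : Γ} {y : H} (hy : y ∈ Lt δ c) :
    π (lact (δ c) y) = π y := by
  obtain ⟨s, h1, h2⟩ := h.pS y
  conv_rhs => rw [← h2, map_sum]
  symm
  refine Finset.sum_eq_single c (fun t _ ht => ?_) fun hc => by rw [h1 c hc, map_zero]
  exact (hk _).2 (h.eq_zero_L ht (p.dia t _ (h.pR t y)) (bq_mulL p h (Lt_lact _ hy)))

theorem Pj.co (p : Pj δ f) (h : Bi δ) {Q : Type} [Ring Q] [HopfAlgebra k Q] (π : H →ₐc[k] Q)
    (hs : Function.Surjective π) (hk : ∀ x, π x = 0 ↔ f * x = 0) :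
    Co fun g => (Rt δ g).map π.toLinearMap := by
  refine ⟨fun g => ?_, ?_, fun g g' => ?_, fun g => ⟨fun φ => ?_, fun φ => ?_⟩⟩
  · rw [Submodule.disjoint_def]
    rintro _ ⟨x, hx, rfl⟩ hz
    have hle : (⨆ j, ⨆ (_ : j ≠ g), (Rt δ j).map π.toLinearMap) ≤
        (⨆ j, ⨆ (_ : j ≠ g), Rt δ j).map π.toLinearMap :=
      iSup₂_le fun j hj => map_mono (le_iSup₂_of_le (f := fun j (_ : j ≠ g) => Rt δ j) j hj le_rfl)
    obtain ⟨y, hy, e⟩ := hle hz
    have hf : (⨆ j, ⨆ (_ : j ≠ g), Rt δ j) ≤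
        (⨆ j, ⨆ (_ : j ≠ g), Rt δ j).comap (LinearMap.mulLeft k f) :=
      iSup₂_le fun j hj z hz =>
        le_iSup₂_of_le (f := fun j (_ : j ≠ g) => Rt δ j) j hj le_rfl (bq_mulR p h hz)
    have e1 : π (y - x) = 0 := by
      rw [map_sub, sub_eq_zero]
      exact e
    rw [hk, mul_sub, sub_eq_zero] at e1
    have e2 : f * y ∈ ⨆ j, ⨆ (_ : j ≠ g), Rt δ j := hf hy
    exact (hk x).2 (Submodule.disjoint_def.1 (h.indR g) _ (bq_mulR p h hx) (e1 ▸ e2))
  · rw [← Submodule.map_iSup, h.topR, Submodule.map_top]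
    exact LinearMap.range_eq_top.2 hs
  · refine mul_le.2 ?_
    rintro _ ⟨x, hx, rfl⟩ _ ⟨y, hy, rfl⟩
    exact ⟨x * y, h.mulR g g' (mul_mem_mul hx hy), map_mul π x y⟩
  · rintro _ ⟨x, hx, rfl⟩
    refine ⟨lact (δ g) (lact (WithConv.toConv (φ.ofConv ∘ₗ π.toLinearMap)) (f * x)),
      h.pR g _, ?_⟩
    have e1 := bq_dia p h π hk
      (Lt_lact (WithConv.toConv (φ.ofConv ∘ₗ π.toLinearMap)) (p.dia g x hx))
    have e2 := bq_lact π φ (f * x)
    rw [bq_f p π hk] at e2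
    exact e1.trans e2.symm
  · rintro _ ⟨x, hx, rfl⟩
    exact ⟨_, Rt_ract _ hx, (bq_ract π φ x).symm⟩

end Pool.Agent.Lib.MP_ff61db_al.Cg
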