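import Pool.Agent.Lib.MP_ff61db_al.Cg.BA

/-! The quotient by a central idempotent. -/

namespace Pool.Agent.Lib.MP_ff61db_al.Cg

open Submodule TensorProduct

variable {k H : Type} [Field k] [Ring H] [HopfAlgebra k H] {Γ : Type} [Group Γ]

variable {δ : Γ → Du k H} {f : H}

/-- The annihilator of a central element. -/
def bq1I (f : H) (h : ∀ x, f * x = x * f) : Ideal H where
  carrier := {x | f * x = 0}
  add_mem' := fun {a b} ha hb => by
    change f * (a + b) = 0
    rw [mul_add, ha, hb, add_zero]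
  zero_mem' := mul_zero f
  smul_mem' := fun c x hx => by
    change f * (c * x) = 0
    rw [← mul_assoc, h c, mul_assoc, hx, mul_zero]

theorem Pj.exists_quot (p : Pj δ f) : ∃ (Q : Type) (_ : Ring Q) (_ : HopfAlgebra k Q)
    (π : H →ₐc[k] Q), Function.Surjective π ∧ (∀ x, π x = 0 ↔ f * x = 0) ∧
      ∀ x, π (HopfAlgebra.antipode k x) = HopfAlgebra.antipode k (π x) := by
  have hmem : ∀ x, x ∈ bq1I f p.cen ↔ f * x = 0 := fun _ => Iff.rfl
  generalize bq1I f p.cen = I at hmem
  have h2 : I.IsTwoSided := ⟨fun {a} b ha => by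
    rw [hmem] at ha ⊢
    rw [← mul_assoc, ha, zero_mul]⟩
  have hf : Ideal.Quotient.mkₐ k I f = 1 := by
    rw [← map_one (Ideal.Quotient.mkₐ k I)]
    exact Ideal.Quotient.eq.2 ((hmem _).2 (by rw [mul_sub, p.idem, mul_one, sub_self]))
  have hD : Algebra.TensorProduct.map (Ideal.Quotient.mkₐ k I) (Ideal.Quotient.mkₐ k I)
      (Coalgebra.comul (R := k) f) = 1 := by
    have h := congrArg
      (Algebra.TensorProduct.map (Ideal.Quotient.mkₐ k I) (Ideal.Quotient.mkₐ k I)) p.cop
    rwa [map_mul, Algebra.TensorProduct.map_tmul, Algebra.TensorProduct.map_tmul, hf, map_one,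
      ← Algebra.TensorProduct.one_def, one_mul] at h
  have h3 : I.IsHopfIdeal k :=
    { counit_eq_zero := fun x hx => by
        have h := congrArg (Coalgebra.counit (R := k)) ((hmem x).1 hx)
        rwa [Bialgebra.counit_mul, p.eps, one_mul, map_zero] at h
      map_mkQ_comul_eq_zero := fun x hx => by
        have h := congrArg (fun y => Algebra.TensorProduct.map (Ideal.Quotient.mkₐ k I)
          (Ideal.Quotient.mkₐ k I) (Coalgebra.comul (R := k) y)) ((hmem x).1 hx)
        simp only [Bialgebra.comul_mul, map_mul, hD, one_mul, map_zero] at h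
        exact h
      antipode_mem := fun x hx => by
        rw [hmem] at hx ⊢
        rw [← p.anti, ← HopfAlgebra.antipode_mul_antidistrib, ← p.cen, hx, map_zero] }
  exact ⟨H ⧸ I, inferInstance, inferInstance, Bialgebra.Quotient.mkBialgHom I,
    Ideal.Quotient.mk_surjective, fun x => Ideal.Quotient.eq_zero_iff_mem.trans (hmem x),
    fun x => rfl⟩

theorem growth_map {Q : Type} [Ring Q] [HopfAlgebra k Q] (π : H →ₐc[k] Q)
    (hs : Function.Surjective π) {V : Submodule k H} (hV : Growth V)
    (hgen : Algebra.adjoin k (V : Set H) = ⊤) : Growth (V.map π.toLinearMap) ∧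
      Algebra.adjoin k (V.map π.toLinearMap : Set Q) = ⊤ := by
  have e : π.toLinearMap = (π : H →ₐ[k] Q).toLinearMap := rfl
  have hp : ∀ n : ℕ, (V.map π.toLinearMap) ^ n = (V ^ n).map π.toLinearMap := fun n => by
    rw [e, Submodule.map_pow]
  refine ⟨⟨hV.fg.map _, ⟨1, hV.one, map_one π⟩, ?_⟩, ?_⟩
  · obtain ⟨d, C, h⟩ := hV.poly
    refine ⟨d, C, fun n => ?_⟩
    have : Module.Finite k (V ^ n : Submodule k H) := Module.Finite.iff_fg.2 (hV.fg.pow n)
    rw [hp]
    exact (Submodule.finrank_map_le _ _).trans (h n)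
  · have h := AlgHom.map_adjoin (π : H →ₐ[k] Q) (V : Set H)
    rw [hgen, Algebra.map_top, (AlgHom.range_eq_top _).2 hs] at h
    exact h.symm

end Pool.Agent.Lib.MP_ff61db_al.Cg
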