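import Pool.Agent.Lib.MP_ff61db_al.Cg.TopA
import Pool.Agent.Lib.MP_ff61db_al.Cg.HC

/-! The grading of the image of the antipode. -/

namespace Pool.Agent.Lib.MP_ff61db_al.Cg

open Submodule TensorProduct

variable {k H : Type} [Field k] [Ring H] [HopfAlgebra k H] {Γ : Type} [Group Γ]

theorem topB_ne {X : Submodule k H} {x : H} (hx : x ∈ X) (h : Coalgebra.counit (R := k) x = 1) :
    X ≠ ⊥ := fun e => by
  rw [show x = 0 from (mem_bot k).1 (e ▸ hx), map_zero] at h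
  exact zero_ne_one h

theorem topB_Sm {X : Submodule k H} (hX : Cl X) (h : X ≠ ⊥) : Sm X ≠ ⊥ :=
  (exists_counit hX h).elim fun _ hx => Sm_ne_bot hx.1 hx.2

theorem topB_pre {P Y : Submodule k H} (h : Y ≤ Sm P) (hY : Y.FG) :
    ∃ W : Submodule k H, W.FG ∧ W ≤ P ∧ Y ≤ Sm W := by
  obtain ⟨s, rfl⟩ := hY
  choose p h1 h2 using fun y : s => h (subset_span y.2)
  refine ⟨span k (Set.range p), fg_span (Set.finite_range p),
    span_le.2 (Set.range_subset_iff.2 h1), span_le.2 fun y hy => ?_⟩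
  exact ⟨p ⟨y, hy⟩, subset_span ⟨_, rfl⟩, h2 ⟨y, hy⟩⟩

theorem Co.exists_gr {A : Γ → Submodule k H} (h : Co A) :
    ∃ (K : Subgroup Γ) (B : K → Submodule k H), Gr B ∧ (⨆ g, B g) = Sm ⊤ ∧ B 1 = Sm (A 1) := by
  let K : Subgroup Γ :=
    { carrier := {g | A g ≠ ⊥}
      one_mem' := topB_ne h.one Bialgebra.counit_one
      mul_mem' := fun {a b} ha hb => by
        obtain ⟨x, hx, h1⟩ := exists_counit (h.cl a) ha
        obtain ⟨y, hy, h2⟩ := exists_counit (h.cl b) hb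
        exact topB_ne (h.mul a b (mul_mem_mul hx hy))
          (by rw [Bialgebra.counit_mul, h1, h2, mul_one])
      inv_mem' := fun {a} ha e => topB_Sm (h.cl a) ha (eq_bot_iff.2 (e ▸ h.anti a)) }
  have le : ∀ g : Γ, Sm (A g⁻¹) ≤ A g := fun g => (h.anti g⁻¹).trans_eq (by rw [inv_inv])
  refine ⟨K, fun g => Sm (A (g : Γ)⁻¹), ⟨(h.ind.comp Subtype.val_injective).mono fun g => le g,
    ⟨1, by simpa using h.one, HopfAlgebra.antipode_one⟩, fun a b => ?_, fun g => cl_Sm (h.cl _),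
    fun g => topB_Sm (h.cl _) (K.inv_mem g.2), fun g => ?_, fun g Y h1 h2 => ?_⟩,
    le_antisymm (iSup_le fun g => map_mono le_top) ?_, by simp⟩
  · rw [← Sm_mul, Subgroup.coe_mul, mul_inv_rev]
    exact map_mono (h.mul _ _)
  · rw [Subgroup.coe_inv, inv_inv]
    exact map_mono (le g)
  · obtain ⟨W, w1, w2, w3⟩ := topB_pre h1 h2
    obtain ⟨Z, z1, z2, z3, z4⟩ := exists_fd W w1
    exact ⟨Z, z1, z2, w3.trans (map_mono z3), map_mono (z4 _ (h.cl _) w2)⟩
  · rw [← h.top, Sm, Submodule.map_iSup]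
    refine iSup_le fun g => ?_
    by_cases hg : A g = ⊥
    · rw [hg, Submodule.map_bot]
      exact bot_le
    · exact le_iSup_of_le (⟨g⁻¹, K.inv_mem hg⟩ : K) (by simp only [inv_inv, le_refl])

theorem Co.inj {A : Γ → Submodule k H} (h : Co A)
    (h1 : ∀ x ∈ A 1, HopfAlgebra.antipode k x = 0 → x = 0) :
    Function.Injective (HopfAlgebra.antipode k : H →ₗ[k] H) := by
  have h2 : ∀ g, ∀ x ∈ A g, HopfAlgebra.antipode k x = 0 → x = 0 := fun g x hx h0 => by
    by_cases hg : A g = ⊥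
    · exact (mem_bot k).1 (hg ▸ hx)
    have h3 : ∀ w ∈ Sm (A g) * A g, x * w = 0 := fun w hw => by
      refine Submodule.mul_induction_on hw (fun y hy z _ => ?_) fun a b ha hb => ?_
      · have h4 := h.mul g g⁻¹ (mul_mem_mul hx (h.anti g hy))
        rw [mul_inv_cancel] at h4
        rw [← mul_assoc, h1 _ h4 (by rw [HopfAlgebra.antipode_mul_antidistrib, h0, mul_zero]),
          zero_mul]
      · rw [mul_add, ha, hb, add_zero]
    exact (mul_one x).symm.trans (h3 1 (one_mem_Sm_mul (h.cl g) hg))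
  refine (injective_iff_map_eq_zero _).2 fun x hx => ?_
  obtain ⟨f, f1, rfl⟩ := (mem_iSup_iff_exists_finsupp A x).1 (h.top ▸ mem_top)
  rw [Finsupp.sum, map_sum] at hx
  exact Finset.sum_eq_zero fun g hg => h2 g _ (f1 g)
    ((iSupIndep_iff_finsetSum_eq_zero_imp_eq_zero _).1 (h.ind.comp inv_injective) _ _
      (fun g _ => h.anti g (mem_map_of_mem (f1 g))) hx g hg)

end Pool.Agent.Lib.MP_ff61db_al.Cg
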