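import Pool.Agent.Lib.MP_ff61db_al.Cg.BA
import Pool.Agent.Lib.MP_ff61db_al.Cg.TopB

/-! Finite generation comes back from the quotient. -/

namespace Pool.Agent.Lib.MP_ff61db_al.Cg

open Submodule TensorProduct

variable {k H : Type} [Field k] [Ring H] [HopfAlgebra k H] {Γ : Type} [Group Γ]

variable {δ : Γ → Du k H} {f : H}

/-- Contraction of the right factor. -/
noncomputable def btR (φ : H →ₗ[k] k) : H ⊗[k] H →ₗ[k] H :=
  (TensorProduct.rid k H).toLinearMap ∘ₗ LinearMap.lTensor H φ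

theorem bt_lact (φ : H →ₗ[k] k) (x : H) :
    btR φ (Coalgebra.comul x) = lact (WithConv.toConv φ) x := rfl

theorem bt_right (φ : H →ₗ[k] k) (t : H ⊗[k] H) (c : H) : btR φ (t * c ⊗ₜ 1) = btR φ t * c := by
  induction t with
  | zero => simp
  | tmul x y => simp [btR]
  | add s t hs ht => simp only [add_mul, map_add, hs, ht]

theorem bt_left (φ : H →ₗ[k] k) (t : H ⊗[k] H) (a : H) :
    btR φ (1 ⊗ₜ a * t) = btR (φ ∘ₗ LinearMap.mulLeft k a) t := by
  induction t with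
  | zero => simp
  | tmul x y => simp [btR]
  | add s t hs ht => simp only [mul_add, map_add, hs, ht]

theorem bt_key (z : H) : LinearMap.mul' k (H ⊗[k] H) (TensorProduct.map
      (TensorProduct.mk k H H 1) (Coalgebra.comul ∘ₗ HopfAlgebra.antipode k)
      (Coalgebra.comul z)) = HopfAlgebra.antipode k z ⊗ₜ 1 := by
  have h1 := ha_inv (Algebra.TensorProduct.includeLeft : H →ₐ[k] H ⊗[k] H)
  have h2 := LinearMap.comul_right_inv (R := k) (C := H)
  have h3 : WithConv.toConv (Coalgebra.comul (R := k) (A := H)) =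
      WithConv.toConv (Algebra.TensorProduct.includeLeft : H →ₐ[k] H ⊗[k] H).toLinearMap *
        WithConv.toConv (TensorProduct.mk k H H 1) := by
    ext c
    rw [(Coalgebra.Repr.arbitrary k c).convMul_apply]
    simpa using (Coalgebra.Repr.arbitrary k c).eq.symm
  rw [h3, mul_assoc] at h2
  exact (congrArg (fun g => g.ofConv z) (left_inv_eq_right_inv h1 h2)).symm

theorem bt_stable (p : Pj δ f) (h : Bi δ) {B : Submodule k H} (hB : Cl B)
    (hf : ∀ b ∈ Sm (Rt δ 1), f * b ∈ B) (φ : H →ₗ[k] k) :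
    ∀ c ∈ Sm (Rt δ 1), lact (WithConv.toConv φ) f * c ∈ B := by
  rintro _ ⟨z, hz, rfl⟩
  obtain ⟨t, ht⟩ := h.cl_one.isSub z hz
  rw [← bt_lact, ← bt_right, ← bt_key, ← ht]
  clear ht
  induction t with
  | zero => simp
  | tmul u v =>
    simp only [TensorProduct.map_tmul, LinearMap.mul'_apply, LinearMap.comp_apply,
      TensorProduct.mk_apply, Submodule.subtype_apply]
    rw [← mul_assoc, ← p.com _ u.2, mul_assoc, ← Bialgebra.comul_mul, bt_left, bt_lact]
    exact hB.l _ _ (hf _ ⟨v, v.2, rfl⟩)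
  | add s t hs ht =>
    simp only [map_add, mul_add]
    exact add_mem hs ht

theorem bt_mul (h : Bi δ) : Sm (Rt δ 1) * Sm (Rt δ 1) ≤ Sm (Rt δ 1) := by
  rw [← Sm_mul]
  exact map_mono ((h.mulR 1 1).trans_eq (by rw [mul_one]))

theorem Pj.transfer (p : Pj δ f) (h : Bi δ) {B : Submodule k H} (hB : Cl B)
    (hf : ∀ b ∈ Sm (Rt δ 1), f * b ∈ B) : Sm (Rt δ 1) ≤ B := by
  let N : Submodule k H := ⨅ b ∈ Sm (Rt δ 1), B.comap (LinearMap.mulRight k b)
  have hN : ∀ l, l ∈ N ↔ ∀ b ∈ Sm (Rt δ 1), l * b ∈ B := fun l => by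
    simp only [N, mem_iInf, mem_comap, LinearMap.mulRight_apply]
  obtain ⟨t, ht⟩ := comul_mem (P := N) (Q := Rt δ 1) (x := f)
    (fun φ => (hN _).2 (bt_stable p h hB hf φ.ofConv)) fun φ => Rt_ract φ p.mem
  have e := HopfAlgebra.mul_antipode_lTensor_comul_apply (R := k) f
  rw [p.eps, map_one, ← ht] at e
  intro b hb
  rw [← one_mul b, ← e]
  clear e ht
  induction t with
  | zero => simp only [map_zero, zero_mul]; exact zero_mem _
  | add s t hs ht => simp only [map_add, add_mul]; exact add_mem hs ht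
  | tmul l r =>
    rw [map_tmul, LinearMap.lTensor_tmul, LinearMap.mul'_apply, mul_assoc]
    exact (hN _).1 l.2 _ (bt_mul h (mul_mem_mul (mem_map_of_mem r.2) hb))

theorem Pj.aff (p : Pj δ f) (h : Bi δ) {Q : Type} [Ring Q] [HopfAlgebra k Q] (π : H →ₐc[k] Q)
    (hk : ∀ x, π x = 0 ↔ f * x = 0)
    (hS : ∀ x, π (HopfAlgebra.antipode k x) = HopfAlgebra.antipode k (π x))
    (haff : Aff (Sm ((Rt δ 1).map π.toLinearMap))) : Aff (Sm (Rt δ 1)) := by
  obtain ⟨V, ⟨s, rfl⟩, hV⟩ := haff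
  have h0 : ∀ y : s, ∃ a ∈ Rt δ 1, π (HopfAlgebra.antipode k a) = y := fun y => by
    obtain ⟨_, ⟨a, ha, rfl⟩, e⟩ : (y : Q) ∈ Sm ((Rt δ 1).map π.toLinearMap) :=
      hV ▸ le_gen _ (subset_span y.2)
    exact ⟨a, ha, (hS a).trans e⟩
  choose a h1 h2 using h0
  obtain ⟨C, c1, c2, c3, c4⟩ := exists_fd (span k (insert f (Set.range a)))
    (fg_span ((Set.finite_range a).insert f))
  have c5 : C ≤ Rt δ 1 :=
    c4 _ h.cl_one (span_le.2 (Set.insert_subset p.mem (Set.range_subset_iff.2 h1)))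
  have h3 : gen (span k (s : Set Q)) ≤ (gen (Sm C)).map π.toLinearMap := by
    refine gen_le (span_le.2 fun y hy => ?_) ⟨1, one_mem_gen _, map_one π⟩ (mul_le.2 ?_)
    · exact ⟨_, le_gen _ (mem_map_of_mem (c3 (subset_span (Set.mem_insert_of_mem _
        ⟨⟨y, hy⟩, rfl⟩)))), h2 ⟨y, hy⟩⟩
    · rintro _ ⟨x, hx, rfl⟩ _ ⟨y, hy, rfl⟩
      exact ⟨x * y, gen_mul_gen _ (mul_mem_mul hx hy), map_mul π x y⟩
  refine ⟨Sm C, c1.map _, le_antisymm
    (gen_le (map_mono c5) ⟨1, h.one, HopfAlgebra.antipode_one⟩ (bt_mul h))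
    (p.transfer h (cl_gen (cl_Sm c2)) ?_)⟩
  rintro _ ⟨b, hb, rfl⟩
  obtain ⟨c, hc, e⟩ := h3 (hV.ge (show π (HopfAlgebra.antipode k b) ∈ _ from
    ⟨π b, mem_map_of_mem hb, (hS b).symm⟩))
  have e2 := (hk (HopfAlgebra.antipode k b - c)).1 (by rw [map_sub]; exact sub_eq_zero.2 e.symm)
  rw [mul_sub, sub_eq_zero] at e2
  rw [e2]
  exact gen_mul_gen _ (mul_mem_mul
    (le_gen _ ⟨f, c3 (subset_span (Set.mem_insert _ _)), p.anti⟩) hc)

end Pool.Agent.Lib.MP_ff61db_al.Cg
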