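import Pool.Agent.Lib.MP_ff61db_al.Cg.DDefs

/-! Words in layers. -/

namespace Pool.Agent.Lib.MP_ff61db_al.Cg

open Submodule TensorProduct

variable {k H : Type} [Field k] [Ring H] [HopfAlgebra k H] {L : ℕ → Submodule k H}

theorem dl2_zero (n : ℕ) : Gw L 0 n = 1 := rfl

theorem Gw_succ (l n : ℕ) : Gw L (l + 1) n = ⨆ (i : ℕ) (j : ℕ) (_ : i + j ≤ n), L i * Gw L l j := by
  rfl

theorem mul_le_Gw {i j n : ℕ} (l : ℕ) (h : i + j ≤ n) : L i * Gw L l j ≤ Gw L (l + 1) n := by
  rw [Gw_succ]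
  exact le_iSup_of_le i (le_iSup_of_le j (le_iSup_of_le h le_rfl))

theorem dl2_le {l n : ℕ} {M : Submodule k H}
    (h : ∀ i j, i + j ≤ n → L i * Gw L l j ≤ M) : Gw L (l + 1) n ≤ M := by
  rw [Gw_succ]
  exact iSup_le fun i => iSup_le fun j => iSup_le fun hij => h i j hij

theorem dl2_mono (l : ℕ) {n n' : ℕ} (hn : n ≤ n') : Gw L l n ≤ Gw L l n' := by
  cases l with
  | zero => exact le_rfl
  | succ l => exact dl2_le fun i j hij => mul_le_Gw l (hij.trans hn)

theorem Gw_mono (h1 : (1 : H) ∈ L 0) {l l' n n' : ℕ} (hl : l ≤ l') (hn : n ≤ n') :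
    Gw L l n ≤ Gw L l' n' := by
  induction l', hl using Nat.le_induction with
  | base => exact dl2_mono l hn
  | succ m _ ih => exact ih.trans ((le_one_mul h1).trans (mul_le_Gw m (by omega)))

theorem Gw_mul (l n l' n' : ℕ) : Gw L l n * Gw L l' n' ≤ Gw L (l + l') (n + n') := by
  induction l generalizing n with
  | zero =>
    rw [dl2_zero, one_mul, Nat.zero_add]
    exact dl2_mono l' (by omega)
  | succ l ih =>
    rw [Gw_succ, show l + 1 + l' = l + l' + 1 by omega]
    simp only [Submodule.iSup_mul]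
    refine iSup_le fun i => iSup_le fun j => iSup_le fun hij => ?_
    rw [mul_assoc]
    exact (mul_le_mul' le_rfl (ih j)).trans (mul_le_Gw _ (by omega))

theorem le_Gw (i : ℕ) : L i ≤ Gw L 1 i := by
  have h : L i * Gw L 0 0 ≤ Gw L (0 + 1) i := mul_le_Gw 0 (by omega)
  rwa [dl2_zero, mul_one] at h

theorem Gw_cl (h : ∀ i, Cl (L i)) (l n : ℕ) : Cl (Gw L l n) := by
  induction l generalizing n with
  | zero => exact cl_one
  | succ l ih =>
    rw [Gw_succ]
    exact cl_iSup fun i => cl_iSup fun j => cl_iSup fun _ => cl_mul (h i) (ih j)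

theorem Gw_le_pow {W : Submodule k H} (h : ∀ i, L i ≤ W) (l n : ℕ) : Gw L l n ≤ W ^ l := by
  induction l generalizing n with
  | zero => rw [dl2_zero, pow_zero]
  | succ l ih =>
    rw [pow_succ']
    exact dl2_le fun i j _ => mul_le_mul' (h i) (ih j)

theorem Gw_le {L' : ℕ → Submodule k H} (h : ∀ i, L i ≤ L' i) (l n : ℕ) : Gw L l n ≤ Gw L' l n := by
  induction l generalizing n with
  | zero => exact le_rfl
  | succ l ih => exact dl2_le fun i j hij => (mul_le_mul' (h i) (ih j)).trans (mul_le_Gw l hij)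

theorem Gw_le_LW (l n : ℕ) : Gw L l n ≤ LW L n := by
  exact le_iSup (fun l => Gw L l n) l

theorem one_mem_LW (n : ℕ) : (1 : H) ∈ LW L n := by
  exact Gw_le_LW 0 n (one_le.1 le_rfl)

theorem LW_mul (n n' : ℕ) : LW L n * LW L n' ≤ LW L (n + n') := by
  have h : ∀ l l', Gw L l n * Gw L l' n' ≤ LW L (n + n') :=
    fun l l' => (Gw_mul l n l' n').trans (Gw_le_LW _ _)
  generalize LW L (n + n') = M at h ⊢
  simp only [LW, Submodule.iSup_mul, Submodule.mul_iSup]
  exact iSup_le fun _ => iSup_le fun _ => h _ _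

theorem LW_cl (h : ∀ i, Cl (L i)) (n : ℕ) : Cl (LW L n) := by
  exact cl_iSup fun l => Gw_cl h l n

theorem LW_mono : Monotone (LW L) := by
  intro n n' hn
  exact iSup_le fun l => (dl2_mono l hn).trans (Gw_le_LW l n')

theorem gen_le_LW (D : ℕ) : gen (L D) ≤ ⨆ n, LW L n := by
  refine gen_le (((le_Gw D).trans (Gw_le_LW 1 D)).trans (le_iSup (LW L) D))
    (le_iSup (LW L) 0 (one_mem_LW 0)) ?_
  have h : ∀ n n', LW L n * LW L n' ≤ ⨆ n, LW L n :=
    fun n n' => (LW_mul n n').trans (le_iSup (LW L) _)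
  have key : ∀ M : Submodule k H, (∀ n n', LW L n * LW L n' ≤ M) →
      (⨆ n, LW L n) * (⨆ n, LW L n) ≤ M := by
    intro M hM
    simp only [Submodule.iSup_mul, Submodule.mul_iSup]
    exact iSup_le fun _ => iSup_le fun _ => hM _ _
  exact key _ h

theorem LW_le_gen {D : ℕ} (h : ∀ i, L i ≤ L D) (n : ℕ) : LW L n ≤ gen (L D) := by
  refine iSup_le fun l => ?_
  induction l generalizing n with
  | zero => exact one_le.2 (one_mem_gen _)
  | succ l ih =>
    exact dl2_le fun i j _ =>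
      (mul_le_mul' ((h i).trans (le_gen _)) (ih j)).trans (gen_mul_gen _)

theorem gen_le_Gw (h1 : (1 : H) ∈ L 0) (D : ℕ) {z : H} (hz : z ∈ gen (L D)) :
    ∃ n, z ∈ Gw L (2 * n + 1) n := by
  have hm : Monotone fun n => Gw L (2 * n + 1) n :=
    fun a b hab => Gw_mono h1 (by omega) hab
  have hle : gen (L D) ≤ ⨆ n, Gw L (2 * n + 1) n := by
    refine (gen_le_LW D).trans (iSup_le fun n => iSup_le fun l => ?_)
    exact le_iSup_of_le (l + n) (Gw_mono h1 (by omega) (by omega))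
  exact (mem_iSup_of_directed _ hm.directed_le).1 (hle hz)

end Pool.Agent.Lib.MP_ff61db_al.Cg
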