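import Pool.Agent.Lib.MP_ff61db_al.Cg.DH2
import Pool.Agent.Lib.MP_ff61db_al.Cg.DL2

/-! The adjoint action. -/

namespace Pool.Agent.Lib.MP_ff61db_al.Cg

open Submodule TensorProduct

variable {k H U : Type} [Field k] [Ring H] [HopfAlgebra k H] [Ring U] [HopfAlgebra k U] {ι : Type}
  {π : H →ₐc[k] U}

theorem da0_inv {B : Type} [Ring B] [Algebra k B] (f : H →ₐ[k] B) :
    WithConv.toConv (f.toLinearMap ∘ₗ HopfAlgebra.antipode k) * WithConv.toConv f.toLinearMap = 1 ∧
    WithConv.toConv f.toLinearMap * WithConv.toConv (f.toLinearMap ∘ₗ HopfAlgebra.antipode k) =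
      1 := by
  constructor <;> ext c <;> rw [(Coalgebra.Repr.arbitrary k c).convMul_apply]
  · have := congrArg f
      (HopfAlgebra.sum_antipode_mul_eq_algebraMap_counit (Coalgebra.Repr.arbitrary k c))
    simpa using this
  · have := congrArg f
      (HopfAlgebra.sum_mul_antipode_eq_algebraMap_counit (Coalgebra.Repr.arbitrary k c))
    simpa using this

theorem da0_conv (y : H) : WithConv.toConv (adm k y) =
    WithConv.toConv (LinearMap.mulRight k y) * WithConv.toConv (HopfAlgebra.antipode k) := rfl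

theorem da0_map {B : Type} [Ring B] [Algebra k B] (f : H →ₐ[k] B) (y s : H) : f (adm k y s) =
    (WithConv.toConv (LinearMap.mulRight k (f y) ∘ₗ f.toLinearMap) *
      WithConv.toConv (f.toLinearMap ∘ₗ HopfAlgebra.antipode k)).ofConv s := by
  change f ((WithConv.toConv (adm k y)).ofConv s) = _
  rw [da0_conv, (Coalgebra.Repr.arbitrary k s).convMul_apply,
    (Coalgebra.Repr.arbitrary k s).convMul_apply]
  simp

theorem adm_id (y z : H) :
    LinearMap.mul' k H (LinearMap.rTensor H (adm k y) (Coalgebra.comul (R := k) z)) = z * y := by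
  have h1 : WithConv.toConv (HopfAlgebra.antipode k) *
      WithConv.toConv (LinearMap.id : H →ₗ[k] H) = 1 := (da0_inv (AlgHom.id k H)).1
  have h2 : WithConv.toConv (adm k y) * WithConv.toConv (LinearMap.id : H →ₗ[k] H) =
      WithConv.toConv (LinearMap.mulRight k y) := by rw [da0_conv, mul_assoc, h1, mul_one]
  exact congrArg (fun f : WithConv (H →ₗ[k] H) => f.ofConv z) h2

theorem adm_mem {y : H} (hy : y ∈ Rw π 1) (s : H) : adm k y s ∈ Rw π 1 := by
  rw [mem_A] at hy ⊢
  let i : H →ₐ[k] H ⊗[k] U := Algebra.TensorProduct.includeLeft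
  let j : H →ₐ[k] H ⊗[k] U := Algebra.TensorProduct.includeRight.comp (π : H →ₐ[k] U)
  have key : ∀ c : H, WithConv.toConv (LinearMap.mulRight k (c ⊗ₜ[k] (1 : U)) ∘ₗ
      (rho π).toLinearMap) = WithConv.toConv (LinearMap.mulRight k (i c) ∘ₗ i.toLinearMap) *
        WithConv.toConv j.toLinearMap := fun c => by
    ext x
    rw [(Coalgebra.Repr.arbitrary k x).convMul_apply]
    simp only [LinearMap.comp_apply, AlgHom.toLinearMap_apply, LinearMap.mulRight_apply, rho_apply]
    rw [← (Coalgebra.Repr.arbitrary k x).eq, map_sum, Finset.sum_mul]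
    simp [i, j]
    rfl
  have h1 : WithConv.toConv (rho π).toLinearMap =
      WithConv.toConv i.toLinearMap * WithConv.toConv j.toLinearMap := by
    simpa only [← Algebra.TensorProduct.one_def, map_one, LinearMap.mulRight_one,
      LinearMap.id_comp] using key 1
  have h2 : WithConv.toConv ((rho π).toLinearMap ∘ₗ HopfAlgebra.antipode k) =
      WithConv.toConv (j.toLinearMap ∘ₗ HopfAlgebra.antipode k) *
        WithConv.toConv (i.toLinearMap ∘ₗ HopfAlgebra.antipode k) := by
    refine left_inv_eq_right_inv (da0_inv (rho π)).1 ?_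
    rw [h1, mul_assoc, ← mul_assoc (WithConv.toConv j.toLinearMap), (da0_inv j).2, one_mul,
      (da0_inv i).2]
  rw [da0_map, hy, key, h2, mul_assoc, ← mul_assoc (WithConv.toConv j.toLinearMap), (da0_inv j).2,
    one_mul, ← da0_map]
  rfl

end Pool.Agent.Lib.MP_ff61db_al.Cg
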