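import Pool.Agent.Lib.MP_ff61db_al.Cg.DA0

/-! The adjoint action. -/

namespace Pool.Agent.Lib.MP_ff61db_al.Cg

open Submodule TensorProduct

variable {k H U : Type} [Field k] [Ring H] [HopfAlgebra k H] [Ring U] [HopfAlgebra k U] {ι : Type}
  {π : H →ₐc[k] U}

theorem da1_apply (y s : H) : adm k y s = LinearMap.mul' k H
    (TensorProduct.map (LinearMap.mulRight k y) (HopfAlgebra.antipode k) (Coalgebra.comul s)) := rfl

theorem da1_tmul (y s u : H) : LinearMap.mul' k H
    (TensorProduct.map (LinearMap.mulRight k y) (HopfAlgebra.antipode k) (s ⊗ₜ[k] u)) =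
      s * y * HopfAlgebra.antipode k u := by
  rw [TensorProduct.map_tmul, LinearMap.mul'_apply, LinearMap.mulRight_apply]

theorem adm_Gw {A : Submodule k H} {L : ℕ → Submodule k H} {D : ℕ} (hL : Lay A L D) {i l n : ℕ} {s y : H}
    (hs : s ∈ L i) (hy : y ∈ Gw (Lp L) l n) : adm k y s ∈ Gw (Lp L) (l + 2) (n + i) := by
  have h1 : (1 : H) ∈ Lp L 0 := mem_sup_left hL.one
  rw [da1_apply]
  have hc := hL.cop i s hs
  generalize Coalgebra.comul (R := k) s = t at hc
  induction hc using span_induction with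
  | mem t ht =>
    obtain ⟨a, b, s1, s2, ha, hb, hab, rfl⟩ := ht
    rw [da1_tmul]
    have e1 : s1 ∈ Gw (Lp L) 1 a := le_Gw a (mem_sup_left ha)
    have e2 : HopfAlgebra.antipode k s2 ∈ Gw (Lp L) 1 b :=
      le_Gw b (mem_sup_right (mem_map_of_mem hb))
    have e3 := Gw_mul (1 + l) (a + n) 1 b (mul_mem_mul (Gw_mul 1 a l n (mul_mem_mul e1 hy)) e2)
    exact Gw_mono h1 (by omega) (by omega) e3
  | zero => rw [map_zero, map_zero]; exact zero_mem _
  | add s t _ _ hs ht => rw [map_add, map_add]; exact add_mem hs ht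
  | smul c t _ ht => rw [map_smul, map_smul]; exact smul_mem _ _ ht

theorem adm_zero {P B : Submodule k H} (hP : Cl P) (h1 : P ≤ B) (h2 : Sm P ≤ B) (hm : B * B ≤ B)
    {s y : H} (hs : s ∈ P) (hy : y ∈ B) : adm k y s ∈ B := by
  obtain ⟨t, ht⟩ := hP.isSub s hs
  rw [da1_apply, ← ht]
  clear ht
  induction t with
  | zero => rw [map_zero, map_zero, map_zero]; exact zero_mem _
  | tmul u v =>
    rw [TensorProduct.map_tmul, da1_tmul]
    exact hm (mul_mem_mul (hm (mul_mem_mul (h1 u.2) hy)) (h2 (mem_map_of_mem v.2)))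
  | add s t hs ht => rw [map_add, map_add, map_add]; exact add_mem hs ht

end Pool.Agent.Lib.MP_ff61db_al.Cg
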