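import Pool.Agent.Lib.MP_ff61db_al.Cg.DA6

/-! Passing coefficients through layers. -/

namespace Pool.Agent.Lib.MP_ff61db_al.Cg

open Submodule TensorProduct

variable {k H : Type} [Field k] [Ring H] [HopfAlgebra k H] {ι : Type} {x : ι → H} {e : ι → ℕ}
  {A : Submodule k H} {L Y B : ℕ → Submodule k H} {D : ℕ}

theorem LW_pass (hm : Monotone B) (h1 : (1 : H) ∈ B 0) (hmul : ∀ n, B n * B n ≤ B n)
    (hp : ∀ c n, L c * B n ≤ ⨆ (i : ℕ) (j : ℕ) (_ : i + j ≤ c), B (n + i) * L j)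
    (r1 : ∀ c, L c ≤ B 0 * Wq k x e (c + 1) 0) (d n : ℕ) :
    LW L d * B n ≤ B (n + d) * Wq k x e (d + 1) 0 := by
  have key : ∀ l d, Gw L l d * B n ≤ B (n + d) * Wq k x e (d + 1) 0 := by
    intro l
    induction l with
    | zero =>
      intro d
      rw [Gw, one_mul]
      exact (hm (Nat.le_add_right _ _)).trans (le_mul_one (one_mem_Wq d))
    | succ l ih =>
      intro d
      rw [Gw]
      simp only [Submodule.iSup_mul]
      refine iSup_le fun i => iSup_le fun j => iSup_le fun hij => ?_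
      rw [mul_assoc]
      refine (mul_le_mul' le_rfl (ih j)).trans ?_
      rw [← mul_assoc]
      refine (mul_le_mul' (hp i (n + j)) le_rfl).trans ?_
      simp only [Submodule.iSup_mul]
      refine iSup_le fun a => iSup_le fun b => iSup_le fun hab => ?_
      refine (mul_le_mul' (mul_le_mul' le_rfl (r1 b)) le_rfl).trans ?_
      rw [← mul_assoc, mul_assoc]
      exact mul_le_mul' ((mul_le_mul' (hm (by omega)) (hm (Nat.zero_le _))).trans (hmul _))
        ((Wq_mul_l b (j + 1)).trans (Wq_mono (by omega)))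
  have _ := h1
  rw [LW, Submodule.iSup_mul]
  exact iSup_le fun l => key l d

theorem ch_of (hm : Monotone B) (h1 : (1 : H) ∈ B 0) (hmul : ∀ n, B n * B n ≤ B n)
    (hp : ∀ c n, L c * B n ≤ ⨆ (i : ℕ) (j : ℕ) (_ : i + j ≤ c), B (n + i) * L j)
    (r1 : ∀ c, L c ≤ B 0 * Wq k x e (c + 1) 0) (r2 : ∀ i, x i ∈ B 0 * LW L (e i))
    (hpos : ∀ i, 1 ≤ e i)
    (hc : ∀ i j, x i * x j - x j * x i ∈ Wq k x e (e i + e j) 2 ⊔ B 0 * Wq k x e (e i + e j) 0) :
    Ch B x e := by
  refine ⟨hm, h1, hmul, hpos, fun i n b hb => ?_, hc⟩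
  have h2 : B 0 * LW L (e i) * B n ≤ B (n + e i) * Wq k x e (e i + 1) 0 := by
    rw [mul_assoc]
    refine (mul_le_mul' le_rfl (LW_pass hm h1 hmul hp r1 (e i) n)).trans ?_
    rw [← mul_assoc]
    exact mul_le_mul' ((mul_le_mul' (hm (Nat.zero_le _)) le_rfl).trans (hmul _)) le_rfl
  exact h2 (mul_mem_mul (r2 i) hb)

theorem Ch.Sm_Gw (h : Ch B x e) (r : ∀ c, Sm (L c) ≤ B 0 * Wq k x e (c + 1) 0) (l n : ℕ) :
    Sm (Gw L l n) ≤ B n * Wq k x e (n + 1) 0 := by
  induction l generalizing n with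
  | zero =>
    rw [Gw, Sm_one]
    exact (one_le.2 (h.one_mem n)).trans (le_mul_one (one_mem_Wq n))
  | succ l ih =>
    rw [Gw]
    simp only [Sm, Submodule.map_iSup]
    refine iSup_le fun i => iSup_le fun j => iSup_le fun hij => ?_
    refine (Sm_mul (L i) (Gw L l j)).le.trans ((mul_le_mul' (ih j) (r i)).trans ?_)
    exact (h.m2 (N := n) (i + 1) (by omega) (by omega)).trans
      (mul_le_mul' le_rfl (Wq_mono (by omega)))

end Pool.Agent.Lib.MP_ff61db_al.Cg
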