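import Pool.Agent.Lib.MP_ff61db_al.Cg.DA7

/-! The chain of subalgebras of the coinvariants. -/

namespace Pool.Agent.Lib.MP_ff61db_al.Cg

open Submodule TensorProduct

variable {k H U : Type} [Field k] [Ring H] [HopfAlgebra k H] [Ring U] [HopfAlgebra k U] {ι : Type}
  {π : H →ₐc[k] U}
variable {L : ℕ → Submodule k H} {D : ℕ}

theorem gen_Yn_le (hc : Cn π) (n : ℕ) : gen (Yn (Rw π 1) L n) ≤ Rw π 1 := by
  exact gen_le inf_le_left hc.sb.one hc.sb.mul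

theorem Yn_adm (hc : Cn π) (hL : Lay (Rw π 1) L D) (i n : ℕ) {s y : H} (hs : s ∈ L i)
    (hy : y ∈ Yn (Rw π 1) L n) : adm k y s ∈ gen (Yn (Rw π 1) L (n + i)) := by
  have h1 : (1 : H) ∈ Lp L 0 := mem_sup_left hL.one
  rcases Nat.eq_zero_or_pos i with rfl | hi
  · have h2 : Lp L 0 ≤ gen (Yn (Rw π 1) L (n + 0)) :=
      (le_inf (sup_le hL.zero ((map_mono hL.zero).trans hc.anti))
        ((le_Gw 0).trans (Gw_mono h1 (by omega) (by omega)))).trans (le_gen _)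
    exact adm_zero (hL.cl 0) (le_sup_left.trans h2) (le_sup_right.trans h2) (gen_mul_gen _) hs
      (le_gen _ hy)
  · exact le_gen _ ⟨adm_mem hy.1 s, Gw_mono h1 (by omega) le_rfl (adm_Gw hL hs hy.2)⟩

theorem Yn_sup (hL : Lay (Rw π 1) L D) (hA : Rw π 1 ≤ gen (L D)) :
    Rw π 1 ≤ ⨆ n, gen (Yn (Rw π 1) L n) := by
  intro z hz
  obtain ⟨n, hn⟩ := gen_le_Gw hL.one D (hA hz)
  exact mem_iSup_of_mem n (le_gen _ ⟨hz, Gw_le (fun _ => le_sup_left) _ _ hn⟩)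

theorem exists_coef {A : Submodule k H} {B : ℕ → Submodule k H} (hm : Monotone B) (hA : A ≤ ⨆ n, B n)
    {Z M N : Submodule k H} (hZ : Z.FG) (h : Z ≤ N ⊔ A * M) : ∃ n, Z ≤ N ⊔ B n * M := by
  refine exists_le_of_mono (B := fun n => N ⊔ B n * M)
    (fun a b hab => sup_le_sup_left (mul_le_mul' (hm hab) le_rfl) N) hZ (h.trans ?_)
  refine sup_le (le_iSup_of_le 0 le_sup_left) ((mul_le_mul' hA le_rfl).trans ?_)
  rw [Submodule.iSup_mul]
  exact iSup_mono fun n => le_sup_right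

theorem exists_bound {J : Type} [Finite J] {P : J → ℕ → Prop} (hm : ∀ j a b, a ≤ b → P j a → P j b)
    (h : ∀ j, ∃ a, P j a) : ∃ a, ∀ j, P j a := by
  choose f hf using h
  obtain ⟨a, ha⟩ := (Set.finite_range f).bddAbove
  exact ⟨a, fun j => hm j _ _ (ha ⟨j, rfl⟩) (hf j)⟩

end Pool.Agent.Lib.MP_ff61db_al.Cg
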