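import Pool.Agent.Lib.MP_ff61db_al.Cg.DA5

/-! The coinvariants are affine. -/

namespace Pool.Agent.Lib.MP_ff61db_al.Cg

open Submodule TensorProduct

variable {k H U : Type} [Field k] [Ring H] [HopfAlgebra k H] [Ring U] [HopfAlgebra k U] {ι : Type}
  {π : H →ₐc[k] U}
variable {L : ℕ → Submodule k H} {D : ℕ} {x : ι → H} {y : ι → U} {e : ι → ℕ}

theorem aff_coinv [Finite ι] [LinearOrder ι] (hP : PG k H) (hc : Cn π) (hL : Lay (Rw π 1) L D)
    (hD : Dn π L y e) (h : Lf π x y e) (hx : ∀ i, x i ∈ Rw π 1 * LW L (e i))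
    (hA : Rw π 1 ≤ gen (L D)) (hi : ∀ z ∈ Rw π 1, HopfAlgebra.antipode k z = 0 → z = 0) :
    Aff (Rw π 1) := by
  have hYm : Monotone (Yn (Rw π 1) L) := Yn_mono hL
  have hBm : Monotone fun n => gen (Yn (Rw π 1) L n) := fun a b hab => gen_mono (hYm hab)
  obtain ⟨m, hm⟩ := exists_start hc hL hD h hx hBm (Yn_sup hL hA)
  have hind : ∀ b, mon y b ∉ Mo k y e b → ∀ a ∈ Rw π 1,
      a * mon x b ∈ Rw π 1 * Mo k x e b → a = 0 := fun b hb a ha h0 => h.ind hD hb ha h0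
  have hle : ∀ n, gen (Yn (Rw π 1) L n) ≤ Rw π 1 := gen_Yn_le hc
  have chain : ∀ Y : ℕ → Submodule k H, Monotone (fun n => gen (Y n)) →
      gen (Yn (Rw π 1) L m) ≤ gen (Y 0) →
      (∀ i n, ∀ s ∈ L i, ∀ w ∈ Y n, adm k w s ∈ gen (Y (n + i))) →
      Ch (fun n => gen (Y n)) x e ∧
        ∀ d n, LW L d * gen (Y n) ≤ gen (Y (n + d)) * Wq k x e (d + 1) 0 := by
    intro Y h1 h2 h3
    obtain ⟨r1, -, r2, r3, -⟩ := hm _ h2
    have hp := ad_pass hL (B := fun n => gen (Y n)) (fun _ => rfl) h1 h3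
    exact ⟨ch_of h1 (one_mem_gen _) (fun n => gen_mul_gen _) hp r1 r2 hD.pos r3,
      LW_pass h1 (one_mem_gen _) (fun n => gen_mul_gen _) hp r1⟩
  obtain ⟨c1, -⟩ := chain (fun n => Yn (Rw π 1) L (m + n))
    (fun a b hab => hBm (Nat.add_le_add_left hab m)) le_rfl
    (fun i n s hs w hw => by rw [← add_assoc]; exact Yn_adm hc hL i (m + n) hs hw)
  obtain ⟨-, r, -, -, hns⟩ := hm _ le_rfl
  have hS : ∀ n, Sm (gen (Yn (Rw π 1) L n)) ≤ gen (Yn (Rw π 1) L (n + (m + 1))) := by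
    intro n
    rw [Sm_gen]
    refine gen_le ?_ (one_mem_gen _) (gen_mul_gen _)
    have h1 : Sm (Yn (Rw π 1) L n) ≤ Rw π 1 := (map_mono inf_le_left).trans hc.anti
    have h2 : Sm (Yn (Rw π 1) L n) ≤ gen (Yn (Rw π 1) L (m + n)) * Wq k x e (n + 1) 0 :=
      (map_mono inf_le_right).trans (c1.Sm_Gw r _ n)
    have h3 := c1.red (σ := fun b => mon y b ∉ Mo k y e b) hns (n + 1)
    have h4 : Sm (Yn (Rw π 1) L n) ≤ gen (Yn (Rw π 1) L (m + (n + 1))) *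
        Ms k x {c | mon y c ∉ Mo k y e c ∧ wt e c < n + 1} := by
      refine h2.trans ((mul_le_mul' (hBm (show m + n ≤ m + (n + 1) by omega)) h3).trans ?_)
      rw [← mul_assoc]
      exact mul_le_mul' (gen_mul_gen _) le_rfl
    have h5 := cut (hle (m + (n + 1))) hind
      (T := {c | mon y c ∉ Mo k y e c ∧ wt e c < n + 1}) fun c hc => hc.1
    rw [show n + (m + 1) = m + (n + 1) by omega]
    exact (le_inf h1 h4).trans h5
  obtain ⟨n, hn, hB⟩ := no_chain2 hP (Lp_fg hL).1 (Lp_fg hL).2 (Yn_le hL) (Yn_cl hc hL) hYm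
    (fun n z hz => hi z (hle n hz)) hS D
  have hmn : gen (Yn (Rw π 1) L m) ≤ gen (Yn (Rw π 1) L n) := hBm (by omega)
  obtain ⟨c2, hp⟩ := chain (fun _ => Yn (Rw π 1) L n) (fun _ _ _ => le_rfl) hmn
    (fun i _ s hs w hw => hB (Yn_adm hc hL D n (hL.top i hs) hw))
  obtain ⟨-, -, -, -, hns'⟩ := hm _ hmn
  refine ⟨Yn (Rw π 1) L n, Yn_fg hL n, le_antisymm (hle n) fun z hz => ?_⟩
  obtain ⟨d, hd⟩ := (mem_iSup_of_directed _ LW_mono.directed_le).1 (gen_le_LW D (hA hz))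
  exact c2.cut (fun _ => hle n) hns' hind 0 (d + 1) ⟨hz, hp d 0 (le_mul_one (one_mem_gen _) hd)⟩

end Pool.Agent.Lib.MP_ff61db_al.Cg
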