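import Pool.Agent.Lib.MP_ff61db_al.Cg.DF4

/-! The lifts form a system of letters. -/

namespace Pool.Agent.Lib.MP_ff61db_al.Cg

open Submodule TensorProduct

variable {k H U : Type} [Field k] [Ring H] [HopfAlgebra k H] [Ring U] [HopfAlgebra k U] {ι : Type}
  {π : H →ₐc[k] U}
variable {L : ℕ → Submodule k H} {x : ι → H} {y : ι → U} {e : ι → ℕ}

theorem f3_Mo {R : Type} [Ring R] [Algebra k R] [LinearOrder ι] (z : ι → R) (e : ι → ℕ)
    (b : Multiset ι) : Mo k z e b = span k {a | ∃ l ∈ {l : List ι | ∃ c : Multiset ι,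
      l = c.toList ∧ kap e c < kap e b}, a = (l.map z).prod} := by
  unfold Mo
  congr 1
  ext a
  constructor
  · rintro ⟨c, rfl, hc⟩
    exact ⟨_, ⟨c, rfl, hc⟩, rfl⟩
  · rintro ⟨_, ⟨c, rfl, hc⟩, rfl⟩
    exact ⟨c, rfl, hc⟩

theorem Lf.ns [Finite ι] [LinearOrder ι] (h : Lf π x y e) (hD : Dn π L y e) {b : Multiset ι}
    (hb : mon y b ∈ Mo k y e b) : mon x b ∈ Mo k x e b ⊔ Rw π 1 * Wq k x e (wt e b) 0 := by
  rw [f3_Mo] at hb
  obtain ⟨z, hz, hr⟩ := h.transfer (d := wt e b) (by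
    rintro _ ⟨c, rfl, hc⟩
    rw [wt_toList]
    exact kap_wt hc) hb
  rw [← f3_Mo] at hz
  have h1 := h.word b.toList
  rw [wt_toList] at h1
  have h2 : mon x b - z ∈ Rw π (Wq k y e (wt e b) 0) := by
    rw [mem_Rw_iff, map_sub, ← sub_sub_sub_cancel_right _ _ (1 ⊗ₜ[k] mon y b)]
    exact sub_mem h1 hr
  rw [← add_sub_cancel z (mon x b)]
  exact add_mem_sup hz (h.span hD _ h2)

theorem Lf.ind [Finite ι] [LinearOrder ι] (h : Lf π x y e) (hD : Dn π L y e) {b : Multiset ι}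
    (hb : mon y b ∉ Mo k y e b) {a : H} (ha : a ∈ Rw π 1)
    (h0 : a * mon x b ∈ Rw π 1 * Mo k x e b) : a = 0 := by
  obtain ⟨θ, h1, h2⟩ := Submodule.exists_le_ker_of_notMem hb
  have h3 : ∀ c, wt e c ≤ wt e b → lact (pl π θ) (mon x c) = θ (mon y c) • (1 : H) := fun c hc => by
    have h4 := h.word c.toList
    rw [wt_toList] at h4
    have h5 := mem_HT.1 h4 θ fun u hu => h2 (hD.low b (Wq_mono hc hu))
    rw [map_sub, ct_tmul, ct_rho, sub_eq_zero] at h5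
    exact h5
  have h4 : Mo k x e b ≤ LinearMap.ker (lact (pl π θ)) := by
    refine span_le.2 ?_
    rintro _ ⟨c, rfl, hc⟩
    have h5 : θ (mon y c) = 0 := h2 (subset_span ⟨c, rfl, hc⟩)
    rw [SetLike.mem_coe, LinearMap.mem_ker, h3 c (kap_wt hc), h5, zero_smul]
  have h5 : Rw π 1 * Mo k x e b ≤ LinearMap.ker (lact (pl π θ)) := mul_le.2 fun u hu m hm => by
    rw [LinearMap.mem_ker, lact_left θ hu, LinearMap.mem_ker.1 (h4 hm), mul_zero]
  have h6 := LinearMap.mem_ker.1 (h5 h0)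
  rw [lact_left θ ha, h3 b le_rfl, mul_smul_comm, mul_one] at h6
  exact (smul_eq_zero.1 h6).resolve_left h1

theorem exists_lf (hc : Cn π) {D : ℕ} (hL : Lay (Rw π 1) L D) (hD : Dn π L y e) :
    ∃ x : ι → H, Lf π x y e ∧ ∀ i, x i ∈ Rw π 1 * LW L (e i) := by
  have key : ∀ i, ∃ z ∈ Rw π 1 * LW L (e i),
      rho π z - 1 ⊗ₜ[k] y i ∈ HT H (Wq k y e (e i) 0) := fun i => by
    have h1 : y i ∈ Wq k y e (e i + 1) 0 := by
      simpa using prod_mem_Wq (k := k) (x := y) (e := e) [i] (d := e i + 1) (by simp)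
    rw [← hD.map] at h1
    obtain ⟨z, hz, h2⟩ := h1
    have hP : Rw π 1 * LW L (e i) ≤ Rw π (Wq k y e (e i + 1) 0) := by
      refine ((mul_le_mul' le_rfl (le_Rw_map (LW_cl hL.cl _))).trans (Rw_mul _ _)).trans ?_
      rw [one_mul, hD.map]
    have hA : Rw π 1 * (Rw π 1 * LW L (e i)) ≤ Rw π 1 * LW L (e i) := by
      rw [← mul_assoc]
      exact mul_le_mul' hc.sb.mul le_rfl
    obtain ⟨z', h3, h4⟩ := hc.lift (hD.stp (e i)) hP hA (cl_mul hc.sb.cl (LW_cl hL.cl _)).r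
      (le_one_mul hc.sb.one hz)
    have h5 : π z = y i := h2
    exact ⟨z', h3, h5 ▸ h4⟩
  choose x h1 h2 using key
  exact ⟨x, h2, h1⟩

end Pool.Agent.Lib.MP_ff61db_al.Cg
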