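import Pool.Agent.Lib.MP_ff61db_al.Cg.DT3

/-! A chain of subalgebras cannot grow for ever. -/

namespace Pool.Agent.Lib.MP_ff61db_al.Cg

open Submodule TensorProduct

variable {k H : Type} [Field k] [Ring H] [HopfAlgebra k H]

theorem dt4_sb {X : Submodule k H} (h : Cl X) : Sb (Sm (gen X)) :=
  ⟨⟨1, one_mem_gen X, HopfAlgebra.antipode_one⟩, by rw [Sm_gen]; exact gen_mul_gen _,
    cl_Sm (cl_gen h)⟩

theorem dt4_back {X X' : Submodule k H} (hX : Cl X) (hle : X ≤ X')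
    (hi : ∀ z ∈ gen X', HopfAlgebra.antipode k z = 0 → z = 0) (h : Sm X' ≤ Sm (gen X)) :
    gen X' ≤ gen X := by
  have h2 : Sm (gen X') ≤ Sm (gen X) := by
    rw [Sm_gen X']
    exact gen_le h (dt4_sb hX).one (dt4_sb hX).mul
  intro z hz
  obtain ⟨w, hw, e⟩ := h2 (mem_map_of_mem hz)
  have h3 : z - w = 0 := hi _ (sub_mem hz (gen_mono hle hw)) (by rw [map_sub, e, sub_self])
  rw [sub_eq_zero.1 h3]
  exact hw

theorem dt4_fac {W Z : Submodule k H} (h1 : (1 : H) ∈ W) {N : ℕ} (hZ : Z ≤ W ^ N) :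
    Sm Z ⊔ Sm (Sm Z) * Sm Z ≤ (Sm W ⊔ Sm (Sm W)) ^ (2 * N) := by
  have o1 : (1 : Submodule k H) ≤ Sm W ⊔ Sm (Sm W) :=
    one_le.2 (mem_sup_left ⟨1, h1, HopfAlgebra.antipode_one⟩)
  have a0 : Sm Z ≤ Sm W ^ N := by
    rw [← Sm_pow]
    exact map_mono hZ
  have a1 : Sm Z ≤ (Sm W ⊔ Sm (Sm W)) ^ N := a0.trans (pow_le_pow_left' le_sup_left N)
  have a2 : Sm (Sm Z) ≤ (Sm W ⊔ Sm (Sm W)) ^ N := by
    refine le_trans ?_ (pow_le_pow_left' le_sup_right N)
    rw [← Sm_pow]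
    exact map_mono a0
  refine sup_le (a1.trans (pow_le_pow_right' o1 (by omega))) ?_
  rw [two_mul, pow_add]
  exact mul_le_mul' a2 a1

theorem no_chain2 (hP : PG k H) {W : Submodule k H} (hW : W.FG) (h1 : (1 : H) ∈ W)
    {Y : ℕ → Submodule k H} (hY : ∀ n, Y n ≤ W ^ (2 * n + 1)) (hc : ∀ n, Cl (Y n)) (hm : Monotone Y)
    (hi : ∀ n, ∀ z ∈ gen (Y n), HopfAlgebra.antipode k z = 0 → z = 0) {m : ℕ}
    (hS : ∀ n, Sm (gen (Y n)) ≤ gen (Y (n + m))) (D : ℕ) :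
    ∃ n, m ≤ n ∧ gen (Y (n + D)) ≤ gen (Y n) := by
  by_contra hcon
  push Not at hcon
  have hB : ∀ n, Sb (Sm (gen (Y n))) := fun n => dt4_sb (hc n)
  have Bm : ∀ {a b : ℕ}, a ≤ b → Sm (gen (Y a)) ≤ Sm (gen (Y b)) :=
    fun h => map_mono (gen_mono (hm h))
  have sB : ∀ {a b : ℕ}, a + m ≤ b → Sm (Sm (gen (Y a))) ≤ Sm (gen (Y b)) :=
    fun h => (map_mono (hS _)).trans (Bm h)
  have hfg : ∀ n, (Y n).FG := fun n => by
    have := Module.Finite.iff_fg.2 (hW.pow (2 * n + 1))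
    exact Module.Finite.iff_fg.1 (Submodule.finiteDimensional_of_le (hY n))
  have o1 : (1 : Submodule k H) ≤ Sm W ⊔ Sm (Sm W) :=
    one_le.2 (mem_sup_left ⟨1, h1, HopfAlgebra.antipode_one⟩)
  obtain ⟨q, hq⟩ : ∃ q, q = 3 * m + D := ⟨_, rfl⟩
  have key : ∀ j : ℕ, ∃ E : Submodule k H, E.FG ∧ E ≤ Sm (gen (Y (j * q))) ∧
      2 ^ j ≤ Module.finrank k E ∧ E ≤ (Sm W ⊔ Sm (Sm W)) ^ ((4 * q + 2) * j ^ 2) := by
    intro j
    induction j with
    | zero =>
      have h0 : (1 : H) ≠ 0 := fun h => by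
        have h2 := congrArg (Coalgebra.counit (R := k)) h
        rw [Bialgebra.counit_one, map_zero] at h2
        exact one_ne_zero h2
      refine ⟨1, ?_, one_le.2 (hB _).one, ?_, by simp⟩
      · rw [one_eq_span]
        exact fg_span_singleton _
      · rw [one_eq_span, finrank_span_singleton h0, pow_zero]
    | succ j ih =>
      obtain ⟨E, e1, e2, e3, e4⟩ := ih
      have hj : (j + 1) * q = j * q + 3 * m + D := by rw [add_mul, one_mul, add_assoc, ← hq]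
      obtain ⟨n, hn⟩ : ∃ n, n = j * q := ⟨_, rfl⟩
      rw [← hn] at e2 hj
      have z1 : Sm (Y (n + 2 * m + D)) ≤ Sm (gen (Y (n + 2 * m + D))) := map_mono (le_gen _)
      have hd := dt (hB n).cl (hB (n + m)) (hB (n + 2 * m)) (Bm (by omega)) (Bm (by omega))
        (sB le_rfl) (sB (by omega)) (hfg (n + 2 * m + D)) (hc _)
        (fun z hz => hi _ z (le_gen _ hz))
        (fun h => hcon (n + 2 * m) (by omega) (dt4_back (hc _) (hm (by omega)) (hi _) h)) e1 e2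
      have f1 := (hfg (n + 2 * m + D)).map (HopfAlgebra.antipode k : H →ₗ[k] H)
      have f2 := f1.map (HopfAlgebra.antipode k : H →ₗ[k] H)
      refine ⟨_, e1.sup (e1.mul (f1.sup (f2.mul f1))), ?_, le_trans (by omega) hd, ?_⟩
      · rw [hj]
        have b1 : E ≤ Sm (gen (Y (n + 3 * m + D))) := e2.trans (Bm (by omega))
        have b2 := z1.trans (Bm (b := n + 3 * m + D) (by omega))
        have b3 := (map_mono (f := (HopfAlgebra.antipode k : H →ₗ[k] H)) z1).trans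
          (sB (b := n + 3 * m + D) (by omega))
        exact sup_le b1 ((mul_le_mul' b1
          (sup_le b2 ((mul_le_mul' b3 b2).trans (hB _).mul))).trans (hB _).mul)
      · have c1 : (4 * q + 2) * j ^ 2 + 2 * (2 * (n + 2 * m + D) + 1) ≤
            (4 * q + 2) * (j + 1) ^ 2 := by
          have c2 : (4 * q + 2) * (j + 1) ^ 2 =
              (4 * q + 2) * j ^ 2 + (8 * (j * q) + 4 * q + 4 * j + 2) := by ring
          rw [c2, ← hn]
          omega
        refine sup_le (e4.trans (pow_le_pow_right' o1 (by omega))) ?_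
        refine (mul_le_mul' e4 (dt4_fac h1 (hY _))).trans ?_
        rw [← pow_add]
        exact pow_le_pow_right' o1 c1
  obtain ⟨d, hd⟩ := hP
  have g1 := hW.map (HopfAlgebra.antipode k : H →ₗ[k] H)
  have g2 := g1.sup (g1.map (HopfAlgebra.antipode k : H →ₗ[k] H))
  obtain ⟨C, hC⟩ := hd _ g2
  obtain ⟨r, r1, r2⟩ := exists_pow_lt (C * (4 * q + 3) ^ d) (2 * d)
  obtain ⟨E, -, -, e3, e4⟩ := key r
  have := Module.Finite.iff_fg.2 (g2.pow ((4 * q + 2) * r ^ 2))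
  have e5 := (e3.trans (Submodule.finrank_mono e4)).trans (hC _)
  have e6 : (4 * q + 2) * r ^ 2 + 1 ≤ (4 * q + 3) * r ^ 2 := by
    have : 1 ≤ r ^ 2 := Nat.one_le_pow _ _ r1
    nlinarith
  have e7 := Nat.mul_le_mul_left C (Nat.pow_le_pow_left e6 d)
  rw [mul_pow, ← pow_mul, ← mul_assoc] at e7
  omega

end Pool.Agent.Lib.MP_ff61db_al.Cg
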