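import Pool.Agent.Lib.MP_ff61db_al.Cg.DA3
import Pool.Agent.Lib.MP_ff61db_al.Cg.DF3
import Pool.Agent.Lib.MP_ff61db_al.Cg.DT4

/-! The coinvariants are affine. -/

namespace Pool.Agent.Lib.MP_ff61db_al.Cg

open Submodule TensorProduct

variable {k H U : Type} [Field k] [Ring H] [HopfAlgebra k H] [Ring U] [HopfAlgebra k U] {ι : Type}
  {π : H →ₐc[k] U}
variable {L : ℕ → Submodule k H} {D : ℕ} {x : ι → H} {y : ι → U} {e : ι → ℕ}

theorem da5_move {A : Submodule k H} {B : ℕ → Submodule k H} (hm : Monotone B)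
    (hA : A ≤ ⨆ n, B n) {J : Type} [Finite J] (Z N M : J → Submodule k H) (hZ : ∀ j, (Z j).FG)
    (h : ∀ j, Z j ≤ N j ⊔ A * M j) :
    ∃ m, ∀ P : Submodule k H, B m ≤ P → ∀ j, Z j ≤ N j ⊔ P * M j := by
  obtain ⟨m, h1⟩ := exists_bound (P := fun j a => Z j ≤ N j ⊔ B a * M j)
    (fun j a b hab h => h.trans (sup_le_sup_left (mul_le_mul_left (hm hab) _) _))
    fun j => exists_coef hm hA (hZ j) (h j)
  exact ⟨m, fun P hP j => (h1 j).trans (sup_le_sup_left (mul_le_mul_left hP _) _)⟩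

theorem da5_elt {A : Submodule k H} {B : ℕ → Submodule k H} (hm : Monotone B)
    (hA : A ≤ ⨆ n, B n) {J : Type} [Finite J] (z : J → H) (N M : J → Submodule k H)
    (h : ∀ j, z j ∈ N j ⊔ A * M j) :
    ∃ m, ∀ P : Submodule k H, B m ≤ P → ∀ j, z j ∈ N j ⊔ P * M j := by
  obtain ⟨m, h1⟩ := da5_move hm hA (fun j => span k {z j}) N M (fun j => fg_span_singleton _)
    fun j => (span_singleton_le_iff_mem _ _).2 (h j)
  exact ⟨m, fun P hP j => (span_singleton_le_iff_mem _ _).1 (h1 P hP j)⟩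

theorem da5_lay [Finite ι] (hL : Lay (Rw π 1) L D) (hD : Dn π L y e) (h : Lf π x y e) (c : ℕ) :
    L c ⊔ Sm (Lp L c) ≤ Rw π 1 * Wq k x e (c + 1) 0 := by
  have h0 : (L c).map π.toLinearMap ≤ Wq k y e (c + 1) 0 :=
    (map_mono ((le_Gw c).trans (Gw_le_LW 1 c))).trans (hD.map c).le
  have h1 : Sm ((L c).map π.toLinearMap) ≤ Wq k y e (c + 1) 0 := (map_mono h0).trans (hD.anti _)
  refine le_trans (sup_le ((le_Rw_map (hL.cl c)).trans (Rw_mono h0)) ?_) (h.span hD _)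
  rw [Lp, Sm, Submodule.map_sup]
  refine sup_le (Rw_Sm (hL.cl c) h1) (Rw_Sm (cl_Sm (hL.cl c)) ?_)
  rw [map_Sm]
  exact (map_mono h1).trans (hD.anti _)

theorem exists_start [Finite ι] [LinearOrder ι] (hc : Cn π) (hL : Lay (Rw π 1) L D) (hD : Dn π L y e)
    (h : Lf π x y e) (hx : ∀ i, x i ∈ Rw π 1 * LW L (e i)) {B : ℕ → Submodule k H} (hm : Monotone B)
    (hA : Rw π 1 ≤ ⨆ n, B n) : ∃ m, ∀ P : Submodule k H, B m ≤ P →
      (∀ c, L c ≤ P * Wq k x e (c + 1) 0) ∧ (∀ c, Sm (Lp L c) ≤ P * Wq k x e (c + 1) 0) ∧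
      (∀ i, x i ∈ P * LW L (e i)) ∧
      (∀ i j, x i * x j - x j * x i ∈ Wq k x e (e i + e j) 2 ⊔ P * Wq k x e (e i + e j) 0) ∧
      ∀ b, ¬ mon y b ∉ Mo k y e b → ∃ c ≤ b, mon x c ∈ Mo k x e c ⊔ P * Wq k x e (wt e c) 0 := by
  obtain ⟨m1, h1⟩ := da5_move hm hA (J := Fin (D + 1)) (fun c => L c ⊔ Sm (Lp L c)) (fun _ => ⊥)
    (fun c => Wq k x e (c + 1) 0)
    (fun c => (hL.fg c).sup (((hL.fg c).sup ((hL.fg c).map _)).map _))
    fun c => (da5_lay hL hD h c).trans le_sup_right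
  obtain ⟨m2, h2⟩ := da5_elt hm hA x (fun _ => ⊥) (fun i => LW L (e i))
    fun i => mem_sup_right (hx i)
  obtain ⟨m3, h3⟩ := da5_elt hm hA (fun p : ι × ι => x p.1 * x p.2 - x p.2 * x p.1)
    (fun p => Wq k x e (e p.1 + e p.2) 2) (fun p => Wq k x e (e p.1 + e p.2) 0)
    fun p => (h.gd hc hD).comm p.1 p.2
  obtain ⟨F, hF, hf, hb⟩ := dickson {b : Multiset ι | mon y b ∈ Mo k y e b}
  have := hf.to_subtype
  obtain ⟨m4, h4⟩ := da5_elt hm hA (fun c : F => mon x c.1) (fun c => Mo k x e c.1)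
    (fun c => Wq k x e (wt e c.1) 0) fun c => h.ns hD (hF c.2)
  refine ⟨m1 + m2 + m3 + m4, fun P hP => ?_⟩
  have k1 : ∀ c, L c ⊔ Sm (Lp L c) ≤ P * Wq k x e (c + 1) 0 := fun c => by
    have h5 := h1 P ((hm (by omega)).trans hP)
    simp only [bot_sup_eq] at h5
    rcases le_total c D with hc | hc
    · exact h5 ⟨c, Nat.lt_succ_of_le hc⟩
    · refine le_trans (sup_le_sup (hL.top c) (map_mono (sup_le_sup (hL.top c)
        (map_mono (hL.top c))))) ((h5 (Fin.last D)).trans (mul_le_mul_right (Wq_mono ?_) _))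
      exact Nat.succ_le_succ hc
  refine ⟨fun c => le_sup_left.trans (k1 c), fun c => le_sup_right.trans (k1 c), fun i => ?_,
    fun i j => h3 P ((hm (by omega)).trans hP) (i, j), fun b h6 => ?_⟩
  · simpa only [bot_sup_eq] using h2 P ((hm (by omega)).trans hP) i
  · obtain ⟨c, h7, h8⟩ := hb b (not_not.1 h6)
    exact ⟨c, h8, h4 P ((hm (by omega)).trans hP) ⟨c, h7⟩⟩

end Pool.Agent.Lib.MP_ff61db_al.Cg
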