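import Pool.Agent.Lib.MP_ff61db_al.Cg.DK

/-! Moving coefficients and permuting letters. -/

namespace Pool.Agent.Lib.MP_ff61db_al.Cg

open Submodule TensorProduct

variable {k H : Type} [Field k] [Ring H] [Algebra k H] {ι : Type} {x : ι → H} {e : ι → ℕ}
variable {B : ℕ → Submodule k H}

theorem Ch.one_mem (h : Ch B x e) (n : ℕ) : (1 : H) ∈ B n := h.mono (Nat.zero_le n) h.one

theorem Ch.dp_left (h : Ch B x e) (i : ι) {n d : ℕ} {z : H} (hz : z ∈ B n * Wq k x e d 0) :
    x i * z ∈ B (n + e i) * Wq k x e (e i + d) 0 := by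
  refine Submodule.mul_induction_on hz (fun b hb w hw => ?_) fun a b ha hb => ?_
  · rw [← mul_assoc]
    have h1 := mul_mem_mul (h.pass i n b hb) hw
    rw [mul_assoc] at h1
    rw [mul_assoc]
    exact (mul_le_mul' le_rfl (Wq_mul_l _ _) : _ ≤ B (n + e i) * Wq k x e (e i + d) 0)
      (by simpa only [mul_assoc] using h1)
  · rw [mul_add]
    exact add_mem ha hb

theorem Ch.dp_word (h : Ch B x e) (l : List ι) {n : ℕ} {b : H} (hb : b ∈ B n) :
    (l.map x).prod * b ∈ B (n + (l.map e).sum) * Wq k x e ((l.map e).sum + 1) 0 := by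
  induction l with
  | nil => simpa using mul_mem_mul hb (one_mem_Wq (k := k) (x := x) (e := e) 0)
  | cons i l ih =>
    have := h.dp_left i ih
    rw [List.map_cons, List.map_cons, List.prod_cons, List.sum_cons, mul_assoc]
    rwa [add_assoc, add_comm (l.map e).sum, ← add_assoc (e i)] at this

theorem Ch.m1 (h : Ch B x e) (d n : ℕ) :
    Wq k x e (d + 1) 0 * B n ≤ B (n + d) * Wq k x e (d + 1) 0 := by
  refine mul_le.2 fun w hw b hb => ?_
  induction hw using span_induction with
  | mem a ha =>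
    obtain ⟨l, rfl, hl⟩ := ha
    exact (mul_le_mul' (h.mono (by omega)) (Wq_mono (by omega)) :
      _ ≤ B (n + d) * Wq k x e (d + 1) 0) (h.dp_word l hb)
  | zero => simp
  | add u v _ _ hu hv => rw [add_mul]; exact add_mem hu hv
  | smul c u _ hu => rw [smul_mul_assoc]; exact smul_mem _ _ hu

theorem Ch.m2 (h : Ch B x e) {n d n' N : ℕ} (d' : ℕ) (h1 : n ≤ N) (h2 : n' + d ≤ N) :
    B n * Wq k x e (d + 1) 0 * (B n' * Wq k x e d' 0) ≤ B N * Wq k x e (d + d') 0 := by
  rw [mul_assoc, ← mul_assoc (Wq k x e (d + 1) 0)]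
  refine (mul_le_mul' le_rfl (mul_le_mul' (h.m1 d n') le_rfl)).trans ?_
  rw [mul_assoc, ← mul_assoc]
  exact mul_le_mul' ((mul_le_mul' (h.mono h1) (h.mono h2)).trans (h.mul N)) (Wq_mul_l _ _)

theorem Ch.perm (h : Ch B x e) {l l' : List ι} (p : l.Perm l') :
    (l.map x).prod - (l'.map x).prod ∈ Wq k x e (l.map e).sum l.length ⊔
      B (l.map e).sum * Wq k x e (l.map e).sum 0 := by
  induction p with
  | nil => simp
  | @cons i l l' _ ih =>
    obtain ⟨u, hu, v, hv, e1⟩ := mem_sup.1 ih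
    have h1 := Wq_word hu [i] []
    have h2 := h.dp_left i hv
    simp only [List.map_cons, List.map_nil, List.prod_cons, List.prod_nil, mul_one, List.sum_cons,
      List.sum_nil, add_zero, List.length_cons, List.length_nil, zero_add] at h1 ⊢
    rw [← mul_sub, ← e1, mul_add, add_comm l.length]
    exact add_mem (mem_sup_left h1) (mem_sup_right (by rwa [add_comm _ (e i)] at h2))
  | swap i j l =>
    obtain ⟨u, hu, v, hv, e1⟩ := mem_sup.1 (h.comm j i)
    have h1 := Wq_word hu [] l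
    have h2 := mul_mem_mul hv (prod_mem_Wq (k := k) (x := x) (e := e) l (Nat.lt_succ_self _))
    rw [mul_assoc] at h2
    simp only [List.map_cons, List.map_nil, List.prod_cons, List.prod_nil, one_mul, List.sum_cons,
      List.sum_nil, List.length_cons, List.length_nil, zero_add] at h1 ⊢
    rw [← mul_assoc, ← mul_assoc, ← sub_mul, ← e1, add_mul, ← add_assoc (e j)]
    exact add_mem (mem_sup_left (Wq_le (by omega) h1)) (mem_sup_right
      ((mul_le_mul' (h.mono (Nat.zero_le _)) (Wq_mul_r _ _) : _ ≤ B _ * Wq k x e _ 0) h2))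
  | @trans l₁ l₂ l₃ h1 _ ih1 ih2 =>
    rw [← (h1.map e).sum_eq, ← h1.length_eq] at ih2
    simpa using add_mem ih1 ih2

theorem Ch.top (h : Ch B x e) (d m : ℕ) :
    Wq k x e d m ≤ Ms k x {c | wt e c = d ∧ c.card < m} ⊔ B d * Wq k x e d 0 := by
  have h0 : Wq k x e d 0 ≤ B d * Wq k x e d 0 := le_one_mul (h.one_mem d)
  induction m with
  | zero => exact h0.trans le_sup_right
  | succ m ih =>
    have mono : Ms k x {c | wt e c = d ∧ c.card < m} ≤ Ms k x {c | wt e c = d ∧ c.card < m + 1} :=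
      span_mono fun _ ⟨b, h1, h2⟩ => ⟨b, ⟨h1.1, h1.2.trans (Nat.lt_succ_self m)⟩, h2⟩
    refine span_le.2 ?_
    rintro _ ⟨l, rfl, hl | hl⟩
    · exact mem_sup_right (h0 (prod_mem_Wq l hl))
    · have h1 := h.perm (Multiset.coe_eq_coe.1 (Multiset.coe_toList (l : Multiset ι))).symm
      rw [hl.1] at h1
      have h2 : mon x (l : Multiset ι) ∈ Ms k x {c | wt e c = d ∧ c.card < m + 1} :=
        subset_span ⟨l, ⟨by simpa [wt] using hl.1, by simpa using hl.2⟩, rfl⟩
      have h3 := (sup_le ((Wq_le (d := d) (m := l.length) (d' := d) (m' := m) (by omega)).trans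
        (ih.trans (sup_le_sup_right mono _))) le_sup_right :) h1
      simpa [mon] using add_mem h3 (mem_sup_left h2)

theorem Ch.mon_mul [LinearOrder ι] (h : Ch B x e) (c b : Multiset ι) :
    mon x c * mon x b - mon x (c + b) ∈
      Mo k x e (c + b) ⊔ B (wt e (c + b)) * Wq k x e (wt e (c + b)) 0 := by
  have h1 : (c.toList ++ b.toList).Perm (c + b).toList := by
    rw [← Multiset.coe_eq_coe, ← Multiset.coe_add]
    simp
  have h2 := h.perm h1
  rw [(h1.map e).sum_eq, h1.length_eq, wt_toList, Multiset.length_toList, List.map_append,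
    List.prod_append] at h2
  refine (sup_le ((h.top _ _).trans (sup_le_sup_right ?_ _)) le_sup_right :) h2
  rw [Mo_eq]
  exact span_mono fun _ ⟨a, h3, h4⟩ => ⟨a, kap_lt.2 (Or.inr ⟨h3.1, Or.inl h3.2⟩), h4⟩

end Pool.Agent.Lib.MP_ff61db_al.Cg
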