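import Pool.Agent.Lib.MP_ff61db_al.Cg.DL2
import Pool.Agent.Lib.MP_ff61db_al.Cg.DP
import Pool.Agent.Lib.MP_ff61db_al.Cg.DA1

/-! Passing coefficients through layers. -/

namespace Pool.Agent.Lib.MP_ff61db_al.Cg

open Submodule TensorProduct

variable {k H : Type} [Field k] [Ring H] [HopfAlgebra k H] {ι : Type} {x : ι → H} {e : ι → ℕ}
  {A : Submodule k H} {L Y B : ℕ → Submodule k H} {D : ℕ}

theorem adp_le (i j c n : ℕ) (h : i + j ≤ c) :
    B (n + i) * L j ≤ ⨆ (i : ℕ) (j : ℕ) (_ : i + j ≤ c), B (n + i) * L j :=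
  le_iSup₂_of_le (f := fun i j => ⨆ (_ : i + j ≤ c), B (n + i) * L j) i j
    (le_iSup (fun _ : i + j ≤ c => B (n + i) * L j) h)

theorem ad_pass (hL : Lay A L D) (hB : ∀ n, B n = gen (Y n)) (hm : Monotone B)
    (had : ∀ i n, ∀ s ∈ L i, ∀ y ∈ Y n, adm k y s ∈ B (n + i)) (c n : ℕ) :
    L c * B n ≤ ⨆ (i : ℕ) (j : ℕ) (_ : i + j ≤ c), B (n + i) * L j := by
  have hBB : ∀ a b m, a ≤ m → b ≤ m → B a * B b ≤ B m := fun a b m ha hb =>
    (mul_le_mul' (hm ha) (hm hb)).trans (by rw [hB]; exact gen_mul_gen _)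
  have key : ∀ b ∈ gen (Y n), ∀ c, ∀ z ∈ L c,
      z * b ∈ ⨆ (i : ℕ) (j : ℕ) (_ : i + j ≤ c), B (n + i) * L j := by
    intro b hb
    induction hb using Algebra.adjoin_induction with
    | mem y hy =>
      intro c z hz
      rw [← adm_id (k := k) y z]
      have hc := hL.cop c z hz
      generalize Coalgebra.comul (R := k) z = t at hc
      induction hc using span_induction with
      | mem t ht =>
        obtain ⟨a, b, s, u, hs, hu, hab, rfl⟩ := ht
        refine adp_le a b c n (by omega) ?_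
        simpa using mul_mem_mul (had a n s hs y hy) hu
      | zero => simp
      | add s t _ _ hs ht => rw [map_add, map_add]; exact add_mem hs ht
      | smul r t _ ht => rw [map_smul, map_smul]; exact smul_mem _ _ ht
    | algebraMap r =>
      intro c z hz
      rw [← Algebra.commutes, ← Algebra.smul_def]
      refine smul_mem _ _ (adp_le 0 c c n (by omega) (le_one_mul ?_ hz))
      rw [hB]
      exact one_mem_gen _
    | add x y _ _ hx hy =>
      intro c z hz
      rw [mul_add]
      exact add_mem (hx c z hz) (hy c z hz)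
    | mul x y _ _ hx hy =>
      intro c z hz
      rw [← mul_assoc]
      have h1 : (⨆ (i : ℕ) (j : ℕ) (_ : i + j ≤ c), B (n + i) * L j) ≤
          (⨆ (i : ℕ) (j : ℕ) (_ : i + j ≤ c), B (n + i) * L j).comap (LinearMap.mulRight k y) := by
        refine iSup_le fun i => iSup_le fun j => iSup_le fun hij => mul_le.2 fun p hp q hq => ?_
        rw [mem_comap, LinearMap.mulRight_apply, mul_assoc]
        have h2 : (⨆ (i : ℕ) (j' : ℕ) (_ : i + j' ≤ j), B (n + i) * L j') ≤
            (⨆ (i : ℕ) (j : ℕ) (_ : i + j ≤ c), B (n + i) * L j).comap (LinearMap.mulLeft k p) := by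
          refine iSup_le fun i' => iSup_le fun j' => iSup_le fun hij' =>
            mul_le.2 fun p' hp' q' hq' => ?_
          rw [mem_comap, LinearMap.mulLeft_apply, ← mul_assoc]
          exact adp_le (i + i') j' c n (by omega)
            (mul_mem_mul (hBB _ _ _ (by omega) (by omega) (mul_mem_mul hp hp')) hq')
        exact h2 (hy j q hq)
      exact h1 (hx c z hz)
  exact mul_le.2 fun z hz b hb => key b (hB n ▸ hb) c z hz

end Pool.Agent.Lib.MP_ff61db_al.Cg
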