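import Pool.Agent.Lib.MP_ff61db_al.Cg.DA2

/-! The chain of subalgebras of the coinvariants. -/

namespace Pool.Agent.Lib.MP_ff61db_al.Cg

open Submodule TensorProduct

variable {k H U : Type} [Field k] [Ring H] [HopfAlgebra k H] [Ring U] [HopfAlgebra k U] {ι : Type}
  {π : H →ₐc[k] U}
variable {L : ℕ → Submodule k H} {D : ℕ}

theorem Yn_le (hL : Lay (Rw π 1) L D) (n : ℕ) : Yn (Rw π 1) L n ≤ Lp L D ^ (2 * n + 1) := by
  exact inf_le_right.trans
    (Gw_le_pow (fun i => sup_le_sup (hL.top i) (Submodule.map_mono (hL.top i))) _ _)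

theorem Lp_fg (hL : Lay (Rw π 1) L D) : (Lp L D).FG ∧ (1 : H) ∈ Lp L D := by
  exact ⟨(hL.fg D).sup ((hL.fg D).map _), Submodule.mem_sup_left (hL.top 0 hL.one)⟩

theorem Yn_fg (hL : Lay (Rw π 1) L D) (n : ℕ) : (Yn (Rw π 1) L n).FG := by
  have h : (Lp L D ^ (2 * n + 1)).FG := (Lp_fg hL).1.pow _
  have : Module.Finite k (Lp L D ^ (2 * n + 1) : Submodule k H) := Module.Finite.iff_fg.mpr h
  exact Module.Finite.iff_fg.mp (Submodule.finiteDimensional_of_le (Yn_le hL n))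

theorem Yn_cl (hc : Cn π) (hL : Lay (Rw π 1) L D) (n : ℕ) : Cl (Yn (Rw π 1) L n) := by
  exact Cl.inf hc.sb.cl (Gw_cl (fun i => cl_sup (hL.cl i) (cl_Sm (hL.cl i))) _ _)

theorem Yn_mono (hL : Lay (Rw π 1) L D) : Monotone (Yn (Rw π 1) L) := by
  intro n m h
  exact inf_le_inf_left _ (Gw_mono (Submodule.mem_sup_left hL.one) (by omega) h)

end Pool.Agent.Lib.MP_ff61db_al.Cg
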