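import Pool.Agent.Lib.MP_ff61db_al.Core

/-! Letters that commute up to lower terms. -/

namespace Pool.Agent.Lib.MP_ff61db_al

open Submodule TensorProduct

variable {k A : Type} [Field k] [Ring A] [Algebra k A]
variable {Δ : A →ₐ[k] A ⊗[k] A} {ε : A →ₐ[k] k} {F : ℤ → Submodule k A}

theorem dc1_core {X S : Type} [Finite X] [Finite S] {x : X → A} {dx : X → ℤ} {g : S → Aˣ}
    {V : Submodule k A} (hV : Growth V) (h : Fil Δ ε F)
    (hx : ∀ i, Prim Δ ε F (dx i) (x i)) (hp : ∀ i, 1 ≤ dx i)
    (hg : ∀ s, Δ (g s) = (g s : A) ⊗ₜ (g s : A))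
    (hinv : ∀ s, ∃ s', g s' = (g s)⁻¹)
    (hc : ∀ s d, ∀ a ∈ F d, g s * a * ↑(g s)⁻¹ ∈ F d) {N : ℤ} (hN : F N = ⊥)
    (hgen : ∀ d, F d ≤ Wd k (ev x g) (dg dx) (d + 1) 0) {c : ℕ} (hxV : ∀ i, x i ∈ V ^ c)
    (hgV : ∀ s, (g s : A) ∈ V ^ c) :
    ∃ (ι : Type) (_ : Finite ι) (y : ι → A) (e : ι → ℤ), (∀ i, 1 ≤ e i) ∧
      (∀ i, Prim Δ ε F (e i) (y i)) ∧ (∀ i j, y i * y j - y j * y i ∈ Wd k y e (e i + e j) 2) ∧
      ∀ d, F d ≤ Wd k y e (d + 1) 0 := by
  have pos : ∀ (l : List (X ⊕ S)) i, 1 ≤ dg dx (l, i) := by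
    intro l i
    induction l with
    | nil => simpa [dg] using hp i
    | cons t l ih =>
      rw [dg_cons]
      rcases t with j | s
      · have := hp j
        simp only [dop]
        omega
      · simpa [dop] using ih
  have prim : ∀ l i, Prim Δ ε F (dg dx (l, i)) (ev x g (l, i)) := by
    intro l i
    induction l with
    | nil => simpa [dg, ev] using hx i
    | cons t l ih =>
      rw [dg_cons, ev_cons]
      rcases t with j | s
      · exact (hx j).lie h ih
      · simpa [dop, opr] using ih.conj (hg s) (hc s)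
  have cost : ∀ l i, ev x g (l, i) ∈ V ^ (2 * c * (l.length + 1)) := by
    intro l i
    induction l with
    | nil => exact hV.mono (by simp; omega) (hxV i)
    | cons t l ih =>
      rw [ev_cons, List.length_cons]
      rcases t with j | s
      · exact sub_mem (hV.mono (by nlinarith) (mul_mem_pow (hxV j) ih))
          (hV.mono (by nlinarith) (mul_mem_pow ih (hxV j)))
      · obtain ⟨s', e⟩ := hinv s
        exact hV.mono (by nlinarith) (mul_mem_pow (mul_mem_pow (hgV s) ih) (e ▸ hgV s'))
  let Sp : ℕ → ℤ → Submodule k A := fun m d =>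
    span k {a | ∃ l i, l.length ≤ m ∧ dg dx (l, i) = d ∧ a = ev x g (l, i)} ⊔ F (d - 1)
  obtain ⟨m, hm⟩ : ∃ m, ∀ l i, l.length = m + 1 → ev x g (l, i) ∈ Sp m (dg dx (l, i)) := by
    by_contra hne
    push Not at hne
    choose l i h1 h2 using hne
    refine no_seq hV h (u := fun m => ev x g (l m, i m)) (d := fun m => dg dx (l m, i m))
      (fun m => prim _ _) (fun m e => h2 m ((sup_le_sup_right (span_mono ?_) _ : _ ≤ Sp m _) e)) (c := 4 * c)
      fun m => hV.mono (by rw [h1 m]; nlinarith) (cost _ _)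
    rintro _ ⟨j, hj, e1, rfl⟩
    exact ⟨l j, i j, by rw [h1 j]; exact hj, e1, rfl⟩
  have SpF : ∀ d, Sp m d ≤ F d := fun d => sup_le (span_le.2 (by
    rintro _ ⟨l, i, -, rfl, rfl⟩
    exact (prim l i).mem)) (h.mono (by omega))
  have stepop : ∀ t d, ∀ v ∈ Sp m d, opr x g t v ∈ Sp m (dop dx t + d) := by
    intro t d v hv
    have lin : ∃ L : A →ₗ[k] A, ∀ a, opr x g t a = L a := by
      rcases t with j | s
      · exact ⟨LinearMap.mulLeft k (x j) - LinearMap.mulRight k (x j), fun a => rfl⟩
      · exact ⟨(LinearMap.mulRight k (↑(g s)⁻¹ : A)).comp (LinearMap.mulLeft k (g s : A)),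
          fun a => rfl⟩
    obtain ⟨L, hL⟩ := lin
    rw [hL]
    refine (sup_le (span_le.2 ?_) fun a ha => ?_ : Sp m d ≤ (Sp m (dop dx t + d)).comap L) hv
    · rintro _ ⟨l, i, h1, rfl, rfl⟩
      rw [SetLike.mem_coe, mem_comap, ← hL, ← ev_cons, ← dg_cons]
      by_cases e : l.length = m
      · exact hm _ _ (by simp [e])
      · exact mem_sup_left (subset_span ⟨t :: l, i, by simp; omega, rfl, rfl⟩)
    · rw [mem_comap, ← hL]
      refine mem_sup_right ?_
      rcases t with j | s
      · exact sub_mem (h.mono (by simp only [dop]; omega) (h.mul (hx j).mem ha))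
          (h.mono (by simp only [dop]; omega) (h.mul ha (hx j).mem))
      · simpa [dop, opr] using hc s _ a ha
  have all : ∀ l i, ev x g (l, i) ∈ Sp m (dg dx (l, i)) := by
    intro l i
    induction l with
    | nil => exact mem_sup_left (subset_span ⟨[], i, by simp, rfl, rfl⟩)
    | cons t l ih =>
      rw [dg_cons, ev_cons]
      exact stepop t _ _ ih
  have lie : ∀ l i d, ∀ v ∈ Sp m d,
      ev x g (l, i) * v - v * ev x g (l, i) ∈ Sp m (dg dx (l, i) + d) := by
    intro l i
    induction l with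
    | nil =>
      intro d v hv
      simpa [dg, ev, dop, opr] using stepop (.inl i) d v hv
    | cons t l ih =>
      intro d v hv
      rw [dg_cons, ev_cons]
      rcases t with j | s
      · have h1 := stepop (.inl j) _ _ (ih d v hv)
        have h2 := ih _ _ (stepop (.inl j) d v hv)
        rw [← add_assoc, add_comm (dg dx _)] at h2
        rw [← add_assoc] at h1
        refine (congrArg (· ∈ Sp m _) ?_).mp (sub_mem h1 h2)
        simp only [opr]
        noncomm_ring
      · obtain ⟨s', e⟩ := hinv s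
        have h1 := stepop (.inr s) _ _ (ih _ _ (stepop (.inr s') d v hv))
        simp only [dop, zero_add] at h1 ⊢
        refine (congrArg (· ∈ Sp m _) ?_).mp h1
        simp only [opr, e, inv_inv, mul_sub, sub_mul, mul_assoc, Units.mul_inv, mul_one,
          Units.mul_inv_cancel_left]
  let ι := {p : List (X ⊕ S) × X // p.1.length ≤ m}
  have : Finite ι := by
    have := (List.finite_length_le (X ⊕ S) m).prod (Set.finite_univ (α := X))
    exact (this.subset fun p hp => ⟨hp, trivial⟩ : {p : List (X ⊕ S) × X | p.1.length ≤ m}.Finite)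
  let y' : ι → A := fun p => ev x g p.1
  let e : ι → ℤ := fun p => dg dx p.1
  have single : ∀ d, span k {a | ∃ l i, l.length ≤ m ∧ dg dx (l, i) = d ∧ a = ev x g (l, i)} ≤
      Wd k y' e d 2 := fun d => span_mono (by
    rintro _ ⟨l, i, h1, rfl, rfl⟩
    exact ⟨[⟨(l, i), h1⟩], by simp [y'], by simp [e]⟩)
  have prodF : ∀ L : List (List (X ⊕ S) × X), (L.map (ev x g)).prod ∈ F (L.map (dg dx)).sum := by
    intro L
    induction L with
    | nil => simpa using h.one
    | cons p L ih => simpa using h.mul (prim p.1 p.2).mem ih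
  have prodW : ∀ L : List (List (X ⊕ S) × X), (L.map (ev x g)).prod ∈
      Wd k y' e ((L.map (dg dx)).sum + 1) 0 ⊔ F ((L.map (dg dx)).sum - 1) := by
    intro L
    induction L with
    | nil => exact mem_sup_left (subset_span ⟨[], by simp, by simp⟩)
    | cons p L ih =>
      obtain ⟨p, i₀⟩ := p
      obtain ⟨s, hs, f, hf, e1⟩ := mem_sup.1 (all p i₀)
      obtain ⟨w, hw, f', hf', e2⟩ := mem_sup.1 ih
      rw [List.map_cons, List.map_cons, List.prod_cons, List.sum_cons, ← e1, add_mul]
      refine add_mem ?_ (mem_sup_right (h.mono (by omega) (h.mul hf (prodF L))))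
      rw [← e2, mul_add]
      refine add_mem (mem_sup_left ?_)
        (mem_sup_right (h.mono (by omega) (h.mul (SpF _ (mem_sup_left hs)) hf')))
      clear e1
      induction hs using span_induction with
      | zero => simp
      | add u v _ _ hu hv => rw [add_mul]; exact add_mem hu hv
      | smul c u _ hu => rw [smul_mul_assoc]; exact smul_mem _ _ hu
      | mem u hu =>
        obtain ⟨l, i, h1, h2, rfl⟩ := hu
        clear e2
        induction hw using span_induction with
        | zero => simp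
        | add u v _ _ hu hv => rw [mul_add]; exact add_mem hu hv
        | smul c u _ hu => rw [mul_smul_comm]; exact smul_mem _ _ hu
        | mem u hu =>
          obtain ⟨l', rfl, h3⟩ := hu
          refine subset_span ⟨⟨(l, i), h1⟩ :: l', by simp [y'], ?_⟩
          simp only [List.map_cons, List.sum_cons, e, h2] at h3 ⊢
          omega
  have FW : ∀ d, F d ≤ Wd k y' e (d + 1) 0 := by
    intro d
    rcases le_total d N with hd | hd
    · exact (h.mono hd).trans (hN ▸ bot_le)
    · induction d, hd using Int.leInduction with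
      | base => exact hN ▸ bot_le
      | succ d _ ih =>
        refine (hgen _).trans (span_le.2 ?_)
        rintro _ ⟨L, rfl, hL⟩
        exact sup_le (Wd_mono' (by omega) 0)
          ((h.mono (by omega)).trans (ih.trans (Wd_mono' (by omega) 0))) (prodW L)
  refine ⟨ι, this, y', e, fun p => pos p.1.1 p.1.2, fun p => prim p.1.1 p.1.2, fun p q => ?_, FW⟩
  exact sup_le (single _) ((FW _).trans (Wd_mono' (by simp [e]) 2))
    (lie p.1.1 p.1.2 _ _ (all q.1.1 q.1.2))

theorem core2 {X : Type} [Finite X] {x : X → A} {dx : X → ℤ} {V : Submodule k A} (hV : Growth V)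
    (h : Fil Δ ε F) (hx : ∀ i, Prim Δ ε F (dx i) (x i)) (hp : ∀ i, 1 ≤ dx i) {N : ℤ} (hN : F N = ⊥)
    (hgen : ∀ d, F d ≤ Wd k x dx (d + 1) 0) {c : ℕ} (hxV : ∀ i, x i ∈ V ^ c) :
    ∃ (ι : Type) (_ : Finite ι) (y : ι → A) (e : ι → ℤ), (∀ i, 1 ≤ e i) ∧
      (∀ i, Prim Δ ε F (e i) (y i)) ∧ (∀ i j, y i * y j - y j * y i ∈ Wd k y e (e i + e j) 2) ∧
      ∀ d, F d ≤ Wd k y e (d + 1) 0 := by
  refine dc1_core (S := Empty) (g := fun s => s.elim) hV h hx hp (fun s => s.elim)
    (fun s => s.elim) (fun s => s.elim) hN (fun d => (hgen d).trans (span_mono ?_)) hxV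
    (fun s => s.elim)
  rintro _ ⟨l, rfl, hl⟩
  refine ⟨l.map fun i => ([], i), ?_, ?_⟩
  · rw [List.map_map]
    rfl
  · have e1 : (dg (S := Empty) dx ∘ fun i => ([], i)) = dx := by
      funext i
      simp [dg]
    rw [List.map_map, e1, List.length_map]
    exact hl

end Pool.Agent.Lib.MP_ff61db_al
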