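import Pool.Agent.Lib.MP_ff61db_al.Cg.DH1

/-! The coinvariants form a Hopf subalgebra. -/

namespace Pool.Agent.Lib.MP_ff61db_al.Cg

open Submodule TensorProduct

variable {k H U : Type} [Field k] [Ring H] [HopfAlgebra k H] [Ring U] [HopfAlgebra k U] {ι : Type}
  {π : H →ₐc[k] U}

theorem pi_antipode (x : H) : π (HopfAlgebra.antipode k x) = HopfAlgebra.antipode k (π x) := by
  have h1 := ha_inv (π : H →ₐ[k] U)
  have h2 : WithConv.toConv (π : H →ₐ[k] U).toLinearMap *
      WithConv.toConv (HopfAlgebra.antipode k ∘ₗ π.toLinearMap) = 1 := by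
    apply WithConv.ofConv_injective
    have h := LinearMap.convMul_comp_coalgHom_distrib
      (WithConv.toConv (LinearMap.id : U →ₗ[k] U))
      (WithConv.toConv (HopfAlgebra.antipode k (A := U))) (π : H →ₗc[k] U)
    rw [LinearMap.id_mul_antipode] at h
    refine Eq.trans h.symm ?_
    ext y
    simp [LinearMap.convOne_def]
  exact LinearMap.congr_fun (congrArg WithConv.ofConv (left_inv_eq_right_inv h1 h2)) x

theorem dh2_ct (θ : U →ₗ[k] k) (x : H) :
    ct H θ (TensorProduct.comm k U H (LinearMap.rTensor H π.toLinearMap (Coalgebra.comul x))) =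
      ract (pl π θ) x := by
  simp only [ract, LinearMap.comp_apply]
  generalize Coalgebra.comul (R := k) x = t
  induction t with
  | zero => simp
  | tmul a b =>
    rw [LinearMap.rTensor_tmul, LinearMap.rTensor_tmul, comm_tmul, ct_tmul]
    rfl
  | add s t hs ht => simp only [map_add, hs, ht]

theorem left_iff {x : H} : LinearMap.rTensor H π.toLinearMap (Coalgebra.comul x) = 1 ⊗ₜ[k] x ↔
    ∀ θ : U →ₗ[k] k, ract (pl π θ) x = θ 1 • x := by
  refine ⟨fun h θ => ?_, fun h => (TensorProduct.comm k U H).injective (ct_ext fun θ => ?_)⟩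
  · rw [← dh2_ct, h, comm_tmul, ct_tmul]
  · rw [dh2_ct, h, comm_tmul, ct_tmul]

theorem cn_of (hn : ∀ x : H, LinearMap.lTensor H π.toLinearMap (Coalgebra.comul x) = x ⊗ₜ[k] 1 ↔
    LinearMap.rTensor H π.toLinearMap (Coalgebra.comul x) = 1 ⊗ₜ[k] x) : Cn π := by
  exact ⟨fun x => by rw [mem_A, rho_apply, hn, left_iff]⟩

theorem pi_A {a : H} (h : a ∈ Rw π 1) : π a = Coalgebra.counit (R := k) a • (1 : U) := by
  refine eq_of_du (k := k) fun θ => ?_
  rw [← pl_apply, ← counit_lact, mem_A'.1 h, map_smul, map_smul, smul_eq_mul, smul_eq_mul,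
    mul_comm]

theorem Cn.sb (h : Cn π) : Sb (Rw π 1) := by
  refine ⟨mem_A.2 (map_one _), (Rw_mul 1 1).trans_eq (by rw [mul_one]), fun φ x hx => ?_,
    fun φ x hx => Rw_ract φ hx⟩
  refine (h.h _).2 fun θ => ?_
  rw [← lact_ract, (h.h x).1 hx θ, map_smul]

theorem Rw_Sm {P : Submodule k H} (h : Cl P) {W : Submodule k U}
    (hW : Sm (P.map π.toLinearMap) ≤ W) : Sm P ≤ Rw π W := by
  rintro _ ⟨z, hz, rfl⟩
  refine mem_Rw.2 fun θ hθ => ?_
  have h1 : ract (pl π (θ ∘ₗ HopfAlgebra.antipode k)) z = 0 := eq_of_du (k := k) fun φ => by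
    rw [du_ract, ← du_lact, map_zero, pl_apply]
    exact hθ _ (hW (mem_map_of_mem (mem_map_of_mem (h.l φ z hz))))
  rw [lact_antipode _ (pl π (θ ∘ₗ HopfAlgebra.antipode k))
    (fun y => by rw [pl_apply, pl_apply, pi_antipode]; rfl), h1, map_zero]

theorem Cn.anti (h : Cn π) : Sm (Rw π 1) ≤ Rw π 1 := by
  refine Rw_Sm h.sb.cl (le_trans (map_mono ?_) Sm_one.le)
  rintro _ ⟨a, ha, rfl⟩
  exact map_Rw ha

theorem map_Sm (P : Submodule k H) : (Sm P).map π.toLinearMap = Sm (P.map π.toLinearMap) := by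
  rw [Sm, Sm, ← Submodule.map_comp, ← Submodule.map_comp]
  exact congrArg (fun f => P.map f) (LinearMap.ext fun x => pi_antipode x)

end Pool.Agent.Lib.MP_ff61db_al.Cg
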