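import Pool.Agent.Lib.MP_ff61db_al.Cg.DL2
import Pool.Agent.Lib.MP_ff61db_al.Cg.DH2

/-! The filtration on the image. -/

namespace Pool.Agent.Lib.MP_ff61db_al.Cg

open Submodule TensorProduct

variable {k H U : Type} [Field k] [Ring H] [HopfAlgebra k H] [Ring U] [HopfAlgebra k U] {ι : Type}
  {π : H →ₐc[k] U}

theorem dc2_comul (π : H →ₐc[k] U) (v : H) :
    TensorProduct.map (red k U) (red k U) (Coalgebra.comul (R := k) (red k U (π v))) =
      TensorProduct.map (red k U ∘ₗ π.toLinearMap) (red k U ∘ₗ π.toLinearMap)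
        (Coalgebra.comul (R := k) v) := by
  have h1 : red k U 1 = 0 := by simp [red_apply]
  have h2 : Coalgebra.comul (R := k) (π v) =
      TensorProduct.map π.toLinearMap π.toLinearMap (Coalgebra.comul (R := k) v) :=
    (LinearMap.congr_fun (CoalgHomClass.map_comp_comul π) v).symm
  rw [red_apply, map_sub, map_smul, Bialgebra.comul_one, Algebra.TensorProduct.one_def, map_sub,
    map_smul, map_tmul, h1, tmul_zero, smul_zero, sub_zero, h2, TensorProduct.map_comp]
  rfl

theorem dc2_eps (u : U) : Coalgebra.counit (R := k) (red k U u) = 0 := by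
  simp [red_apply]

theorem dc2_red (π : H →ₐc[k] U) (v : H) :
    π (v - Coalgebra.counit (R := k) v • (1 : H)) = red k U (π v) := by
  rw [red_apply, map_sub, map_smul, map_one, CoalgHomClass.counit_comp_apply]

theorem exists_fil {L : ℕ → Submodule k H} {D : ℕ} (hL : Lay (Rw π 1) L D) :
    ∃ (X : Type) (_ : Finite X) (x : X → U) (dx : X → ℤ) (F : ℤ → Submodule k U),
      Fil (Bialgebra.comulAlgHom k U) (Bialgebra.counitAlgHom k U) F ∧
      (∀ i, Prim (Bialgebra.comulAlgHom k U) (Bialgebra.counitAlgHom k U) F (dx i) (x i)) ∧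
      (∀ i, 1 ≤ dx i) ∧ F (-1) = ⊥ ∧ (∀ d, F d = Wd k x dx (d + 1) 0) ∧ (∀ i, ∃ z, π z = x i) ∧
      ∀ n : ℕ, (LW L n).map π.toLinearMap = F n := by
  classical
  let Δ := Bialgebra.comulAlgHom k U
  let ε := Bialgebra.counitAlgHom k U
  choose s hs using hL.fg
  let X : Type := (a : Fin D) × {v // v ∈ s (a + 1)}
  let x : X → U := fun p => red k U (π p.2.1)
  let w : X → ℕ := fun p => (p.1 : ℕ) + 1
  let dx : X → ℤ := fun p => (w p : ℕ)
  have hx : ∀ p : X, p.2.1 ∈ L (w p) := fun p => hs (p.1 + 1) ▸ subset_span p.2.2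
  let F : ℤ → Submodule k U := fun d => Wd k x dx (d + 1) 0
  have Fmono : Monotone F := fun a b h => Wd_mono' (by omega) 0
  have Fone : (1 : U) ∈ F 0 := subset_span ⟨[], by simp, by simp⟩
  have Fmul : ∀ {a b u v}, u ∈ F a → v ∈ F b → u * v ∈ F (a + b) := by
    intro a b u v hu hv
    induction hu using span_induction with
    | zero => simp
    | add u v _ _ hu hv => rw [add_mul]; exact add_mem hu hv
    | smul c u _ hu => rw [smul_mul_assoc]; exact smul_mem _ _ hu
    | mem u hu =>
      obtain ⟨l, rfl, hl⟩ := hu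
      exact Wd_shift hv l (by omega)
  have zF : ∀ p, x p ∈ F (dx p) := fun p => subset_span ⟨[p], by simp, by simp⟩
  have r0 : ∀ z ∈ L 0, red k U (π z) = 0 := by
    intro z hz
    rw [pi_A (hL.zero hz), map_smul]
    simp [red_apply]
  have key0 : ∀ e ≤ D, ∀ z ∈ L e, red k U (π z) ∈ F e := by
    intro e he z hz
    rcases e with _ | e
    · rw [r0 z hz]
      exact zero_mem _
    · have : L (e + 1) ≤ (F (e + 1 : ℕ)).comap (red k U ∘ₗ π.toLinearMap) := by
        rw [← hs (e + 1), span_le]
        exact fun v hv => zF ⟨⟨e, by omega⟩, v, hv⟩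
      exact this hz
  have key : ∀ e : ℕ, ∀ z ∈ L e, red k U (π z) ∈ F e := by
    intro e z hz
    by_cases he : e ≤ D
    · exact key0 e he z hz
    · exact Fmono (by omega) (key0 D le_rfl z (hL.top e hz))
  have keyp : ∀ e : ℕ, ∀ z ∈ L e, π z ∈ F e := by
    intro e z hz
    have h := add_mem (key e z hz) (smul_mem _ (Coalgebra.counit (R := k) (π z))
      (Fmono (by omega : (0 : ℤ) ≤ (e : ℕ)) Fone))
    rwa [red_apply, sub_add_cancel] at h
  have px : ∀ p, Prim Δ ε F (dx p) (x p) := by
    intro p
    refine ⟨zF p, dc2_eps _, ?_⟩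
    change Coalgebra.comul (x p) - _ ∈ _
    rw [red_comul (dc2_eps _), dc2_comul]
    have hc := hL.cop _ _ (hx p)
    generalize (Coalgebra.comul (R := k) p.2.1 : H ⊗[k] H) = t at hc
    induction hc using span_induction with
    | zero => simp
    | add u v _ _ hu hv => rw [map_add]; exact add_mem hu hv
    | smul c u _ hu => rw [map_smul]; exact smul_mem _ _ hu
    | mem t ht =>
      obtain ⟨a, b, u, v, hu, hv, hab, rfl⟩ := ht
      rw [map_tmul]
      change red k U (π u) ⊗ₜ[k] red k U (π v) ∈ _
      rcases hab with hab | ⟨rfl, _⟩ | ⟨_, rfl⟩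
      · refine tmul_mem_FF (key a u hu) (key b v hv) ?_
        simp only [dx]
        omega
      · rw [r0 u hu, zero_tmul]
        exact zero_mem _
      · rw [r0 v hv, tmul_zero]
        exact zero_mem _
  have hsum : ∀ l : List X, (l.map dx).sum = ((l.map w).sum : ℕ) := by
    intro l
    induction l with
    | nil => simp
    | cons p l ih => rw [List.map_cons, List.map_cons, List.sum_cons, List.sum_cons, ih, Nat.cast_add]
  have low : F (-1) = ⊥ := by
    refine eq_bot_iff.2 (span_le.2 ?_)
    rintro _ ⟨l, rfl, hl⟩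
    rw [hsum] at hl
    omega
  have hF : Fil Δ ε F := by
    refine ⟨Fmono, Fmul, Fone, fun u hu => ?_, fun {d u} hu => ?_⟩
    · rw [low, mem_bot] at hu
      rw [hu, map_zero]
    · refine (span_le.2 ?_ : F d ≤ (FF F d).comap Δ.toLinearMap) hu
      rintro _ ⟨l, rfl, hl⟩
      refine FF_mono (d := (l.map dx).sum) (by omega) ?_
      change Δ _ ∈ _
      clear hl
      induction l with
      | nil => simpa [Algebra.TensorProduct.one_def] using tmul_mem_FF Fone Fone le_rfl
      | cons p l ih =>
        rw [List.map_cons, List.map_cons, List.prod_cons, map_mul, List.sum_cons]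
        refine FF_mul (F := F) (fun hu hv => Fmul hu hv) ?_ ih
        have := add_mem (FF_mono (d' := dx p) (sub_le_self _ zero_le_one) (px p).cop)
          (Prim.sym Fone (zF p))
        rwa [sub_add_cancel] at this
  have hG : ∀ l n, Gw L l n ≤ (F n).comap π.toLinearMap := by
    intro l
    induction l with
    | zero =>
      intro n
      refine Submodule.one_le.2 ?_
      change π 1 ∈ F n
      rw [map_one]
      exact Fmono (by omega) Fone
    | succ l ih =>
      intro n
      rw [Gw_succ]
      refine iSup_le fun i => iSup_le fun j => iSup_le fun hij => Submodule.mul_le.2 ?_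
      intro u hu v hv
      change π (u * v) ∈ F n
      rw [map_mul]
      exact Fmono (by omega) (Fmul (keyp i u hu) (ih j hv))
  have hW : ∀ l : List X, (l.map x).prod ∈ (LW L (l.map w).sum).map π.toLinearMap := by
    intro l
    induction l with
    | nil => exact ⟨1, one_mem_LW _, map_one π⟩
    | cons p l ih =>
      obtain ⟨z, hz, e⟩ := ih
      have h1 : p.2.1 - Coalgebra.counit (R := k) p.2.1 • (1 : H) ∈ L (w p) :=
        sub_mem (hx p) (smul_mem _ _ (hL.mono (Nat.zero_le _) hL.one))
      rw [List.map_cons, List.map_cons, List.prod_cons, List.sum_cons]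
      refine ⟨_, LW_mul _ _ (mul_mem_mul (Gw_le_LW 1 _ (le_Gw _ h1)) hz), ?_⟩
      change π _ = _
      rw [map_mul, dc2_red, ← e]
      rfl
  refine ⟨X, inferInstance, x, dx, F, hF, px, fun i => ?_, low, fun _ => rfl,
    fun i => ⟨_, dc2_red π _⟩, fun n => le_antisymm ?_ (span_le.2 ?_)⟩
  · simp only [dx, w]
    omega
  · exact map_le_iff_le_comap.2 (iSup_le fun l => hG l n)
  · rintro _ ⟨l, rfl, hl⟩
    rw [hsum] at hl
    exact Submodule.map_mono (LW_mono (by omega)) (hW l)

end Pool.Agent.Lib.MP_ff61db_al.Cg
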