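import Pool.Agent.Lib.MP_ff61db_al.Cg.DC4

/-! Letters for the image. -/

namespace Pool.Agent.Lib.MP_ff61db_al.Cg

open Submodule TensorProduct

variable {k H U : Type} [Field k] [Ring H] [HopfAlgebra k H] [Ring U] [HopfAlgebra k U] {ι : Type}
  {π : H →ₐc[k] U}

theorem dc3_letter {L : ℕ → Submodule k H} {y : ι → U} {e : ι → ℕ} (h : Dn π L y e) (i : ι) :
    Coalgebra.comul (R := k) (y i) - 1 ⊗ₜ[k] y i ∈ HT U (Wq k y e (e i) 0) := by
  have h1 : Ft (fun d => Wq k y e d 0) (e i) ≤ HT U (Wq k y e (e i) 0) := by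
    refine span_le.2 ?_
    rintro _ ⟨a, b, s, u, -, hu, hab, rfl⟩
    exact tmul_mem_HT s (Wq_mono (by omega) hu)
  have h2 : y i ⊗ₜ[k] (1 : U) ∈ HT U (Wq k y e (e i) 0) :=
    tmul_mem_HT _ (Wq_mono (h.pos i) (one_mem_Wq 0))
  have h3 := add_mem (h1 (h.cop i)) h2
  convert h3 using 1
  abel

theorem dc3_word {L : ℕ → Submodule k H} {y : ι → U} {e : ι → ℕ} (h : Dn π L y e) (l : List ι) :
    Coalgebra.comul (R := k) (l.map y).prod - 1 ⊗ₜ[k] (l.map y).prod ∈
      HT U (Wq k y e (l.map e).sum 0) := by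
  induction l with
  | nil =>
    rw [List.map_nil (f := y), List.prod_nil, Bialgebra.comul_one, Algebra.TensorProduct.one_def,
      sub_self]
    exact zero_mem _
  | cons i l ih =>
    have h1 : Coalgebra.comul (R := k) (l.map y).prod ∈
        HT U (Wq k y e ((l.map e).sum + 1) 0) := by
      have h2 := add_mem (HT_mono (Wq_mono (Nat.le_succ _)) ih)
        (tmul_mem_HT (1 : U) (prod_mem_Wq (k := k) (x := y) l (Nat.lt_succ_self _)))
      rwa [sub_add_cancel] at h2
    have h3 : (1 : U) ⊗ₜ[k] y i ∈ HT U (Wq k y e (e i + 1) 0) := by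
      have h4 := prod_mem_Wq (k := k) (x := y) (e := e) [i] (d := e i + 1) (by simp)
      rw [List.map_singleton, List.prod_singleton] at h4
      exact tmul_mem_HT _ h4
    have h5 := add_mem (HT_mono (Wq_mul_r _ _) (HT_mul (dc3_letter h i) h1))
      (HT_mono (Wq_mul_l _ _) (HT_mul h3 ih))
    rw [List.map_cons, List.map_cons, List.prod_cons, List.sum_cons, Bialgebra.comul_mul]
    convert h5 using 1
    rw [sub_mul, mul_sub, Algebra.TensorProduct.tmul_mul_tmul, one_mul]
    abel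

theorem Dn.stp {L : ℕ → Submodule k H} {y : ι → U} {e : ι → ℕ} (h : Dn π L y e) (d : ℕ) :
    Stp (Wq k y e d 0) (Wq k y e (d + 1) 0) := by
  intro θ hθ u hu
  induction hu using span_induction with
  | mem a ha =>
    obtain ⟨l, rfl, hl⟩ := ha
    have h1 : (l.map e).sum ≤ d := by omega
    have h2 := mem_HT.1 (HT_mono (Wq_mono h1) (dc3_word h l)) θ hθ
    rw [map_sub, ct_tmul, sub_eq_zero] at h2
    exact h2
  | zero => simp
  | add a b _ _ ha hb => rw [map_add, map_add, ha, hb, add_smul]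
  | smul c a _ ha => rw [map_smul, map_smul, ha, smul_eq_mul, mul_smul]

end Pool.Agent.Lib.MP_ff61db_al.Cg
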