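import Pool.Agent.Lib.MP_ff61db_al.Cg.DDefs

/-! Spans of words. -/

namespace Pool.Agent.Lib.MP_ff61db_al.Cg

open Submodule TensorProduct

variable {k H : Type} [Field k] [Ring H] [Algebra k H] {ι : Type} {x : ι → H} {e : ι → ℕ}

theorem Wq_le {d d' m m' : ℕ} (h : d < d' ∨ (d = d' ∧ m ≤ m')) : Wq k x e d m ≤ Wq k x e d' m' :=
  span_mono fun _ ⟨l, h1, h2⟩ => ⟨l, h1, by omega⟩

theorem Wq_mono {d d' : ℕ} (h : d ≤ d') : Wq k x e d 0 ≤ Wq k x e d' 0 := Wq_le (by omega)

theorem Wq_zero : Wq k x e 0 0 = ⊥ :=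
  eq_bot_iff.2 (span_le.2 fun _ ⟨l, h1, h2⟩ => by omega)

theorem prod_mem_Wq (l : List ι) {d : ℕ} (h : (l.map e).sum < d) : (l.map x).prod ∈ Wq k x e d 0 :=
  subset_span ⟨l, rfl, Or.inl h⟩

theorem one_mem_Wq (d : ℕ) : (1 : H) ∈ Wq k x e (d + 1) 0 :=
  prod_mem_Wq [] (Nat.succ_pos d)

theorem wt_toList (b : Multiset ι) : (b.toList.map e).sum = wt e b := by
  rw [wt, ← Multiset.sum_coe, ← Multiset.map_coe, Multiset.coe_toList]

theorem mon_mem_Wq (b : Multiset ι) {d : ℕ} (h : wt e b < d) : mon x b ∈ Wq k x e d 0 :=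
  prod_mem_Wq _ (by rwa [wt_toList])

theorem Wq_word {d m : ℕ} {a : H} (ha : a ∈ Wq k x e d m) (l l' : List ι) :
    (l.map x).prod * a * (l'.map x).prod ∈
      Wq k x e ((l.map e).sum + d + (l'.map e).sum) (l.length + m + l'.length) := by
  induction ha using span_induction with
  | mem a ha =>
    obtain ⟨u, rfl, hu⟩ := ha
    refine subset_span ⟨l ++ u ++ l', by simp [mul_assoc], ?_⟩
    simp only [List.map_append, List.sum_append, List.length_append]
    omega
  | zero => simp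
  | add a b _ _ ha hb => rw [mul_add, add_mul]; exact add_mem ha hb
  | smul c a _ ha => rw [mul_smul_comm, smul_mul_assoc]; exact smul_mem _ _ ha

theorem dw_mul {a b c : ℕ} (h : ∀ s t, s < a → t < b → s + t < c) :
    Wq k x e a 0 * Wq k x e b 0 ≤ Wq k x e c 0 := by
  rw [Wq, Wq, span_mul_span, span_le]
  rintro _ ⟨_, ⟨l, rfl, hl⟩, _, ⟨l', rfl, hl'⟩, rfl⟩
  refine subset_span ⟨l ++ l', by simp, Or.inl ?_⟩
  rw [List.map_append, List.sum_append]
  exact h _ _ (by omega) (by omega)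

theorem Wq_mul_l (d d' : ℕ) : Wq k x e (d + 1) 0 * Wq k x e d' 0 ≤ Wq k x e (d + d') 0 :=
  dw_mul fun _ _ _ _ => by omega

theorem Wq_mul_r (d d' : ℕ) : Wq k x e d 0 * Wq k x e (d' + 1) 0 ≤ Wq k x e (d + d') 0 :=
  dw_mul fun _ _ _ _ => by omega

theorem Wq_succ (d : ℕ) : Wq k x e (d + 1) 0 = ⨆ m, Wq k x e d m := by
  refine le_antisymm (span_le.2 ?_) (iSup_le fun m => Wq_le (by omega))
  rintro _ ⟨l, rfl, hl⟩
  exact mem_iSup_of_mem (l.length + 1) (subset_span ⟨l, rfl, by omega⟩)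

theorem dw_len (h : ∀ i, 1 ≤ e i) (l : List ι) : l.length ≤ (l.map e).sum := by
  induction l with
  | nil => simp
  | cons i l ih =>
    have := h i
    simp only [List.length_cons, List.map_cons, List.sum_cons]
    omega

theorem Wq_fg [Finite ι] (h : ∀ i, 1 ≤ e i) (d : ℕ) : (Wq k x e d 0).FG := by
  refine fg_span (((List.finite_length_le ι d).image fun l => (l.map x).prod).subset ?_)
  rintro _ ⟨l, rfl, hl⟩
  have := dw_len h l
  exact ⟨l, by change l.length ≤ d; omega, rfl⟩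

theorem Wq_eq_Wd (d m : ℕ) : Wq k x e d m = Wd k x (fun i => (e i : ℤ)) d m := by
  have h : ∀ l : List ι, (l.map fun i => (e i : ℤ)).sum = ((l.map e).sum : ℕ) := fun l => by
    induction l with
    | nil => simp
    | cons i l ih => simp only [List.map_cons, List.sum_cons, ih, Nat.cast_add]
  simp only [Wq, Wd, h, Nat.cast_lt, Nat.cast_inj]

theorem wt_add (b c : Multiset ι) : wt e (b + c) = wt e b + wt e c := by
  simp [wt]

theorem mon_zero : mon x (0 : Multiset ι) = 1 := by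
  simp [mon]

end Pool.Agent.Lib.MP_ff61db_al.Cg
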