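import Pool.Agent.Lib.MP_ff61db_al.Cg.DC1
import Pool.Agent.Lib.MP_ff61db_al.Cg.DC2
import Pool.Agent.Lib.MP_ff61db_al.Cg.DW

/-! Letters for the image. -/

namespace Pool.Agent.Lib.MP_ff61db_al.Cg

open Submodule TensorProduct

variable {k H U : Type} [Field k] [Ring H] [HopfAlgebra k H] [Ring U] [HopfAlgebra k U] {ι : Type}
  {π : H →ₐc[k] U}

theorem dc4_pow (V : Submodule k H) (n : ℕ) :
    (V.map π.toLinearMap) ^ n = (V ^ n).map π.toLinearMap := by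
  have e : π.toLinearMap = (π : H →ₐ[k] U).toLinearMap := rfl
  rw [e, Submodule.map_pow]

theorem growth_map' {V : Submodule k H} (hV : Growth V) : Growth (V.map π.toLinearMap) := by
  refine ⟨hV.fg.map _, ⟨1, hV.one, map_one π⟩, ?_⟩
  obtain ⟨d, C, h⟩ := hV.poly
  refine ⟨d, C, fun n => ?_⟩
  have : Module.Finite k (V ^ n : Submodule k H) := Module.Finite.iff_fg.2 (hV.fg.pow n)
  rw [dc4_pow]
  exact (Submodule.finrank_map_le _ _).trans (h n)

theorem dc4_word {Δ : U →ₐ[k] U ⊗[k] U} {ε : U →ₐ[k] k} {F : ℤ → Submodule k U} (h : Fil Δ ε F)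
    {y : ι → U} {e : ι → ℤ} (hy : ∀ i, y i ∈ F (e i)) (d : ℤ) : Wd k y e (d + 1) 0 ≤ F d := by
  have h1 : ∀ l : List ι, (l.map y).prod ∈ F (l.map e).sum := fun l => by
    induction l with
    | nil => exact h.one
    | cons i l ih =>
      rw [List.map_cons, List.map_cons, List.prod_cons, List.sum_cons]
      exact h.mul (hy i) ih
  refine span_le.2 ?_
  rintro _ ⟨l, rfl, hl⟩
  exact h.mono (by omega) (h1 l)

theorem exists_dn {V : Submodule k H} (hV : Growth V) (hgen : Algebra.adjoin k (V : Set H) = ⊤)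
    {L : ℕ → Submodule k H} {D : ℕ} (hL : Lay (Rw π 1) L D) :
    ∃ (ι : Type) (_ : Finite ι) (y : ι → U) (e : ι → ℕ), Dn π L y e := by
  obtain ⟨X, _, x, dx, F, f1, f2, f3, f4, f5, f6, f7⟩ := exists_fil hL
  choose z hz using f6
  obtain ⟨c, hc⟩ := exists_pow_fin hV hgen z
  obtain ⟨ι, hι, y, e', g1, g2, g3, g4⟩ := core2 (growth_map' (π := π) hV) f1 f2 f3 f4
    (fun d => (f5 d).le) (c := c) fun i => by
      rw [dc4_pow]
      exact ⟨z i, hc i, hz i⟩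
  obtain ⟨e, rfl⟩ : ∃ e : ι → ℕ, e' = fun i => (e i : ℤ) :=
    ⟨fun i => (e' i).toNat, funext fun i => (Int.toNat_of_nonneg (by have := g1 i; omega)).symm⟩
  have k1 : ∀ d : ℕ, F d = Wq k y e (d + 1) 0 := fun d => by
    rw [Wq_eq_Wd]
    exact le_antisymm (g4 d) (dc4_word f1 (fun i => (g2 i).mem) d)
  refine ⟨ι, hι, y, e, fun i => Int.ofNat_le.1 (g1 i), fun i j => ?_, fun i => (g2 i).eps,
    fun i => ?_, fun d => (f7 d).trans (k1 d)⟩
  · rw [Wq_eq_Wd]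
    exact g3 i j
  refine (span_le.2 ?_ : FF F ((e i : ℤ) - 1) ≤ _) (g2 i).cop
  rintro _ ⟨a, b, s, u, h1, h2, h3, rfl⟩
  have k2 : ∀ a : ℤ, a < 0 → ∀ s ∈ F a, s = 0 := fun a ha s hs =>
    (mem_bot k).1 (f4 ▸ f1.mono (show a ≤ -1 by omega) hs)
  by_cases ha : a < 0
  · rw [k2 a ha s h2, zero_tmul]
    exact zero_mem _
  by_cases hb : b < 0
  · rw [k2 b hb u h3, tmul_zero]
    exact zero_mem _
  obtain ⟨a, rfl⟩ := Int.eq_ofNat_of_zero_le (not_lt.1 ha)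
  obtain ⟨b, rfl⟩ := Int.eq_ofNat_of_zero_le (not_lt.1 hb)
  exact subset_span ⟨a, b, s, u, (k1 a).le h2, (k1 b).le h3, by omega, rfl⟩

end Pool.Agent.Lib.MP_ff61db_al.Cg
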