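import Pool.Agent.Lib.MP_ff61db_al.Cg.BA0
import Pool.Agent.Lib.MP_ff61db_al.Letters

/-! Extensions of a connected Hopf algebra: definitions. -/

namespace Pool.Agent.Lib.MP_ff61db_al.Cg

open Submodule TensorProduct

section Alg
variable {k H : Type} [Field k] [Ring H] [Algebra k H] {ι : Type}

/-- Span of the words with (weight, length) lexicographically below `(d, m)`. -/
def Wq (k : Type) [Field k] [Algebra k H] (x : ι → H) (e : ι → ℕ) (d m : ℕ) : Submodule k H :=
  span k {a | ∃ l : List ι, a = (l.map x).prod ∧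
    ((l.map e).sum < d ∨ ((l.map e).sum = d ∧ l.length < m))}

/-- The weight of a monomial. -/
def wt (e : ι → ℕ) (b : Multiset ι) : ℕ := (b.map e).sum

/-- The monomial order. -/
noncomputable def kap [LinearOrder ι] (e : ι → ℕ) (b : Multiset ι) : ℕ ×ₗ ℕ ×ₗ Lex (ι →₀ ℕ) :=
  toLex (wt e b, toLex (b.card, toLex (Multiset.toFinsupp b)))

/-- Span of the monomials below `b`. -/
def Mo (k : Type) [Field k] [Algebra k H] [LinearOrder ι] (x : ι → H) (e : ι → ℕ)
    (b : Multiset ι) : Submodule k H :=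
  span k {a | ∃ c, a = mon x c ∧ kap e c < kap e b}

/-- Span of the monomials in a set. -/
def Ms (k : Type) [Field k] [Algebra k H] (x : ι → H) (T : Set (Multiset ι)) : Submodule k H :=
  span k {a | ∃ c ∈ T, a = mon x c}

/-- A chain of coefficient rings for the letters `x`. -/
structure Ch (B : ℕ → Submodule k H) (x : ι → H) (e : ι → ℕ) : Prop where
  mono : Monotone B
  one : (1 : H) ∈ B 0
  mul : ∀ n, B n * B n ≤ B n
  pos : ∀ i, 1 ≤ e i
  pass : ∀ i n, ∀ b ∈ B n, x i * b ∈ B (n + e i) * Wq k x e (e i + 1) 0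
  comm : ∀ i j, x i * x j - x j * x i ∈ Wq k x e (e i + e j) 2 ⊔ B 0 * Wq k x e (e i + e j) 0

/-- Letters that commute with each other and with `A` up to lower terms. -/
structure Gd (A : Submodule k H) (x : ι → H) (e : ι → ℕ) : Prop where
  one : (1 : H) ∈ A
  mul : A * A ≤ A
  pos : ∀ i, 1 ≤ e i
  sw : ∀ i, ∀ a ∈ A, x i * a - a * x i ∈ A * Wq k x e (e i) 0
  comm : ∀ i j, x i * x j - x j * x i ∈ Wq k x e (e i + e j) 2 ⊔ A * Wq k x e (e i + e j) 0

/-- The ring generated by `A` and the letters. -/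
def Tt (A : Submodule k H) (x : ι → H) (e : ι → ℕ) : Submodule k H := ⨆ d, A * Wq k x e d 0

/-- Words of length `l` and weight at most `n` in a layered subspace. -/
def Gw (L : ℕ → Submodule k H) : ℕ → ℕ → Submodule k H
  | 0, _ => 1
  | l + 1, n => ⨆ (i : ℕ) (j : ℕ) (_ : i + j ≤ n), L i * Gw L l j

/-- Words of weight at most `n`. -/
def LW (L : ℕ → Submodule k H) (n : ℕ) : Submodule k H := ⨆ l, Gw L l n

/-- The target of the coproduct on the layer `e`. -/
def Cop (L : ℕ → Submodule k H) (e : ℕ) : Submodule k (H ⊗[k] H) :=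
  span k {t | ∃ a b s u, s ∈ L a ∧ u ∈ L b ∧
    (a + b < e ∨ (a = 0 ∧ b = e) ∨ (a = e ∧ b = 0)) ∧ t = s ⊗ₜ[k] u}

/-- Tensors of total weight below `d`. -/
def Ft (W : ℕ → Submodule k H) (d : ℕ) : Submodule k (H ⊗[k] H) :=
  span k {t | ∃ a b s u, s ∈ W (a + 1) ∧ u ∈ W (b + 1) ∧ a + b < d ∧ t = s ⊗ₜ[k] u}

variable {U : Type} [Ring U] [Algebra k U]

/-- The subspace `H ⊗ W`. -/
def HT (H : Type) [Ring H] [Algebra k H] (W : Submodule k U) : Submodule k (H ⊗[k] U) :=
  LinearMap.range (LinearMap.lTensor H W.subtype)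

/-- Contraction of the second factor. -/
noncomputable def ct (H : Type) [Ring H] [Algebra k H] (θ : U →ₗ[k] k) : H ⊗[k] U →ₗ[k] H :=
  (TensorProduct.rid k H).toLinearMap ∘ₗ LinearMap.lTensor H θ

@[simp] theorem ct_tmul (θ : U →ₗ[k] k) (a : H) (u : U) : ct H θ (a ⊗ₜ[k] u) = θ u • a := by
  simp [ct]

end Alg

section Hopf
variable {k H U : Type} [Field k] [Ring H] [HopfAlgebra k H] [Ring U] [HopfAlgebra k U] {ι : Type}

/-- The pull-back of a functional. -/
noncomputable def pl (π : H →ₐc[k] U) (θ : U →ₗ[k] k) : Du k H :=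
  WithConv.toConv (θ ∘ₗ π.toLinearMap)

theorem pl_apply (π : H →ₐc[k] U) (θ : U →ₗ[k] k) (x : H) : (pl π θ).ofConv x = θ (π x) := rfl

/-- The right coaction. -/
noncomputable def rho (π : H →ₐc[k] U) : H →ₐ[k] H ⊗[k] U :=
  (Algebra.TensorProduct.map (AlgHom.id k H) (π : H →ₐ[k] U)).comp (Bialgebra.comulAlgHom k H)

theorem rho_apply (π : H →ₐc[k] U) (x : H) :
    rho π x = LinearMap.lTensor H π.toLinearMap (Coalgebra.comul x) := rfl

/-- The elements whose coaction lies in `H ⊗ W`. -/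
noncomputable def Rw (π : H →ₐc[k] U) (W : Submodule k U) : Submodule k H :=
  (HT H W).comap (rho π).toLinearMap

theorem mem_Rw_iff {π : H →ₐc[k] U} {W : Submodule k U} {x : H} :
    x ∈ Rw π W ↔ rho π x ∈ HT H W := Iff.rfl

/-- Right and left coinvariants agree. -/
structure Cn (π : H →ₐc[k] U) : Prop where
  h : ∀ x, x ∈ Rw π 1 ↔ ∀ θ : U →ₗ[k] k, ract (pl π θ) x = θ 1 • x

/-- A finite-dimensional layered subcoalgebra over `A`. -/
structure Lay (A : Submodule k H) (L : ℕ → Submodule k H) (D : ℕ) : Prop where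
  fg : ∀ e, (L e).FG
  mono : Monotone L
  top : ∀ e, L e ≤ L D
  zero : L 0 ≤ A
  one : (1 : H) ∈ L 0
  cl : ∀ e, Cl (L e)
  cop : ∀ e, ∀ z ∈ L e, Coalgebra.comul (R := k) z ∈ Cop L e

/-- Letters for the image of the algebra generated by the layers. -/
structure Dn (π : H →ₐc[k] U) (L : ℕ → Submodule k H) (y : ι → U) (e : ι → ℕ) : Prop where
  pos : ∀ i, 1 ≤ e i
  comm : ∀ i j, y i * y j - y j * y i ∈ Wq k y e (e i + e j) 2
  eps : ∀ i, Coalgebra.counit (R := k) (y i) = 0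
  cop : ∀ i, Coalgebra.comul (R := k) (y i) - (y i ⊗ₜ[k] 1 + 1 ⊗ₜ[k] y i) ∈
    Ft (fun d => Wq k y e d 0) (e i)
  map : ∀ d, (LW L d).map π.toLinearMap = Wq k y e (d + 1) 0

/-- `W` is coinvariant modulo `W'`. -/
def Stp (W' W : Submodule k U) : Prop :=
  ∀ θ : U →ₗ[k] k, (∀ u ∈ W', θ u = 0) → ∀ u ∈ W, lact (WithConv.toConv θ) u = θ u • (1 : U)

/-- The `x i` are lifts of the `y i`. -/
def Lf (π : H →ₐc[k] U) (x : ι → H) (y : ι → U) (e : ι → ℕ) : Prop :=
  ∀ i, rho π (x i) - 1 ⊗ₜ[k] y i ∈ HT H (Wq k y e (e i) 0)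

/-- The adjoint action on `y`. -/
noncomputable def adm (k : Type) [Field k] [HopfAlgebra k H] (y : H) : H →ₗ[k] H :=
  LinearMap.mul' k H ∘ₗ TensorProduct.map (LinearMap.mulRight k y) (HopfAlgebra.antipode k) ∘ₗ
    Coalgebra.comul

/-- The layers together with their antipodes. -/
noncomputable def Lp (L : ℕ → Submodule k H) (e : ℕ) : Submodule k H := L e ⊔ Sm (L e)

/-- The generators of the `n`-th term of the chain. -/
noncomputable def Yn (A : Submodule k H) (L : ℕ → Submodule k H) (n : ℕ) : Submodule k H :=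
  A ⊓ Gw (Lp L) (2 * n + 1) n

/-- A subalgebra that is a subcoalgebra. -/
structure Sb (B : Submodule k H) : Prop where
  one : (1 : H) ∈ B
  mul : B * B ≤ B
  cl : Cl B

end Hopf

end Pool.Agent.Lib.MP_ff61db_al.Cg
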