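import Pool.Agent.Lib.MP_ff61db_al.Cg.HA
import Pool.Agent.Lib.MP_ff61db_al.Cg.HB

/-! The antipode of a stably finite Hopf algebra is injective (Skryabin). -/

namespace Pool.Agent.Lib.MP_ff61db_al.Cg

open Submodule TensorProduct WithConv

variable {k H : Type} [Field k] [Ring H] [HopfAlgebra k H]

theorem sk_ract (ψ : H →ₗ[k] k) (y : H) :
    HopfAlgebra.antipode k (ract (toConv (ψ ∘ₗ HopfAlgebra.antipode k)) y) =
      lact (toConv ψ) (HopfAlgebra.antipode k y) := by
  simp only [lact, ract, LinearMap.comp_apply, comul_antipode]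
  generalize (Coalgebra.comul y : H ⊗[k] H) = t
  induction t with
  | zero => simp
  | tmul a b => simp
  | add s t hs ht => simp only [map_add, hs, ht]

theorem sk_comul (φ : Du k H) (v : H) :
    Coalgebra.comul (R := k) (ract φ v) = (ract φ).rTensor H (Coalgebra.comul (R := k) v) := by
  rw [← sub_eq_zero]
  refine tensor_zero fun α β => ?_
  have h1 := du_ract (toConv α * toConv β) φ v
  have h2 : α.comp (ract φ) = (φ * toConv α).ofConv :=
    LinearMap.ext fun y => du_ract (toConv α) φ y
  rw [map_sub, sub_eq_zero, LinearMap.rTensor, pair_map, LinearMap.comp_id, h2]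
  rw [← mul_assoc, du_mul, du_mul] at h1
  exact h1

theorem sk_key (φ : Du k H) (v : H) :
    LinearMap.mul' k H ((HopfAlgebra.antipode k ∘ₗ ract φ).rTensor H (Coalgebra.comul v)) =
      algebraMap k H (φ.ofConv v) := by
  rw [LinearMap.rTensor_comp, LinearMap.comp_apply, ← sk_comul,
    HopfAlgebra.mul_antipode_rTensor_comul_apply, ← du_one, du_ract, mul_one]

theorem sk_exp {ι : Type} [Fintype ι] {C : Submodule k H} (hC : Cl C) (u : ι → H)
    (ψ : ι → H →ₗ[k] k)
    (hu : ∀ a ∈ C, HopfAlgebra.antipode k a =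
      ∑ j, ψ j (HopfAlgebra.antipode k a) • HopfAlgebra.antipode k (u j))
    (g : H →ₗ[k] H) {v : H} (hv : v ∈ C) :
    LinearMap.mul' k H ((g ∘ₗ HopfAlgebra.antipode k).rTensor H (Coalgebra.comul v)) =
      ∑ j, g (HopfAlgebra.antipode k (u j)) *
        ract (toConv (ψ j ∘ₗ HopfAlgebra.antipode k)) v := by
  obtain ⟨t, ht⟩ := hC.isSub v hv
  simp only [ract, LinearMap.comp_apply, ← ht]
  clear ht
  induction t with
  | zero => simp
  | tmul a b =>
    have h1 := congrArg g (hu a a.2)
    simp only [map_sum, map_smul] at h1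
    simp [h1, Finset.sum_mul]
  | add s t hs ht => simp only [map_add, hs, ht, mul_add, Finset.sum_add_distrib]

theorem antipode_inj (A : Subalgebra k H) (hc : Cl (Subalgebra.toSubmodule A))
    (hS : Sm (Subalgebra.toSubmodule A) ≤ Subalgebra.toSubmodule A) [IsStablyFiniteRing A]
    {x : H} (hx : x ∈ A) (h : HopfAlgebra.antipode k x = 0) : x = 0 := by
  obtain ⟨C, c1, c2, c3, c4⟩ := exists_fd (span k {x}) (fg_span_singleton x)
  have hCA : C ≤ Subalgebra.toSubmodule A :=
    c4 _ hc ((span_singleton_le_iff_mem _ _).2 hx)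
  have hxC : x ∈ C := c3 (mem_span_singleton_self x)
  have : Module.Finite k (Sm C) := Module.Finite.iff_fg.2 (c1.map _)
  let b := Module.finBasis k (Sm C)
  choose u hu1 hu2 using fun j => mem_map.1 (b j).2
  choose ψ hψ using fun j => (b.coord j).exists_extend
  have hψ' : ∀ j (y : Sm C), ψ j y = b.repr y j := fun j y => LinearMap.congr_fun (hψ j) y
  have hu : ∀ a ∈ C, HopfAlgebra.antipode k a =
      ∑ j, ψ j (HopfAlgebra.antipode k a) • HopfAlgebra.antipode k (u j) := by
    intro a ha
    have h1 := congrArg Subtype.val (b.sum_repr ⟨_, mem_map_of_mem ha⟩)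
    simp only [coe_sum, coe_smul, ← hψ', ← hu2] at h1
    exact h1.symm
  let φ : _ → Du k H := fun j => toConv (ψ j ∘ₗ HopfAlgebra.antipode k)
  have key : ∀ i, ∀ v ∈ C, ∑ j, HopfAlgebra.antipode k (ract (φ i) (u j)) * ract (φ j) v =
      algebraMap k H (ψ i (HopfAlgebra.antipode k v)) := by
    intro i v hv
    have h1 := sk_exp c2 u ψ hu (lact (toConv (ψ i))) hv
    have h2 : lact (toConv (ψ i)) ∘ₗ HopfAlgebra.antipode k =
        HopfAlgebra.antipode k ∘ₗ ract (φ i) := LinearMap.ext fun y => (sk_ract (ψ i) y).symm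
    rw [h2, sk_key] at h1
    simp only [← sk_ract] at h1
    exact h1.symm
  have hm : ∀ i, ∀ v ∈ C, ract (φ i) v ∈ A := fun i v hv => hCA (c2.r _ v hv)
  let D : Matrix _ _ A := Matrix.of fun i l => ⟨ract (φ i) (u l), hm i _ (hu1 l)⟩
  let R : Matrix _ _ A := Matrix.of fun i j =>
    ⟨HopfAlgebra.antipode k (ract (φ i) (u j)), hS (mem_map_of_mem (hm i _ (hu1 j)))⟩
  have hRD : R * D = 1 := by
    ext i l
    have h1 := key i (u l) (hu1 l)
    rw [hu2, hψ', b.repr_self, Finsupp.single_apply] at h1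
    simp only [Matrix.mul_apply, Matrix.one_apply, R, D, Matrix.of_apply,
      AddSubmonoidClass.coe_finsetSum, MulMemClass.coe_mul, h1]
    by_cases e : i = l
    · simp [e]
    · simp [e, Ne.symm e]
  have hDR : D * R = 1 := mul_eq_one_comm.1 hRD
  let d : _ → A := fun j => ⟨ract (φ j) x, hm j x hxC⟩
  have hd : R.mulVec d = 0 := by
    ext i
    have h1 := key i x hxC
    rw [h, map_zero, map_zero] at h1
    simpa [Matrix.mulVec, dotProduct, R, d] using h1
  have hd0 : ∀ j, ract (φ j) x = 0 := fun j => by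
    have h1 : d = 0 := by rw [← Matrix.one_mulVec d, ← hDR, ← Matrix.mulVec_mulVec, hd]; simp
    exact congrArg Subtype.val (congrFun h1 j)
  have h1 := sk_exp c2 u ψ hu (Algebra.linearMap k H ∘ₗ Coalgebra.counit) hxC
  have h2 : ∀ t : H ⊗[k] H, LinearMap.mul' k H (((Algebra.linearMap k H ∘ₗ Coalgebra.counit) ∘ₗ
      HopfAlgebra.antipode k).rTensor H t) =
      TensorProduct.lid k H ((Coalgebra.counit (R := k)).rTensor H t) := by
    intro t
    induction t with
    | zero => simp
    | tmul a b => simp [Algebra.smul_def]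
    | add s t hs ht => simp only [map_add, hs, ht]
  rw [h2, Coalgebra.rTensor_counit_comul, TensorProduct.lid_tmul, one_smul] at h1
  rw [h1]
  exact Finset.sum_eq_zero fun j _ => by rw [hd0 j, mul_zero]

end Pool.Agent.Lib.MP_ff61db_al.Cg
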