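import Pool.Agent.Lib.MP_ff61db_al.Cg.DH2
import Pool.Agent.Lib.MP_ff61db_al.Cg.DW
import Pool.Agent.Lib.MP_ff61db_al.Cg.Sk

/-! Leading coefficients and lifts. -/

namespace Pool.Agent.Lib.MP_ff61db_al.Cg

open Submodule TensorProduct

variable {k H U : Type} [Field k] [Ring H] [HopfAlgebra k H] [Ring U] [HopfAlgebra k U] {ι : Type}
  {π : H →ₐc[k] U}

theorem df0_words {y : ι → U} {e : ι → ℕ} {d : ℕ}
    (hy : ∀ i, e i < d → HopfAlgebra.antipode k (y i) ∈ Wq k y e (e i + 1) 0) {a : U}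
    (ha : a ∈ Wq k y e d 0) : HopfAlgebra.antipode k a ∈ Wq k y e d 0 := by
  have w : ∀ l : List ι, (l.map e).sum < d →
      HopfAlgebra.antipode k (l.map y).prod ∈ Wq k y e ((l.map e).sum + 1) 0 := fun l => by
    induction l with
    | nil => exact fun _ => by simpa using one_mem_Wq (k := k) (x := y) (e := e) 0
    | cons i l ih =>
      intro hl
      simp only [List.map_cons, List.sum_cons, List.prod_cons] at hl ⊢
      rw [HopfAlgebra.antipode_mul_antidistrib]
      exact Wq_mono (by omega)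
        (Wq_mul_l _ _ (mul_mem_mul (ih (by omega)) (hy i (by omega))))
  refine (span_le.2 ?_ : Wq k y e d 0 ≤ (Wq k y e d 0).comap (HopfAlgebra.antipode k)) ha
  rintro _ ⟨l, rfl, h | h⟩
  · exact Wq_mono h (w l h)
  · exact absurd h.2 (Nat.not_lt_zero _)

theorem df0_letter {L : ℕ → Submodule k H} {y : ι → U} {e : ι → ℕ} (h : Dn π L y e) (n : ℕ) :
    ∀ i, e i = n → HopfAlgebra.antipode k (y i) ∈ Wq k y e (e i + 1) 0 := by
  induction n using Nat.strong_induction_on with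
  | _ n ih =>
  intro i hi
  have a : Ft (fun d => Wq k y e d 0) (e i) ≤ (Wq k y e (e i + 1) 0).comap
      (LinearMap.mul' k U ∘ₗ (HopfAlgebra.antipode k).rTensor U) := by
    refine span_le.2 ?_
    rintro _ ⟨a, b, s, u, hs, hu, hab, rfl⟩
    have := Wq_mul_l _ _ (mul_mem_mul
      (df0_words (fun j hj => ih (e j) (by omega) j rfl) hs) hu)
    simpa using Wq_mono (by omega) this
  have b := a (h.cop i)
  rw [mem_comap, map_sub, LinearMap.comp_apply, HopfAlgebra.mul_antipode_rTensor_comul_apply,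
    h.eps, map_zero, zero_sub, neg_mem_iff] at b
  have c : y i ∈ Wq k y e (e i + 1) 0 := by
    simpa using prod_mem_Wq (k := k) (x := y) (e := e) [i] (d := e i + 1) (by simp)
  simpa using sub_mem b c

theorem Dn.anti {L : ℕ → Submodule k H} {y : ι → U} {e : ι → ℕ} (h : Dn π L y e) (d : ℕ) :
    Sm (Wq k y e d 0) ≤ Wq k y e d 0 := by
  rintro _ ⟨a, ha, rfl⟩
  exact df0_words (fun i _ => df0_letter h _ i rfl) ha

theorem Stp.lc {W' W : Submodule k U} (h : Stp W' W) {θ : U →ₗ[k] k} (hθ : ∀ u ∈ W', θ u = 0) {z : H}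
    (hz : z ∈ Rw π W) : lact (pl π θ) z ∈ Rw π 1 := by
  refine mem_Rw.2 fun θ' h1 => ?_
  rw [← lact_mul, ← pl_mul]
  refine mem_Rw.1 hz _ fun u hu => ?_
  rw [← du_lact, h θ hθ u hu, map_smul]
  exact smul_eq_zero_of_right _ (h1 1 (mem_one.2 ⟨1, map_one _⟩))

end Pool.Agent.Lib.MP_ff61db_al.Cg
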