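import Pool.Agent.Lib.MP_ff61db_al.Cg.DF0

/-! Leading coefficients and lifts. -/

namespace Pool.Agent.Lib.MP_ff61db_al.Cg

open Submodule TensorProduct

variable {k H U : Type} [Field k] [Ring H] [HopfAlgebra k H] [Ring U] [HopfAlgebra k U] {ι : Type}
  {π : H →ₐc[k] U}

theorem df1_exp [Fintype ι] {C : Submodule k H} (hC : Cl C) (u : ι → H)
    (ψ : ι → H →ₗ[k] k) (hu : ∀ a ∈ C, a = ∑ j, ψ j a • u j) {v : H} (hv : v ∈ C) :
    ∑ j, HopfAlgebra.antipode k (u j) * ract (WithConv.toConv (ψ j)) v =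
      algebraMap k H (Coalgebra.counit v) := by
  rw [← HopfAlgebra.mul_antipode_rTensor_comul_apply]
  obtain ⟨t, ht⟩ := hC.isSub v hv
  simp only [ract, LinearMap.comp_apply, ← ht]
  clear ht
  induction t with
  | zero => simp
  | tmul a b =>
    have h1 := congrArg (HopfAlgebra.antipode k) (hu a a.2)
    simp only [map_sum, map_smul] at h1
    simp [h1, Finset.sum_mul]
  | add s t hs ht => simp only [map_add, ← hs, ← ht, mul_add, Finset.sum_add_distrib]

theorem Cn.lift (hc : Cn π) {W' W : Submodule k U} (h : Stp W' W) {P : Submodule k H}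
    (hP : P ≤ Rw π W) (hA : Rw π 1 * P ≤ P) (hr : ∀ φ : Du k H, ∀ z ∈ P, ract φ z ∈ P) {z : H}
    (hz : z ∈ P) : ∃ z' ∈ P, rho π z' - 1 ⊗ₜ[k] π z ∈ HT H W' := by
  obtain ⟨C, c1, c2, c3, -⟩ := exists_fd (span k {z}) (fg_span_singleton z)
  have hzC : z ∈ C := c3 (mem_span_singleton_self z)
  have hE : Cl (C ⊓ Rw π 1) := c2.inf hc.sb.cl
  have : Module.Finite k C := Module.Finite.iff_fg.2 c1
  have : Module.Finite k (C ⊓ Rw π 1 : Submodule k H) :=
    Submodule.finiteDimensional_of_le inf_le_left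
  let b := Module.finBasis k (C ⊓ Rw π 1 : Submodule k H)
  choose ψ hψ using fun j => (b.coord j).exists_extend
  have hψ' : ∀ j (y : (C ⊓ Rw π 1 : Submodule k H)), ψ j y = b.repr y j :=
    fun j y => LinearMap.congr_fun (hψ j) y
  have hu : ∀ a ∈ C ⊓ Rw π 1, a = ∑ j, ψ j a • (b j : H) := by
    intro a ha
    have h1 := congrArg Subtype.val (b.sum_repr ⟨a, ha⟩)
    simp only [coe_sum, coe_smul, ← hψ'] at h1
    exact h1.symm
  have hS : ∀ j, HopfAlgebra.antipode k (b j : H) ∈ Rw π 1 :=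
    fun j => hc.anti (mem_map_of_mem (b j).2.2)
  refine ⟨∑ j, HopfAlgebra.antipode k (b j : H) * ract (WithConv.toConv (ψ j)) z,
    sum_mem fun j _ => hA (mul_mem_mul (hS j) (hr _ z hz)), mem_HT.2 fun θ hθ => ?_⟩
  have ha : lact (pl π θ) z ∈ C ⊓ Rw π 1 := ⟨c2.l _ z hzC, h.lc hθ (hP hz)⟩
  rw [map_sub, ct_rho, ct_tmul, map_sum, sub_eq_zero]
  simp only [lact_left θ (hS _), lact_ract]
  rw [df1_exp hE _ ψ hu ha, counit_lact, pl_apply, Algebra.algebraMap_eq_smul_one]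

end Pool.Agent.Lib.MP_ff61db_al.Cg
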