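import Pool.Agent.Lib.MP_ff61db_al.Cg.DF5

/-! Words in lifts. -/

namespace Pool.Agent.Lib.MP_ff61db_al.Cg

open Submodule TensorProduct

variable {k H U : Type} [Field k] [Ring H] [HopfAlgebra k H] [Ring U] [HopfAlgebra k U] {ι : Type}
  {π : H →ₐc[k] U}
variable {L : ℕ → Submodule k H} {x : ι → H} {y : ι → U} {e : ι → ℕ}

theorem df2_ct (θ θ' : U →ₗ[k] k) (c : k) (t : H ⊗[k] U) :
    ct H (θ - c • θ') t = ct H θ t - c • ct H θ' t := by
  induction t with
  | zero => simp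
  | tmul a u => simp [sub_smul, mul_smul]
  | add s t hs ht =>
    simp only [map_add, hs, ht, smul_add]
    abel

theorem df2_ins {W' W V : Submodule k U} (hS : Stp W' W) {Z : Submodule k H}
    (hl : ∀ u ∈ W, ∃ z ∈ Z, rho π z - 1 ⊗ₜ[k] u ∈ HT H W') (h1 : W' ≤ V) (h2 : V ≤ W) {u : U}
    (hu : u ∈ W) (ih : Rw π V ≤ Rw π 1 * Z) : Rw π (V ⊔ span k {u}) ≤ Rw π 1 * Z := by
  by_cases hV : u ∈ V
  · rwa [sup_eq_left.2 ((span_singleton_le_iff_mem _ _).2 hV)]
  intro z hz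
  obtain ⟨f, f1, f2⟩ := Submodule.exists_dual_map_eq_bot_of_notMem hV inferInstance
  have f3 : ∀ v ∈ V, f v = 0 := fun v hv => (mem_bot k).1 (f2 ▸ mem_map_of_mem hv)
  have hW : V ⊔ span k {u} ≤ W := sup_le h2 ((span_singleton_le_iff_mem _ _).2 hu)
  have ha : lact (pl π f) z ∈ Rw π 1 := hS.lc (fun v hv => f3 v (h1 hv)) (Rw_mono hW hz)
  have ha' : (f u)⁻¹ • lact (pl π f) z ∈ Rw π 1 := smul_mem _ _ ha
  obtain ⟨w, w1, w2⟩ := hl u hu
  have key : z - ((f u)⁻¹ • lact (pl π f) z) * w ∈ Rw π V := by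
    refine mem_Rw.2 fun θ hθ => ?_
    have e1 : lact (pl π θ) w = θ u • (1 : H) := by
      have := mem_HT.1 w2 θ fun v hv => hθ v (h1 hv)
      rwa [map_sub, ct_rho, ct_tmul, sub_eq_zero] at this
    have e2 : lact (pl π θ) z = (θ u * (f u)⁻¹) • lact (pl π f) z := by
      have := mem_HT.1 (mem_Rw_iff.1 hz) (θ - (θ u * (f u)⁻¹) • f) fun v hv => by
        obtain ⟨v1, hv1, v2, hv2, rfl⟩ := mem_sup.1 hv
        obtain ⟨c, rfl⟩ := mem_span_singleton.1 hv2
        simp only [map_add, map_smul, LinearMap.sub_apply, LinearMap.smul_apply, hθ v1 hv1,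
          f3 v1 hv1, smul_eq_mul, mul_zero, sub_zero, zero_add]
        rw [mul_assoc, inv_mul_cancel₀ f1, mul_one, sub_self, mul_zero]
      rwa [df2_ct, ct_rho, ct_rho, sub_eq_zero] at this
    rw [map_sub, lact_left θ ha', e1, e2, mul_smul_comm, mul_one, smul_smul, sub_self]
  have := add_mem (ih key) (mul_mem_mul ha' w1)
  rwa [sub_add_cancel] at this

theorem df2_lift (h : Lf π x y e) (d : ℕ) : ∀ u ∈ Wq k y e (d + 1) 0,
    ∃ z ∈ Wq k x e (d + 1) 0, rho π z - 1 ⊗ₜ[k] u ∈ HT H (Wq k y e d 0) := by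
  intro u hu
  have hu' : u ∈ span k {a | ∃ l ∈ {l : List ι | (l.map e).sum ≤ d}, a = (l.map y).prod} := by
    refine span_mono ?_ hu
    rintro _ ⟨l, rfl, hl⟩
    refine ⟨l, ?_, rfl⟩
    change (l.map e).sum ≤ d
    omega
  obtain ⟨z, z1, z2⟩ := h.transfer (d := d) (fun l hl => hl) hu'
  refine ⟨z, span_le.2 ?_ z1, z2⟩
  rintro _ ⟨l, hl, rfl⟩
  exact prod_mem_Wq l (Nat.lt_succ_of_le hl)

theorem Lf.span [Finite ι] (h : Lf π x y e) (hD : Dn π L y e) (d : ℕ) :
    Rw π (Wq k y e d 0) ≤ Rw π 1 * Wq k x e d 0 := by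
  classical
  induction d with
  | zero =>
    rw [Wq_zero, Rw_bot]
    exact bot_le
  | succ d ih =>
    have hm : Wq k y e d 0 ≤ Wq k y e (d + 1) 0 := Wq_mono (Nat.le_succ d)
    have key : ∀ t : Finset U, (∀ u ∈ t, u ∈ Wq k y e (d + 1) 0) →
        Rw π (Wq k y e d 0 ⊔ Submodule.span k (t : Set U)) ≤ Rw π 1 * Wq k x e (d + 1) 0 := by
      intro t
      induction t using Finset.induction_on with
      | empty =>
        intro _
        rw [Finset.coe_empty, span_empty, sup_bot_eq]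
        exact ih.trans (mul_le_mul' le_rfl (Wq_mono (Nat.le_succ d)))
      | insert u t _ iht =>
        intro ht
        have ht' : ∀ v ∈ t, v ∈ Wq k y e (d + 1) 0 := fun v hv => ht v (Finset.mem_insert_of_mem hv)
        rw [Finset.coe_insert, span_insert, sup_comm (Submodule.span k {u}), ← sup_assoc]
        exact df2_ins (hD.stp d) (df2_lift h d) le_sup_left (sup_le hm (span_le.2 ht'))
          (ht u (Finset.mem_insert_self u t)) (iht ht')
    obtain ⟨s, hs⟩ := Wq_fg (k := k) (x := y) hD.pos (d + 1)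
    have h2 := key s fun u hu => hs ▸ subset_span hu
    rwa [hs, sup_eq_right.2 hm] at h2

end Pool.Agent.Lib.MP_ff61db_al.Cg
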