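import Pool.Agent.Lib.MP_ff61db_al.Cg.DQ

/-! Reduction to standard monomials. -/

namespace Pool.Agent.Lib.MP_ff61db_al.Cg

open Submodule TensorProduct

variable {k H : Type} [Field k] [Ring H] [Algebra k H] {ι : Type} {x : ι → H} {e : ι → ℕ}
variable {B : ℕ → Submodule k H}

theorem dr_Ms_mono {T T' : Set (Multiset ι)} (h : T ⊆ T') : Ms k x T ≤ Ms k x T' := by
  apply span_mono
  rintro a ⟨c, hc, rfl⟩
  exact ⟨c, h hc, rfl⟩

theorem dr_mul_le {M M' N N' : Submodule k H} (h : M ≤ M') (h' : N ≤ N') : M * N ≤ M' * N' :=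
  mul_le_mul' h h'

theorem dr_mon_mem {T : Set (Multiset ι)} {c : Multiset ι} (h : c ∈ T) : mon x c ∈ Ms k x T :=
  subset_span ⟨c, h, rfl⟩

theorem dr_Ms_bot {T : Set (Multiset ι)} (h : ∀ c, c ∉ T) : Ms k x T = ⊥ := by
  rw [Ms, span_eq_bot]
  rintro a ⟨c, hc, -⟩
  exact absurd hc (h c)

theorem dr_step [Finite ι] [LinearOrder ι] {A P : Submodule k H} (hP : P ≤ A)
    {σ : Multiset ι → Prop}
    (hind : ∀ b, σ b → ∀ a ∈ A, a * mon x b ∈ A * Mo k x e b → a = 0) {T : Set (Multiset ι)}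
    (hT : ∀ c ∈ T, σ c) {z : H} (hz : z ∈ A) (b : Multiset ι) :
    b ∈ T → ∀ a ∈ P, z - a * mon x b ∈ P * Ms k x {c | c ∈ T ∧ kap e c < kap e b} → z ∈ P := by
  induction b using (kap_wf (e := e)).induction with
  | _ b ih =>
    intro hb a ha hza
    by_cases h0 : b = 0
    · subst h0
      have hbot : Ms k x {c | c ∈ T ∧ kap e c < kap e (0 : Multiset ι)} = ⊥ := by
        apply dr_Ms_bot
        rintro c ⟨-, hc⟩
        by_cases hc0 : c = 0
        · subst hc0
          exact lt_irrefl _ hc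
        · exact lt_asymm hc (kap_zero hc0)
      rw [hbot, Submodule.mul_bot, mon_zero, mul_one, Submodule.mem_bot, sub_eq_zero] at hza
      rw [hza]
      exact ha
    · have h1 : z ∈ A * Mo k x e b := by
        have h2 : mon x (0 : Multiset ι) ∈ Mo k x e b := by
          rw [Mo_eq]
          exact dr_mon_mem (kap_zero h0)
        have h3 := Submodule.mul_mem_mul hz h2
        rwa [mon_zero, mul_one] at h3
      have h4 : z - a * mon x b ∈ A * Mo k x e b := by
        refine dr_mul_le hP ?_ hza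
        rw [Mo_eq]
        exact dr_Ms_mono fun c hc => hc.2
      have h5 : a * mon x b ∈ A * Mo k x e b := by
        have h6 := Submodule.sub_mem _ h1 h4
        rwa [sub_sub_cancel] at h6
      have h7 : a = 0 := hind b (hT b hb) a (hP ha) h5
      rw [h7, zero_mul, sub_zero] at hza
      rcases top_term e P _ hza with h8 | ⟨b', hb', a', ha', h9⟩
      · rw [h8]
        exact P.zero_mem
      · refine ih b' hb'.2 hb'.1 a' ha' (dr_mul_le le_rfl ?_ h9)
        exact dr_Ms_mono fun c hc => ⟨hc.1.1, hc.2⟩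

theorem cut [Finite ι] [LinearOrder ι] {A P : Submodule k H} (hP : P ≤ A) {σ : Multiset ι → Prop}
    (hind : ∀ b, σ b → ∀ a ∈ A, a * mon x b ∈ A * Mo k x e b → a = 0) {T : Set (Multiset ι)}
    (hT : ∀ c ∈ T, σ c) : A ⊓ P * Ms k x T ≤ P := by
  rintro z ⟨hz, hz'⟩
  rcases top_term e P T hz' with h | ⟨b, hb, a, ha, h⟩
  · rw [h]
    exact P.zero_mem
  · exact dr_step hP hind hT hz b hb a ha h

theorem Ch.cut [Finite ι] [LinearOrder ι] (h : Ch B x e) {A : Submodule k H} (hB : ∀ n, B n ≤ A)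
    {σ : Multiset ι → Prop}
    (hns : ∀ b, ¬ σ b → ∃ c ≤ b, mon x c ∈ Mo k x e c ⊔ B 0 * Wq k x e (wt e c) 0)
    (hind : ∀ b, σ b → ∀ a ∈ A, a * mon x b ∈ A * Mo k x e b → a = 0) (n d : ℕ) :
    A ⊓ B n * Wq k x e d 0 ≤ B (n + d) := by
  have h1 : B n * Wq k x e d 0 ≤ B (n + d) * Ms k x {c | σ c ∧ wt e c < d} := by
    refine (dr_mul_le le_rfl (h.red hns d)).trans ?_
    rw [← mul_assoc]
    refine dr_mul_le ?_ le_rfl
    exact (dr_mul_le (h.mono (Nat.le_add_right n d))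
      (h.mono (Nat.le_add_left d n))).trans (h.mul (n + d))
  exact (inf_le_inf_left A h1).trans
    (Cg.cut (e := e) (hB (n + d)) hind fun c hc => hc.1)

end Pool.Agent.Lib.MP_ff61db_al.Cg
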