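import Pool.Agent.Lib.MP_ff61db_al.Cg.DF2
import Pool.Agent.Lib.MP_ff61db_al.Cg.DR

/-! The lifts form a system of letters. -/

namespace Pool.Agent.Lib.MP_ff61db_al.Cg

open Submodule TensorProduct

variable {k H U : Type} [Field k] [Ring H] [HopfAlgebra k H] [Ring U] [HopfAlgebra k U] {ι : Type}
  {π : H →ₐc[k] U}
variable {L : ℕ → Submodule k H} {x : ι → H} {y : ι → U} {e : ι → ℕ}

theorem Lf.gd [Finite ι] (h : Lf π x y e) (hc : Cn π) (hD : Dn π L y e) : Gd (Rw π 1) x e := by
  refine ⟨hc.sb.one, hc.sb.mul, hD.pos, fun i a ha => h.span hD _ (mem_Rw_iff.2 ?_),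
    fun i j => ?_⟩
  · have h1 : a ⊗ₜ[k] (1 : U) ∈ HT H (1 : Submodule k U) := tmul_mem_HT a (one_le.1 le_rfl)
    have h2 := HT_mul (h i) h1
    have h3 := HT_mul h1 (h i)
    rw [mul_one] at h2
    rw [one_mul] at h3
    convert sub_mem h2 h3 using 1
    simp only [map_sub, map_mul, mem_A.1 ha, sub_mul, mul_sub, Algebra.TensorProduct.tmul_mul_tmul,
      one_mul, mul_one]
    abel
  · obtain ⟨z, h1, h2⟩ := h.transfer (d := e i + e j) (u := y i * y j - y j * y i)
      (T := {l | (l.map e).sum < e i + e j ∨ ((l.map e).sum = e i + e j ∧ l.length < 2)})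
      (fun l hl => hl.elim le_of_lt fun c => c.1.le)
      (span_mono (by rintro a ⟨l, h1, h2⟩; exact ⟨l, h2, h1⟩) (hD.comm i j))
    have h3 := h.word [i, j]
    have h4 := h.word [j, i]
    simp only [List.map_cons, List.map_nil, List.prod_cons, List.prod_nil, mul_one, List.sum_cons,
      List.sum_nil, add_zero] at h3 h4
    rw [add_comm] at h4
    refine mem_sup.2 ⟨z, span_mono (by rintro a ⟨l, h1, h2⟩; exact ⟨l, h2, h1⟩) h1,
      x i * x j - x j * x i - z, h.span hD _ (mem_Rw_iff.2 ?_), add_sub_cancel _ _⟩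
    convert sub_mem (sub_mem h3 h4) h2 using 1
    simp only [map_sub, tmul_sub]
    abel

theorem Dn.low [Finite ι] [LinearOrder ι] (hD : Dn π L y e) (b : Multiset ι) :
    Wq k y e (wt e b) 0 ≤ Mo k y e b := by
  have h : Ch (fun _ => (1 : Submodule k U)) y e := by
    refine ⟨monotone_const, one_le.1 le_rfl, fun _ => (mul_one _).le, hD.pos,
      fun i _ c hc => ?_, fun i j => mem_sup_left (hD.comm i j)⟩
    obtain ⟨r, rfl⟩ := mem_one.1 hc
    rw [one_mul, ← Algebra.commutes, ← Algebra.smul_def]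
    refine smul_mem _ _ ?_
    simpa using prod_mem_Wq (k := k) (x := y) (e := e) [i] (d := e i + 1) (by simp)
  refine (h.red (σ := fun _ => True) (fun _ c => (c trivial).elim) _).trans ?_
  rw [one_mul]
  exact span_mono fun a ⟨c, h1, h2⟩ => ⟨c, h2, kap_lt.2 (Or.inl h1.2)⟩

end Pool.Agent.Lib.MP_ff61db_al.Cg
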