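import Pool.Agent.Lib.MP_ff61db_al.Cg.DF1
import Pool.Agent.Lib.MP_ff61db_al.Cg.DC3

/-! Words in lifts. -/

namespace Pool.Agent.Lib.MP_ff61db_al.Cg

open Submodule TensorProduct

variable {k H U : Type} [Field k] [Ring H] [HopfAlgebra k H] [Ring U] [HopfAlgebra k U] {ι : Type}
  {π : H →ₐc[k] U}
variable {L : ℕ → Submodule k H} {x : ι → H} {y : ι → U} {e : ι → ℕ}

theorem Lf.word (h : Lf π x y e) (l : List ι) :
    rho π (l.map x).prod - 1 ⊗ₜ[k] (l.map y).prod ∈ HT H (Wq k y e (l.map e).sum 0) := by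
  induction l with
  | nil =>
    simp only [List.map_nil, List.prod_nil, map_one, List.sum_nil]
    rw [← Algebra.TensorProduct.one_def, sub_self]
    exact zero_mem _
  | cons i l ih =>
    simp only [List.map_cons, List.prod_cons, List.sum_cons, map_mul]
    have hd : (1 : H) ⊗ₜ[k] (l.map y).prod ∈ HT H (Wq k y e ((l.map e).sum + 1) 0) :=
      tmul_mem_HT 1 (prod_mem_Wq l (Nat.lt_succ_self _))
    have hb : rho π (l.map x).prod ∈ HT H (Wq k y e ((l.map e).sum + 1) 0) := by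
      have h1 := add_mem (HT_mono (Wq_mono (Nat.le_succ _)) ih) hd
      rwa [sub_add_cancel] at h1
    have hc : (1 : H) ⊗ₜ[k] y i ∈ HT H (Wq k y e (e i + 1) 0) := by
      refine tmul_mem_HT 1 ?_
      have h1 := prod_mem_Wq (k := k) (x := y) (e := e) [i] (d := e i + 1) (by simp)
      simpa using h1
    have h1 := HT_mono (Wq_mul_r _ _) (HT_mul (h i) hb)
    have h2 := HT_mono (Wq_mul_l _ _) (HT_mul hc ih)
    have e1 : (1 : H) ⊗ₜ[k] (y i * (l.map y).prod) =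
        ((1 : H) ⊗ₜ[k] y i) * ((1 : H) ⊗ₜ[k] (l.map y).prod) := by
      rw [Algebra.TensorProduct.tmul_mul_tmul, one_mul]
    have h3 := add_mem h1 h2
    rw [sub_mul, mul_sub, sub_add_sub_cancel, ← e1] at h3
    exact h3

theorem Lf.le (h : Lf π x y e) (d : ℕ) : Wq k x e d 0 ≤ Rw π (Wq k y e d 0) := by
  refine span_le.2 ?_
  rintro _ ⟨l, rfl, hl⟩
  have hl' : (l.map e).sum < d := hl.elim id fun h0 => absurd h0.2 (Nat.not_lt_zero _)
  have h1 := add_mem (HT_mono (Wq_mono hl'.le) (h.word l))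
    (tmul_mem_HT (1 : H) (prod_mem_Wq (x := y) l hl'))
  rw [sub_add_cancel] at h1
  exact mem_Rw_iff.2 h1

theorem Lf.transfer (h : Lf π x y e) {T : Set (List ι)} {d : ℕ} (hT : ∀ l ∈ T, (l.map e).sum ≤ d)
    {u : U} (hu : u ∈ span k {a | ∃ l ∈ T, a = (l.map y).prod}) :
    ∃ z ∈ span k {a | ∃ l ∈ T, a = (l.map x).prod}, rho π z - 1 ⊗ₜ[k] u ∈ HT H (Wq k y e d 0) := by
  induction hu using span_induction with
  | mem a ha =>
    obtain ⟨l, hl, rfl⟩ := ha
    exact ⟨_, subset_span ⟨l, hl, rfl⟩, HT_mono (Wq_mono (hT l hl)) (h.word l)⟩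
  | zero => exact ⟨0, zero_mem _, by simp⟩
  | add a b _ _ ha hb =>
    obtain ⟨z, hz, h1⟩ := ha
    obtain ⟨w, hw, h2⟩ := hb
    refine ⟨z + w, add_mem hz hw, ?_⟩
    rw [map_add, tmul_add, add_sub_add_comm]
    exact add_mem h1 h2
  | smul c a _ ha =>
    obtain ⟨z, hz, h1⟩ := ha
    refine ⟨c • z, smul_mem _ c hz, ?_⟩
    rw [map_smul, tmul_smul, ← smul_sub]
    exact smul_mem _ c h1

theorem Lf.le' (h : Lf π x y e) (d : ℕ) : Rw π 1 * Wq k x e d 0 ≤ Rw π (Wq k y e d 0) := by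
  refine (mul_le_mul_right (h.le d) _).trans ?_
  have h1 := Rw_mul (π := π) 1 (Wq k y e d 0)
  rwa [one_mul] at h1

end Pool.Agent.Lib.MP_ff61db_al.Cg
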