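import Pool.Agent.Lib.MP_ff61db_al.Cg.DR

/-! Letters over a fixed ring. -/

namespace Pool.Agent.Lib.MP_ff61db_al.Cg

open Submodule TensorProduct

variable {k H : Type} [Field k] [Ring H] [Algebra k H] {ι : Type} {x : ι → H} {e : ι → ℕ}
variable {A : Submodule k H}

theorem g0_mem (i : ι) : x i ∈ Wq k x e (e i + 1) 0 :=
  subset_span ⟨[i], by simp, Or.inl (by simp)⟩

theorem Gd.ch (h : Gd A x e) : Ch (fun _ => A) x e := by
  refine ⟨fun _ _ _ => le_rfl, h.one, fun _ => h.mul, h.pos, fun i _ b hb => ?_, h.comm⟩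
  rw [← add_sub_cancel (b * x i) (x i * b)]
  exact add_mem (mul_mem_mul hb (g0_mem i))
    (mul_le_mul' le_rfl (Wq_mono (Nat.le_succ _)) (h.sw i b hb))

theorem Gd.word (h : Gd A x e) (l : List ι) {a : H} (ha : a ∈ A) :
    (l.map x).prod * a - a * (l.map x).prod ∈ A * Wq k x e (l.map e).sum 0 := by
  induction l with
  | nil => simp
  | cons i l ih =>
    simp only [List.map_cons, List.prod_cons, List.sum_cons]
    have e1 : x i * (l.map x).prod * a - a * (x i * (l.map x).prod) =
        1 * x i * ((l.map x).prod * a - a * (l.map x).prod) +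
          (x i * a - a * x i) * (l.map x).prod := by noncomm_ring
    have h1 : (l.map x).prod ∈ Wq k x e ((l.map e).sum + 1) 0 :=
      subset_span ⟨l, rfl, Or.inl (Nat.lt_succ_self _)⟩
    rw [e1]
    refine add_mem (h.ch.m2 (n := 0) (n' := 0) (N := e i) _ (Nat.zero_le _) (zero_add _).le
      (mul_mem_mul (mul_mem_mul h.one (g0_mem i)) ih)) ?_
    have h2 := mul_mem_mul (h.sw i a ha) h1
    rw [mul_assoc] at h2
    exact mul_le_mul' le_rfl (Wq_mul_r _ _) h2

theorem Gd.swap (h : Gd A x e) (d : ℕ) : A * Wq k x e d 0 = Wq k x e d 0 * A := by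
  induction d with
  | zero => rw [Wq_zero, mul_bot, bot_mul]
  | succ d ih =>
    refine le_antisymm (mul_le.2 fun a ha w hw => ?_) (h.ch.m1 d 0)
    induction hw using span_induction with
    | mem w hw =>
      obtain ⟨l, rfl, hl⟩ := hw
      have h1 : (l.map e).sum ≤ d := by omega
      rw [← sub_sub_cancel ((l.map x).prod * a) (a * (l.map x).prod)]
      refine sub_mem (mul_mem_mul (subset_span ⟨l, rfl, hl⟩) ha) ?_
      refine mul_le_mul' (Wq_mono (Nat.le_succ d)) le_rfl (ih.le ?_)
      exact mul_le_mul' le_rfl (Wq_mono h1) (h.word l ha)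
    | zero => rw [mul_zero]; exact zero_mem _
    | add u v _ _ hu hv => rw [mul_add]; exact add_mem hu hv
    | smul c u _ hu => rw [mul_smul_comm]; exact smul_mem _ _ hu

end Pool.Agent.Lib.MP_ff61db_al.Cg
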