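import Pool.Agent.Lib.MP_ff61db_al.Cg.DG0

/-! Letters over a fixed ring. -/

namespace Pool.Agent.Lib.MP_ff61db_al.Cg

open Submodule TensorProduct

variable {k H : Type} [Field k] [Ring H] [Algebra k H] {ι : Type} {x : ι → H} {e : ι → ℕ}
variable {A : Submodule k H}

theorem Wq_op (d m : ℕ) : (Wq k x e d m).map (MulOpposite.opLinearEquiv k : H ≃ₗ[k] Hᵐᵒᵖ).toLinearMap =
    Wq k (fun i => MulOpposite.op (x i)) e d m := by
  unfold Wq
  rw [Submodule.map_span]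
  congr 1
  ext a
  constructor
  · rintro ⟨_, ⟨l, rfl, hl⟩, rfl⟩
    refine ⟨l.reverse, ?_, by simpa [List.sum_reverse] using hl⟩
    change MulOpposite.op _ = _
    rw [MulOpposite.op_list_prod]
    simp [Function.comp_def]
  · rintro ⟨l, rfl, hl⟩
    refine ⟨_, ⟨l.reverse, rfl, by simpa [List.sum_reverse] using hl⟩, ?_⟩
    change MulOpposite.op _ = _
    rw [MulOpposite.op_list_prod]
    simp [Function.comp_def]

theorem dg1_mul (P Q : Submodule k H) :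
    (P * Q).map (MulOpposite.opLinearEquiv k : H ≃ₗ[k] Hᵐᵒᵖ).toLinearMap =
      Q.map (MulOpposite.opLinearEquiv k : H ≃ₗ[k] Hᵐᵒᵖ).toLinearMap *
        P.map (MulOpposite.opLinearEquiv k : H ≃ₗ[k] Hᵐᵒᵖ).toLinearMap :=
  map_op_mul P Q

theorem dg1_swap (h : Gd A x e) (d : ℕ) :
    (A * Wq k x e d 0).map (MulOpposite.opLinearEquiv k : H ≃ₗ[k] Hᵐᵒᵖ).toLinearMap =
      A.map (MulOpposite.opLinearEquiv k : H ≃ₗ[k] Hᵐᵒᵖ).toLinearMap *
        Wq k (fun i => MulOpposite.op (x i)) e d 0 := by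
  rw [h.swap, dg1_mul, Wq_op]

theorem Gd.op (h : Gd A x e) : Gd (A.map (MulOpposite.opLinearEquiv k : H ≃ₗ[k] Hᵐᵒᵖ).toLinearMap)
    (fun i => MulOpposite.op (x i)) e := by
  refine ⟨⟨1, h.one, rfl⟩, ?_, h.pos, ?_, fun i j => ?_⟩
  · rw [← dg1_mul]
    exact map_mono h.mul
  · rintro i _ ⟨a, ha, rfl⟩
    rw [← dg1_swap h]
    refine ⟨_, neg_mem (h.sw i a ha), ?_⟩
    simp
  · rw [← dg1_swap h, ← Wq_op, ← Submodule.map_sup, add_comm]
    refine ⟨_, h.comm j i, ?_⟩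
    simp

theorem Gd.Tt_op (h : Gd A x e) : (Tt A x e).map (MulOpposite.opLinearEquiv k : H ≃ₗ[k] Hᵐᵒᵖ).toLinearMap =
    Tt (A.map (MulOpposite.opLinearEquiv k : H ≃ₗ[k] Hᵐᵒᵖ).toLinearMap) (fun i => MulOpposite.op (x i)) e := by
  unfold Tt
  rw [Submodule.map_iSup]
  exact iSup_congr fun d => dg1_swap h d

end Pool.Agent.Lib.MP_ff61db_al.Cg
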