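import Pool.Agent.Lib.MP_ff61db_al.Cg.DG1

/-! Leading terms over a fixed ring. -/

namespace Pool.Agent.Lib.MP_ff61db_al.Cg

open Submodule TensorProduct

variable {k H : Type} [Field k] [Ring H] [Algebra k H] {ι : Type} {x : ι → H} {e : ι → ℕ}
variable {A : Submodule k H}

theorem dg2_red [Finite ι] [LinearOrder ι] (h : Gd A x e) (d : ℕ) {P : Submodule k H}
    (hP : ∀ c, wt e c < d → mon x c ∈ P) : A * Wq k x e d 0 ≤ A * P := by
  have h1 := h.ch.red (σ := fun _ => True) (fun _ hb => (hb trivial).elim) d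
  have h2 : Ms k x {c | True ∧ wt e c < d} ≤ P := by
    refine span_le.2 ?_
    rintro _ ⟨c, hc, rfl⟩
    exact hP c hc.2
  refine (mul_le_mul_right h1 _).trans ?_
  rw [← mul_assoc]
  exact mul_le_mul' h.mul h2

theorem Gd.low [Finite ι] [LinearOrder ι] (h : Gd A x e) (b : Multiset ι) :
    A * Wq k x e (wt e b) 0 ≤ A * Mo k x e b :=
  dg2_red h _ fun c hc => subset_span ⟨c, rfl, kap_lt.2 (Or.inl hc)⟩

theorem Gd.key [Finite ι] [LinearOrder ι] (h : Gd A x e) (c b : Multiset ι) {a : H} (ha : a ∈ A) :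
    mon x c * (a * mon x b) - a * mon x (c + b) ∈ A * Mo k x e (c + b) := by
  have h1 : mon x c * a - a * mon x c ∈ A * Wq k x e (wt e c) 0 := by
    have := h.word c.toList ha
    rwa [wt_toList] at this
  have h2 : (mon x c * a - a * mon x c) * mon x b ∈ A * Wq k x e (wt e (c + b)) 0 := by
    have h3 := mul_mem_mul h1 (mon_mem_Wq (k := k) (x := x) b (Nat.lt_succ_self (wt e b)))
    rw [mul_assoc] at h3
    rw [wt_add]
    exact mul_le_mul_right (Wq_mul_r _ _) _ h3
  have h4 : a * (mon x c * mon x b - mon x (c + b)) ∈ A * Mo k x e (c + b) := by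
    have h5 := mul_mem_mul ha (h.ch.mon_mul c b)
    rw [Submodule.mul_sup, ← mul_assoc] at h5
    exact sup_le le_rfl ((mul_le_mul_left h.mul _).trans (h.low _)) h5
  have h6 := add_mem (h.low _ h2) h4
  have e1 : (mon x c * a - a * mon x c) * mon x b + a * (mon x c * mon x b - mon x (c + b)) =
      mon x c * (a * mon x b) - a * mon x (c + b) := by
    simp only [sub_mul, mul_sub, mul_assoc]
    abel
  rwa [e1] at h6

theorem Gd.keyS [Finite ι] [LinearOrder ι] (h : Gd A x e) (c b : Multiset ι) {u : H}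
    (hu : u ∈ A * Mo k x e b) : mon x c * u ∈ A * Mo k x e (c + b) := by
  refine Submodule.mul_induction_on hu (fun a ha v hv => ?_) fun u v h1 h2 => ?_
  · induction hv using span_induction with
    | mem v hv =>
      obtain ⟨b', rfl, hb⟩ := hv
      have h1 := kap_add c hb
      have h2 : mon x (c + b') ∈ Mo k x e (c + b) := subset_span ⟨_, rfl, h1⟩
      have h3 := add_mem (mul_le_mul_right (Mo_mono h1.le) _ (h.key c b' ha)) (mul_mem_mul ha h2)
      rwa [sub_add_cancel] at h3
    | zero => simp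
    | add u v _ _ h1 h2 =>
      rw [mul_add, mul_add]
      exact add_mem h1 h2
    | smul t u _ h1 =>
      rw [mul_smul_comm, mul_smul_comm]
      exact smul_mem _ _ h1
  · rw [mul_add]
    exact add_mem h1 h2

theorem Gd.Tt_eq [Finite ι] [LinearOrder ι] (h : Gd A x e) : Tt A x e = A * Ms k x Set.univ := by
  refine le_antisymm (iSup_le fun d => dg2_red h d fun c _ => subset_span ⟨c, trivial, rfl⟩) ?_
  refine mul_le.2 fun a ha v hv => ?_
  induction hv using span_induction with
  | mem v hv =>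
    obtain ⟨c, -, rfl⟩ := hv
    exact mem_iSup_of_mem (wt e c + 1) (mul_mem_mul ha (mon_mem_Wq c (Nat.lt_succ_self _)))
  | zero => simp
  | add u v _ _ h1 h2 =>
    rw [mul_add]
    exact add_mem h1 h2
  | smul t u _ h1 =>
    rw [mul_smul_comm]
    exact smul_mem _ _ h1

theorem Gd.Tt_mul (h : Gd A x e) : Tt A x e * Tt A x e ≤ Tt A x e := by
  unfold Tt
  rw [Submodule.iSup_mul]
  refine iSup_le fun d => ?_
  rw [Submodule.mul_iSup]
  refine iSup_le fun d' => ?_
  rcases d with _ | d
  · simp [Wq_zero]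
  · exact (h.ch.m2 (n := 0) (n' := 0) (N := d) d' (Nat.zero_le _) (by omega)).trans
      (le_iSup (fun d => A * Wq k x e d 0) (d + d'))

theorem Gd.le_Tt (h : Gd A x e) : A ≤ Tt A x e := fun a ha =>
  mem_iSup_of_mem 1 (by simpa using mul_mem_mul ha (one_mem_Wq (k := k) (x := x) (e := e) 0))

end Pool.Agent.Lib.MP_ff61db_al.Cg
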