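import Pool.Agent.Lib.MP_ff61db_al.Cg.Ind
import Pool.Agent.Lib.MP_ff61db_al.Cg.HB
import Pool.Agent.Lib.MP_ff61db_al.Cg.HC

/-! The `ℤ`-grading of a cyclic step. -/

namespace Pool.Agent.Lib.MP_ff61db_al.Cg

open Submodule TensorProduct


section
variable {k H : Type} [Field k] [Ring H] [Algebra k H] {Γ : Type} [Group Γ]
variable {B : Γ → Submodule k H} {K : Subgroup Γ} {g : Γ}

theorem pz_le_cos (B : Γ → Submodule k H) (g : Γ) (i : ℤ) {a : Γ} (ha : a ∈ K) :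
    B (a * g ^ i) ≤ cos B K g i :=
  le_iSup₂_of_le (f := fun a (_ : a ∈ K) => B (a * g ^ i)) a ha le_rfl

theorem pz_cos_le {i : ℤ} {M : Submodule k H} (h : ∀ a ∈ K, B (a * g ^ i) ≤ M) :
    cos B K g i ≤ M := iSup₂_le h

theorem pz_cos_mul (h : ∀ g h, B g * B h ≤ B (g * h)) (hg : ∀ a ∈ K, g * a * g⁻¹ ∈ K)
    (hg' : ∀ a ∈ K, g⁻¹ * a * g ∈ K) (i j : ℤ) :
    cos B K g i * cos B K g j ≤ cos B K g (i + j) := by
  conv_lhs => simp only [cos, Submodule.iSup_mul, Submodule.mul_iSup]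
  refine iSup₂_le fun b hb => iSup₂_le fun a ha => (h _ _).trans ?_
  have e : a * g ^ i * (b * g ^ j) = a * (g ^ i * b * g ^ (-i)) * g ^ (i + j) := by group
  rw [e]
  exact pz_le_cos B g (i + j) (K.mul_mem ha (conj_zpow hg hg' i b hb))

theorem cos_zero (B : Γ → Submodule k H) (K : Subgroup Γ) (g : Γ) : cos B K g 0 = sub B K := by
  simp only [cos, sub, zpow_zero, mul_one]

theorem iSup_cos (B : Γ → Submodule k H) (hg : ∀ a ∈ K, g * a * g⁻¹ ∈ K)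
    (hg' : ∀ a ∈ K, g⁻¹ * a * g ∈ K) : ⨆ i, cos B K g i = sub B (K ⊔ Subgroup.zpowers g) := by
  refine le_antisymm (iSup_le fun i => pz_cos_le fun a ha => ?_) (sub_le fun b hb => ?_)
  · exact le_sub B ((mem_sup_zpowers hg hg').2 ⟨a, ha, i, rfl⟩)
  · obtain ⟨a, ha, n, rfl⟩ := (mem_sup_zpowers hg hg').1 hb
    exact (pz_le_cos B g n ha).trans (le_iSup (cos B K g) n)

theorem SG.cos_mul (h : SG B) (hg : ∀ a ∈ K, g * a * g⁻¹ ∈ K) (hg' : ∀ a ∈ K, g⁻¹ * a * g ∈ K)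
    (i j : ℤ) : cos B K g i * cos B K g j ≤ cos B K g (i + j) := by
  exact pz_cos_mul h.mul hg hg' i j

theorem SG.cos_strong (h : SG B) (i : ℤ) : (1 : H) ∈ cos B K g i * cos B K g (-i) := by
  have h1 : B (g ^ i) ≤ cos B K g i := by
    simpa only [one_mul] using pz_le_cos B g i K.one_mem
  have h2 : B (g ^ i)⁻¹ ≤ cos B K g (-i) := by
    simpa only [one_mul, zpow_neg] using pz_le_cos B g (-i) K.one_mem
  exact mul_le_mul' h1 h2 (h.strong (g ^ i))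

end

variable {k H : Type} [Field k] [Ring H] [HopfAlgebra k H] {Γ : Type} [Group Γ]

theorem Gr.grZ {B : Γ → Submodule k H} (h : Gr B) {K : Subgroup Γ} {g : Γ}
    (hg : ∀ a ∈ K, g * a * g⁻¹ ∈ K) (hg' : ∀ a ∈ K, g⁻¹ * a * g ∈ K)
    (hinf : ∀ i : ℤ, g ^ i ∈ K → i = 0) : GrZ (cos B K g) := by
  refine ⟨?_, ?_, h.sg.cos_mul hg hg', fun i => cl_iSup fun a => cl_iSup fun _ => h.cl _,
    fun i e => ?_, fun i => ?_, fun Y hY hfg => ?_⟩
  · have h1 : Disjoint (⨆ a ∈ (K : Set Γ), B a) (⨆ a ∈ (K : Set Γ)ᶜ, B a) :=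
      h.ind.disjoint_biSup_biSup disjoint_compl_right
    rw [cos_zero]
    refine h1.mono_right (iSup₂_le fun i hi => pz_cos_le fun a ha => ?_)
    have h2 : a * g ^ i ∈ (K : Set Γ)ᶜ := fun e =>
      hi (hinf i ((K.mul_mem_cancel_left ha).1 e))
    exact le_iSup₂_of_le (f := fun a (_ : a ∈ (K : Set Γ)ᶜ) => B a) _ h2 le_rfl
  · rw [cos_zero]
    exact h.sg.one_mem_sub K
  · exact h.ne _ (le_bot_iff.1 (e ▸ pz_le_cos B g i K.one_mem))
  · refine map_le_iff_le_comap.2 (pz_cos_le fun a ha => map_le_iff_le_comap.1 ?_)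
    refine (h.anti _).trans ?_
    have e : (a * g ^ i)⁻¹ = g ^ (-i) * a⁻¹ * g ^ (-(-i)) * g ^ (-i) := by group
    rw [e]
    exact pz_le_cos B g (-i) (conj_zpow hg hg' (-i) _ (K.inv_mem ha))
  · rw [cos_zero] at hY ⊢
    have h1 : Y ≤ ⨆ a : K, B a := hY.trans (sub_le fun a ha =>
      le_iSup (fun a : K => B a) ⟨a, ha⟩)
    obtain ⟨F, W, hW, hYW⟩ := exists_homog (fun a : K => B a) hfg h1
    choose Z hZ using fun a : K => h.pre a (W a) (hW a).2 (hW a).1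
    refine ⟨⨆ a ∈ F, Z a, fg_biSup F Z fun a _ => (hZ a).1,
      cl_iSup fun a => cl_iSup fun _ => (hZ a).2.1, hYW.trans (iSup₂_le fun a ha => ?_), ?_⟩
    · exact (hZ a).2.2.1.trans
        (map_mono (le_iSup₂_of_le (f := fun a (_ : a ∈ F) => Z a) a ha le_rfl))
    · exact map_le_iff_le_comap.2 (iSup₂_le fun a _ =>
        map_le_iff_le_comap.1 ((hZ a).2.2.2.trans (le_sub B a.2)))

end Pool.Agent.Lib.MP_ff61db_al.Cg
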