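import Pool.Agent.Lib.MP_ff61db_al.Cg.UpZ
import Pool.Agent.Lib.MP_ff61db_al.Cg.PZ

/-! Noetherianity goes up along strong gradings by virtually nilpotent groups. -/

namespace Pool.Agent.Lib.MP_ff61db_al.Cg

open Submodule TensorProduct

variable {k H : Type} [Field k] [Ring H] [Algebra k H] {Γ : Type} [Group Γ]

/-- A subspace that contains `1` and is closed under products, as a subring. -/
def upRing (P : Submodule k H) (h1 : (1 : H) ∈ P) (hm : P * P ≤ P) : Subring H where
  carrier := P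
  mul_mem' := fun ha hb => hm (mul_mem_mul ha hb)
  one_mem' := h1
  add_mem' := P.add_mem
  zero_mem' := P.zero_mem
  neg_mem' := P.neg_mem

/-- A module over a subring that contains the scalars, as a subspace. -/
def upSpace {R : Subring H} (hR : ∀ c : k, algebraMap k H c ∈ R) (M : Submodule R H) :
    Submodule k H where
  carrier := M
  add_mem' := M.add_mem
  zero_mem' := M.zero_mem
  smul_mem' := fun c x hx => by
    rw [Algebra.smul_def]
    exact M.smul_mem (⟨_, hR c⟩ : R) hx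

theorem up_fin {B : Γ → Submodule k H} (h : SG B) (K : Subgroup Γ) [K.FiniteIndex]
    (hK : LN (sub B K)) : LN (sub B ⊤) := by
  obtain ⟨R, hR, hn⟩ := hK
  have mR : ∀ x, x ∈ R ↔ x ∈ sub B K := fun x => Set.ext_iff.1 hR x
  obtain ⟨T, t1, t2⟩ := reps_top K
  choose X hX X' hX' f1 _ _ f4 using h.exists_fg
  choose s hs hs' using fun g => fg_def.1 (f1 g)
  have hc : ∀ c : k, algebraMap k H c ∈ R := fun c => by
    rw [mR, Algebra.algebraMap_eq_smul_one]
    exact smul_mem _ _ (h.one_mem_sub K)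
  let A := upRing (sub B ⊤) (h.one_mem_sub ⊤) (h.sub_mul ⊤)
  have hle : R ≤ A := fun x hx =>
    sub_le (M := sub B ⊤) (fun g _ => le_sub B (Subgroup.mem_top g)) ((mR x).1 hx)
  refine ⟨A, rfl, Pt.B9.noeth_fin hle (t := Subtype.val ⁻¹' (⋃ g ∈ T, s g))
    ((t1.biUnion fun g _ => hs g).preimage Subtype.val_injective.injOn) fun x hx => ?_⟩
  refine sub_le (B := B) (K := ⊤) (M := upSpace hc (span R _)) (fun c _ => ?_) hx
  obtain ⟨t, ht, hct⟩ := t2 c
  refine (le_mul_one (f4 t)).trans ?_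
  rw [← mul_assoc]
  refine mul_le.2 fun a ha z hz => ?_
  have ha' : a ∈ R :=
    (mR a).2 (le_sub B hct (h.mul c t⁻¹ (mul_le_mul' le_rfl (hX' t) ha)))
  refine smul_mem (span R _) (⟨a, ha'⟩ : R) ?_
  refine (show X t ≤ upSpace hc (span R _) from ?_) hz
  rw [← hs' t, span_le]
  intro y hy
  have hy' : y ∈ A := le_sub B (Subgroup.mem_top t) (hX t (hs' t ▸ subset_span hy))
  exact subset_span ⟨⟨y, hy'⟩, Set.mem_biUnion ht hy, rfl⟩

theorem up_left [Group.FG Γ] (hv : ∃ N : Subgroup Γ, N.FiniteIndex ∧ Group.IsNilpotent N)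
    {B : Γ → Submodule k H} (h : SG B) (h1 : LN (B 1)) : LN (⨆ g, B g) := by
  rw [← sub_top]
  refine vn_ind hv (fun K => LN (sub B K)) (by rwa [sub_bot]) (fun K g hg hg' hK => ?_)
    fun K _ hK => up_fin h K hK
  rw [← iSup_cos B hg hg']
  exact up_int (by rw [cos_zero]; exact h.one_mem_sub K) (h.cos_mul hg hg') h.cos_strong
    (by rwa [cos_zero])

theorem up_op (P : Submodule k H) :
    RN P ↔ LN (P.map (MulOpposite.opLinearEquiv k : H ≃ₗ[k] Hᵐᵒᵖ).toLinearMap) := by
  constructor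
  · rintro ⟨R, hR, hn⟩
    refine ⟨R.op, Set.ext fun x => ?_, isNoetherianRing_of_ringEquiv _ R.mopRingEquivOp⟩
    rw [SetLike.mem_coe, SetLike.mem_coe, mem_map_equiv]
    exact Set.ext_iff.1 hR x.unop
  · rintro ⟨R, hR, hn⟩
    refine ⟨R.unop, Set.ext fun x => ?_, ?_⟩
    · have := Set.ext_iff.1 hR (MulOpposite.op x)
      rw [SetLike.mem_coe, SetLike.mem_coe, mem_map_equiv] at this
      exact this
    · have : IsNoetherianRing R.unop.op := by rwa [Subring.op_unop]
      exact isNoetherianRing_of_ringEquiv _ R.unop.mopRingEquivOp.symm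

theorem up_right [Group.FG Γ] (hv : ∃ N : Subgroup Γ, N.FiniteIndex ∧ Group.IsNilpotent N)
    {B : Γ → Submodule k H} (h : SG B) (h1 : RN (B 1)) : RN (⨆ g, B g) := by
  let e := (MulOpposite.opLinearEquiv k : H ≃ₗ[k] Hᵐᵒᵖ).toLinearMap
  have hm : ∀ P Q : Submodule k H, (P * Q).map e = Q.map e * P.map e := fun P Q => map_op_mul P Q
  have h' : SG fun g : Γ => (B g⁻¹).map e := by
    refine ⟨⟨1, by rw [inv_one]; exact h.one, rfl⟩, fun a b => ?_, fun a => ?_⟩
    · rw [← hm, mul_inv_rev]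
      exact map_mono (h.mul _ _)
    · rw [← hm, inv_inv]
      exact ⟨1, h.strong a, rfl⟩
  have h2 := up_left hv h' (by rw [inv_one]; exact (up_op _).1 h1)
  rw [up_op, Submodule.map_iSup, ← (Equiv.inv Γ).iSup_comp]
  exact h2

end Pool.Agent.Lib.MP_ff61db_al.Cg
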