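import Pool.Agent.Lib.MP_ff61db_al.Cg.DG2
import Pool.Agent.Lib.MP_ff61db_al.Cg.Up

/-! The basis theorem for letters over a noetherian ring. -/

namespace Pool.Agent.Lib.MP_ff61db_al.Cg

open Submodule TensorProduct

variable {k H : Type} [Field k] [Ring H] [Algebra k H] {ι : Type} {x : ι → H} {e : ι → ℕ}
variable {A : Submodule k H}

/-- Leading coefficients of a left ideal at a monomial. -/
def dg3Lc [LinearOrder ι] (h : Gd A x e) {R S : Subring H} (mR : ∀ a, a ∈ R ↔ a ∈ A) (hRS : R ≤ S)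
    (J : Ideal S) (b : Multiset ι) : Ideal R where
  carrier := {a | ∃ z ∈ J, (z : H) - a * mon x b ∈ A * Mo k x e b}
  zero_mem' := ⟨0, J.zero_mem, by simp⟩
  add_mem' := by
    rintro a a' ⟨z, hz, h1⟩ ⟨z', hz', h2⟩
    refine ⟨z + z', J.add_mem hz hz', ?_⟩
    have h3 : ((z + z' : S) : H) - ((a + a' : R) : H) * mon x b =
        (z : H) - a * mon x b + ((z' : H) - a' * mon x b) := by
      push_cast
      rw [add_mul]
      abel
    rw [h3]
    exact add_mem h1 h2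
  smul_mem' := by
    rintro r a ⟨z, hz, h1⟩
    refine ⟨⟨r, hRS r.2⟩ * z, J.mul_mem_left _ hz, ?_⟩
    have h2 := mul_mem_mul ((mR r).1 r.2) h1
    rw [← mul_assoc] at h2
    have h3 := mul_le_mul' h.mul (le_refl (Mo k x e b)) h2
    rw [mul_sub, ← mul_assoc] at h3
    exact h3

theorem dg3_low [LinearOrder ι] (T : Set (Multiset ι)) (b : Multiset ι) :
    A * Ms k x {c | c ∈ T ∧ kap e c < kap e b} ≤ A * Mo k x e b := by
  refine mul_le_mul' le_rfl (span_mono ?_)
  rintro _ ⟨c, hc, rfl⟩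
  exact ⟨c, rfl, hc.2⟩

theorem Gd.ln [Finite ι] [LinearOrder ι] (h : Gd A x e) (hA : LN A) : LN (Tt A x e) := by
  classical
  obtain ⟨R, hR, hn⟩ := hA
  have mR : ∀ a, a ∈ R ↔ a ∈ A := fun a => Set.ext_iff.1 hR a
  let S := upRing (Tt A x e) (h.le_Tt h.one) h.Tt_mul
  have mS : ∀ a, a ∈ S ↔ a ∈ A * Ms k x Set.univ := fun a => by
    rw [← h.Tt_eq]
    rfl
  have hRS : R ≤ S := fun a ha => h.le_Tt ((mR a).1 ha)
  refine ⟨S, rfl, ?_⟩
  have hmono : ∀ {J J' : Ideal S} {b b' : Multiset ι}, J ≤ J' → b ≤ b' →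
      dg3Lc h mR hRS J b ≤ dg3Lc h mR hRS J' b' := by
    rintro J J' b b' hJ hb a ⟨z, hz, h1⟩
    obtain ⟨c, rfl⟩ : ∃ c, b' = c + b := ⟨b' - b, (tsub_add_cancel_of_le hb).symm⟩
    have hc : mon x c ∈ S :=
      (mS _).2 (one_mul (mon x c) ▸ mul_mem_mul h.one (subset_span ⟨c, trivial, rfl⟩))
    refine ⟨⟨_, hc⟩ * z, hJ (J.mul_mem_left _ hz), ?_⟩
    have h2 := add_mem (h.keyS c b h1) (h.key c b ((mR a).1 a.2))
    rw [mul_sub, sub_add_sub_cancel] at h2
    exact h2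
  have heq : ∀ {J J' : Ideal S}, J ≤ J' →
      (∀ b, dg3Lc h mR hRS J' b ≤ dg3Lc h mR hRS J b) → J' ≤ J := by
    intro J J' hJ hb
    have key : ∀ b, ∀ z ∈ J', ∀ a ∈ A, (z : H) - a * mon x b ∈ A * Mo k x e b → z ∈ J := by
      intro b
      induction b using (kap_wf (e := e)).induction with
      | _ b ih =>
        intro z hz a ha h1
        obtain ⟨z0, hz0, h2⟩ := hb b (x := ⟨a, (mR a).2 ha⟩) ⟨z, hz, h1⟩
        have h3 : ((z - z0 : S) : H) ∈ A * Ms k x {c | kap e c < kap e b} := by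
          rw [← Mo_eq]
          have h4 := sub_mem h1 h2
          rw [sub_sub_sub_cancel_right] at h4
          exact h4
        rcases top_term e A _ h3 with h0 | ⟨b', hb', a', ha', h4⟩
        · have h5 : z = z0 := sub_eq_zero.1 (Subtype.ext h0)
          exact h5 ▸ hz0
        · have h5 := ih b' hb' (z - z0) (J'.sub_mem hz (hJ hz0)) a' ha' (dg3_low _ _ h4)
          simpa using J.add_mem h5 hz0
    intro z hz
    rcases top_term e A Set.univ ((mS z).1 z.2) with h0 | ⟨b, -, a, ha, h1⟩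
    · have h5 : z = 0 := Subtype.ext h0
      exact h5 ▸ J.zero_mem
    · exact key b z hz a ha (dg3_low _ _ h1)
  rw [isNoetherianRing_iff, ← monotone_stabilizes_iff_noetherian]
  intro I
  by_contra hne
  have step : ∀ n, ∃ m b, n ≤ m ∧ ¬ dg3Lc h mR hRS (I m) b ≤ dg3Lc h mR hRS (I n) b := by
    intro n
    by_contra h2
    refine hne ⟨n, fun m hm => le_antisymm (I.mono hm) (heq (I.mono hm) fun b => ?_)⟩
    by_contra h3
    exact h2 ⟨m, b, hm, h3⟩
  choose f b hf hb using step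
  let N : ℕ → ℕ := fun j => f^[j] 0
  have hs : ∀ j, N (j + 1) = f (N j) := fun j => Function.iterate_succ_apply' f j 0
  have hN : Monotone N := monotone_nat_of_le_succ fun j => hs j ▸ hf _
  obtain ⟨g, hg, hg'⟩ := dickson_seq fun j => b (N j)
  obtain ⟨n, hn'⟩ := monotone_stabilizes_iff_noetherian.2 (isNoetherianRing_iff.1 hn)
    ⟨fun j => dg3Lc h mR hRS (I (N (g j))) (b (N (g j))),
      fun i j hij => hmono (I.mono (hN (hg.monotone hij))) (hg' hij)⟩
  have h1 := hn' (n + 1) n.le_succ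
  refine hb (N (g n)) (le_trans (hmono (I.mono ?_) (hg' n.le_succ)) h1.ge)
  exact hs (g n) ▸ hN (hg n.lt_succ_self)

theorem Gd.rn [Finite ι] [LinearOrder ι] (h : Gd A x e) (hA : RN A) : RN (Tt A x e) := by
  rw [up_op, h.Tt_op]
  exact h.op.ln ((up_op A).1 hA)

end Pool.Agent.Lib.MP_ff61db_al.Cg
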