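import Pool.Agent.Lib.MP_ff61db_al.Cg.DDefs

/-! The coaction and its fibres. -/

namespace Pool.Agent.Lib.MP_ff61db_al.Cg

open Submodule TensorProduct

variable {k H U : Type} [Field k] [Ring H] [HopfAlgebra k H] [Ring U] [HopfAlgebra k U] {ι : Type}
  {π : H →ₐc[k] U}

theorem dh0_ct_lT {V : Type} [Ring V] [Algebra k V] (θ : U →ₗ[k] k) (f : V →ₗ[k] U)
    (t : H ⊗[k] V) : ct H θ (LinearMap.lTensor H f t) = ct H (θ ∘ₗ f) t := by
  induction t with
  | zero => simp
  | tmul a u => simp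
  | add s t h1 h2 => simp only [map_add, h1, h2]

theorem dh0_zero {t : H ⊗[k] U} (h : ∀ θ : U →ₗ[k] k, ct H θ t = 0) : t = 0 := by
  classical
  let b := Module.Basis.ofVectorSpace k U
  have key : ∀ (i) (t : H ⊗[k] U),
      TensorProduct.equivFinsuppOfBasisRight b t i = ct H (b.coord i) t := by
    intro i t
    induction t with
    | zero => simp
    | tmul a u => simp
    | add s t h1 h2 => simp only [map_add, Finsupp.add_apply, h1, h2]
  refine (TensorProduct.equivFinsuppOfBasisRight b).map_eq_zero_iff.1 (Finsupp.ext fun i => ?_)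
  rw [key, h, Finsupp.zero_apply]

theorem ct_rho (θ : U →ₗ[k] k) (x : H) : ct H θ (rho π x) = lact (pl π θ) x := by
  rw [rho_apply, dh0_ct_lT]
  rfl

theorem mem_HT {W : Submodule k U} {t : H ⊗[k] U} :
    t ∈ HT H W ↔ ∀ θ : U →ₗ[k] k, (∀ u ∈ W, θ u = 0) → ct H θ t = 0 := by
  constructor
  · rintro ⟨s, rfl⟩ θ hθ
    induction s with
    | zero => simp
    | tmul a u => simp [hθ u.1 u.2]
    | add s t h1 h2 => simp only [map_add, h1, h2, add_zero]
  · intro h
    obtain ⟨q, hq⟩ := W.subtype.exists_leftInverse_of_injective W.ker_subtype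
    have h1 : LinearMap.lTensor H (LinearMap.id - W.subtype ∘ₗ q) t = 0 :=
      dh0_zero fun θ => by
        rw [dh0_ct_lT]
        refine h _ fun u hu => ?_
        have : q u = ⟨u, hu⟩ := LinearMap.congr_fun hq ⟨u, hu⟩
        simp [this]
    rw [LinearMap.lTensor_sub, LinearMap.sub_apply, LinearMap.lTensor_id, LinearMap.lTensor_comp,
      sub_eq_zero] at h1
    exact ⟨_, h1.symm⟩

theorem mem_Rw {W : Submodule k U} {x : H} :
    x ∈ Rw π W ↔ ∀ θ : U →ₗ[k] k, (∀ u ∈ W, θ u = 0) → lact (pl π θ) x = 0 := by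
  simp only [mem_Rw_iff, mem_HT, ct_rho]

theorem tmul_mem_HT {W : Submodule k U} (a : H) {u : U} (hu : u ∈ W) : a ⊗ₜ[k] u ∈ HT H W :=
  ⟨a ⊗ₜ[k] ⟨u, hu⟩, rfl⟩

theorem HT_mono {W W' : Submodule k U} (h : W ≤ W') : HT H W ≤ HT H W' :=
  fun _ ht => mem_HT.2 fun θ hθ => mem_HT.1 ht θ fun u hu => hθ u (h hu)

theorem HT_mul {W W' : Submodule k U} {s t : H ⊗[k] U} (hs : s ∈ HT H W) (ht : t ∈ HT H W') :
    s * t ∈ HT H (W * W') := by
  obtain ⟨s, rfl⟩ := hs
  obtain ⟨t, rfl⟩ := ht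
  induction s with
  | zero => simp
  | add s s' h1 h2 =>
    rw [map_add, add_mul]
    exact add_mem h1 h2
  | tmul a u =>
    induction t with
    | zero => simp
    | add t t' h1 h2 =>
      rw [map_add, mul_add]
      exact add_mem h1 h2
    | tmul b v =>
      rw [LinearMap.lTensor_tmul, LinearMap.lTensor_tmul, Algebra.TensorProduct.tmul_mul_tmul]
      exact tmul_mem_HT _ (Submodule.mul_mem_mul u.2 v.2)

theorem Rw_mono {W W' : Submodule k U} (h : W ≤ W') : Rw π W ≤ Rw π W' :=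
  fun _ hx => HT_mono h hx

theorem Rw_mul (W W' : Submodule k U) : Rw π W * Rw π W' ≤ Rw π (W * W') :=
  Submodule.mul_le.2 fun x hx y hy => by
    rw [mem_Rw_iff, map_mul]
    exact HT_mul hx hy

end Pool.Agent.Lib.MP_ff61db_al.Cg
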