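import Pool.Agent.Lib.MP_ff61db_al.Cg.DH0

/-! The coaction and its fibres. -/

namespace Pool.Agent.Lib.MP_ff61db_al.Cg

open Submodule TensorProduct

variable {k H U : Type} [Field k] [Ring H] [HopfAlgebra k H] [Ring U] [HopfAlgebra k U] {ι : Type}
  {π : H →ₐc[k] U}

theorem dh1_counit : pl π (Coalgebra.counit (R := k)) = 1 :=
  WithConv.ofConv_injective (LinearMap.ext fun x => by
    rw [pl_apply, du_one]
    exact CoalgHomClass.counit_comp_apply π x)

theorem Rw_bot : Rw π ⊥ = ⊥ := by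
  refine eq_bot_iff.2 fun x hx => ?_
  have h := mem_Rw.1 hx (Coalgebra.counit (R := k)) fun u hu => by
    rw [(mem_bot k).1 hu, map_zero]
  rwa [dh1_counit, lact_one] at h

theorem pl_mul (θ θ' : U →ₗ[k] k) :
    pl π (WithConv.toConv θ * WithConv.toConv θ' : Du k U).ofConv = pl π θ * pl π θ' := by
  refine WithConv.ofConv_injective (LinearMap.ext fun x => ?_)
  rw [pl_apply, du_mul, du_mul, ← CoalgHomClass.map_comp_comul_apply π x]
  generalize (Coalgebra.comul (R := k) x : H ⊗[k] H) = t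
  induction t with
  | zero => simp
  | tmul u v => simp [pl_apply]
  | add s t hs ht => simp only [map_add, hs, ht]

theorem pl_counit : pl π (Coalgebra.counit (R := k)) = 1 := by
  exact dh1_counit

theorem ct_left (θ : U →ₗ[k] k) (a : H) (t : H ⊗[k] U) : ct H θ (a ⊗ₜ[k] (1 : U) * t) = a * ct H θ t := by
  induction t with
  | zero => simp
  | tmul u v => simp [Algebra.TensorProduct.tmul_mul_tmul]
  | add s t hs ht => simp only [mul_add, map_add, hs, ht]

theorem ct_ext {s t : H ⊗[k] U} (h : ∀ θ : U →ₗ[k] k, ct H θ s = ct H θ t) : s = t := by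
  obtain ⟨u, hu⟩ : s - t ∈ HT H (⊥ : Submodule k U) :=
    mem_HT.2 fun θ _ => by rw [map_sub, h, sub_self]
  have e : (⊥ : Submodule k U).subtype = 0 := LinearMap.ext fun y => (mem_bot k).1 y.2
  rw [e, LinearMap.lTensor_zero, LinearMap.zero_apply] at hu
  exact sub_eq_zero.1 hu.symm

theorem dh1_mem {x : H} : x ∈ Rw π 1 ↔ ∀ θ : U →ₗ[k] k, lact (pl π θ) x = θ 1 • x := by
  refine ⟨fun hx θ => ?_, fun h => mem_Rw.2 fun θ hθ => ?_⟩
  · have h := mem_Rw.1 hx (θ - θ 1 • Coalgebra.counit (R := k)) fun u hu => by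
      obtain ⟨c, rfl⟩ := mem_one.1 hu
      simp [Algebra.algebraMap_eq_smul_one, mul_comm]
    have e : pl π (θ - θ 1 • Coalgebra.counit (R := k)) =
        pl π θ - θ 1 • pl π (Coalgebra.counit (R := k)) := rfl
    rwa [e, dh1_counit, lact_sub, lact_smul, lact_one, sub_eq_zero] at h
  · rw [h, hθ 1 (mem_one.2 ⟨1, map_one _⟩), zero_smul]

theorem mem_A {x : H} : x ∈ Rw π 1 ↔ rho π x = x ⊗ₜ[k] 1 := by
  rw [dh1_mem]
  exact ⟨fun h => ct_ext fun θ => by rw [ct_rho, h, ct_tmul],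
    fun h θ => by rw [← ct_rho, h, ct_tmul]⟩

theorem mem_A' {x : H} : x ∈ Rw π 1 ↔ ∀ θ : U →ₗ[k] k, lact (pl π θ) x = θ 1 • x := by
  exact dh1_mem

theorem lact_left (θ : U →ₗ[k] k) {a : H} (ha : a ∈ Rw π 1) (z : H) :
    lact (pl π θ) (a * z) = a * lact (pl π θ) z := by
  rw [← ct_rho, ← ct_rho, map_mul, mem_A.1 ha, ct_left]

theorem le_Rw_map {P : Submodule k H} (h : Cl P) : P ≤ Rw π (P.map π.toLinearMap) := by
  refine fun x hx => mem_Rw.2 fun θ hθ => eq_of_du (k := k) fun ψ => ?_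
  rw [du_lact, ← du_ract, pl_apply, map_zero]
  exact hθ _ (mem_map_of_mem (h.r ψ x hx))

theorem Rw_ract {W : Submodule k U} (φ : Du k H) {x : H} (h : x ∈ Rw π W) : ract φ x ∈ Rw π W := by
  refine mem_Rw.2 fun θ hθ => ?_
  rw [lact_ract, mem_Rw.1 h θ hθ, map_zero]

theorem map_Rw {W : Submodule k U} {x : H} (h : x ∈ Rw π W) : π x ∈ W := by
  refine mem_of_du (k := k) fun φ hφ => ?_
  rw [← pl_apply, ← counit_lact, mem_Rw.1 h φ.ofConv hφ, map_zero]

end Pool.Agent.Lib.MP_ff61db_al.Cg
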