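import Pool.Agent.Lib.MP_ff61db_al.Cg.DH9

/-! Coaction levels and wedge powers. -/

namespace Pool.Agent.Lib.MP_ff61db_al.Cg

open Submodule TensorProduct

variable {k H U : Type} [Field k] [Ring H] [HopfAlgebra k H] [Ring U] [HopfAlgebra k U] {ι : Type}
  {π : H →ₐc[k] U}

theorem dh3_split (θ : U →ₗ[k] k) (y : H) : ract (pl π θ) y =
    ract (pl π (θ - θ 1 • Coalgebra.counit (R := k))) y + θ 1 • y := by
  have e : pl π θ = pl π (θ - θ 1 • Coalgebra.counit (R := k)) + θ 1 • (1 : Du k H) := by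
    rw [← pl_counit (π := π)]
    refine WithConv.ofConv_injective (LinearMap.ext fun z => ?_)
    change θ (π z) = (θ (π z) - θ 1 • Coalgebra.counit (R := k) (π z)) +
      θ 1 • Coalgebra.counit (R := k) (π z)
    rw [sub_add_cancel]
  refine eq_of_du (k := k) fun Φ => ?_
  rw [map_add, map_smul, du_ract, du_ract]
  conv_lhs => rw [e, add_mul, smul_mul_assoc, one_mul]
  rfl

theorem dh3_pl : ∀ (a : ℕ), ∀ θ ∈ Jp (1 : Submodule k U) a, pl π θ.ofConv ∈ Jp (Rw π 1) a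
  | 0, _, _ => trivial
  | a + 1, _, ⟨θ, h1, φ, h2, rfl⟩ => ⟨_, dh3_pl a θ h1, pl π φ.ofConv, fun y hy => by
      rw [pl_apply, pi_A hy]
      exact h2 _ (smul_mem _ _ (one_le.1 le_rfl)), pl_mul θ.ofConv φ.ofConv⟩

theorem Cn.w1 (h : Cn π) (a : ℕ) : Rw π (Uw (1 : Submodule k U) a) ≤ Uw (Rw π 1) a := by
  induction a with
  | zero =>
    rw [Uw_zero, Rw_bot]
    exact bot_le
  | succ a ih =>
    intro x hx
    rw [mem_Uw]
    rintro _ ⟨θ', h1, φ, h2, rfl⟩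
    rw [← du_ract]
    refine h2 _ (mem_Rw.2 fun θ hθ => ?_)
    rw [lact_ract]
    refine ract_Jp h.sb.cl h1 (ih (mem_Rw.2 fun ψ hψ => ?_))
    rw [← lact_mul, ← pl_mul]
    refine mem_Rw.1 hx _ fun u hu => ?_
    rw [← du_lact]
    exact hψ _ (lact_Uw (φ := WithConv.toConv θ) hθ hu)

theorem Cn.w2 (h : Cn π) (a : ℕ) {x : H}
    (hx : ∀ θ : U →ₗ[k] k, (∀ u ∈ Uw (1 : Submodule k U) a, θ u = 0) → ract (pl π θ) x = 0) :
    x ∈ Uw (Rw π 1) a := by
  induction a generalizing x with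
  | zero =>
    have h0 := hx (Coalgebra.counit (R := k)) fun u hu => by
      rw [Uw_zero, mem_bot] at hu
      rw [hu, map_zero]
    rw [pl_counit, ract_one] at h0
    rw [h0]
    exact zero_mem _
  | succ a ih =>
    refine mem_Uw.2 fun Θ hΘ => ?_
    obtain ⟨φ, θ', h1, h2, rfl⟩ := Jp_cons h.sb.cl hΘ
    rw [← du_lact]
    refine h2 _ ((h.h _).2 fun θ => ?_)
    rw [dh3_split, add_eq_right, ← lact_ract]
    refine lact_Jp h1 (ih fun ψ hψ => ?_)
    rw [← ract_mul, ← pl_mul]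
    refine hx _ fun u hu => ?_
    rw [← du_ract]
    refine hψ _ (ract_Uw cl_one (fun y hy => ?_) hu)
    rw [one_eq_span, mem_span_singleton] at hy
    obtain ⟨c, rfl⟩ := hy
    simp

theorem pi_Uw (a : ℕ) {x : H} (hx : x ∈ Uw (Rw π 1) a) : π x ∈ Uw (1 : Submodule k U) a := by
  exact mem_Uw.2 fun θ hθ => mem_Uw.1 hx _ (dh3_pl a θ hθ)

end Pool.Agent.Lib.MP_ff61db_al.Cg
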