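import Pool.Agent.Lib.MP_ff61db_al.Cg.DH3
import Pool.Agent.Lib.MP_ff61db_al.Cg.Sk

/-! The antipode is injective on wedge powers. -/

namespace Pool.Agent.Lib.MP_ff61db_al.Cg

open Submodule TensorProduct

variable {k H U : Type} [Field k] [Ring H] [HopfAlgebra k H] [Ring U] [HopfAlgebra k U] {ι : Type}
  {π : H →ₐc[k] U}

theorem dh4_ext {W : Submodule k U} (hW : ∀ w ∈ W, HopfAlgebra.antipode k w = 0 → w = 0)
    (θ : U →ₗ[k] k) : ∃ ψ : U →ₗ[k] k, ∀ w ∈ W, ψ (HopfAlgebra.antipode k w) = θ w := by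
  obtain ⟨q, hq⟩ := LinearMap.exists_leftInverse_of_injective
    ((HopfAlgebra.antipode k : U →ₗ[k] U) ∘ₗ W.subtype)
    (LinearMap.ker_eq_bot'.2 fun w hw => Subtype.ext (hW w w.2 hw))
  exact ⟨θ ∘ₗ W.subtype ∘ₗ q, fun w hw =>
    congrArg (fun z : W => θ z) (LinearMap.congr_fun hq ⟨w, hw⟩)⟩

theorem dh4_van {φ : U →ₗ[k] k} (h : φ 1 = 0) : ∀ y ∈ (1 : Submodule k U), φ y = 0 := by
  intro y hy
  rw [one_eq_span, mem_span_singleton] at hy
  obtain ⟨c, rfl⟩ := hy
  rw [map_smul, h, smul_zero]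

theorem inj_conn (a : ℕ) {u : U} (hu : u ∈ Uw (1 : Submodule k U) a)
    (h : HopfAlgebra.antipode k u = 0) : u = 0 := by
  induction a generalizing u with
  | zero => rwa [Uw_zero, mem_bot] at hu
  | succ a ih =>
    have he : (Coalgebra.counit u : k) = 0 := by
      rw [← HopfAlgebra.counit_antipode, h, map_zero]
    have key : ∀ θ φ : U →ₗ[k] k, θ 1 = 0 → φ 1 = 0 →
        (WithConv.toConv θ * WithConv.toConv φ : Du k U).ofConv u = 0 := by
      intro θ φ h1 h2
      have hl : lact (WithConv.toConv φ) u ∈ Uw (1 : Submodule k U) a := lact_Uw (dh4_van h2) hu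
      rw [← du_lact]
      rcases Nat.eq_zero_or_pos a with rfl | ha
      · rw [Uw_zero, mem_bot] at hl
        rw [hl, map_zero]
      · obtain ⟨ψ, hψ⟩ := dh4_ext (fun w hw => ih hw) θ
        have h3 : (1 : U) ∈ Uw (1 : Submodule k U) a :=
          Uw_mono cl_one ha (le_Uw_one cl_one (one_le.1 le_rfl))
        have h4 : (ψ ∘ₗ HopfAlgebra.antipode k) (1 : U) = 0 := (hψ 1 h3).trans h1
        have h5 : ract (WithConv.toConv (ψ ∘ₗ HopfAlgebra.antipode k)) u = 0 :=
          ih (ract_Uw cl_one (dh4_van h4) hu) (by rw [sk_ract, h, map_zero])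
        have h6 := du_lact (WithConv.toConv (ψ ∘ₗ HopfAlgebra.antipode k)) (WithConv.toConv φ) u
        rw [← du_ract, h5, map_zero] at h6
        exact (hψ _ hl).symm.trans h6
    have r1 : ∀ θ : U →ₗ[k] k, θ.comp (red k U) 1 = 0 := fun θ => by
      rw [LinearMap.comp_apply, red_apply, Bialgebra.counit_one, one_smul, sub_self, map_zero]
    have hp : Coalgebra.comul u - (u ⊗ₜ[k] 1 + 1 ⊗ₜ[k] u) = 0 := by
      rw [red_comul he]
      refine tensor_zero fun φ ψ => ?_
      rw [pair_map]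
      exact key _ _ (r1 φ) (r1 ψ)
    have h7 := HopfAlgebra.mul_antipode_rTensor_comul_apply (R := k) u
    rw [sub_eq_zero.1 hp, he] at h7
    simpa [h] using h7

end Pool.Agent.Lib.MP_ff61db_al.Cg
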