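import Pool.Agent.Lib.MP_ff61db_al.Cg.DH4

/-! The antipode is injective on wedge powers. -/

namespace Pool.Agent.Lib.MP_ff61db_al.Cg

open Submodule TensorProduct

variable {k H U : Type} [Field k] [Ring H] [HopfAlgebra k H] [Ring U] [HopfAlgebra k U] {ι : Type}
  {π : H →ₐc[k] U}

theorem dh5_swap (θ φ : Du k H) (x : H) : φ.ofConv (ract θ x) = θ.ofConv (lact φ x) := by
  rw [du_ract, du_lact]

theorem dh5_ext (a : ℕ) (θ : U →ₗ[k] k) : ∃ θ' : U →ₗ[k] k,
    ∀ u ∈ Uw (1 : Submodule k U) a, θ' (HopfAlgebra.antipode k u) = θ u := by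
  obtain ⟨g, hg⟩ := (HopfAlgebra.antipode k ∘ₗ
    (Uw (1 : Submodule k U) a).subtype).exists_leftInverse_of_injective
      (LinearMap.ker_eq_bot'.2 fun u hu => Subtype.ext (inj_conn a u.2 hu))
  exact ⟨θ ∘ₗ (Uw (1 : Submodule k U) a).subtype ∘ₗ g, fun u hu =>
    congrArg (fun v => θ v.1) (LinearMap.congr_fun hg ⟨u, hu⟩)⟩

theorem Cn.inj (h : Cn π) (hA : ∀ x ∈ Rw π 1, HopfAlgebra.antipode k x = 0 → x = 0) (a : ℕ) {x : H}
    (hx : x ∈ Uw (Rw π 1) a) (h0 : HopfAlgebra.antipode k x = 0) : x = 0 := by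
  induction a generalizing x with
  | zero => rwa [Uw_zero] at hx
  | succ a ih =>
    have h1 : ∀ θ : U →ₗ[k] k, θ 1 = 0 → ract (pl π θ) x = 0 := fun θ hθ => by
      obtain ⟨θ', h'⟩ := dh5_ext (a + 1) θ
      have h2 : ract (pl π θ) x =
          ract (WithConv.toConv ((pl π θ').ofConv ∘ₗ HopfAlgebra.antipode k)) x :=
        eq_of_du (k := k) fun φ => by
          rw [dh5_swap, dh5_swap, pl_apply,
            ← h' _ (pi_Uw _ ((Uw_cl h.sb.cl _).l φ x hx)), ← pi_antipode]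
          rfl
      refine ih (ract_Uw h.sb.cl (fun y hy => ?_) hx) ?_
      · rw [pl_apply, pi_A hy, map_smul, hθ, smul_zero]
      · rw [h2, sk_ract, h0, map_zero]
    refine hA x ((h.h x).2 fun θ => eq_of_du (k := k) fun φ => ?_) h0
    have h2 := congrArg φ.ofConv (h1 (θ - θ 1 • Coalgebra.counit) (by simp))
    have h3 : φ.ofConv x = Coalgebra.counit (π (lact φ x)) := by
      rw [← pl_apply, ← dh5_swap, pl_counit, ract_one]
    rw [dh5_swap, pl_apply, map_zero, LinearMap.sub_apply, LinearMap.smul_apply, sub_eq_zero] at h2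
    rw [dh5_swap, pl_apply, map_smul, h2, h3]

end Pool.Agent.Lib.MP_ff61db_al.Cg
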