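import Pool.Agent.Lib.MP_ff61db_al.Cg.DH8

/-! Coinvariants of the composite map to a group algebra. -/

namespace Pool.Agent.Lib.MP_ff61db_al.Cg

open Submodule TensorProduct

variable {k H U : Type} [Field k] [Ring H] [HopfAlgebra k H] [Ring U] [HopfAlgebra k U] {ι : Type}
  {π : H →ₐc[k] U}
variable {G : Type} [Group G]

theorem dh6_lact (θ : U →ₗ[k] k) (z : H) :
    π (lact (pl π θ) z) = lact (WithConv.toConv θ) (π z) :=
  eq_of_du (k := k) fun ψ => by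
    rw [← pl_apply π ψ.ofConv, du_lact, ← pl_mul, pl_apply, du_lact]

theorem dh6_ract (θ : U →ₗ[k] k) (z : H) :
    π (ract (pl π θ) z) = ract (WithConv.toConv θ) (π z) :=
  eq_of_du (k := k) fun ψ => by
    rw [← pl_apply π ψ.ofConv, du_ract, ← pl_mul, pl_apply, du_ract]

theorem dh6_jp (p : U →ₐc[k] MonoidAlgebra k G) {θ : MonoidAlgebra k G →ₗ[k] k} (h : θ 1 = 0)
    (a : ℕ) : pl (p.comp π) θ ∈ Jp (Rw π 1) a :=
  pl_mem_Jp (p.comp π) (fun y hy => by
    rw [BialgHom.comp_apply, pi_A hy, map_smul, map_one]) h a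

theorem dh6_fd (p : U →ₐc[k] MonoidAlgebra k G) (hp : Cn p)
    (hc : ∀ u ∈ coradical k U, u ∈ Rw p 1 → u ∈ (1 : Submodule k U)) (x : H) :
    ∃ C : Submodule k H, Cl C ∧ x ∈ C ∧ ∃ a, ∀ z ∈ C, π z ∈ Rw p 1 →
      π z ∈ Uw (1 : Submodule k U) a := by
  obtain ⟨C, h1, h2, h3, -⟩ := exists_fd (span k {x}) (fg_span_singleton x)
  have : Module.Finite k (C.map π.toLinearMap) := Module.Finite.iff_fg.2 (h1.map _)
  obtain ⟨a, ha⟩ := conn_fd p hp hc (Y := C.map π.toLinearMap ⊓ Rw p 1)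
    (Module.Finite.iff_fg.1 (Submodule.finiteDimensional_inf_left _ _)) inf_le_right
  exact ⟨C, h2, h3 (mem_span_singleton_self x), a, fun z hz h => ha ⟨mem_map_of_mem hz, h⟩⟩

theorem Cn.right (h : Cn π) (p : U →ₐc[k] MonoidAlgebra k G) (hp : Cn p)
    (hc : ∀ u ∈ coradical k U, u ∈ Rw p 1 → u ∈ (1 : Submodule k U)) (x : H) :
    x ∈ Rw (p.comp π) 1 ↔ ∃ a, x ∈ Uw (Rw π 1) a := by
  constructor
  · intro hx
    obtain ⟨C, h1, h2, a, ha⟩ := dh6_fd (π := π) p hp hc x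
    refine ⟨a, h.w1 a (mem_Rw.2 fun θ hθ => eq_of_du (k := k) fun ψ => ?_)⟩
    rw [map_zero, du_lact, ← du_ract, pl_apply]
    refine hθ _ (ha _ (h1.r ψ x h2) (mem_A'.2 fun η => ?_))
    have e := congrArg π (mem_A'.1 (Rw_ract ψ hx) η)
    rw [map_smul] at e
    exact (dh6_lact (pl p η).ofConv _).symm.trans e
  · rintro ⟨a, ha⟩
    exact mem_Rw.2 fun θ hθ => lact_Jp (dh6_jp p (hθ 1 (one_le.1 le_rfl)) a) ha

theorem Cn.left (h : Cn π) (p : U →ₐc[k] MonoidAlgebra k G) (hp : Cn p)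
    (hc : ∀ u ∈ coradical k U, u ∈ Rw p 1 → u ∈ (1 : Submodule k U)) (x : H) :
    (∀ θ : MonoidAlgebra k G →ₗ[k] k, ract (pl (p.comp π) θ) x = θ 1 • x) ↔
      ∃ a, x ∈ Uw (Rw π 1) a := by
  constructor
  · intro hx
    obtain ⟨C, h1, h2, a, ha⟩ := dh6_fd (π := π) p hp hc x
    refine ⟨a, h.w2 a fun θ hθ => eq_of_du (k := k) fun ψ => ?_⟩
    rw [map_zero, du_ract, ← du_lact, pl_apply]
    refine hθ _ (ha _ (h1.l ψ x h2) ((hp.h _).2 fun η => ?_))
    have e := congrArg π (congrArg (lact ψ) (hx η))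
    rw [map_smul, map_smul, lact_ract] at e
    exact (dh6_ract (pl p η).ofConv _).symm.trans e
  · rintro ⟨a, ha⟩ θ
    have h0 := ract_Jp h.sb.cl (dh6_jp (π := π) p
      (θ := θ - θ 1 • Coalgebra.counit (R := k)) (by simp) a) ha
    refine eq_of_du (k := k) fun ψ => ?_
    have e := congrArg ψ.ofConv h0
    have e1 : Coalgebra.counit (R := k) (lact ψ x) = ψ.ofConv x := by
      rw [← du_one, du_lact, one_mul]
    rw [map_zero, du_ract, ← du_lact, pl_apply, LinearMap.sub_apply, LinearMap.smul_apply,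
      CoalgHomClass.counit_comp_apply, e1, sub_eq_zero] at e
    rw [du_ract, ← du_lact, pl_apply, map_smul, e]

end Pool.Agent.Lib.MP_ff61db_al.Cg
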