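import Pool.Agent.Lib.MP_ff61db_al.Cg.DH3

/-! Coinvariants of the composite map to a group algebra. -/

namespace Pool.Agent.Lib.MP_ff61db_al.Cg

open Submodule TensorProduct

variable {k H U : Type} [Field k] [Ring H] [HopfAlgebra k H] [Ring U] [HopfAlgebra k U] {ι : Type}
  {π : H →ₐc[k] U}
variable {G : Type} [Group G]

theorem dh8_mul (θ φ : MonoidAlgebra k G →ₗ[k] k) (h : θ 1 = 0)
    (h1 : ∀ g : G, g ≠ 1 → φ (MonoidAlgebra.single g 1) = 1) :
    (WithConv.toConv θ * WithConv.toConv φ).ofConv = θ := by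
  refine LinearMap.ext fun y => ?_
  induction y using MonoidAlgebra.induction_linear with
  | zero => simp
  | add y z hy hz => rw [map_add, hy, hz, map_add]
  | single a r =>
    have e : MonoidAlgebra.single a r = r • (MonoidAlgebra.single a 1 : MonoidAlgebra k G) := by
      simp
    rw [e, map_smul, map_smul, LinearMap.convMul_apply, MonoidAlgebra.comul_single]
    simp only [CommSemiring.comul_apply, TensorProduct.map_tmul, LinearMap.mul'_apply,
      MonoidAlgebra.lsingle_apply]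
    by_cases ha : a = 1
    · subst ha
      rw [← MonoidAlgebra.one_def, h, zero_mul]
    · rw [h1 a ha, mul_one]

theorem dh8_ex : ∃ φ : MonoidAlgebra k G →ₗ[k] k, φ 1 = 0 ∧
    ∀ g : G, g ≠ 1 → φ (MonoidAlgebra.single g 1) = 1 := by
  classical
  refine ⟨Coalgebra.counit - Finsupp.lapply 1 ∘ₗ (MonoidAlgebra.coeffLinearEquiv k).toLinearMap,
    ?_, fun g hg => ?_⟩
  · simp [MonoidAlgebra.one_def]
  · simp [hg]

theorem pl_mem_Jp (q : H →ₐc[k] MonoidAlgebra k G) {A : Submodule k H}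
    (hA : ∀ a ∈ A, q a = Coalgebra.counit (R := k) a • (1 : MonoidAlgebra k G))
    {θ : MonoidAlgebra k G →ₗ[k] k} (h : θ 1 = 0) (a : ℕ) : pl q θ ∈ Jp A a := by
  obtain ⟨φ, h0, h1⟩ := dh8_ex (k := k) (G := G)
  induction a with
  | zero => trivial
  | succ a ih =>
    refine ⟨_, ih, pl q φ, fun y hy => ?_, ?_⟩
    · rw [pl_apply, hA y hy, map_smul, h0, smul_zero]
    · rw [← pl_mul, dh8_mul θ φ h h1]

theorem conn_fd (p : U →ₐc[k] MonoidAlgebra k G) (hp : Cn p)
    (hc : ∀ u ∈ coradical k U, u ∈ Rw p 1 → u ∈ (1 : Submodule k U)) {Y : Submodule k U} (hY : Y.FG)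
    (h : Y ≤ Rw p 1) : ∃ a, Y ≤ Uw (1 : Submodule k U) a := by
  obtain ⟨C, fg, cl, le, hmin⟩ := exists_fd Y hY
  have hC := hmin _ hp.sb.cl h
  obtain ⟨a, ha⟩ := Uw_top (cl_one (k := k) (H := U)) cl fg fun D hD hle hne e => by
    have : Module.Finite k C := Module.Finite.iff_fg.2 fg
    have h1 : D.FG := Module.Finite.iff_fg.1 (Submodule.finiteDimensional_of_le hle)
    refine coradical_meets hD h1 hne (eq_bot_iff.2 fun u hu => ?_)
    exact e.le ⟨hu.1, hc u hu.2 (hC (hle hu.1))⟩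
  exact ⟨a, le.trans ha⟩

end Pool.Agent.Lib.MP_ff61db_al.Cg
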