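import Pool.Agent.Lib.MP_ff61db_al.Cg.DH2

/-! Coaction levels and wedge powers. -/

namespace Pool.Agent.Lib.MP_ff61db_al.Cg

open Submodule TensorProduct

variable {k H U : Type} [Field k] [Ring H] [HopfAlgebra k H] [Ring U] [HopfAlgebra k U] {ι : Type}
  {π : H →ₐc[k] U}

theorem ract_Jp {K : Submodule k H} (hK : Cl K) {a : ℕ} {θ : Du k H} (h : θ ∈ Jp K a) {x : H}
    (hx : x ∈ Uw K a) : ract θ x = 0 := by
  refine eq_of_du (k := k) fun ψ => ?_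
  rw [du_ract, map_zero]
  exact mem_Uw.1 hx _ (Jp_right hK ψ a θ h)

theorem lact_Jp {K : Submodule k H} {a : ℕ} {θ : Du k H} (h : θ ∈ Jp K a) {x : H}
    (hx : x ∈ Uw K a) : lact θ x = 0 := by
  refine eq_of_du (k := k) fun ψ => ?_
  rw [du_lact, map_zero]
  exact mem_Uw.1 hx _ (Jp_left ψ a θ h)

theorem lact_Uw {K : Submodule k H} {a : ℕ} {φ : Du k H} (h : ∀ y ∈ K, φ.ofConv y = 0) {x : H}
    (hx : x ∈ Uw K (a + 1)) : lact φ x ∈ Uw K a := by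
  refine mem_Uw.2 fun θ h1 => ?_
  rw [du_lact]
  exact mem_Uw.1 hx _ ⟨θ, h1, φ, h, rfl⟩

theorem ract_Uw {K : Submodule k H} (hK : Cl K) {a : ℕ} {φ : Du k H} (h : ∀ y ∈ K, φ.ofConv y = 0)
    {x : H} (hx : x ∈ Uw K (a + 1)) : ract φ x ∈ Uw K a := by
  refine mem_Uw.2 fun θ h1 => ?_
  rw [du_ract]
  have h2 : φ ∈ Jp K 1 := ⟨1, trivial, φ, h, (one_mul _).symm⟩
  have h3 := Jp_mul hK h2 a θ h1
  rw [add_comm] at h3
  exact mem_Uw.1 hx _ h3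

theorem Jp_cons {K : Submodule k H} (hK : Cl K) {a : ℕ} {θ : Du k H} (h : θ ∈ Jp K (a + 1)) :
    ∃ φ : Du k H, ∃ θ' ∈ Jp K a, (∀ y ∈ K, φ.ofConv y = 0) ∧ θ = φ * θ' := by
  induction a generalizing θ with
  | zero =>
    obtain ⟨θ₀, -, φ, h2, rfl⟩ := h
    refine ⟨θ₀ * φ, 1, trivial, fun y hy => ?_, (mul_one _).symm⟩
    rw [← du_ract]
    exact h2 _ (hK.r θ₀ y hy)
  | succ a ih =>
    obtain ⟨θ₀, h1, φ, h2, rfl⟩ := h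
    obtain ⟨ψ, θ₁, h3, h4, rfl⟩ := ih h1
    exact ⟨ψ, θ₁ * φ, ⟨θ₁, h3, φ, h2, rfl⟩, h4, mul_assoc _ _ _⟩

end Pool.Agent.Lib.MP_ff61db_al.Cg
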