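import Pool.Agent.Lib.MP_ff61db_al.Cg.DW

/-! The monomial order. -/

namespace Pool.Agent.Lib.MP_ff61db_al.Cg

open Submodule TensorProduct

variable {k H : Type} [Field k] [Ring H] [Algebra k H] {ι : Type} {x : ι → H} {e : ι → ℕ}

theorem kap_lt [LinearOrder ι] {b c : Multiset ι} : kap e b < kap e c ↔ wt e b < wt e c ∨ (wt e b = wt e c ∧
    (b.card < c.card ∨ (b.card = c.card ∧
      toLex (Multiset.toFinsupp b) < toLex (Multiset.toFinsupp c)))) := by
  simp only [kap, Prod.Lex.toLex_lt_toLex]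

theorem kap_inj [LinearOrder ι] {b c : Multiset ι} (h : kap e b = kap e c) : b = c := by
  simp only [kap, toLex_inj, Prod.mk.injEq] at h
  exact Multiset.toFinsupp.injective h.2.2

theorem kap_add [LinearOrder ι] (a : Multiset ι) {b c : Multiset ι} (h : kap e b < kap e c) :
    kap e (a + b) < kap e (a + c) := by
  rw [kap_lt] at h ⊢
  simp only [wt, Multiset.map_add, Multiset.sum_add, Multiset.card_add, map_add, toLex_add] at h ⊢
  rcases h with h | ⟨h1, h | ⟨h2, h⟩⟩
  · exact Or.inl (by omega)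
  · exact Or.inr ⟨by omega, Or.inl (by omega)⟩
  · exact Or.inr ⟨by omega, Or.inr ⟨by omega, add_lt_add_right h _⟩⟩

theorem kap_wf [Finite ι] [LinearOrder ι] : WellFounded fun b c : Multiset ι => kap e b < kap e c := by
  have := Finsupp.Lex.wellFoundedLT_of_finite (α := ι) (N := ℕ)
  exact InvImage.wf (kap e) wellFounded_lt

theorem kap_wt [LinearOrder ι] {b c : Multiset ι} (h : kap e b < kap e c) : wt e b ≤ wt e c := by
  rcases kap_lt.1 h with h | h
  · exact h.le
  · exact h.1.le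

theorem kap_zero [LinearOrder ι] {b : Multiset ι} (h : b ≠ 0) : kap e 0 < kap e b := by
  rw [kap_lt]
  have h1 : wt e 0 = 0 := by simp [wt]
  rcases Nat.eq_zero_or_pos (wt e b) with h2 | h2
  · exact Or.inr ⟨h1.trans h2.symm, Or.inl (by simpa using Multiset.card_pos.2 h)⟩
  · exact Or.inl (h1 ▸ h2)

theorem Mo_eq [LinearOrder ι] (b : Multiset ι) : Mo k x e b = Ms k x {c | kap e c < kap e b} :=
  le_antisymm (span_mono fun _ ⟨c, h1, h2⟩ => ⟨c, h2, h1⟩)
    (span_mono fun _ ⟨c, h1, h2⟩ => ⟨c, h2, h1⟩)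

theorem Mo_mono [LinearOrder ι] {b c : Multiset ι} (h : kap e b ≤ kap e c) : Mo k x e b ≤ Mo k x e c :=
  span_mono fun _ ⟨d, h1, h2⟩ => ⟨d, h1, h2.trans_le h⟩

end Pool.Agent.Lib.MP_ff61db_al.Cg
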