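import Pool.Agent.Lib.MP_ff61db_al.Cg.DJ

/-! The monomial order. -/

namespace Pool.Agent.Lib.MP_ff61db_al.Cg

open Submodule TensorProduct

variable {k H : Type} [Field k] [Ring H] [Algebra k H] {ι : Type} {x : ι → H} {e : ι → ℕ}

theorem dk_wqo [Finite ι] : WellQuasiOrderedLE (Multiset ι) := by
  classical
  exact (OrderIso.wellQuasiOrderedLE_iff (Finsupp.orderIsoMultiset (ι := ι))).1 inferInstance

theorem dickson [Finite ι] (S : Set (Multiset ι)) :
    ∃ F ⊆ S, F.Finite ∧ ∀ b ∈ S, ∃ c ∈ F, c ≤ b := by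
  have := dk_wqo (ι := ι)
  refine ⟨{a | Minimal (· ∈ S) a}, fun a ha => ha.1,
    WellQuasiOrderedLE.finite_of_isAntichain (setOfPred_minimal_antichain _), fun b hb => ?_⟩
  obtain ⟨a, h1, h2⟩ := exists_minimal_le_of_wellFoundedLT (· ∈ S) b hb
  exact ⟨a, h2, h1⟩

theorem dickson_seq [Finite ι] (b : ℕ → Multiset ι) :
    ∃ g : ℕ → ℕ, StrictMono g ∧ Monotone fun n => b (g n) := by
  obtain ⟨g, hg⟩ := (dk_wqo (ι := ι)).wqo.exists_monotone_subseq b
  exact ⟨g, g.strictMono, fun m n h => hg m n h⟩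

theorem dk_inj [LinearOrder ι] {a b : Multiset ι} (h : kap e a = kap e b) : a = b := by
  simp only [kap, toLex_inj, Prod.mk.injEq] at h
  exact Multiset.toFinsupp.injective h.2.2

theorem dk_key [LinearOrder ι] {A : Submodule k H} {T : Set (Multiset ι)} {u v a w : H}
    {b b' : Multiset ι} (hb : b ∈ T) (ha : a ∈ A) (h : kap e b < kap e b')
    (hu : u - a * mon x b ∈ A * Ms k x {c | c ∈ T ∧ kap e c < kap e b})
    (hv : v - w ∈ A * Ms k x {c | c ∈ T ∧ kap e c < kap e b'}) :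
    u + v - w ∈ A * Ms k x {c | c ∈ T ∧ kap e c < kap e b'} := by
  have h1 : Ms k x {c | c ∈ T ∧ kap e c < kap e b} ≤ Ms k x {c | c ∈ T ∧ kap e c < kap e b'} :=
    span_mono fun _ ⟨c, h2, h3⟩ => ⟨c, ⟨h2.1, h2.2.trans h⟩, h3⟩
  have h2 : a * mon x b ∈ A * Ms k x {c | c ∈ T ∧ kap e c < kap e b'} :=
    mul_mem_mul ha (subset_span ⟨b, ⟨hb, h⟩, rfl⟩)
  have := add_mem (add_mem (mul_le_mul_right h1 A hu) h2) hv
  rwa [sub_add_cancel, ← add_sub_assoc] at this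

theorem dk_add [LinearOrder ι] {A : Submodule k H} {T : Set (Multiset ι)} {u v : H}
    (hu : u = 0 ∨ ∃ b ∈ T, ∃ a ∈ A,
      u - a * mon x b ∈ A * Ms k x {c | c ∈ T ∧ kap e c < kap e b})
    (hv : v = 0 ∨ ∃ b ∈ T, ∃ a ∈ A,
      v - a * mon x b ∈ A * Ms k x {c | c ∈ T ∧ kap e c < kap e b}) :
    u + v = 0 ∨ ∃ b ∈ T, ∃ a ∈ A,
      u + v - a * mon x b ∈ A * Ms k x {c | c ∈ T ∧ kap e c < kap e b} := by
  rcases hu with rfl | ⟨b, hb, a, ha, hu⟩
  · rwa [zero_add]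
  rcases hv with rfl | ⟨b', hb', a', ha', hv⟩
  · exact Or.inr ⟨b, hb, a, ha, by rwa [add_zero]⟩
  rcases lt_trichotomy (kap e b) (kap e b') with h | h | h
  · exact Or.inr ⟨b', hb', a', ha', dk_key hb ha h hu hv⟩
  · obtain rfl := dk_inj h
    refine Or.inr ⟨b, hb, a + a', add_mem ha ha', ?_⟩
    have := add_mem hu hv
    rwa [sub_add_sub_comm, ← add_mul] at this
  · exact Or.inr ⟨b, hb, a, ha, by rw [add_comm]; exact dk_key hb' ha' h hv hu⟩

theorem top_term [LinearOrder ι] (e : ι → ℕ) (A : Submodule k H) (T : Set (Multiset ι)) {z : H}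
    (hz : z ∈ A * Ms k x T) :
    z = 0 ∨ ∃ b ∈ T, ∃ a ∈ A, z - a * mon x b ∈ A * Ms k x {c | c ∈ T ∧ kap e c < kap e b} := by
  refine Submodule.mul_induction_on hz (fun a ha u hu => ?_) fun u v hu hv => dk_add hu hv
  induction hu using span_induction generalizing a with
  | mem u hu =>
    obtain ⟨b, hb, rfl⟩ := hu
    exact Or.inr ⟨b, hb, a, ha, by simp⟩
  | zero => exact Or.inl (mul_zero _)
  | add u v _ _ hu hv =>
    rw [mul_add]
    exact dk_add (hu a ha) (hv a ha)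
  | smul t u _ hu =>
    rw [mul_smul_comm, ← smul_mul_assoc]
    exact hu _ (smul_mem _ t ha)

end Pool.Agent.Lib.MP_ff61db_al.Cg
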