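import Pool.Agent.Lib.MP_ff61db_al.Cg.DH3

/-! The layers of a generating subcoalgebra. -/

namespace Pool.Agent.Lib.MP_ff61db_al.Cg

open Submodule TensorProduct

variable {k H : Type} [Field k] [Ring H] [HopfAlgebra k H]

theorem cop_wedge {A X : Submodule k H} (hA : Cl A) (hX : Cl X) (a : ℕ) {z : H}
    (hz : z ∈ Uw A (a + 1) ⊓ X) : Coalgebra.comul (R := k) z ∈
      span k {t | ∃ i j s u, i + j ≤ a ∧ s ∈ Uw A (i + 1) ⊓ X ∧ u ∈ Uw A (j + 1) ⊓ X ∧ t = s ⊗ₜ[k] u} := by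
  choose P p1 p2 using fun b => exists_proj (Uw A b ⊓ X)
  have h0 : P 0 = 0 := LinearMap.ext fun y => by
    have : P 0 y ∈ Uw A 0 := (p1 0 y).1
    rwa [Uw_zero, mem_bot] at this
  have hsum : P (a + 1) = ∑ b ∈ Finset.range (a + 1), (P (b + 1) - P b) := by
    rw [Finset.sum_range_sub P (a + 1), h0, sub_zero]
  rw [← ((Uw_cl hA (a + 1)).inf hX).map_comul (p2 (a + 1)) hz, hsum, map_sum_sum]
  refine sum_mem fun i _ => sum_mem fun j _ => ?_
  have hq : ∀ b y, (P (b + 1) - P b) y ∈ Uw A (b + 1) ⊓ X := fun b y =>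
    sub_mem (p1 _ y) (inf_le_inf_right X (Uw_mono hA (by omega)) (p1 b y))
  by_cases hij : i + j ≤ a
  · generalize (Coalgebra.comul z : H ⊗[k] H) = t
    induction t with
    | zero => simp
    | add s t hs ht => rw [map_add]; exact add_mem hs ht
    | tmul u v =>
      rw [map_tmul]
      exact subset_span ⟨i, j, _, _, hij, hq i u, hq j v, rfl⟩
  · have hk : ∀ (φ : H →ₗ[k] k) b, ∀ y ∈ Uw A b ⊓ X, φ.comp (P (b + 1) - P b) y = 0 := by
      intro φ b y hy
      simp [p2 b y hy, p2 (b + 1) y (inf_le_inf_right X (Uw_mono hA (by omega)) hy)]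
    rw [tensor_zero (t := TensorProduct.map _ _ _) fun φ ψ => ?_]
    · exact zero_mem _
    rw [pair_map]
    exact Uw_pair hA hX (φ := WithConv.toConv _) (ψ := WithConv.toConv _) (hk φ i) (hk ψ j)
      ⟨Uw_mono hA (by omega) hz.1, hz.2⟩

end Pool.Agent.Lib.MP_ff61db_al.Cg
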