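import Pool.Agent.Lib.MP_ff61db_al.Cg.DL0

/-! The layers of a generating subcoalgebra. -/

namespace Pool.Agent.Lib.MP_ff61db_al.Cg

open Submodule TensorProduct

variable {k H : Type} [Field k] [Ring H] [HopfAlgebra k H]

theorem exists_lay {A T : Submodule k H} (hA : Cl A) (h1 : (1 : H) ∈ A) (hT : Cl T) (haff : Aff T)
    (hU : ∀ x ∈ T, ∃ a, x ∈ Uw A a) : ∃ L D, Lay A L D ∧ gen (L D) = T := by
  obtain ⟨V, hV, rfl⟩ := haff
  obtain ⟨X, hfg, hX, hle, hmin⟩ := exists_fd (V ⊔ span k {1}) (hV.sup (fg_span_singleton _))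
  have hXT : X ≤ gen V :=
    hmin _ hT (sup_le (le_gen V) ((span_singleton_le_iff_mem _ _).2 (one_mem_gen V)))
  obtain ⟨n, hn⟩ := exists_le_of_mono (Uw_mono hA) hfg fun x hx => by
    obtain ⟨a, ha⟩ := hU x (hXT hx)
    exact mem_iSup_of_mem a ha
  have hm : ∀ {a b : ℕ}, a ≤ b → Uw A a ⊓ X ≤ Uw A b ⊓ X := fun h =>
    inf_le_inf_right X (Uw_mono hA h)
  have hD : X ≤ Uw A ((2 * n + 1) / 2 + 1) ⊓ X :=
    le_inf (hn.trans (Uw_mono hA (by omega))) le_rfl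
  have : Module.Finite k X := Module.Finite.iff_fg.2 hfg
  refine ⟨fun e => Uw A ((e + 1) / 2 + 1) ⊓ X, 2 * n, ⟨fun e => ?_, fun a b h => hm (by omega),
    fun e => inf_le_right.trans hD, inf_le_left.trans Uw_one_le,
    ⟨le_Uw_one hA h1, hle (mem_sup_right (mem_span_singleton_self _))⟩,
    fun e => (Uw_cl hA _).inf hX, fun e z hz => ?_⟩,
    le_antisymm (gen_le (inf_le_right.trans hXT) (one_mem_gen V) (gen_mul_gen V))
      (gen_mono ((le_sup_left.trans hle).trans hD))⟩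
  · exact Module.Finite.iff_fg.1 (Submodule.finiteDimensional_of_le inf_le_right)
  · refine span_mono ?_ (cop_wedge hA hX _ hz)
    rintro _ ⟨i, j, s, u, hij, hs, hu, rfl⟩
    rcases Nat.eq_zero_or_pos i with rfl | hi
    · exact ⟨0, e, s, u, hs, hm (by omega) hu, Or.inr (Or.inl ⟨rfl, rfl⟩), rfl⟩
    rcases Nat.eq_zero_or_pos j with rfl | hj
    · exact ⟨e, 0, s, u, hm (by omega) hs, hu, Or.inr (Or.inr ⟨rfl, rfl⟩), rfl⟩
    exact ⟨2 * i - 1, 2 * j - 1, s, u, hm (by omega) hs, hm (by omega) hu, Or.inl (by omega), rfl⟩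

end Pool.Agent.Lib.MP_ff61db_al.Cg
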