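import Pool.Agent.Lib.MP_ff61db_al.Cg.DP

/-! Reduction to standard monomials. -/

namespace Pool.Agent.Lib.MP_ff61db_al.Cg

open Submodule TensorProduct

variable {k H : Type} [Field k] [Ring H] [Algebra k H] {ι : Type} {x : ι → H} {e : ι → ℕ}
variable {B : ℕ → Submodule k H}

theorem Ch.red [Finite ι] [LinearOrder ι] (h : Ch B x e) {σ : Multiset ι → Prop}
    (hns : ∀ b, ¬ σ b → ∃ c ≤ b, mon x c ∈ Mo k x e c ⊔ B 0 * Wq k x e (wt e c) 0) (d : ℕ) :
    Wq k x e d 0 ≤ B d * Ms k x {c | σ c ∧ wt e c < d} := by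
  induction d with
  | zero =>
    rw [Wq_zero]
    exact bot_le
  | succ d ih =>
    have hE : ∀ w ≤ d, B w * Wq k x e w 0 ≤ B (d + 1) * Ms k x {c | σ c ∧ wt e c < d + 1} := by
      intro w hw
      refine (mul_le_mul' (h.mono hw) ((Wq_mono hw).trans ih)).trans ?_
      rw [← mul_assoc]
      refine mul_le_mul' ((h.mul d).trans (h.mono d.le_succ)) (span_mono ?_)
      rintro _ ⟨c, hc, rfl⟩
      exact ⟨c, ⟨hc.1, hc.2.trans d.lt_succ_self⟩, rfl⟩
    have hσ : ∀ b, σ b → wt e b ≤ d →
        mon x b ∈ B (d + 1) * Ms k x {c | σ c ∧ wt e c < d + 1} := fun b hb hw =>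
      le_one_mul (h.one_mem (d + 1)) (subset_span ⟨b, ⟨hb, Nat.lt_succ_of_le hw⟩, rfl⟩)
    generalize B (d + 1) * Ms k x {c | σ c ∧ wt e c < d + 1} = M at hE hσ ⊢
    have key : ∀ b, wt e b ≤ d → mon x b ∈ M := by
      intro b
      induction b using (kap_wf (e := e)).induction with
      | _ b ihb =>
        intro hw
        by_cases hb : σ b
        · exact hσ b hb hw
        have hMo : Mo k x e b ≤ M := by
          refine span_le.2 ?_
          rintro _ ⟨c, rfl, hc⟩
          exact ihb c hc ((kap_wt hc).trans hw)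
        obtain ⟨c, hc, hm⟩ := hns b hb
        obtain ⟨a, rfl⟩ : ∃ a, b = a + c := by
          obtain ⟨a, ha⟩ := Multiset.le_iff_exists_add.1 hc
          exact ⟨a, by rw [ha, add_comm]⟩
        have h1 : mon x a * mon x c - mon x (a + c) ∈ M :=
          sup_le hMo (hE _ hw) (h.mon_mul a c)
        have h2 : Mo k x e c ⊔ B 0 * Wq k x e (wt e c) 0 ≤
            M.comap (LinearMap.mulLeft k (mon x a)) := by
          refine sup_le (span_le.2 ?_) fun y hy => ?_
          · rintro _ ⟨c', rfl, hc'⟩
            have h3 := kap_add a hc'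
            have h4 := (kap_wt h3).trans hw
            have h5 : mon x a * mon x c' - mon x (a + c') ∈ M :=
              sup_le ((Mo_mono h3.le).trans hMo) (hE _ h4) (h.mon_mul a c')
            have h6 := add_mem h5 (ihb _ h3 h4)
            rwa [sub_add_cancel] at h6
          · have h3 : mon x a ∈ B 0 * Wq k x e (wt e a + 1) 0 :=
              le_one_mul h.one (mon_mem_Wq a (Nat.lt_succ_self _))
            have h4 := h.m2 (n := 0) (d := wt e a) (n' := 0) (N := wt e a + wt e c) (wt e c)
              (Nat.zero_le _) (by omega) (mul_mem_mul h3 hy)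
            rw [← wt_add] at h4
            exact hE _ hw h4
        have h8 : mon x a * mon x c ∈ M := h2 hm
        have h7 := sub_mem h8 h1
        rwa [sub_sub_cancel] at h7
    rw [Wq_succ]
    refine iSup_le fun m => (h.top d m).trans (sup_le (span_le.2 ?_) (hE d le_rfl))
    rintro _ ⟨c, hc, rfl⟩
    exact key c hc.1.le

end Pool.Agent.Lib.MP_ff61db_al.Cg
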