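import Pool.Agent.Lib.MP_ff61db_al.Cg.HA
import Pool.Agent.Lib.MP_ff61db_al.Cg.HB

/-! Multiplication by a subcoalgebra does not lower dimensions; the coideal lemma. -/

namespace Pool.Agent.Lib.MP_ff61db_al.Cg

open Submodule TensorProduct

variable {k H : Type} [Field k] [Ring H] [HopfAlgebra k H]

theorem h1_assoc (f : H ⊗[k] H →ₗ[k] H) (e : H) (hf : ∀ a b, f ((e * a) ⊗ₜ b) = e * f (a ⊗ₜ b))
    (a : H) (t : H ⊗[k] H) :
    f.rTensor H ((TensorProduct.assoc k H H H).symm ((e * a) ⊗ₜ t)) =
      (LinearMap.mulLeft k e).rTensor H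
        (f.rTensor H ((TensorProduct.assoc k H H H).symm (a ⊗ₜ t))) := by
  induction t with
  | zero => simp
  | tmul b c => simp [hf]
  | add s t hs ht => simp only [tmul_add, map_add, hs, ht]

/-- The map `e ⊗ y ↦ ∑ e y₁ ⊗ y₂`. -/
noncomputable def h1T (k H : Type) [Field k] [Ring H] [HopfAlgebra k H] :
    H ⊗[k] H →ₗ[k] H ⊗[k] H :=
  (LinearMap.mul' k H).rTensor H ∘ₗ (TensorProduct.assoc k H H H).symm.toLinearMap ∘ₗ
    (Coalgebra.comul : H →ₗ[k] H ⊗[k] H).lTensor H

/-- The map `h ⊗ y ↦ ∑ h S(y₁) ⊗ y₂`. -/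
noncomputable def h1U (k H : Type) [Field k] [Ring H] [HopfAlgebra k H] :
    H ⊗[k] H →ₗ[k] H ⊗[k] H :=
  (LinearMap.mul' k H ∘ₗ (HopfAlgebra.antipode k : H →ₗ[k] H).lTensor H).rTensor H ∘ₗ
    (TensorProduct.assoc k H H H).symm.toLinearMap ∘ₗ
      (Coalgebra.comul : H →ₗ[k] H ⊗[k] H).lTensor H

theorem h1T_tmul (e y : H) :
    h1T k H (e ⊗ₜ y) = (LinearMap.mulLeft k e).rTensor H (Coalgebra.comul y) := by
  simp only [h1T, LinearMap.comp_apply, LinearMap.lTensor_tmul, LinearEquiv.coe_coe]
  generalize (Coalgebra.comul y : H ⊗[k] H) = t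
  induction t with
  | zero => simp
  | tmul b c => simp
  | add s t hs ht => simp only [tmul_add, map_add, hs, ht]

theorem h1U_mul (e : H) (t : H ⊗[k] H) : h1U k H ((LinearMap.mulLeft k e).rTensor H t) =
    (LinearMap.mulLeft k e).rTensor H (h1U k H t) := by
  induction t with
  | zero => simp
  | tmul a b =>
    simp only [h1U, LinearMap.comp_apply, LinearMap.lTensor_tmul, LinearEquiv.coe_coe,
      LinearMap.rTensor_tmul, LinearMap.mulLeft_apply]
    exact h1_assoc _ e (fun a b => by simp [mul_assoc]) a _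
  | add s t hs ht => simp only [map_add, hs, ht]

theorem h1U_comul (y : H) : h1U k H (Coalgebra.comul y) = 1 ⊗ₜ y := by
  simp only [h1U, LinearMap.comp_apply, LinearEquiv.coe_coe]
  rw [Coalgebra.coassoc_symm_apply, ← LinearMap.comp_apply, ← LinearMap.rTensor_comp,
    LinearMap.comp_assoc, HopfAlgebra.mul_antipode_lTensor_comul, LinearMap.rTensor_comp,
    LinearMap.comp_apply, Coalgebra.rTensor_counit_comul]
  simp

theorem h1T_inj : Function.Injective (h1T k H) := by
  refine Function.LeftInverse.injective (g := h1U k H) fun t => ?_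
  induction t with
  | zero => simp
  | tmul e y => rw [h1T_tmul, h1U_mul, h1U_comul]; simp
  | add s t hs ht => simp only [map_add, hs, ht]

theorem finrank_le_mul {E Y : Submodule k H} (hE : E.FG) (hY : Y.FG) (hc : Cl Y) (hne : Y ≠ ⊥) :
    Module.finrank k E ≤ Module.finrank k (E * Y : Submodule k H) := by
  have _ : Module.Finite k E := Module.Finite.iff_fg.2 hE
  have _ : Module.Finite k Y := Module.Finite.iff_fg.2 hY
  have _ : Module.Finite k (E * Y : Submodule k H) := Module.Finite.iff_fg.2 (hE.mul hY)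
  have hinj : Function.Injective (h1T k H ∘ₗ TensorProduct.map E.subtype Y.subtype) :=
    h1T_inj.comp (TensorProduct.map_injective_of_flat_flat _ _ E.injective_subtype
      Y.injective_subtype)
  have hle : LinearMap.range (h1T k H ∘ₗ TensorProduct.map E.subtype Y.subtype) ≤
      LinearMap.range (TensorProduct.map (E * Y).subtype Y.subtype) := by
    rintro _ ⟨t, rfl⟩
    induction t with
    | zero => simp
    | tmul e y =>
      obtain ⟨s, hs⟩ := hc.isSub y.1 y.2
      simp only [LinearMap.comp_apply, map_tmul, subtype_apply, h1T_tmul, ← hs]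
      clear hs
      induction s with
      | zero => simp
      | tmul a b => exact ⟨⟨e.1 * a.1, mul_mem_mul e.2 a.2⟩ ⊗ₜ b, by simp⟩
      | add s t hs ht => simp only [map_add]; exact add_mem hs ht
    | add s t hs ht => simp only [map_add]; exact add_mem hs ht
  have h1 := (Submodule.finrank_mono hle).trans (LinearMap.finrank_range_le _)
  rw [LinearMap.finrank_range_of_inj hinj, Module.finrank_tensorProduct,
    Module.finrank_tensorProduct] at h1
  refine Nat.le_of_mul_le_mul_right h1 (Nat.pos_of_ne_zero fun h => hne ?_)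
  exact Submodule.finrank_eq_zero.1 h

end Pool.Agent.Lib.MP_ff61db_al.Cg
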