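import Pool.Agent.Lib.MP_ff61db_al.Cg.HA
import Pool.Agent.Lib.MP_ff61db_al.Cg.HB

/-! The coideal lemma. -/

namespace Pool.Agent.Lib.MP_ff61db_al.Cg

open Submodule TensorProduct

variable {k H : Type} [Field k] [Ring H] [HopfAlgebra k H]

/-- Contraction of the left factor. -/
noncomputable def h2L (φ : H →ₗ[k] k) : H ⊗[k] H →ₗ[k] H :=
  (TensorProduct.lid k H).toLinearMap ∘ₗ LinearMap.rTensor H φ

theorem h2_ract (φ : H →ₗ[k] k) (x : H) :
    h2L φ (Coalgebra.comul x) = ract (WithConv.toConv φ) x := rfl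

theorem h2_right (φ : H →ₗ[k] k) (t : H ⊗[k] H) (c : H) : h2L φ (t * 1 ⊗ₜ c) = h2L φ t * c := by
  induction t with
  | zero => simp
  | tmul x y => simp [h2L]
  | add s t hs ht => simp only [add_mul, map_add, hs, ht]

theorem h2_left (φ : H →ₗ[k] k) (t : H ⊗[k] H) (a : H) :
    h2L φ (t * a ⊗ₜ 1) = h2L (φ ∘ₗ LinearMap.mulRight k a) t := by
  induction t with
  | zero => simp
  | tmul x y => simp [h2L]
  | add s t hs ht => simp only [add_mul, map_add, hs, ht]

theorem h2_pair (φ ψ : H →ₗ[k] k) (t : H ⊗[k] H) : pair φ ψ t = ψ (h2L φ t) := by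
  induction t with
  | zero => simp
  | tmul x y => simp [h2L]
  | add s t hs ht => simp only [map_add, hs, ht]

theorem h2_inv {B : Type} [Ring B] [Algebra k B] (f : H →ₐ[k] B) :
    WithConv.toConv (f.toLinearMap ∘ₗ HopfAlgebra.antipode k) * WithConv.toConv f.toLinearMap = 1 ∧
    WithConv.toConv f.toLinearMap * WithConv.toConv (f.toLinearMap ∘ₗ HopfAlgebra.antipode k) =
      1 := by
  constructor <;> ext c <;> rw [(Coalgebra.Repr.arbitrary k c).convMul_apply]
  · have := congrArg f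
      (HopfAlgebra.sum_antipode_mul_eq_algebraMap_counit (Coalgebra.Repr.arbitrary k c))
    simpa using this
  · have := congrArg f
      (HopfAlgebra.sum_mul_antipode_eq_algebraMap_counit (Coalgebra.Repr.arbitrary k c))
    simpa using this

theorem h2_key (z : H) : LinearMap.mul' k (H ⊗[k] H) (TensorProduct.map
      (Coalgebra.comul ∘ₗ HopfAlgebra.antipode k) ((TensorProduct.mk k H H).flip 1)
      (Coalgebra.comul z)) = 1 ⊗ₜ HopfAlgebra.antipode k z := by
  have h1 := (h2_inv (Bialgebra.comulAlgHom k H)).1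
  have h2 := (h2_inv (Algebra.TensorProduct.includeRight : H →ₐ[k] H ⊗[k] H)).2
  have h3 : WithConv.toConv (Bialgebra.comulAlgHom k H).toLinearMap =
      WithConv.toConv ((TensorProduct.mk k H H).flip 1) * WithConv.toConv
        (Algebra.TensorProduct.includeRight : H →ₐ[k] H ⊗[k] H).toLinearMap := by
    ext c
    rw [(Coalgebra.Repr.arbitrary k c).convMul_apply]
    simpa using (Coalgebra.Repr.arbitrary k c).eq.symm
  rw [h3, ← mul_assoc] at h1
  exact congrArg (fun f => f.ofConv z) (left_inv_eq_right_inv h1 h2)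

theorem h2_stable {M' Z : Submodule k H} (hM' : Cl M') (hZ : Cl Z) {h : H}
    (hz : ∀ c ∈ Sm Z, h * c ∈ M') (φ : H →ₗ[k] k) :
    ∀ c ∈ Sm Z, ract (WithConv.toConv φ) h * c ∈ M' := by
  rintro _ ⟨z, hz', rfl⟩
  obtain ⟨t, ht⟩ := hZ.isSub z hz'
  rw [← h2_ract, ← h2_right, ← h2_key, ← ht]
  clear ht
  induction t with
  | zero => simp
  | tmul u v =>
    simp only [TensorProduct.map_tmul, LinearMap.mul'_apply, LinearMap.comp_apply,
      LinearMap.flip_apply, TensorProduct.mk_apply, Submodule.subtype_apply]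
    rw [← mul_assoc, ← Bialgebra.comul_mul, h2_left, h2_ract]
    exact hM'.r _ _ (hz _ ⟨u, u.2, rfl⟩)
  | add s t hs ht =>
    simp only [map_add, mul_add]
    exact add_mem hs ht

theorem h2_counit {M M' Z : Submodule k H} (hM : Cl M) (hM' : Cl M') (hZ : Cl Z) {h : H}
    (hh : h ∈ M) (hz : ∀ c ∈ Sm Z, h * c ∈ M') {c : H} (hc : c ∈ Sm Z) :
    Coalgebra.counit (R := k) h • c ∈ Sm M * M' := by
  obtain ⟨q, q1, q2⟩ := exists_proj M
  obtain ⟨p, p1, p2⟩ := exists_proj M'
  have h1 : TensorProduct.map q p (Coalgebra.comul h * 1 ⊗ₜ c) = Coalgebra.comul h * 1 ⊗ₜ c := by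
    rw [← sub_eq_zero]
    refine tensor_zero fun φ ψ => ?_
    rw [map_sub, pair_map, sub_eq_zero, h2_pair, h2_pair, h2_right, h2_right, h2_ract, h2_ract,
      LinearMap.comp_apply, p2 _ (h2_stable hM' hZ hz _ c hc)]
    congr 2
    refine eq_of_du (k := k) fun θ => ?_
    rw [du_ract, du_ract, ← du_lact, ← du_lact]
    exact congrArg φ (q2 _ (hM.l θ h hh))
  have h2 : ∀ t : H ⊗[k] H, LinearMap.mul' k H ((HopfAlgebra.antipode k).rTensor H
      (TensorProduct.map q p t)) ∈ Sm M * M' := fun t => by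
    induction t with
    | zero => simp
    | tmul x y => simpa using mul_mem_mul (mem_map_of_mem (q1 x)) (p1 y)
    | add s t hs ht =>
      simp only [map_add]
      exact add_mem hs ht
  have h3 : ∀ t : H ⊗[k] H, LinearMap.mul' k H ((HopfAlgebra.antipode k).rTensor H (t * 1 ⊗ₜ c)) =
      LinearMap.mul' k H ((HopfAlgebra.antipode k).rTensor H t) * c := fun t => by
    induction t with
    | zero => simp
    | tmul x y => simp [mul_assoc]
    | add s t hs ht => simp only [add_mul, map_add, hs, ht]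
  have h4 := h2 (Coalgebra.comul h * 1 ⊗ₜ c)
  rwa [h1, h3, HopfAlgebra.mul_antipode_rTensor_comul_apply, ← Algebra.smul_def] at h4

theorem coideal {M M' Z : Submodule k H} (hM : Cl M) (hM' : Cl M') (hZ : Cl Z) {h : H}
    (hh : h ∈ M) (h0 : h ≠ 0) (hz : ∀ c ∈ Sm Z, h * c ∈ M') : Sm Z ≤ Sm M * M' := by
  intro c hc
  obtain ⟨φ, hφ⟩ : ∃ φ : H →ₗ[k] k, φ h ≠ 0 := by
    by_contra e
    push Not at e
    exact h0 ((Module.forall_dual_apply_eq_zero_iff k h).1 e)
  have h1 := h2_counit hM hM' hZ (hM.r (WithConv.toConv φ) h hh) (h2_stable hM' hZ hz φ) hc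
  rw [← du_one, du_ract, mul_one] at h1
  exact (Submodule.smul_mem_iff _ hφ).1 h1

end Pool.Agent.Lib.MP_ff61db_al.Cg
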