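import Pool.Agent.Lib.MP_ff61db_al.Cg.Defs

/-! Hopf subalgebras are Hopf algebras. -/

namespace Pool.Agent.Lib.MP_ff61db_al.Cg

open Submodule TensorProduct

variable {k H : Type} [Field k] [Ring H] [HopfAlgebra k H]

theorem sub_inj {M N M' N' : Type} [AddCommGroup M] [AddCommGroup N] [AddCommGroup M']
    [AddCommGroup N'] [Module k M] [Module k N] [Module k M'] [Module k N'] {f : M →ₗ[k] M'}
    {g : N →ₗ[k] N'} (hf : Function.Injective f) (hg : Function.Injective g) :
    Function.Injective (TensorProduct.map f g) := by
  obtain ⟨p, hp⟩ := f.exists_leftInverse_of_injective (LinearMap.ker_eq_bot.2 hf)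
  obtain ⟨q, hq⟩ := g.exists_leftInverse_of_injective (LinearMap.ker_eq_bot.2 hg)
  refine Function.LeftInverse.injective (g := TensorProduct.map p q) fun t => ?_
  rw [← LinearMap.comp_apply, ← TensorProduct.map_comp, hp, hq, TensorProduct.map_id,
    LinearMap.id_apply]

theorem sub_co (A : Subalgebra k H) (hc : Cl (Subalgebra.toSubmodule A)) :
    ∃ co : A →ₗ[k] A ⊗[k] A, ∀ a : A,
      TensorProduct.map A.val.toLinearMap A.val.toLinearMap (co a) = Coalgebra.comul (a : H) := by
  obtain ⟨q, hq⟩ := A.val.toLinearMap.exists_leftInverse_of_injective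
    (LinearMap.ker_eq_bot.2 Subtype.val_injective)
  refine ⟨TensorProduct.map q q ∘ₗ Coalgebra.comul ∘ₗ A.val.toLinearMap, fun a => ?_⟩
  rw [LinearMap.comp_apply, ← LinearMap.comp_apply, ← TensorProduct.map_comp]
  exact hc.map_comul (fun x hx => congrArg Subtype.val (LinearMap.congr_fun hq ⟨x, hx⟩)) a.2

theorem exists_hopf_sub (A : Subalgebra k H) (hc : Cl (Subalgebra.toSubmodule A))
    (hS : Sm (Subalgebra.toSubmodule A) ≤ Subalgebra.toSubmodule A) :
    ∃ inst : HopfAlgebra k A, inst.toAlgebra = (inferInstance : Algebra k A) := by
  obtain ⟨co, hco⟩ := sub_co A hc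
  set v : A →ₗ[k] H := A.val.toLinearMap with hv
  have v0 : ∀ a : A, v a = (a : H) := fun _ => rfl
  have i1 : Function.Injective v := Subtype.val_injective
  have i2 := sub_inj i1 i1
  have i3 := sub_inj i1 i2
  let ep : A →ₗ[k] k := Coalgebra.counit ∘ₗ v
  let S : A →ₗ[k] A := ((HopfAlgebra.antipode k : H →ₗ[k] H) ∘ₗ v).codRestrict
    (Subalgebra.toSubmodule A) fun a => hS (mem_map_of_mem a.2)
  have S0 : ∀ a : A, (S a : H) = HopfAlgebra.antipode k (a : H) := fun _ => rfl
  have m2 : ∀ s t : A ⊗[k] A, TensorProduct.map v v (s * t) =
      TensorProduct.map v v s * TensorProduct.map v v t := fun s t =>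
    map_mul (Algebra.TensorProduct.map A.val A.val) s t
  have a1 : ∀ t : A ⊗[k] A, TensorProduct.map v (TensorProduct.map v v)
      (TensorProduct.assoc k A A A (LinearMap.rTensor A co t)) = TensorProduct.assoc k H H H
        (LinearMap.rTensor H Coalgebra.comul (TensorProduct.map v v t)) := fun t => by
    induction t with
    | zero => simp
    | tmul x y =>
      rw [LinearMap.rTensor_tmul, TensorProduct.map_map_assoc, TensorProduct.map_tmul, hco,
        TensorProduct.map_tmul, LinearMap.rTensor_tmul, v0 x]
    | add s t hs ht => simp only [map_add, hs, ht]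
  have a2 : ∀ t : A ⊗[k] A, TensorProduct.map v (TensorProduct.map v v)
      (LinearMap.lTensor A co t) =
        LinearMap.lTensor H Coalgebra.comul (TensorProduct.map v v t) := fun t => by
    induction t with
    | zero => simp
    | tmul x y =>
      rw [LinearMap.lTensor_tmul, TensorProduct.map_tmul, hco, TensorProduct.map_tmul,
        LinearMap.lTensor_tmul, v0 y]
    | add s t hs ht => simp only [map_add, hs, ht]
  have a3 : ∀ t : A ⊗[k] A, TensorProduct.map LinearMap.id v (LinearMap.rTensor A ep t) =
      LinearMap.rTensor H Coalgebra.counit (TensorProduct.map v v t) := fun t => by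
    induction t with
    | zero => simp
    | tmul x y => rfl
    | add s t hs ht => simp only [map_add, hs, ht]
  have a4 : ∀ t : A ⊗[k] A, TensorProduct.map v LinearMap.id (LinearMap.lTensor A ep t) =
      LinearMap.lTensor H Coalgebra.counit (TensorProduct.map v v t) := fun t => by
    induction t with
    | zero => simp
    | tmul x y => rfl
    | add s t hs ht => simp only [map_add, hs, ht]
  have a5 : ∀ t : A ⊗[k] A, v (LinearMap.mul' k A (LinearMap.rTensor A S t)) =
      LinearMap.mul' k H (LinearMap.rTensor H (HopfAlgebra.antipode k)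
        (TensorProduct.map v v t)) := fun t => by
    induction t with
    | zero => simp
    | tmul x y => simp [v0, S0]
    | add s t hs ht => simp only [map_add, hs, ht]
  have a6 : ∀ t : A ⊗[k] A, v (LinearMap.mul' k A (LinearMap.lTensor A S t)) =
      LinearMap.mul' k H (LinearMap.lTensor H (HopfAlgebra.antipode k)
        (TensorProduct.map v v t)) := fun t => by
    induction t with
    | zero => simp
    | tmul x y => simp [v0, S0]
    | add s t hs ht => simp only [map_add, hs, ht]
  exact ⟨{ (inferInstance : Algebra k A) with
      comul := co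
      counit := ep
      coassoc := LinearMap.ext fun a => i3 (by
        refine (a1 _).trans (Eq.trans ?_ (a2 _).symm)
        rw [hco]
        exact Coalgebra.coassoc_apply _)
      rTensor_counit_comp_comul := LinearMap.ext fun a =>
        sub_inj (f := LinearMap.id) Function.injective_id i1 (by
          refine (a3 _).trans ?_
          rw [hco]
          exact Coalgebra.rTensor_counit_comul _)
      lTensor_counit_comp_comul := LinearMap.ext fun a =>
        sub_inj (g := LinearMap.id) i1 Function.injective_id (by
          refine (a4 _).trans ?_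
          rw [hco]
          exact Coalgebra.lTensor_counit_comul _)
      counit_one := Bialgebra.counit_one (R := k) (A := H)
      mul_compr₂_counit := LinearMap.ext fun a => LinearMap.ext fun b =>
        Bialgebra.counit_mul (R := k) (a : H) (b : H)
      comul_one := i2 ((hco 1).trans ((Bialgebra.comul_one (R := k) (A := H)).trans
        (map_one (Algebra.TensorProduct.map A.val A.val)).symm))
      mul_compr₂_comul := LinearMap.ext fun a => LinearMap.ext fun b => i2 (by
        refine (hco (a * b)).trans (Eq.trans ?_ (m2 (co a) (co b)).symm)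
        rw [hco, hco]
        exact Bialgebra.comul_mul _ _)
      antipode := S
      mul_antipode_rTensor_comul := LinearMap.ext fun a => i1 (by
        refine (a5 _).trans ?_
        rw [hco]
        exact HopfAlgebra.mul_antipode_rTensor_comul_apply _)
      mul_antipode_lTensor_comul := LinearMap.ext fun a => i1 (by
        refine (a6 _).trans ?_
        rw [hco]
        exact HopfAlgebra.mul_antipode_lTensor_comul_apply _) }, rfl⟩

end Pool.Agent.Lib.MP_ff61db_al.Cg
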