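import Pool.Agent.Lib.MP_ff61db_al.Cg.DDefs
import Pool.Agent.Lib.MP_ff61db_al.Cg.H1
import Pool.Agent.Lib.MP_ff61db_al.Cg.H2
import Pool.Agent.Lib.MP_ff61db_al.Cg.Sub

/-! Doubling by a subcoalgebra that misses a subalgebra. -/

namespace Pool.Agent.Lib.MP_ff61db_al.Cg

open Submodule TensorProduct

variable {k H : Type} [Field k] [Ring H] [HopfAlgebra k H]

/-- The map `b ⊗ h ↦ ∑ b₁ h ⊗ b₂`. -/
noncomputable def dt0F (k H : Type) [Field k] [Ring H] [HopfAlgebra k H] :
    H ⊗[k] H →ₗ[k] H ⊗[k] H :=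
  LinearMap.mul' k (H ⊗[k] H) ∘ₗ
    TensorProduct.map Coalgebra.comul ((TensorProduct.mk k H H).flip 1)

/-- The map `b ⊗ h ↦ ∑ b₁ ⊗ S(b₂) h`. -/
noncomputable def dt0K (k H : Type) [Field k] [Ring H] [HopfAlgebra k H] :
    H ⊗[k] H →ₗ[k] H ⊗[k] H :=
  (LinearMap.mul' k H ∘ₗ (HopfAlgebra.antipode k : H →ₗ[k] H).rTensor H).lTensor H ∘ₗ
    (TensorProduct.assoc k H H H).toLinearMap ∘ₗ
      (Coalgebra.comul : H →ₗ[k] H ⊗[k] H).rTensor H

theorem dt0F_tmul (b h : H) : dt0F k H (b ⊗ₜ h) = Coalgebra.comul b * h ⊗ₜ 1 := by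
  simp [dt0F]

theorem dt0F_U (e z : H) : dt0F k H (h1U k H (e ⊗ₜ z)) =
    Coalgebra.comul e * 1 ⊗ₜ HopfAlgebra.antipode k z := by
  have h1 : ∀ t, dt0F k H ((LinearMap.mulLeft k e).rTensor H t) =
      Coalgebra.comul e * dt0F k H t := fun t => by
    induction t with
    | zero => simp
    | tmul a b => simp [dt0F_tmul, mul_assoc]
    | add s t hs ht => simp only [map_add, mul_add, hs, ht]
  have h2 := h1U_mul e ((1 : H) ⊗ₜ[k] z)
  rw [LinearMap.rTensor_tmul, LinearMap.mulLeft_apply, mul_one] at h2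
  rw [h2, h1, ← h2_key]
  congr 1
  simp only [h1U, LinearMap.comp_apply, LinearMap.lTensor_tmul, LinearEquiv.coe_coe]
  generalize (Coalgebra.comul z : H ⊗[k] H) = t
  induction t with
  | zero => simp
  | tmul a b => simp [dt0F_tmul]
  | add s t hs ht => simp only [tmul_add, map_add, hs, ht]

theorem dt0K_comul (e w : H) : dt0K k H (Coalgebra.comul e * 1 ⊗ₜ w) = e ⊗ₜ w := by
  have h1 : ∀ t, dt0K k H (t * 1 ⊗ₜ w) = dt0K k H t * 1 ⊗ₜ w := fun t => by
    induction t with
    | zero => simp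
    | tmul a b =>
      simp only [dt0K, LinearMap.comp_apply, Algebra.TensorProduct.tmul_mul_tmul, mul_one,
        LinearMap.rTensor_tmul, LinearEquiv.coe_coe]
      generalize (Coalgebra.comul a : H ⊗[k] H) = s
      induction s with
      | zero => simp
      | tmul x y => simp [mul_assoc]
      | add s t hs ht => simp only [add_tmul, map_add, add_mul, hs, ht]
    | add s t hs ht => simp only [map_add, add_mul, hs, ht]
  have h2 : dt0K k H (Coalgebra.comul e) = e ⊗ₜ 1 := by
    simp only [dt0K, LinearMap.comp_apply, LinearEquiv.coe_coe]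
    rw [Coalgebra.coassoc_apply, ← LinearMap.comp_apply, ← LinearMap.lTensor_comp,
      LinearMap.comp_assoc, HopfAlgebra.mul_antipode_rTensor_comul, LinearMap.lTensor_comp,
      LinearMap.comp_apply, Coalgebra.lTensor_counit_comul]
    simp
  rw [h1, h2]
  simp

theorem dt_ker {B₀ B₁ : Submodule k H} (h0 : Cl B₀) (h1 : Sb B₁) (hS : Sm B₀ ≤ B₁) {t : H ⊗[k] H}
    (ht : t ∈ LinearMap.range (LinearMap.rTensor H B₀.subtype))
    (hu : h1U k H t ∈ LinearMap.range (LinearMap.rTensor H B₁.subtype)) :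
    LinearMap.lTensor H (HopfAlgebra.antipode k) t ∈ HT H B₁ := by
  obtain ⟨q, q1, q2⟩ := exists_proj B₀
  have a1 : ∀ t, dt0K k H (dt0F k H (h1U k H t)) =
      LinearMap.lTensor H (HopfAlgebra.antipode k) t := fun t => by
    induction t with
    | zero => simp
    | tmul e z => rw [dt0F_U, dt0K_comul, LinearMap.lTensor_tmul]
    | add s t hs ht => simp only [map_add, hs, ht]
  have a2 : LinearMap.rTensor H q (dt0F k H (h1U k H t)) = dt0F k H (h1U k H t) := by
    obtain ⟨t, rfl⟩ := ht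
    clear hu
    induction t with
    | zero => simp
    | tmul e z =>
      obtain ⟨s, hs⟩ := h0.isSub e.1 e.2
      rw [LinearMap.rTensor_tmul, subtype_apply, dt0F_U, ← hs]
      clear hs
      induction s with
      | zero => simp
      | tmul x y => simp [q2 x.1 x.2]
      | add s t hs ht => simp only [map_add, add_mul, hs, ht]
    | add s t hs ht => simp only [map_add, hs, ht]
  have a3 : dt0F k H (h1U k H t) ∈ HT H B₁ := by
    obtain ⟨u, hu⟩ := hu
    rw [← hu]
    clear hu
    induction u with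
    | zero => simp
    | tmul b h =>
      obtain ⟨s, hs⟩ := h1.cl.isSub b.1 b.2
      rw [LinearMap.rTensor_tmul, subtype_apply, dt0F_tmul, ← hs]
      clear hs
      induction s with
      | zero => simp
      | tmul x y => exact ⟨(x.1 * h) ⊗ₜ y, by simp⟩
      | add s t hs ht => simp only [map_add, add_mul]; exact add_mem hs ht
    | add s t hs ht => simp only [map_add]; exact add_mem hs ht
  obtain ⟨u, hu'⟩ := a3
  rw [← a1, ← a2, ← hu']
  clear hu'
  induction u with
  | zero => simp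
  | tmul a b =>
    obtain ⟨s, hs⟩ := h0.isSub (q a) (q1 a)
    simp only [dt0K, LinearMap.lTensor_tmul, LinearMap.rTensor_tmul, LinearMap.comp_apply,
      LinearEquiv.coe_coe, ← hs]
    clear hs
    induction s with
    | zero => simp
    | tmul x y =>
      exact ⟨x.1 ⊗ₜ ⟨HopfAlgebra.antipode k y.1 * b.1,
        h1.mul (mul_mem_mul (hS (mem_map_of_mem y.2)) b.2)⟩, by simp⟩
    | add s t hs ht => simp only [map_add, add_tmul]; exact add_mem hs ht
  | add s t hs ht => simp only [map_add]; exact add_mem hs ht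

end Pool.Agent.Lib.MP_ff61db_al.Cg
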