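import Pool.Agent.Lib.MP_ff61db_al.Cg.DT0

/-! Doubling by a subcoalgebra that misses a subalgebra. -/

namespace Pool.Agent.Lib.MP_ff61db_al.Cg

open Submodule TensorProduct

variable {k H : Type} [Field k] [Ring H] [HopfAlgebra k H]

theorem dt1_inj {B₀ B₁ Z E : Submodule k H} (h0 : Cl B₀) (h1 : Sb B₁) (hS : Sm B₀ ≤ B₁)
    (hd : ∀ z ∈ Z, HopfAlgebra.antipode k z ∈ B₁ → z = 0) (hEB : E ≤ B₀) :
    Function.Injective (LinearMap.rTensor H B₁.mkQ ∘ₗ h1U k H ∘ₗ
      TensorProduct.map E.subtype Z.subtype) := by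
  intro t₁ t₂ h12
  have ht : (LinearMap.rTensor H B₁.mkQ ∘ₗ h1U k H ∘ₗ
      TensorProduct.map E.subtype Z.subtype) (t₁ - t₂) = 0 := by rw [map_sub, h12, sub_self]
  rw [← sub_eq_zero]
  generalize t₁ - t₂ = t at ht
  have hu : h1U k H (TensorProduct.map E.subtype Z.subtype t) ∈
      LinearMap.range (LinearMap.rTensor H B₁.subtype) := by
    rw [← rTensor_mkQ]; exact ht
  have h2 : TensorProduct.map E.subtype Z.subtype t ∈
      LinearMap.range (LinearMap.rTensor H B₀.subtype) := by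
    refine ⟨TensorProduct.map (Submodule.inclusion hEB) Z.subtype t, ?_⟩
    rw [← LinearMap.comp_apply, LinearMap.rTensor_comp_map, Submodule.subtype_comp_inclusion]
  have h3 := dt_ker h0 h1 hS h2 hu
  rw [HT, ← lTensor_mkQ, LinearMap.mem_ker, ← LinearMap.comp_apply, ← LinearMap.lTensor_comp,
    ← LinearMap.comp_apply, LinearMap.lTensor_comp_map] at h3
  have h4 : Function.Injective
      ((B₁.mkQ ∘ₗ (HopfAlgebra.antipode k : H →ₗ[k] H)) ∘ₗ Z.subtype) := by
    rw [← LinearMap.ker_eq_bot, eq_bot_iff]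
    intro z hz
    have hz' : HopfAlgebra.antipode k (z : H) ∈ B₁ := (Submodule.Quotient.mk_eq_zero B₁).1 hz
    exact (mem_bot k).2 (Subtype.ext (hd z.1 z.2 hz'))
  exact sub_inj E.injective_subtype h4 (h3.trans (map_zero _).symm)

theorem dt1_range {B₁ Z E : Submodule k H} (hc : Cl Z) :
    LinearMap.range (LinearMap.rTensor H B₁.mkQ ∘ₗ h1U k H ∘ₗ
      TensorProduct.map E.subtype Z.subtype) ≤
      LinearMap.range (TensorProduct.map ((E * Sm Z).map B₁.mkQ).subtype Z.subtype) := by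
  rintro _ ⟨t, rfl⟩
  induction t with
  | zero => simp
  | tmul e y =>
    obtain ⟨s, hs⟩ := hc.isSub y.1 y.2
    simp only [h1U, LinearMap.comp_apply, map_tmul, subtype_apply, LinearMap.lTensor_tmul,
      LinearEquiv.coe_coe, ← hs]
    clear hs
    induction s with
    | zero => simp
    | tmul a b =>
      exact ⟨⟨B₁.mkQ (e.1 * HopfAlgebra.antipode k a.1),
        mem_map_of_mem (mul_mem_mul e.2 (mem_map_of_mem a.2))⟩ ⊗ₜ b, by simp⟩
    | add s t hs ht => simp only [map_add, tmul_add]; exact add_mem hs ht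
  | add s t hs ht => simp only [map_add]; exact add_mem hs ht

theorem dt_one {B₀ B₁ Z E : Submodule k H} (h0 : Cl B₀) (h1 : Sb B₁) (hle : B₀ ≤ B₁) (hS : Sm B₀ ≤ B₁)
    (hZ : Z.FG) (hc : Cl Z) (hne : Z ≠ ⊥) (hd : ∀ z ∈ Z, HopfAlgebra.antipode k z ∈ B₁ → z = 0)
    (hE : E.FG) (hEB : E ≤ B₀) :
    2 * Module.finrank k E ≤ Module.finrank k (E ⊔ E * Sm Z : Submodule k H) := by
  have _ : Module.Finite k E := Module.Finite.iff_fg.2 hE
  have _ : Module.Finite k Z := Module.Finite.iff_fg.2 hZ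
  have hP : (E * Sm Z : Submodule k H).FG := hE.mul (hZ.map _)
  have _ : Module.Finite k ((E * Sm Z).map B₁.mkQ) := Module.Finite.iff_fg.2 (hP.map _)
  have _ : Module.Finite k (E ⊔ E * Sm Z : Submodule k H) := Module.Finite.iff_fg.2 (hE.sup hP)
  have a1 := (Submodule.finrank_mono (dt1_range (B₁ := B₁) (E := E) hc)).trans
    (LinearMap.finrank_range_le _)
  rw [LinearMap.finrank_range_of_inj (dt1_inj h0 h1 hS hd hEB), Module.finrank_tensorProduct,
    Module.finrank_tensorProduct] at a1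
  have a2 : Module.finrank k E ≤ Module.finrank k ((E * Sm Z).map B₁.mkQ) :=
    Nat.le_of_mul_le_mul_right a1 (Nat.pos_of_ne_zero fun h =>
      hne (Submodule.finrank_eq_zero.1 h))
  have a3 := LinearMap.finrank_range_add_finrank_ker
    (B₁.mkQ ∘ₗ (E ⊔ E * Sm Z : Submodule k H).subtype)
  have a4 : Module.finrank k ((E * Sm Z).map B₁.mkQ) ≤ Module.finrank k
      (LinearMap.range (B₁.mkQ ∘ₗ (E ⊔ E * Sm Z : Submodule k H).subtype)) := by
    refine Submodule.finrank_mono ?_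
    rw [LinearMap.range_comp, range_subtype]
    exact map_mono le_sup_right
  have a5 : Module.finrank k E ≤ Module.finrank k
      (LinearMap.ker (B₁.mkQ ∘ₗ (E ⊔ E * Sm Z : Submodule k H).subtype)) := by
    rw [← (Submodule.comapSubtypeEquivOfLe (le_sup_left : E ≤ E ⊔ E * Sm Z)).finrank_eq]
    refine Submodule.finrank_mono ?_
    rw [LinearMap.ker_comp, ker_mkQ]
    exact comap_mono (hEB.trans hle)
  omega

end Pool.Agent.Lib.MP_ff61db_al.Cg
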