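import Pool.Agent.Lib.MP_ff61db_al.Cg.DT5
import Pool.Agent.Lib.MP_ff61db_al.Cg.DH0

/-! Doubling by a coinvariant element. -/

namespace Pool.Agent.Lib.MP_ff61db_al.Cg

open Submodule TensorProduct

variable {k H : Type} [Field k] [Ring H] [HopfAlgebra k H]

theorem dt2_basis {B C : Submodule k H} (hC : C.FG) :
    ∃ (n : ℕ) (y : Fin n → H) (θ : Fin n → Du k H), (∀ j, y j ∈ C) ∧
      (∀ j, ∀ b ∈ B, (θ j).ofConv b = 0) ∧
      (∀ j l, (θ j).ofConv (y l) = if l = j then 1 else 0) ∧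
      ∀ w ∈ C, w - ∑ j, (θ j).ofConv w • y j ∈ B := by
  let Q : Submodule k (H ⧸ B) := C.map B.mkQ
  have : Module.Finite k Q := Module.Finite.iff_fg.2 (hC.map _)
  let b := Module.finBasis k Q
  obtain ⟨q, hq⟩ := Q.subtype.exists_leftInverse_of_injective Q.ker_subtype
  have hq' : ∀ v : Q, q v = v := fun v => LinearMap.congr_fun hq v
  choose y y1 y2 using fun j => mem_map.1 (b j).2
  refine ⟨_, y, fun j => WithConv.toConv (b.coord j ∘ₗ q ∘ₗ B.mkQ), y1, fun j x hx => ?_,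
    fun j l => ?_, fun w hw => ?_⟩
  · change b.coord j (q (B.mkQ x)) = 0
    rw [B.mkQ_apply, (Quotient.mk_eq_zero B).2 hx, map_zero, map_zero]
  · change b.coord j (q (B.mkQ (y l))) = _
    rw [y2, hq', Module.Basis.coord_apply, b.repr_self, Finsupp.single_apply]
  · rw [← Quotient.mk_eq_zero, ← B.mkQ_apply, map_sub, map_sum, sub_eq_zero]
    have h1 := congrArg Subtype.val (b.sum_repr ⟨B.mkQ w, mem_map_of_mem hw⟩)
    rw [coe_sum] at h1
    refine h1.symm.trans (Finset.sum_congr rfl fun j _ => ?_)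
    rw [map_smul, y2, coe_smul, ← hq' ⟨B.mkQ w, mem_map_of_mem hw⟩]
    rfl

theorem dt_elt {B₁ B₂ C : Submodule k H} (h2 : Sb B₂) (hle : B₁ ≤ B₂) (hS : Sm B₁ ≤ B₂) (hC : C.FG)
    (hc : Cl C) (hn : ¬ C ≤ B₂)
    (hw : ∀ θ : Du k H, (∀ b ∈ B₂, θ.ofConv b = 0) → ∀ y ∈ C, lact θ y ∈ B₁) :
    ∃ y ∈ Sm C * C, y ∉ B₂ ∧ Coalgebra.comul (R := k) y - 1 ⊗ₜ[k] y ∈ HT H B₂ := by
  obtain ⟨n, y, θ, y1, t0, t1, t2⟩ := dt2_basis (B := B₂) hC
  have key : ∀ ψ : Du k H, (∀ b ∈ B₂, ψ.ofConv b = 0) → ∀ w ∈ C,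
      lact ψ w = ∑ j, ψ.ofConv (y j) • lact (θ j) w := fun ψ hψ w hw =>
    eq_of_du (k := k) fun φ => by
      have h := hψ _ (t2 _ (hc.r φ w hw))
      rw [map_sub, map_sum, sub_eq_zero] at h
      rw [du_lact, ← du_ract, h, map_sum]
      refine Finset.sum_congr rfl fun j _ => ?_
      rw [map_smul, map_smul, du_lact, du_ract, smul_eq_mul, smul_eq_mul, mul_comm]
  obtain ⟨d, hd⟩ : ∃ d : Fin n → Fin n → H, ∀ l j, d l j = lact (θ j) (y l) := ⟨_, fun _ _ => rfl⟩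
  have d1 : ∀ l j, d l j ∈ B₁ := fun l j => hd l j ▸ hw _ (t0 j) _ (y1 l)
  have d2 : ∀ l j, d l j ∈ C := fun l j => hd l j ▸ hc.l _ _ (y1 l)
  have d3 : ∀ l j, HopfAlgebra.antipode k (d l j) ∈ B₂ := fun l j => hS (mem_map_of_mem (d1 l j))
  have ha : ∀ l, Coalgebra.comul (R := k) (y l) - ∑ j, d l j ⊗ₜ[k] y j ∈ HT H B₂ := fun l =>
    mem_HT.2 fun ψ hψ => by
      rw [map_sub, map_sum, sub_eq_zero]
      refine (key (WithConv.toConv ψ) hψ _ (y1 l)).trans (Finset.sum_congr rfl fun j _ => ?_)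
      rw [ct_tmul, hd]
  have hb : ∀ l j, Coalgebra.comul (R := k) (d l j) = ∑ m, d l m ⊗ₜ[k] d m j := fun l j =>
    ba0_ext fun α β => by
      rw [← du_mul, hd, du_lact, mul_assoc, ← du_lact, key (β * θ j) (fun b hb => by
        rw [← du_ract]; exact t0 j _ (h2.cl.r β b hb)) _ (y1 l), map_sum, map_sum]
      refine Finset.sum_congr rfl fun m _ => ?_
      rw [map_smul, ← du_lact, ← hd, ← hd, pair_tmul, smul_eq_mul, mul_comm]
  have he : ∀ l j, Coalgebra.counit (R := k) (d l j) = if l = j then 1 else 0 := fun l j => by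
    rw [hd, counit_lact, t1]
  have c1 : ∀ l j, ∑ m, HopfAlgebra.antipode k (d l m) * d m j = if l = j then 1 else 0 :=
    fun l j => by
      have h := HopfAlgebra.mul_antipode_rTensor_comul_apply (R := k) (d l j)
      rw [hb, he, map_sum, map_sum] at h
      simpa using h
  have c2 : ∀ l j, ∑ m, d l m * HopfAlgebra.antipode k (d m j) = if l = j then 1 else 0 :=
    fun l j => by
      have h := HopfAlgebra.mul_antipode_lTensor_comul_apply (R := k) (d l j)
      rw [hb, he, map_sum, map_sum] at h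
      simpa using h
  have c3 : ∀ i j, Coalgebra.comul (R := k) (HopfAlgebra.antipode k (d i j)) =
      ∑ m, HopfAlgebra.antipode k (d m j) ⊗ₜ[k] HopfAlgebra.antipode k (d i m) := fun i j => by
    rw [comul_antipode, hb, map_sum, map_sum]
    simp
  obtain ⟨z, hz⟩ : ∃ z : Fin n → H, ∀ i, z i = ∑ j, HopfAlgebra.antipode k (d i j) * y j :=
    ⟨_, fun _ => rfl⟩
  obtain ⟨i, hi⟩ : ∃ i, z i ∉ B₂ := by
    by_contra h
    refine hn fun w hw => ?_
    have h1 : ∀ i, y i ∈ B₂ := fun i => by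
      have h3 : ∑ j, d i j * z j = y i := by
        simp only [hz, Finset.mul_sum, ← mul_assoc]
        rw [Finset.sum_comm]
        simp only [← Finset.sum_mul, c2]
        simp
      rw [← h3]
      exact sum_mem fun j _ => h2.mul (mul_mem_mul (hle (d1 i j)) (not_not.1 fun e => h ⟨j, e⟩))
    have h4 := add_mem (t2 w hw) (sum_mem fun j (_ : j ∈ Finset.univ) =>
      smul_mem B₂ ((θ j).ofConv w) (h1 j))
    rwa [sub_add_cancel] at h4
  refine ⟨z i, hz i ▸ sum_mem fun j _ => mul_mem_mul (mem_map_of_mem (d2 i j)) (y1 j), hi, ?_⟩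
  have h5 : ∑ j, Coalgebra.comul (R := k) (HopfAlgebra.antipode k (d i j)) *
      ∑ l, d j l ⊗ₜ[k] y l = 1 ⊗ₜ[k] z i := by
    simp only [c3, Finset.sum_mul, Finset.mul_sum, Algebra.TensorProduct.tmul_mul_tmul]
    rw [hz, tmul_sum, Finset.sum_comm]
    refine Finset.sum_congr rfl fun m _ => ?_
    rw [Finset.sum_comm]
    simp only [← sum_tmul, c1]
    rw [Finset.sum_eq_single m (fun l _ hl => by rw [if_neg hl, zero_tmul])
      (fun h => (h (Finset.mem_univ _)).elim), if_pos rfl]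
  rw [← h5, hz, map_sum, ← Finset.sum_sub_distrib]
  refine sum_mem fun j _ => ?_
  rw [Bialgebra.comul_mul, ← mul_sub]
  refine HT_mono h2.mul (HT_mul ?_ (ha j))
  rw [c3]
  exact sum_mem fun m _ => tmul_mem_HT _ (d3 i m)

end Pool.Agent.Lib.MP_ff61db_al.Cg
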