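import Pool.Agent.Lib.MP_ff61db_al.Cg.DT1
import Pool.Agent.Lib.MP_ff61db_al.Cg.DT2
import Pool.Agent.Lib.MP_ff61db_al.Cg.DH3

/-! True doubling. -/

namespace Pool.Agent.Lib.MP_ff61db_al.Cg

open Submodule TensorProduct

variable {k H : Type} [Field k] [Ring H] [HopfAlgebra k H]

theorem dt3_ext {Z : Submodule k H} (hi : ∀ z ∈ Z, HopfAlgebra.antipode k z = 0 → z = 0)
    (φ : Du k H) : ∃ ψ : H →ₗ[k] k, ∀ z ∈ Z, ψ (HopfAlgebra.antipode k z) = φ.ofConv z := by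
  obtain ⟨q, hq⟩ := ((HopfAlgebra.antipode k : H →ₗ[k] H) ∘ₗ Z.subtype).exists_leftInverse_of_injective
    (LinearMap.ker_eq_bot'.2 fun z hz => Subtype.ext (hi z z.2 hz))
  refine ⟨φ.ofConv ∘ₗ Z.subtype ∘ₗ q, fun z hz => ?_⟩
  exact congrArg (fun w : Z => φ.ofConv w) (LinearMap.congr_fun hq ⟨z, hz⟩)

theorem cl_pre {Z D : Submodule k H} (hZ : Cl Z) (hD : Cl D)
    (hi : ∀ z ∈ Z, HopfAlgebra.antipode k z = 0 → z = 0) :
    Cl (Z ⊓ D.comap (HopfAlgebra.antipode k : H →ₗ[k] H)) := by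
  refine ⟨fun φ z hz => ⟨hZ.l φ z hz.1, ?_⟩, fun φ z hz => ⟨hZ.r φ z hz.1, ?_⟩⟩
  · obtain ⟨ψ, hψ⟩ := dt3_ext hi φ
    have h1 : lact φ z = lact (WithConv.toConv (ψ ∘ₗ HopfAlgebra.antipode k)) z :=
      eq_of_du (k := k) fun α => by
        rw [du_lact, du_lact, ← du_ract, ← du_ract]
        exact (hψ _ (hZ.r α z hz.1)).symm
    have h2 := hD.r (WithConv.toConv ψ) _ hz.2
    rw [ract_antipode _ (WithConv.toConv (ψ ∘ₗ HopfAlgebra.antipode k)) fun _ => rfl, ← h1] at h2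
    exact h2
  · obtain ⟨ψ, hψ⟩ := dt3_ext hi φ
    have h1 : ract φ z = ract (WithConv.toConv (ψ ∘ₗ HopfAlgebra.antipode k)) z :=
      eq_of_du (k := k) fun α => by
        rw [du_ract, du_ract, ← du_lact, ← du_lact]
        exact (hψ _ (hZ.l α z hz.1)).symm
    have h2 := hD.l (WithConv.toConv ψ) _ hz.2
    rw [lact_antipode _ (WithConv.toConv (ψ ∘ₗ HopfAlgebra.antipode k)) fun _ => rfl, ← h1] at h2
    exact h2

theorem dt3_fg {X Y : Submodule k H} (hY : Y.FG) (h : X ≤ Y) : X.FG := by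
  have : Module.Finite k Y := Module.Finite.iff_fg.2 hY
  exact Module.Finite.iff_fg.1 (Submodule.finiteDimensional_of_le h)

theorem dt {B₀ B₁ B₂ Z E : Submodule k H} (h0 : Cl B₀) (h1 : Sb B₁) (h2 : Sb B₂) (l0 : B₀ ≤ B₁)
    (l1 : B₁ ≤ B₂) (s0 : Sm B₀ ≤ B₁) (s1 : Sm B₁ ≤ B₂) (hZ : Z.FG) (hc : Cl Z)
    (hi : ∀ z ∈ Z, HopfAlgebra.antipode k z = 0 → z = 0) (hn : ¬ Sm Z ≤ B₂) (hE : E.FG)
    (hEB : E ≤ B₀) : 2 * Module.finrank k E ≤
      Module.finrank k (E ⊔ E * (Sm Z ⊔ Sm (Sm Z) * Sm Z) : Submodule k H) := by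
  classical
  have hC : (Sm Z).FG := hZ.map _
  have hcC : Cl (Sm Z) := cl_Sm hc
  have hfin : Module.Finite k (E ⊔ E * (Sm Z ⊔ Sm (Sm Z) * Sm Z) : Submodule k H) :=
    Module.Finite.iff_fg.2 (hE.sup (hE.mul (hC.sup ((hC.map _).mul hC))))
  by_cases hm : ∀ D, Cl D → D ≤ Sm Z → D ≠ ⊥ → D ⊓ B₁ ≠ ⊥
  swap
  · simp only [not_forall, not_not] at hm
    obtain ⟨D, d1, d2, d3, d4⟩ := hm
    refine (dt_one h0 h1 l0 s0 (dt3_fg hZ inf_le_left) (cl_pre hc d1 hi) ?_ (fun z hz h => ?_)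
      hE hEB).trans (Submodule.finrank_mono (sup_le_sup_left (mul_le_mul' le_rfl
        ((map_mono inf_le_left).trans le_sup_left)) _))
    · intro e
      refine d3 (eq_bot_iff.2 fun x hx => ?_)
      obtain ⟨z, z1, rfl⟩ := d2 hx
      have h3 : z ∈ (⊥ : Submodule k H) := e ▸ mem_inf.2 ⟨z1, hx⟩
      rw [(mem_bot k).1 h3, map_zero]
      exact zero_mem _
    · exact hi z hz.1 ((mem_bot k).1 (d4 ▸ mem_inf.2 ⟨hz.2, h⟩))
  obtain ⟨a₀, ha₀⟩ := Uw_top h1.cl hcC hC hm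
  have hex : ∃ a, ¬ Uw B₁ (a + 1) ⊓ Sm Z ≤ B₂ :=
    ⟨a₀, fun h => hn ((le_inf (ha₀.trans (Uw_mono h1.cl a₀.le_succ)) le_rfl).trans h)⟩
  obtain ⟨a, a1, a2⟩ : ∃ a, ¬ Uw B₁ (a + 1) ⊓ Sm Z ≤ B₂ ∧ Uw B₁ a ⊓ Sm Z ≤ B₂ := by
    refine ⟨Nat.find hex, Nat.find_spec hex, ?_⟩
    rcases h : Nat.find hex with _ | a
    · rw [Uw_zero, bot_inf_eq]
      exact bot_le
    · exact not_not.1 (Nat.find_min hex (by omega))
  obtain ⟨y, y1, y2, y3⟩ := dt_elt h2 l1 s1 (dt3_fg hC inf_le_right) ((Uw_cl h1.cl _).inf hcC) a1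
    fun θ hθ y hy => mem_of_du fun φ hφ => by
      rw [du_lact, ← du_ract]
      exact hθ _ (a2 ⟨ract_Uw h1.cl hφ hy.1, hcC.r φ y hy.2⟩)
  have hf : ∀ b ∈ E, b * y ∈ B₂ → b = 0 := fun b hb h =>
    dt_free h0 h2 (s0.trans l1) y2 y3 (hEB hb) (l0.trans l1) h
  have : Module.Finite k E := Module.Finite.iff_fg.2 hE
  have : Module.Finite k (E.map (LinearMap.mulRight k y)) := Module.Finite.iff_fg.2 (hE.map _)
  have e1 : E ⊓ E.map (LinearMap.mulRight k y) = ⊥ := by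
    refine eq_bot_iff.2 ?_
    rintro _ ⟨x1, b, hb, rfl⟩
    rw [hf b hb (l1 (l0 (hEB x1))), map_zero]
    exact zero_mem _
  have e2 : Module.finrank k (E.map (LinearMap.mulRight k y)) = Module.finrank k E := by
    rw [← LinearMap.range_domRestrict]
    refine LinearMap.finrank_range_of_inj (LinearMap.ker_eq_bot.1 (LinearMap.ker_eq_bot'.2
      fun b hb => Subtype.ext (hf b b.2 ?_)))
    rw [show (b : H) * y = 0 from hb]
    exact zero_mem _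
  have e3 := Submodule.finrank_sup_add_finrank_inf_eq E (E.map (LinearMap.mulRight k y))
  rw [e1, finrank_bot, e2] at e3
  refine le_trans (by omega : _ ≤ Module.finrank k
    (E ⊔ E.map (LinearMap.mulRight k y) : Submodule k H))
    (Submodule.finrank_mono (sup_le_sup_left ?_ _))
  rintro _ ⟨b, hb, rfl⟩
  exact mul_mem_mul hb (mem_sup_right (mul_le_mul' (map_mono inf_le_right) inf_le_right y1))

end Pool.Agent.Lib.MP_ff61db_al.Cg
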