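import Pool.Agent.Lib.MP_ff61db_al.Cg.DH0

/-! Doubling by a coinvariant element. -/

namespace Pool.Agent.Lib.MP_ff61db_al.Cg

open Submodule TensorProduct

variable {k H : Type} [Field k] [Ring H] [HopfAlgebra k H]

theorem dt5_comul {B : Submodule k H} (h : Cl B) {b : H} (hb : b ∈ B) :
    Coalgebra.comul (R := k) b ∈ HT H B := by
  obtain ⟨t, ht⟩ := h.isSub b hb
  rw [← ht]
  clear ht
  induction t with
  | zero => simp
  | tmul u v => exact tmul_mem_HT _ v.2
  | add s t hs ht => rw [map_add]; exact add_mem hs ht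

theorem dt5_key {B : Submodule k H} (h : Sb B) {y b : H}
    (hco : Coalgebra.comul (R := k) y - 1 ⊗ₜ[k] y ∈ HT H B) (hb : b ∈ B) (h' : b * y ∈ B)
    (f : H →ₗ[k] H) (hf : ∀ a, f a ∈ B) :
    LinearMap.mul' k H (f.rTensor H (Coalgebra.comul (R := k) b)) * y ∈ B := by
  have h1 := sub_mem (dt5_comul h.cl h') (HT_mono h.mul (HT_mul (dt5_comul h.cl hb) hco))
  rw [Bialgebra.comul_mul, mul_sub, sub_sub_cancel] at h1
  have h2 : ∀ t : H ⊗[k] H, LinearMap.mul' k H (f.rTensor H t) * y =
      LinearMap.mul' k H (f.rTensor H (t * 1 ⊗ₜ[k] y)) := fun t => by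
    induction t with
    | zero => simp
    | tmul u v => simp [mul_assoc]
    | add s t hs ht => simp only [map_add, add_mul, hs, ht]
  obtain ⟨t, ht⟩ := h1
  rw [h2, ← ht]
  clear ht
  induction t with
  | zero => simp
  | tmul u v => simpa using h.mul (mul_mem_mul (hf u) v.2)
  | add s t hs ht => simpa only [map_add] using add_mem hs ht

theorem dt_free {B₀ B₂ : Submodule k H} (h0 : Cl B₀) (h2 : Sb B₂) (hS : Sm B₀ ≤ B₂) {y : H}
    (hy : y ∉ B₂) (hco : Coalgebra.comul (R := k) y - 1 ⊗ₜ[k] y ∈ HT H B₂) {b : H} (hb : b ∈ B₀)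
    (hle : B₀ ≤ B₂) (h : b * y ∈ B₂) : b = 0 := by
  have a1 : ∀ c ∈ B₀, c * y ∈ B₂ → Coalgebra.counit (R := k) c = 0 := fun c hc h' => by
    obtain ⟨p, p1, p2⟩ := exists_proj B₀
    have a := dt5_key h2 hco (hle hc) h' (HopfAlgebra.antipode k ∘ₗ p)
      fun a => hS (mem_map_of_mem (p1 a))
    have e : (HopfAlgebra.antipode k ∘ₗ p).rTensor H (Coalgebra.comul (R := k) c) =
        (HopfAlgebra.antipode k).rTensor H (Coalgebra.comul (R := k) c) := by
      obtain ⟨t, ht⟩ := h0.isSub c hc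
      rw [← ht]
      clear ht
      induction t with
      | zero => simp
      | tmul u v => simp [p2 _ u.2]
      | add s t hs ht => simp only [map_add, hs, ht]
    rw [e, HopfAlgebra.mul_antipode_rTensor_comul_apply, ← Algebra.smul_def] at a
    by_contra hne
    exact hy ((smul_mem_iff _ hne).1 a)
  refine eq_of_du (k := k) fun φ => ?_
  rw [map_zero, ← counit_ract]
  refine a1 _ (h0.r φ b hb) ?_
  have a := dt5_key h2 hco (hle hb) h (φ.ofConv.smulRight 1) fun a => smul_mem _ _ h2.one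
  have e : ∀ t : H ⊗[k] H, LinearMap.mul' k H ((φ.ofConv.smulRight (1 : H)).rTensor H t) =
      TensorProduct.lid k H (φ.ofConv.rTensor H t) := fun t => by
    induction t with
    | zero => simp
    | tmul u v => simp
    | add s t hs ht => simp only [map_add, hs, ht]
  rwa [e] at a

end Pool.Agent.Lib.MP_ff61db_al.Cg
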