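import Pool.Agent.Lib.MP_ff61db_al.Coalg
import Pool.Agent.Lib.MP_ff61db_al.PBase0

/-! Hopf algebras graded by a group with subcoalgebras as components: definitions. -/

namespace Pool.Agent.Lib.MP_ff61db_al.Cg

open Submodule TensorProduct

section Alg
variable {k H : Type} [Field k] [Ring H] [Algebra k H]

/-- All finite-dimensional subspaces have polynomial growth of one degree. -/
def PG (k H : Type) [Field k] [Ring H] [Algebra k H] : Prop :=
  ∃ d : ℕ, ∀ W : Submodule k H, W.FG →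
    ∃ C : ℕ, ∀ n : ℕ, Module.finrank k (W ^ n : Submodule k H) ≤ C * (n + 1) ^ d

/-- The subalgebra generated by `V`, as a subspace. -/
def gen (V : Submodule k H) : Submodule k H :=
  Subalgebra.toSubmodule (Algebra.adjoin k (V : Set H))

/-- `P` is a finitely generated subalgebra. -/
def Aff (P : Submodule k H) : Prop := ∃ V : Submodule k H, V.FG ∧ gen V = P

/-- `P` is a left noetherian subring. -/
def LN (P : Submodule k H) : Prop := ∃ R : Subring H, (R : Set H) = P ∧ IsNoetherianRing R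

/-- `P` is a right noetherian subring. -/
def RN (P : Submodule k H) : Prop := ∃ R : Subring H, (R : Set H) = P ∧ IsNoetherianRing Rᵐᵒᵖ

variable {Γ : Type} [Group Γ]

/-- The part of a graded family over a subgroup. -/
def sub (B : Γ → Submodule k H) (K : Subgroup Γ) : Submodule k H := ⨆ g ∈ K, B g

/-- The part of a graded family over the coset `K g ^ i`. -/
def cos (B : Γ → Submodule k H) (K : Subgroup Γ) (g : Γ) (i : ℤ) : Submodule k H :=
  ⨆ a ∈ K, B (a * g ^ i)

/-- A strongly multiplicative family. -/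
structure SG (B : Γ → Submodule k H) : Prop where
  one : (1 : H) ∈ B 1
  mul : ∀ g h, B g * B h ≤ B (g * h)
  strong : ∀ g, (1 : H) ∈ B g * B g⁻¹

/-- The chain of subalgebras in Milnor's lemma. -/
def Bn (X X' C : Submodule k H) (n : ℕ) : Submodule k H :=
  gen (⨆ i ≤ n, X ^ i * C * X' ^ i ⊔ X' ^ i * C * X ^ i)

/-- The standing assumptions on `X`, `X'`, `C`. -/
structure Tri (X X' C : Submodule k H) : Prop where
  one : (1 : H) ∈ C
  l : (1 : H) ∈ X * X'
  r : (1 : H) ∈ X' * X
  cl : X * X' ≤ C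
  cr : X' * X ≤ C

theorem Tri.symm {X X' C : Submodule k H} (h : Tri X X' C) : Tri X' X C :=
  ⟨h.one, h.r, h.l, h.cr, h.cl⟩

theorem Bn_symm (X X' C : Submodule k H) (n : ℕ) : Bn X X' C n = Bn X' X C n := by
  simp only [Bn, sup_comm]

theorem le_gen (V : Submodule k H) : V ≤ gen V := fun _ h => Algebra.subset_adjoin h

theorem one_mem_gen (V : Submodule k H) : (1 : H) ∈ gen V := Subalgebra.one_mem _

theorem gen_mul_gen (V : Submodule k H) : gen V * gen V ≤ gen V :=
  mul_le.2 fun _ h _ h' => Subalgebra.mul_mem (Algebra.adjoin k (V : Set H)) h h'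

theorem le_mul_one {P Q : Submodule k H} (h : (1 : H) ∈ Q) : P ≤ P * Q :=
  fun x hx => mul_one x ▸ mul_mem_mul hx h

theorem le_one_mul {P Q : Submodule k H} (h : (1 : H) ∈ Q) : P ≤ Q * P :=
  fun x hx => one_mul x ▸ mul_mem_mul h hx

theorem gen_mul_le {V M : Submodule k H} (h : V * M ≤ M) : gen V * M ≤ M := by
  refine mul_le.2 fun x hx => ?_
  induction hx using Algebra.adjoin_induction with
  | mem x hx => exact fun y hy => h (mul_mem_mul hx hy)
  | algebraMap r => exact fun y hy => by rw [← Algebra.smul_def]; exact smul_mem _ _ hy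
  | add x y _ _ hx hy => exact fun z hz => by rw [add_mul]; exact add_mem (hx z hz) (hy z hz)
  | mul x y _ _ hx hy => exact fun z hz => by rw [mul_assoc]; exact hx _ (hy z hz)

theorem mul_gen_le {V M : Submodule k H} (h : M * V ≤ M) : M * gen V ≤ M := by
  refine mul_le.2 fun y hy x hx => ?_
  induction hx using Algebra.adjoin_induction generalizing y with
  | mem x hx => exact h (mul_mem_mul hy hx)
  | algebraMap r => rw [← Algebra.commutes, ← Algebra.smul_def]; exact smul_mem _ _ hy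
  | add x z _ _ hx hz => rw [mul_add]; exact add_mem (hx y hy) (hz y hy)
  | mul x z _ _ hx hz => rw [← mul_assoc]; exact hz _ (hx y hy)

theorem gen_le_left {V M : Submodule k H} (h1 : (1 : H) ∈ M) (h : V * M ≤ M) : gen V ≤ M :=
  (le_mul_one h1).trans (gen_mul_le h)

theorem gen_le_right {V M : Submodule k H} (h1 : (1 : H) ∈ M) (h : M * V ≤ M) : gen V ≤ M :=
  (le_one_mul h1).trans (mul_gen_le h)

theorem gen_le {V P : Submodule k H} (hV : V ≤ P) (h1 : (1 : H) ∈ P) (hm : P * P ≤ P) :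
    gen V ≤ P := gen_le_left h1 ((mul_le_mul' hV le_rfl).trans hm)

theorem gen_mono {V W : Submodule k H} (h : V ≤ W) : gen V ≤ gen W :=
  gen_le (h.trans (le_gen W)) (one_mem_gen W) (gen_mul_gen W)

theorem one_mem_pow_mul_pow {X X' : Submodule k H} (h : (1 : H) ∈ X * X') (n : ℕ) :
    (1 : H) ∈ X ^ n * X' ^ n := by
  induction n with
  | zero => rw [pow_zero, pow_zero, one_mul]; exact one_le.1 le_rfl
  | succ n ih =>
    rw [pow_succ X, pow_succ' X', mul_assoc, ← mul_assoc X]
    exact mul_le_mul' le_rfl (le_one_mul h) ih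

theorem le_sub (B : Γ → Submodule k H) {K : Subgroup Γ} {g : Γ} (h : g ∈ K) : B g ≤ sub B K :=
  le_iSup₂_of_le (f := fun g (_ : g ∈ K) => B g) g h le_rfl

theorem sub_le {B : Γ → Submodule k H} {K : Subgroup Γ} {M : Submodule k H}
    (h : ∀ g ∈ K, B g ≤ M) : sub B K ≤ M := iSup₂_le h

theorem sub_bot (B : Γ → Submodule k H) : sub B ⊥ = B 1 :=
  le_antisymm (sub_le fun _ h => by rw [Subgroup.mem_bot.1 h]) (le_sub B (one_mem _))

theorem sub_top (B : Γ → Submodule k H) : sub B ⊤ = ⨆ g, B g := by simp [sub]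

theorem SG.one_mem_sub {B : Γ → Submodule k H} (h : SG B) (K : Subgroup Γ) : (1 : H) ∈ sub B K :=
  le_sub B K.one_mem h.one

theorem SG.sub_mul {B : Γ → Submodule k H} (h : SG B) (K : Subgroup Γ) :
    sub B K * sub B K ≤ sub B K := by
  simp only [sub, Submodule.iSup_mul, Submodule.mul_iSup]
  exact iSup₂_le fun b hb => iSup₂_le fun a ha => (h.mul a b).trans (le_sub B (mul_mem ha hb))

end Alg

section Hopf
variable {k H : Type} [Field k] [Ring H] [HopfAlgebra k H]

/-- The image of a subspace under the antipode. -/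
noncomputable abbrev Sm (X : Submodule k H) : Submodule k H :=
  X.map (HopfAlgebra.antipode k : H →ₗ[k] H)

/-- A grading by subcoalgebras of a subalgebra contained in the image of the antipode. -/
structure Gr {Γ : Type} [Group Γ] (B : Γ → Submodule k H) : Prop where
  ind : iSupIndep B
  one : (1 : H) ∈ B 1
  mul : ∀ g h, B g * B h ≤ B (g * h)
  cl : ∀ g, Cl (B g)
  ne : ∀ g, B g ≠ ⊥
  anti : ∀ g, Sm (B g) ≤ B g⁻¹
  pre : ∀ g, ∀ Y ≤ B g, Y.FG → ∃ Z : Submodule k H, Z.FG ∧ Cl Z ∧ Y ≤ Sm Z ∧ Sm Z ≤ B g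

/-- The same for the group `ℤ`. -/
structure GrZ (P : ℤ → Submodule k H) : Prop where
  ind : Disjoint (P 0) (⨆ i, ⨆ (_ : i ≠ 0), P i)
  one : (1 : H) ∈ P 0
  mul : ∀ i j, P i * P j ≤ P (i + j)
  cl : ∀ i, Cl (P i)
  ne : ∀ i, P i ≠ ⊥
  anti : ∀ i, Sm (P i) ≤ P (-i)
  pre : ∀ Y ≤ P 0, Y.FG → ∃ Z : Submodule k H, Z.FG ∧ Cl Z ∧ Y ≤ Sm Z ∧ Sm Z ≤ P 0

/-- The hypotheses of the main theorem on the grading. -/
structure Co {Γ : Type} [Group Γ] (A : Γ → Submodule k H) : Prop where
  ind : iSupIndep A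
  top : ⨆ g, A g = ⊤
  mul : ∀ g h, A g * A h ≤ A (g * h)
  cl : ∀ g, Cl (A g)

end Hopf

end Pool.Agent.Lib.MP_ff61db_al.Cg
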