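import Pool.Agent.Lib.MP_ff61db_al.Cg.HC

/-! Schreier's lemma for strongly graded algebras. -/

namespace Pool.Agent.Lib.MP_ff61db_al.Cg

open Submodule TensorProduct

variable {k H : Type} [Field k] [Ring H] [Algebra k H] {Γ : Type} [Group Γ]

theorem aff_of_fin {B : Γ → Submodule k H} (h : SG B) (hind : iSupIndep B) {K L : Subgroup Γ}
    (hKL : K ≤ L) {T : Set Γ} (hT : T.Finite) (hTL : T ⊆ L) (hrep : ∀ c ∈ L, ∃ t ∈ T, c * t⁻¹ ∈ K)
    (haff : Aff (sub B L)) : Aff (sub B K) := by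
  choose X hX X' hX' hXf hX'f _ hone using h.exists_fg
  obtain ⟨V, hV, hgen⟩ := haff
  obtain ⟨F, W, hW, hVW⟩ := exists_homog (fun c : L => B c) hV
    ((le_gen V).trans (hgen.le.trans (sub_le fun g hg => le_iSup (fun c : L => B c) ⟨g, hg⟩)))
  have := hT.to_subtype
  let D₁ : Submodule k H :=
    ⨆ p : {p : T × F × T // (p.1 : Γ) * (p.2.1 : L) * (p.2.2 : Γ)⁻¹ ∈ K},
      X p.1.1 * W p.1.2.1 * X' p.1.2.2
  let D₂ : Submodule k H := ⨆ t : {t : T // (t : Γ) ∈ K}, X t.1 ⊔ X' t.1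
  have hfg : (D₁ ⊔ D₂).FG :=
    (fg_iSup _ fun p => ((hXf _).mul (hW _).1).mul (hX'f _)).sup
      (fg_iSup _ fun t => (hXf _).sup (hX'f _))
  have h2 : ∀ t ∈ T, t ∈ K → X t ⊔ X' t ≤ gen (D₁ ⊔ D₂) := fun t ht htK =>
    (le_iSup (fun t : {t : T // (t : Γ) ∈ K} => X t.1 ⊔ X' t.1) ⟨⟨t, ht⟩, htK⟩).trans
      (le_sup_right.trans (le_gen _))
  have h1 : ∀ t ∈ T, ∀ c ∈ F, ∀ s ∈ T, t * c * s⁻¹ ∈ K → X t * W c * X' s ≤ gen (D₁ ⊔ D₂) :=
    fun t ht c hc s hs hK =>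
      (le_iSup (fun p : {p : T × F × T // (p.1 : Γ) * (p.2.1 : L) * (p.2.2 : Γ)⁻¹ ∈ K} =>
        X p.1.1 * W p.1.2.1 * X' p.1.2.2) ⟨(⟨t, ht⟩, ⟨c, hc⟩, ⟨s, hs⟩), hK⟩).trans
        (le_sup_left.trans (le_gen _))
  have hle : gen (D₁ ⊔ D₂) ≤ sub B K := by
    refine gen_le (sup_le (iSup_le fun p => ?_) (iSup_le fun t => sup_le ?_ ?_))
      (h.one_mem_sub K) (h.sub_mul K)
    · exact (mul_le_mul' ((mul_le_mul' (hX _) (hW _).2).trans (h.mul _ _)) (hX' _)).trans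
        ((h.mul _ _).trans (le_sub B p.2))
    · exact (hX _).trans (le_sub B t.2)
    · exact (hX' _).trans (le_sub B (K.inv_mem t.2))
  refine ⟨D₁ ⊔ D₂, hfg, ?_⟩
  generalize hA : gen (D₁ ⊔ D₂) = A at h1 h2 hle
  have hAA : A * A ≤ A := hA ▸ gen_mul_gen _
  have hM : ∀ t ∈ T, A * X t ≤ ⨆ t : T, A * X t := fun t ht =>
    le_iSup (fun t : T => A * X t) ⟨t, ht⟩
  have hL : sub B L ≤ ⨆ t : T, A * X t := by
    rw [← hgen]
    refine gen_le_right ?_ ((mul_le_mul' le_rfl hVW).trans ?_)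
    · obtain ⟨t, ht, hK⟩ := hrep 1 L.one_mem
      rw [one_mul, inv_mem_iff] at hK
      exact hM t ht (mul_le_mul' (le_sup_right.trans (h2 t ht hK)) le_rfl (hone t))
    · simp only [Submodule.iSup_mul, Submodule.mul_iSup]
      refine iSup₂_le fun c hc => iSup_le fun t => ?_
      obtain ⟨s, hs, hK⟩ := hrep (t * c) (L.mul_mem (hTL t.2) c.2)
      refine (le_mul_one (hone s)).trans (le_trans ?_ (hM s hs))
      rw [← mul_assoc, mul_assoc A, mul_assoc A]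
      exact mul_le_mul' ((mul_le_mul' le_rfl (h1 t t.2 c hc s hs hK)).trans hAA) le_rfl
  have hN : (⨆ t : T, A * X t) ≤ A ⊔ ⨆ g ∈ (K : Set Γ)ᶜ, B g := by
    refine iSup_le fun t => ?_
    by_cases hK : (t : Γ) ∈ K
    · exact ((mul_le_mul' le_rfl (le_sup_left.trans (h2 t t.2 hK))).trans hAA).trans le_sup_left
    · refine ((mul_le_mul' hle (hX t)).trans ?_).trans le_sup_right
      simp only [sub, Submodule.iSup_mul]
      refine iSup₂_le fun a ha => (h.mul _ _).trans ?_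
      exact le_iSup₂_of_le (f := fun g (_ : g ∈ (K : Set Γ)ᶜ) => B g) (a * t)
        (fun hm => hK ((K.mul_mem_cancel_left ha).1 hm)) le_rfl
  have hdis : Disjoint (sub B K) (⨆ g ∈ (K : Set Γ)ᶜ, B g) :=
    hind.disjoint_biSup_biSup (s := (K : Set Γ)) disjoint_compl_right
  refine le_antisymm hle fun x hx => ?_
  obtain ⟨a, ha, n, hn, rfl⟩ :=
    mem_sup.1 (hN (hL (sub_le (fun g hg => le_sub B (hKL hg)) hx)))
  have hn' : n ∈ sub B K := by
    have := sub_mem hx (hle ha)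
    rwa [add_sub_cancel_left] at this
  rw [disjoint_def.1 hdis n hn' hn, add_zero]
  exact ha

end Pool.Agent.Lib.MP_ff61db_al.Cg
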