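import Pool.Agent.Lib.MP_ff61db_al.Cg.HB
import Pool.Agent.Lib.MP_ff61db_al.Cg.HC
import Pool.Agent.Lib.MP_96a0c3_al.Ctr.End

/-! The grading group is virtually nilpotent. -/

namespace Pool.Agent.Lib.MP_ff61db_al.Cg

open Submodule TensorProduct

variable {k H : Type} [Field k] [Ring H] [HopfAlgebra k H] {Γ : Type} [Group Γ]

theorem SG.fg {B : Γ → Submodule k H} (h : SG B) (hind : iSupIndep B) (hne : ∀ g, B g ≠ ⊥)
    (haff : Aff (⨆ g, B g)) : Group.FG Γ := by
  obtain ⟨V, hV, e⟩ := haff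
  obtain ⟨F, W, hW, hle⟩ := exists_homog B hV (e ▸ le_gen V)
  refine ⟨F, eq_top_iff.2 fun g _ => by_contra fun hg => hne g ?_⟩
  have h1 : gen V ≤ sub B (Subgroup.closure (F : Set Γ)) :=
    gen_le (hle.trans (iSup₂_le fun i hi =>
      (hW i).2.trans (le_sub B (Subgroup.subset_closure hi)))) (h.one_mem_sub _)
      (h.sub_mul _)
  refine (hind g).eq_bot_of_le (((le_iSup B g).trans (e ▸ h1)).trans (sub_le fun a ha => ?_))
  exact le_iSup₂_of_le (f := fun j (_ : j ≠ g) => B j) a (fun e => hg (e ▸ ha)) le_rfl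

theorem SG.vn [Group.FG Γ] {B : Γ → Submodule k H} (h : SG B) (hind : iSupIndep B)
    (hne : ∀ g, ∃ u ∈ B g, Coalgebra.counit (R := k) u = 1) (hP : PG k H) :
    ∃ N : Subgroup Γ, N.FiniteIndex ∧ Group.IsNilpotent N := by
  obtain ⟨d, hd⟩ := hP
  refine MP_96a0c3_al.Ctr.gromov (D := d) fun T hT _ => ?_
  choose u hu hε using hne
  have hf0 : (span k (insert 1 (u '' (T ∪ T⁻¹)))).FG :=
    fg_span (((hT.union hT.inv).image u).insert 1)
  obtain ⟨C, hC⟩ := hd _ hf0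
  have hW : Growth (span k (insert 1 (u '' (T ∪ T⁻¹)))) :=
    ⟨hf0, subset_span (Set.mem_insert _ _), C, d, hC⟩
  have h1 : ∀ l : List Γ, (∀ x ∈ l, x ∈ T ∨ x⁻¹ ∈ T) → ∃ v ∈ B l.prod,
      Coalgebra.counit (R := k) v = 1 ∧ v ∈ span k (insert 1 (u '' (T ∪ T⁻¹))) ^ l.length := by
    intro l
    induction l with
    | nil =>
      intro _
      exact ⟨1, h.one, Bialgebra.counit_one, by
        rw [List.length_nil, pow_zero]; exact one_le.1 le_rfl⟩
    | cons x l ih =>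
      intro hl
      obtain ⟨v, a, b, c⟩ := ih fun y hy => hl y (List.mem_cons_of_mem _ hy)
      refine ⟨u x * v, ?_, by rw [Bialgebra.counit_mul, hε, b, one_mul], ?_⟩
      · rw [List.prod_cons]
        exact h.mul _ _ (mul_mem_mul (hu x) a)
      · rw [List.length_cons, pow_succ']
        exact mul_mem_mul (subset_span (Set.mem_insert_of_mem _
          ⟨x, hl x (List.mem_cons_self ..), rfl⟩)) c
  refine ⟨C, fun m => ?_⟩
  have hf := MP_9ac97d_al.finite_ball hT m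
  rw [Set.ncard_eq_toFinset_card _ hf]
  have h2 : ∀ g : Γ, ∃ v ∈ B g, Coalgebra.counit (R := k) v = 1 ∧
      (g ∈ hf.toFinset → v ∈ span k (insert 1 (u '' (T ∪ T⁻¹))) ^ m) := fun g => by
    by_cases hg : g ∈ hf.toFinset
    · obtain ⟨l, h2, h3, rfl⟩ := hf.mem_toFinset.1 hg
      obtain ⟨v, a, b, c⟩ := h1 l h3
      exact ⟨v, a, b, fun _ => hW.mono h2 c⟩
    · exact ⟨u g, hu g, hε g, fun e => absurd e hg⟩
  choose v a b c using h2
  refine (hW.card_le (hind.linearIndependent B a fun g e => ?_) hf.toFinset c).trans (hC m)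
  have h3 := b g
  rw [e, map_zero] at h3
  exact zero_ne_one h3

theorem Gr.fg {B : Γ → Submodule k H} (h : Gr B) (haff : Aff (⨆ g, B g)) : Group.FG Γ :=
  h.sg.fg h.ind h.ne haff

theorem Gr.vn [Group.FG Γ] {B : Γ → Submodule k H} (h : Gr B) (hP : PG k H) :
    ∃ N : Subgroup Γ, N.FiniteIndex ∧ Group.IsNilpotent N :=
  h.sg.vn h.ind (fun g => exists_counit (h.cl g) (h.ne g)) hP

end Pool.Agent.Lib.MP_ff61db_al.Cg
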