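import Pool.Agent.Lib.MP_ff61db_al.Cg.MC
import Pool.Agent.Lib.MP_ff61db_al.Cg.FI
import Pool.Agent.Lib.MP_ff61db_al.Cg.PZ
import Pool.Agent.Lib.MP_ff61db_al.Cg.Gro

/-! Finite generation goes down to the neutral component. -/

namespace Pool.Agent.Lib.MP_ff61db_al.Cg

open Submodule TensorProduct

variable {k H : Type} [Field k] [Ring H] [HopfAlgebra k H] {Γ : Type} [Group Γ]

theorem Gr.down {B : Γ → Submodule k H} (h : Gr B) (hP : PG k H) (haff : Aff (⨆ g, B g)) :
    Aff (B 1) := by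
  have := h.fg haff
  refine vn_ind (h.vn hP) (fun K => Aff (sub B K) → Aff (B 1)) (by rw [sub_bot]; exact id)
    (fun K g hg hg' hK hL => hK ?_) (fun K _ hK hL => hK ?_) (by rwa [sub_top])
  · by_cases e : ∀ i : ℤ, g ^ i ∈ K → i = 0
    · rw [← cos_zero B K g]
      exact milnor hP (h.grZ hg hg' e) (by rwa [iSup_cos B hg hg'])
    · push Not at e
      obtain ⟨i, h1, h2⟩ := e
      obtain ⟨T, t1, t2, t3⟩ := reps_step hg hg' h2 h1
      exact aff_of_fin h.sg h.ind le_sup_left t1 t2 t3 hL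
  · obtain ⟨T, t1, t2⟩ := reps_top K
    exact aff_of_fin h.sg h.ind le_top t1 (fun _ _ => trivial) (fun c _ => t2 c) hL

end Pool.Agent.Lib.MP_ff61db_al.Cg
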