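import Pool.Agent.Lib.MP_ff61db_al.Cg.H1
import Pool.Agent.Lib.MP_ff61db_al.Cg.H2
import Pool.Agent.Lib.MP_ff61db_al.Cg.HC

/-! No infinite chain under polynomial growth. -/

namespace Pool.Agent.Lib.MP_ff61db_al.Cg

open Submodule TensorProduct

variable {k H : Type} [Field k] [Ring H] [HopfAlgebra k H]

theorem h4_num (c a C d : ℕ) : ¬ ∀ j : ℕ, (c + 1) ^ j ≤ c ^ j * (C * (j * a + 1) ^ d) := by
  intro h
  rcases Nat.eq_zero_or_pos c with rfl | hc
  · simpa using h 1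
  have hc' : (0 : ℝ) < c := Nat.cast_pos.2 hc
  have hr : (1 : ℝ) < (c + 1) / c := (one_lt_div hc').2 (lt_add_one _)
  have hK : (0 : ℝ) < C * (a + 1) ^ d + 1 := by positivity
  obtain ⟨j, h1, h2⟩ := (((tendsto_pow_const_div_const_pow_of_one_lt d hr).eventually
    (gt_mem_nhds (one_div_pos.2 hK))).and (Filter.eventually_ge_atTop 1)).exists
  have h3 : (c + 1) ^ j ≤ c ^ j * (C * (j * (a + 1)) ^ d) :=
    (h j).trans (Nat.mul_le_mul_left _ (Nat.mul_le_mul_left _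
      (Nat.pow_le_pow_left (by rw [Nat.mul_succ]; omega) d)))
  have h4 : ((c + 1) / c : ℝ) ^ j ≤ C * (j * (a + 1)) ^ d := by
    rw [div_pow, div_le_iff₀' (pow_pos hc' j)]
    exact_mod_cast h3
  rw [div_lt_div_iff₀ (pow_pos (one_pos.trans hr) j) hK, one_mul] at h1
  rw [mul_pow] at h4
  have h5 : (0 : ℝ) ≤ (j : ℝ) ^ d := by positivity
  nlinarith

/-- The growing subspaces. -/
noncomputable def h4E (Y C : Submodule k H) (q : ℕ) : ℕ → Submodule k H
  | 0 => 1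
  | j + 1 => h4E Y C q j * Y ^ q * C

theorem h4_fg {Y C : Submodule k H} (hY : Y.FG) (hC : C.FG) (q j : ℕ) : (h4E Y C q j).FG := by
  induction j with
  | zero => rw [h4E, ← pow_zero Y]; exact hY.pow 0
  | succ j ih => exact (ih.mul (hY.pow q)).mul hC

theorem h4_le (Y C : Submodule k H) (q j : ℕ) : h4E Y C q j ≤ (Y ⊔ C) ^ (j * (q + 1)) := by
  induction j with
  | zero => rw [zero_mul, pow_zero]; exact le_rfl
  | succ j ih =>
    rw [Nat.succ_mul, pow_add, pow_succ, ← mul_assoc]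
    exact mul_le_mul' (mul_le_mul' ih (pow_le_pow_left' le_sup_left q)) le_sup_right

theorem no_chain (hP : PG k H) {Y Y' Z : Submodule k H} {B : ℕ → Submodule k H} {m : ℕ}
    (hY : Y.FG) (hYc : Cl Y) (hne : Y ≠ ⊥) (hY' : (1 : H) ∈ Y' * Y) (hZ : Z.FG) (hZc : Cl Z)
    (h1 : (1 : H) ∈ Sm Z) (hB1 : ∀ n, (1 : H) ∈ B n) (hBm : ∀ n, B n * B n ≤ B n)
    (hmono : Monotone B) (hBc : ∀ n, Cl (B n)) (hS : ∀ n, Sm (B n) ≤ B (n + m))
    (ha : ∀ n, Y ^ n * Sm Z * Y' ^ n ≤ B n) (hb : ∀ n, Y ^ (n + 1) * Sm Y ^ (n + 1) ≤ B n)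
    (hc : ∀ n, Y ^ (n + 1) * Y' ^ (n + 1) ≤ B n) :
    ∃ n, Y ^ (n + 1) * Sm Z * Y' ^ (n + 1) ≤ B n := by
  by_contra hn
  have hC : (Sm Z).FG := hZ.map _
  have hfg := h4_fg hY hC (m + 1)
  have h2 : ∀ j, h4E Y (Sm Z) (m + 1) j ≤ B (j * (m + 1)) * Y ^ (j * (m + 1)) →
      h4E Y (Sm Z) (m + 1) j * Y ^ (m + 1) ≤ B (j * (m + 1)) * Y ^ (j * (m + 1) + m + 1) :=
    fun j e => by
      rw [add_assoc, pow_add Y (j * (m + 1)), ← mul_assoc]
      exact mul_le_mul' e le_rfl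
  have h3 : ∀ j, h4E Y (Sm Z) (m + 1) j ≤ B (j * (m + 1)) * Y ^ (j * (m + 1)) := fun j => by
    induction j with
    | zero => rw [zero_mul, pow_zero, mul_one]; exact one_le.2 (hB1 0)
    | succ j ih =>
      rw [Nat.succ_mul, ← add_assoc]
      refine (mul_le_mul' (h2 j ih) le_rfl).trans ?_
      have e : B (j * (m + 1)) ≤ B (j * (m + 1) + m + 1) := hmono (by omega)
      generalize j * (m + 1) + m + 1 = n at e ⊢
      refine (le_mul_one (one_mem_pow_mul_pow hY' n)).trans ?_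
      have e5 : B (j * (m + 1)) * (Y ^ n * Sm Z * Y' ^ n) * Y ^ n ≤ B n * Y ^ n :=
        mul_le_mul' ((mul_le_mul' e (ha n)).trans (hBm n)) le_rfl
      simpa only [mul_assoc] using e5
  have : Nontrivial H := by
    obtain ⟨x, -, hx⟩ := exists_mem_ne_zero_of_ne_bot hne
    exact ⟨x, 0, hx⟩
  have h4 : Y ^ (m + 1) ≠ ⊥ := fun e => by
    have h0 := one_mem_pow_mul_pow hY' (m + 1)
    rw [e, mul_bot, mem_bot] at h0
    exact one_ne_zero h0
  have h5 : ∀ j, (Module.finrank k (Sm Z) + 1) * Module.finrank k (h4E Y (Sm Z) (m + 1) j) ≤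
      Module.finrank k (Sm Z) * Module.finrank k (h4E Y (Sm Z) (m + 1) (j + 1)) := fun j => by
    refine (Nat.mul_le_mul_left _
      (finrank_le_mul (hfg j) (hY.pow _) (cl_pow hYc (m + 1)) h4)).trans ?_
    have e := h2 j (h3 j)
    have e1 : B (j * (m + 1)) ≤ B (j * (m + 1) + m) := hmono (Nat.le_add_right _ _)
    have e2 := hS (j * (m + 1))
    have e3 := hBc (j * (m + 1))
    generalize j * (m + 1) + m = n at e e1 e2
    refine doubling ((hfg j).mul (hY.pow _)) hC h1 (e.trans (mul_le_mul' e1 le_rfl))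
      fun x hx hxc => by_contra fun h0 => hn ⟨n, ?_⟩
    have e4 := coideal (cl_mul e3 (cl_pow hYc _)) (cl_mul (hBc n) (cl_pow hYc _)) hZc (e hx) h0 hxc
    rw [Sm_mul, Sm_pow] at e4
    refine (mul_le_mul' (mul_le_mul' le_rfl e4) le_rfl).trans ?_
    have e5 : Y ^ (n + 1) * Sm Y ^ (n + 1) * Sm (B (j * (m + 1))) *
        (B n * (Y ^ (n + 1) * Y' ^ (n + 1))) ≤ B n :=
      (mul_le_mul' ((mul_le_mul' (hb n) e2).trans (hBm n))
        ((mul_le_mul' le_rfl (hc n)).trans (hBm n))).trans (hBm n)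
    simpa only [mul_assoc] using e5
  have h6 : ∀ j, (Module.finrank k (Sm Z) + 1) ^ j ≤
      Module.finrank k (Sm Z) ^ j * Module.finrank k (h4E Y (Sm Z) (m + 1) j) := fun j => by
    induction j with
    | zero =>
      rw [pow_zero, pow_zero, one_mul, h4E, one_eq_span, finrank_span_singleton one_ne_zero]
    | succ j ih =>
      rw [pow_succ, pow_succ, mul_assoc]
      refine (Nat.mul_le_mul_right _ ih).trans ?_
      rw [mul_assoc, mul_comm _ (_ + 1)]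
      exact Nat.mul_le_mul_left _ (h5 j)
  obtain ⟨d, hd⟩ := hP
  obtain ⟨C, hC'⟩ := hd (Y ⊔ Sm Z) (hY.sup hC)
  refine h4_num _ (m + 1 + 1) C d fun j => (h6 j).trans (Nat.mul_le_mul_left _ ?_)
  have := Module.Finite.iff_fg.2 ((hY.sup hC).pow (j * (m + 1 + 1)))
  exact (Submodule.finrank_mono (h4_le Y (Sm Z) (m + 1) j)).trans (hC' _)

end Pool.Agent.Lib.MP_ff61db_al.Cg
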