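import Pool.Agent.Lib.MP_ff61db_al.Cg.Defs

/-! The antipode is an anti-homomorphism of coalgebras. -/

namespace Pool.Agent.Lib.MP_ff61db_al.Cg

open Submodule TensorProduct

variable {k H : Type} [Field k] [Ring H] [HopfAlgebra k H]

theorem ha_inv {B : Type} [Ring B] [Algebra k B] (f : H →ₐ[k] B) :
    WithConv.toConv (f.toLinearMap ∘ₗ HopfAlgebra.antipode k) *
      WithConv.toConv f.toLinearMap = 1 := by
  apply WithConv.ofConv_injective
  have h := LinearMap.algHom_comp_convMul_distrib f
    (WithConv.toConv (HopfAlgebra.antipode k (A := H))) (WithConv.toConv LinearMap.id)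
  rw [LinearMap.antipode_mul_id] at h
  refine Eq.trans h.symm ?_
  ext x
  simp [LinearMap.convOne_def]

theorem comul_antipode (x : H) :
    Coalgebra.comul (R := k) (HopfAlgebra.antipode k x) =
      TensorProduct.map (HopfAlgebra.antipode k) (HopfAlgebra.antipode k)
        (TensorProduct.comm k H H (Coalgebra.comul (R := k) x)) := by
  let l : H →ₐ[k] H ⊗[k] H := Algebra.TensorProduct.includeLeft
  let r : H →ₐ[k] H ⊗[k] H := Algebra.TensorProduct.includeRight
  have h1 : WithConv.toConv (Coalgebra.comul (R := k) (A := H)) =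
      WithConv.toConv l.toLinearMap * WithConv.toConv r.toLinearMap := by
    apply WithConv.ofConv_injective
    ext y
    change _ = LinearMap.mul' k _ (TensorProduct.map _ _ (Coalgebra.comul (R := k) y))
    change Coalgebra.comul (R := k) y = _
    generalize Coalgebra.comul (R := k) y = t
    induction t with
    | zero => simp
    | tmul u v => simp [l, r]
    | add s t hs ht => rw [map_add, map_add, ← hs, ← ht]
  have h2 : (WithConv.toConv (r.toLinearMap ∘ₗ HopfAlgebra.antipode k) *
      WithConv.toConv (l.toLinearMap ∘ₗ HopfAlgebra.antipode k)) *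
      WithConv.toConv (Coalgebra.comul (R := k) (A := H)) = 1 := by
    rw [h1, mul_assoc, ← mul_assoc _ (WithConv.toConv l.toLinearMap), ha_inv, one_mul, ha_inv]
  have h3 := left_inv_eq_right_inv h2 LinearMap.comul_right_inv
  have h4 := LinearMap.congr_fun (congrArg WithConv.ofConv h3) x
  refine Eq.trans h4.symm ?_
  change LinearMap.mul' k _ (TensorProduct.map _ _ (Coalgebra.comul (R := k) x)) = _
  generalize Coalgebra.comul (R := k) x = t
  induction t with
  | zero => simp
  | tmul u v => simp [l, r]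
  | add s t hs ht => simp only [map_add, hs, ht]

theorem cl_Sm {X : Submodule k H} (h : Cl X) : Cl (Sm X) := by
  refine IsSubcoalgebra.cl ?_
  rintro _ ⟨x, hx, rfl⟩
  obtain ⟨t, ht⟩ := h.isSub x hx
  rw [comul_antipode, ← ht]
  clear ht
  induction t with
  | zero => simp
  | tmul u v =>
    exact ⟨(⟨_, mem_map_of_mem v.2⟩ : Sm X) ⊗ₜ (⟨_, mem_map_of_mem u.2⟩ : Sm X), by simp⟩
  | add s t hs ht =>
    rw [map_add, map_add, map_add]
    exact add_mem hs ht

theorem Sm_mul (X Y : Submodule k H) : Sm (X * Y) = Sm Y * Sm X := by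
  refine le_antisymm (map_le_iff_le_comap.2 (mul_le.2 fun x hx y hy => ?_)) (mul_le.2 ?_)
  · rw [mem_comap, HopfAlgebra.antipode_mul_antidistrib]
    exact mul_mem_mul (mem_map_of_mem hy) (mem_map_of_mem hx)
  · rintro _ ⟨y, hy, rfl⟩ _ ⟨x, hx, rfl⟩
    rw [← HopfAlgebra.antipode_mul_antidistrib]
    exact mem_map_of_mem (mul_mem_mul hx hy)

theorem Sm_one : Sm (1 : Submodule k H) = 1 := by
  rw [one_eq_span, Sm, map_span, Set.image_singleton, HopfAlgebra.antipode_one]

theorem Sm_pow (X : Submodule k H) (n : ℕ) : Sm (X ^ n) = Sm X ^ n := by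
  induction n with
  | zero => rw [pow_zero, pow_zero, Sm_one]
  | succ n ih => rw [pow_succ, Sm_mul, ih, pow_succ']

theorem Sm_gen (X : Submodule k H) : Sm (gen X) = gen (Sm X) := by
  refine le_antisymm (map_le_iff_le_comap.2 (gen_le ?_ ?_ (mul_le.2 fun x hx y hy => ?_)))
    (gen_le (map_mono (le_gen X)) ⟨1, one_mem_gen X, HopfAlgebra.antipode_one⟩ ?_)
  · exact map_le_iff_le_comap.1 (le_gen _)
  · rw [mem_comap, HopfAlgebra.antipode_one]
    exact one_mem_gen _
  · rw [mem_comap, HopfAlgebra.antipode_mul_antidistrib]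
    exact gen_mul_gen _ (mul_mem_mul hy hx)
  · rw [← Sm_mul]
    exact map_mono (gen_mul_gen X)

theorem Sm_ne_bot {X : Submodule k H} {x : H} (hx : x ∈ X)
    (h : Coalgebra.counit (R := k) x = 1) : Sm X ≠ ⊥ := by
  intro e
  have h1 : HopfAlgebra.antipode k x ∈ Sm X := mem_map_of_mem hx
  rw [e, mem_bot] at h1
  rw [← HopfAlgebra.counit_antipode, h1, map_zero] at h
  exact zero_ne_one h

end Pool.Agent.Lib.MP_ff61db_al.Cg
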