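import Pool.Agent.Lib.MP_ff61db_al.Cg.Defs
import Pool.Agent.Lib.MP_ff61db_al.Pt.Skew

/-! Induction along a polycyclic series; coset representatives. -/

namespace Pool.Agent.Lib.MP_ff61db_al.Cg

open Submodule TensorProduct


variable {Γ : Type} [Group Γ]

theorem ind_nil {G : Type} [Group G] [Group.FG G] [Group.IsNilpotent G]
    (Ψ : Subgroup G → Prop) (h0 : Ψ ⊥)
    (hs : ∀ (K : Subgroup G) (g : G), K.Normal → Ψ K → Ψ (K ⊔ Subgroup.zpowers g)) : Ψ ⊤ := by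
  have step : ∀ i, Ψ ((⊤ : Subgroup G).lowerCentralSeries (i + 1)) →
      Ψ ((⊤ : Subgroup G).lowerCentralSeries i) := by
    intro i hi
    obtain ⟨C, h1, h2, h3⟩ := Pt.B9.lcs_gen (G := G) i
    have hle := Subgroup.lowerCentralSeries_antitone (⊤ : Subgroup G) (Nat.le_succ i)
    rw [le_antisymm h3 (sup_le hle ((Subgroup.closure_le _).2 h2))]
    clear h3
    induction C, h1 using Set.Finite.induction_on with
    | empty => rwa [Subgroup.closure_empty, sup_bot_eq]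
    | @insert g C _ _ ih =>
      have h4 : C ⊆ _ := (Set.subset_insert g C).trans h2
      have := Pt.B9.normal_between le_sup_left (sup_le hle ((Subgroup.closure_le _).2 h4))
      rw [Set.insert_eq, Subgroup.closure_union, sup_comm (Subgroup.closure {g}), ← sup_assoc,
        ← Subgroup.zpowers_eq_closure]
      exact hs _ g this (ih h4)
  obtain ⟨n, hn⟩ := Subgroup.nilpotent_iff_lowerCentralSeries.1
    (inferInstance : Group.IsNilpotent G)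
  have : Ψ ((⊤ : Subgroup G).lowerCentralSeries n) := by rwa [hn]
  clear hn
  induction n with
  | zero => exact this
  | succ n ih => exact ih (step n this)

theorem vn_ind [Group.FG Γ] (hv : ∃ N : Subgroup Γ, N.FiniteIndex ∧ Group.IsNilpotent N)
    (Ψ : Subgroup Γ → Prop) (h0 : Ψ ⊥)
    (hs : ∀ (K : Subgroup Γ) (g : Γ), (∀ a ∈ K, g * a * g⁻¹ ∈ K) → (∀ a ∈ K, g⁻¹ * a * g ∈ K) →
      Ψ K → Ψ (K ⊔ Subgroup.zpowers g))
    (hf : ∀ K : Subgroup Γ, K.FiniteIndex → Ψ K → Ψ ⊤) : Ψ ⊤ := by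
  obtain ⟨N, h1, h2⟩ := hv
  have : Group.FG N := Subgroup.fg_of_index_ne_zero N
  have h3 := ind_nil (fun K : Subgroup N => Ψ (K.map N.subtype)) (by rwa [Subgroup.map_bot])
    fun K g hK h => by
      rw [Subgroup.map_sup, MonoidHom.map_zpowers]
      refine hs _ _ ?_ ?_ h
      · rintro _ ⟨a, ha, rfl⟩
        exact ⟨_, hK.conj_mem a ha g, rfl⟩
      · rintro _ ⟨a, ha, rfl⟩
        exact ⟨_, hK.conj_mem' a ha g, rfl⟩
  rw [← MonoidHom.range_eq_map, Subgroup.range_subtype] at h3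
  exact hf N h1 h3

theorem conj_zpow {K : Subgroup Γ} {g : Γ} (hg : ∀ a ∈ K, g * a * g⁻¹ ∈ K)
    (hg' : ∀ a ∈ K, g⁻¹ * a * g ∈ K) (n : ℤ) : ∀ a ∈ K, g ^ n * a * g ^ (-n) ∈ K := by
  induction n using Int.induction_on with
  | zero => simp
  | succ n ih =>
    intro a ha
    have e : g ^ ((n : ℤ) + 1) * a * g ^ (-((n : ℤ) + 1)) =
        g * (g ^ (n : ℤ) * a * g ^ (-(n : ℤ))) * g⁻¹ := by group
    rw [e]
    exact hg _ (ih a ha)
  | pred n ih =>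
    intro a ha
    have e : g ^ (-(n : ℤ) - 1) * a * g ^ (-(-(n : ℤ) - 1)) =
        g⁻¹ * (g ^ (-(n : ℤ)) * a * g ^ (- -(n : ℤ))) * g := by group
    rw [e]
    exact hg' _ (ih a ha)

theorem mem_sup_zpowers {K : Subgroup Γ} {g : Γ} (hg : ∀ a ∈ K, g * a * g⁻¹ ∈ K)
    (hg' : ∀ a ∈ K, g⁻¹ * a * g ∈ K) {b : Γ} :
    b ∈ K ⊔ Subgroup.zpowers g ↔ ∃ a ∈ K, ∃ n : ℤ, b = a * g ^ n := by
  have hz := conj_zpow hg hg'
  let L : Subgroup Γ :=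
    { carrier := {b | ∃ a ∈ K, ∃ n : ℤ, b = a * g ^ n}
      one_mem' := ⟨1, K.one_mem, 0, by simp⟩
      mul_mem' := by
        rintro _ _ ⟨a, ha, n, rfl⟩ ⟨b, hb, m, rfl⟩
        exact ⟨_, mul_mem ha (hz n b hb), n + m, by group⟩
      inv_mem' := by
        rintro _ ⟨a, ha, n, rfl⟩
        exact ⟨_, hz (-n) _ (inv_mem ha), -n, by group⟩ }
  have : K ⊔ Subgroup.zpowers g ≤ L :=
    sup_le (fun a ha => ⟨a, ha, 0, by simp⟩)
      (by rintro _ ⟨n, rfl⟩; exact ⟨1, K.one_mem, n, by simp⟩)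
  refine ⟨fun h => this h, ?_⟩
  rintro ⟨a, ha, n, rfl⟩
  exact Subgroup.mul_mem_sup ha ⟨n, rfl⟩

theorem reps_step {K : Subgroup Γ} {g : Γ} (hg : ∀ a ∈ K, g * a * g⁻¹ ∈ K)
    (hg' : ∀ a ∈ K, g⁻¹ * a * g ∈ K) {i : ℤ} (hi : i ≠ 0) (hK : g ^ i ∈ K) :
    ∃ T : Set Γ, T.Finite ∧ T ⊆ (K ⊔ Subgroup.zpowers g : Subgroup Γ) ∧
      ∀ c ∈ K ⊔ Subgroup.zpowers g, ∃ t ∈ T, c * t⁻¹ ∈ K := by
  refine ⟨(fun r : ℤ => g ^ r) '' Set.Ico 0 |i|, (Set.finite_Ico _ _).image _, ?_, fun c hc => ?_⟩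
  · rintro _ ⟨r, -, rfl⟩
    exact Subgroup.mem_sup_right ⟨r, rfl⟩
  · obtain ⟨a, ha, n, rfl⟩ := (mem_sup_zpowers hg hg').1 hc
    refine ⟨_, ⟨n % i, ⟨Int.emod_nonneg n hi, Int.emod_lt_abs n hi⟩, rfl⟩, ?_⟩
    have e : a * g ^ n * (g ^ (n % i))⁻¹ = a * (g ^ i) ^ (n / i) := by
      rw [mul_assoc, ← zpow_sub, ← zpow_mul, Int.emod_def, sub_sub_cancel]
    rw [e]
    exact mul_mem ha (zpow_mem hK _)

theorem reps_top (K : Subgroup Γ) [K.FiniteIndex] :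
    ∃ T : Set Γ, T.Finite ∧ ∀ c, ∃ t ∈ T, c * t⁻¹ ∈ K := by
  refine ⟨Set.range fun c : Γ ⧸ K => c.out⁻¹, Set.finite_range _, fun b => ?_⟩
  obtain ⟨a, ha⟩ := QuotientGroup.mk_out_eq_mul K b⁻¹
  refine ⟨_, ⟨((b⁻¹ : Γ) : Γ ⧸ K), rfl⟩, ?_⟩
  rw [inv_inv, ha, mul_inv_cancel_left]
  exact a.2

end Pool.Agent.Lib.MP_ff61db_al.Cg
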