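import Pool.Agent.Lib.MP_ff61db_al.Cg.Defs

/-! Calculus of the chain `Bn`. -/

namespace Pool.Agent.Lib.MP_ff61db_al.Cg

open Submodule TensorProduct

variable {k H : Type} [Field k] [Ring H] [Algebra k H]

variable {X X' C : Submodule k H}

theorem a_le_Bn {i n : ℕ} (h : i ≤ n) : X ^ i * C * X' ^ i ≤ Bn X X' C n := by
  exact (le_iSup₂_of_le (f := fun i (_ : i ≤ n) => X ^ i * C * X' ^ i ⊔ X' ^ i * C * X ^ i) i h
    le_sup_left).trans (le_gen _)

theorem b_le_Bn {i n : ℕ} (h : i ≤ n) : X' ^ i * C * X ^ i ≤ Bn X X' C n := by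
  exact Bn_symm X X' C n ▸ a_le_Bn h

theorem C_le_Bn (n : ℕ) : C ≤ Bn X X' C n := by
  simpa using a_le_Bn (X := X) (X' := X') (C := C) (Nat.zero_le n)

theorem one_mem_Bn (n : ℕ) : (1 : H) ∈ Bn X X' C n := one_mem_gen _

theorem Bn_mul (n : ℕ) : Bn X X' C n * Bn X X' C n ≤ Bn X X' C n := gen_mul_gen _

theorem Bn_mono : Monotone (Bn X X' C) := by
  exact fun m n h => gen_mono (iSup₂_le fun i hi => le_iSup₂_of_le
    (f := fun i (_ : i ≤ n) => X ^ i * C * X' ^ i ⊔ X' ^ i * C * X ^ i) i (hi.trans h) le_rfl)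

theorem Bn_aff (hX : X.FG) (hX' : X'.FG) (hC : C.FG) (n : ℕ) : Aff (Bn X X' C n) := by
  refine ⟨_, ?_, rfl⟩
  simpa only [Finset.mem_range, Nat.lt_succ_iff] using fg_biSup (Finset.range (n + 1))
    (fun i => X ^ i * C * X' ^ i ⊔ X' ^ i * C * X ^ i) fun i _ =>
      (((hX.pow i).mul hC).mul (hX'.pow i)).sup (((hX'.pow i).mul hC).mul (hX.pow i))

theorem Tri.conj (h : Tri X X' C) (n : ℕ) : X * Bn X X' C n * X' ≤ Bn X X' C (n + 1) := by
  have h1 : X * (⨆ i ≤ n, X ^ i * C * X' ^ i ⊔ X' ^ i * C * X ^ i) * X' ≤ Bn X X' C (n + 1) := by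
    simp only [Submodule.mul_iSup, Submodule.iSup_mul, Submodule.mul_sup, Submodule.sup_mul]
    refine iSup₂_le fun i hi => sup_le ?_ ?_
    · refine le_of_eq_of_le ?_ (a_le_Bn (Nat.succ_le_succ hi))
      simp only [pow_succ' X, pow_succ X', mul_assoc]
    · obtain _ | i := i
      · simpa using a_le_Bn (X := X) (X' := X') (C := C) (Nat.le_add_left 1 n)
      · refine le_of_eq_of_le (b := X * X' * (X' ^ i * C * X ^ i) * (X * X')) ?_
          ((mul_le_mul' ((mul_le_mul' (h.cl.trans (C_le_Bn _)) (b_le_Bn (by omega))).trans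
            (Bn_mul _)) (h.cl.trans (C_le_Bn _))).trans (Bn_mul _))
        simp only [pow_succ' X', pow_succ X, mul_assoc]
  have h2 : X * (⨆ P, ⨆ _ : X * P * X' ≤ Bn X X' C (n + 1), P) * X' ≤ Bn X X' C (n + 1) := by
    simp only [Submodule.mul_iSup, Submodule.iSup_mul]
    exact iSup₂_le fun _ h => h
  have h3 := fun P (hP : X * P * X' ≤ Bn X X' C (n + 1)) =>
    le_iSup₂ (f := fun P (_ : X * P * X' ≤ Bn X X' C (n + 1)) => P) P hP
  refine (mul_le_mul' (mul_le_mul' le_rfl (gen_le_left (h3 1 ?_ (one_le.1 le_rfl)) (h3 _ ?_)))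
    le_rfl).trans h2
  · rw [mul_one]
    exact h.cl.trans (C_le_Bn _)
  · refine le_trans ?_ ((mul_le_mul' h1 h2).trans (Bn_mul _))
    refine (mul_le_mul' (mul_le_mul' le_rfl (mul_le_mul' (le_mul_one h.r) le_rfl)) le_rfl).trans_eq ?_
    simp only [mul_assoc]

theorem Tri.conj_pow (h : Tri X X' C) (n i : ℕ) :
    X ^ i * Bn X X' C n * X' ^ i ≤ Bn X X' C (n + i) := by
  induction i with
  | zero => simp
  | succ i ih =>
    refine le_of_eq_of_le ?_ ((mul_le_mul' (mul_le_mul' le_rfl ih) le_rfl).trans (h.conj _))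
    simp only [pow_succ' X, pow_succ X', mul_assoc]

theorem Tri.pow_mul_pow (h : Tri X X' C) (n : ℕ) : X ^ (n + 1) * X' ^ (n + 1) ≤ Bn X X' C n := by
  refine le_of_eq_of_le ?_
    ((mul_le_mul' (mul_le_mul' le_rfl h.cl) le_rfl).trans (a_le_Bn (le_refl n)))
  simp only [pow_succ X, pow_succ' X', mul_assoc]

theorem Tri.left_pow (h : Tri X X' C) (n : ℕ) : (C * X) ^ n ≤ Bn X X' C n * X ^ n := by
  induction n with
  | zero => simpa using one_mem_Bn 0
  | succ n ih =>
    rw [pow_succ' (C * X), pow_succ' X, ← mul_assoc]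
    refine (mul_le_mul' le_rfl (ih.trans (mul_le_mul' (le_mul_one h.r) le_rfl))).trans
      (le_of_eq_of_le (b := C * (X * Bn X X' C n * X') * X * X ^ n) (by simp only [mul_assoc])
        (mul_le_mul' (mul_le_mul' ((mul_le_mul' (C_le_Bn _) (h.conj n)).trans (Bn_mul _)) le_rfl)
          le_rfl))

theorem Tri.right_pow (h : Tri X X' C) (n : ℕ) : (X * C) ^ n ≤ X ^ n * Bn X X' C n := by
  induction n with
  | zero => simpa using one_mem_Bn 0
  | succ n ih =>
    have h1 := h.symm.conj n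
    rw [Bn_symm X' X, Bn_symm X' X] at h1
    rw [pow_succ (X * C), pow_succ X]
    exact (mul_le_mul' (ih.trans (mul_le_mul' le_rfl (le_one_mul h.l))) le_rfl).trans
      (le_of_eq_of_le (b := X ^ n * X * (X' * Bn X X' C n * X * C)) (by simp only [mul_assoc])
        (mul_le_mul' le_rfl ((mul_le_mul' h1 (C_le_Bn _)).trans (Bn_mul _))))

theorem Tri.stable (h : Tri X X' C) {a b : ℕ} (ha : X ^ (a + 1) * C * X' ^ (a + 1) ≤ Bn X X' C a)
    (hb : X' ^ (b + 1) * C * X ^ (b + 1) ≤ Bn X X' C b) :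
    ∃ n, (⨆ i, Bn X X' C i) = Bn X X' C n := by
  have h1 : ∀ {X X' : Submodule k H} {a m : ℕ}, Tri X X' C → a ≤ m →
      X ^ (a + 1) * C * X' ^ (a + 1) ≤ Bn X X' C a →
      X ^ (m + 1) * C * X' ^ (m + 1) ≤ Bn X X' C m := fun {X X' a m} h hm ha => by
    induction m, hm using Nat.le_induction with
    | base => exact ha
    | succ m _ ih =>
      refine le_of_eq_of_le ?_ ((mul_le_mul' (mul_le_mul' le_rfl ih) le_rfl).trans (h.conj _))
      simp only [pow_succ' X (m + 1), pow_succ X' (m + 1), mul_assoc]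
  have h2 : ∀ m, max a b ≤ m → Bn X X' C m ≤ Bn X X' C (max a b) := fun m hm => by
    induction m, hm using Nat.le_induction with
    | base => exact le_rfl
    | succ m hm ih =>
      refine le_trans (gen_le (iSup₂_le fun i hi => ?_) (one_mem_Bn m) (Bn_mul m)) ih
      rcases Nat.lt_succ_iff_lt_or_eq.1 (Nat.lt_succ_of_le hi) with hi | rfl
      · exact sup_le (a_le_Bn (Nat.lt_succ_iff.1 hi)) (b_le_Bn (Nat.lt_succ_iff.1 hi))
      · exact sup_le (h1 h (le_of_max_le_left hm) ha) (Bn_symm X X' C m ▸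
          h1 h.symm (le_of_max_le_right hm) (Bn_symm X X' C b ▸ hb))
  exact ⟨max a b, le_antisymm (iSup_le fun i => (le_total i _).elim (fun h => Bn_mono h) (h2 i))
    (le_iSup (Bn X X' C) _)⟩

end Pool.Agent.Lib.MP_ff61db_al.Cg
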