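import Pool.Agent.Lib.MP_ff61db_al.Cg.MA
import Pool.Agent.Lib.MP_ff61db_al.Cg.HC

/-! The neutral component is the union of the chain. -/

namespace Pool.Agent.Lib.MP_ff61db_al.Cg

open Submodule TensorProduct

variable {k H : Type} [Field k] [Ring H] [Algebra k H]

theorem mb_mul (X X' C : Submodule k H) :
    (⨆ n, Bn X X' C n) * (⨆ n, Bn X X' C n) ≤ ⨆ n, Bn X X' C n := by
  simp only [Submodule.iSup_mul, Submodule.mul_iSup]
  refine iSup_le fun a => iSup_le fun b => le_iSup_of_le (max a b) ?_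
  exact (mul_le_mul' (Bn_mono (le_max_right a b)) (Bn_mono (le_max_left a b))).trans (Bn_mul _)

theorem mb_comm {X X' C : Submodule k H} (h : Tri X X' C) :
    X * (⨆ n, Bn X X' C n) ≤ (⨆ n, Bn X X' C n) * X := by
  rw [Submodule.mul_iSup]
  refine iSup_le fun n => (le_mul_one h.r).trans ?_
  rw [← mul_assoc]
  exact mul_le_mul' ((h.conj n).trans (le_iSup (Bn X X' C) (n + 1))) le_rfl

theorem mb_step {X X' B : Submodule k H} (hB : B * B ≤ B) (hc : X * B ≤ B * X)
    (hl : X * X' ≤ B) :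
    X * (⨆ j : ℕ, B * X ^ j ⊔ B * X' ^ j) ≤ ⨆ j : ℕ, B * X ^ j ⊔ B * X' ^ j := by
  rw [Submodule.mul_iSup]
  refine iSup_le fun j => ?_
  rw [Submodule.mul_sup, ← mul_assoc, ← mul_assoc]
  have h1 : ∀ i : ℕ, X * B * X ^ i ≤ ⨆ j : ℕ, B * X ^ j ⊔ B * X' ^ j := by
    intro i
    refine le_iSup_of_le (i + 1) (le_sup_of_le_left ?_)
    rw [pow_succ', ← mul_assoc]
    exact mul_le_mul' hc le_rfl
  refine sup_le (h1 j) ?_
  cases j with
  | zero => simpa only [pow_zero] using h1 0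
  | succ j =>
    refine le_iSup_of_le j (le_sup_of_le_right ?_)
    rw [pow_succ', ← mul_assoc]
    refine mul_le_mul' ((mul_le_mul' hc le_rfl).trans ?_) le_rfl
    rw [mul_assoc]
    exact (mul_le_mul' le_rfl hl).trans hB

theorem mb_pow {X M : Submodule k H} (h : X * M ≤ M) (n : ℕ) : X ^ n * M ≤ M := by
  induction n with
  | zero => rw [pow_zero, one_mul]
  | succ n ih =>
    rw [pow_succ, mul_assoc]
    exact (mul_le_mul' le_rfl h).trans ih

theorem mb_deg {P : ℤ → Submodule k H} (h1 : (1 : H) ∈ P 0)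
    (hmul : ∀ i j, P i * P j ≤ P (i + j)) {X : Submodule k H} {e : ℤ} (hX : X ≤ P e) (n : ℕ) :
    X ^ n ≤ P (n * e) := by
  induction n with
  | zero =>
    rw [pow_zero, Nat.cast_zero, zero_mul]
    exact one_le.2 h1
  | succ n ih =>
    rw [pow_succ, Nat.cast_succ, add_mul, one_mul]
    exact (mul_le_mul' ih hX).trans (hmul _ _)

theorem mb_gen {W X X' B M : Submodule k H} (hr : (1 : H) ∈ X' * X) (n : ℕ)
    (hW : W * X' ^ n ≤ B) (hX : X * M ≤ M) (hB : B * M ≤ M) : W * M ≤ M := by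
  refine (mul_le_mul' (le_mul_one (one_mem_pow_mul_pow hr n)) le_rfl).trans ?_
  rw [← mul_assoc, mul_assoc]
  exact (mul_le_mul' hW (mb_pow hX n)).trans hB

theorem zero_eq_iSup {P : ℤ → Submodule k H} (hind : Disjoint (P 0) (⨆ i, ⨆ (_ : i ≠ 0), P i))
    (h1 : (1 : H) ∈ P 0) (hmul : ∀ i j, P i * P j ≤ P (i + j)) (haff : Aff (⨆ i, P i))
    {X X' : Submodule k H} (hX : X.FG) (hX' : X'.FG) (hXP : X ≤ P 1) (hXP' : X' ≤ P (-1)) :
    ∃ D ≤ P 0, D.FG ∧ ∀ C, D ≤ C → C ≤ P 0 → Tri X X' C → P 0 = ⨆ n, Bn X X' C n := by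
  obtain ⟨V, hV, hg⟩ := haff
  obtain ⟨F, W, hW, hVW⟩ := exists_homog P hV ((le_gen V).trans hg.le)
  have hp := mb_deg h1 hmul hXP
  have hp' := mb_deg h1 hmul hXP'
  refine ⟨⨆ i ∈ F, W i * (X' ^ i.toNat * X ^ (-i).toNat), iSup₂_le fun i _ => ?_,
    Submodule.fg_biSup _ _ fun i _ => (hW i).1.mul ((hX'.pow _).mul (hX.pow _)),
    fun C hD hC h => ?_⟩
  · refine (mul_le_mul' (hW i).2 ((mul_le_mul' (hp' _) (hp _)).trans (hmul _ _))).trans
      ((hmul _ _).trans (le_of_eq (congrArg P ?_)))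
    omega
  · have hBP : (⨆ n, Bn X X' C n) ≤ P 0 := by
      refine iSup_le fun n => gen_le (iSup₂_le fun i _ => sup_le ?_ ?_) h1
        ((hmul 0 0).trans (by rw [add_zero]))
      · refine (mul_le_mul' ((mul_le_mul' (hp i) hC).trans (hmul _ _)) (hp' i)).trans
          ((hmul _ _).trans (le_of_eq (congrArg P ?_)))
        omega
      · refine (mul_le_mul' ((mul_le_mul' (hp' i) hC).trans (hmul _ _)) (hp i)).trans
          ((hmul _ _).trans (le_of_eq (congrArg P ?_)))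
        omega
    have hc := mb_comm h
    have hc' := mb_comm h.symm
    simp only [Bn_symm X' X] at hc'
    have hB := mb_mul X X' C
    have hCB : C ≤ ⨆ n, Bn X X' C n := (C_le_Bn 0).trans (le_iSup (Bn X X' C) 0)
    generalize (⨆ n, Bn X X' C n) = B at *
    have hs := mb_step hB hc (h.cl.trans hCB)
    have hs' := mb_step hB hc' (h.cr.trans hCB)
    simp only [sup_comm (B * X' ^ _)] at hs'
    have hBM : B * (⨆ j : ℕ, B * X ^ j ⊔ B * X' ^ j) ≤ ⨆ j : ℕ, B * X ^ j ⊔ B * X' ^ j := by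
      rw [Submodule.mul_iSup]
      refine iSup_mono fun j => ?_
      rw [Submodule.mul_sup, ← mul_assoc, ← mul_assoc]
      exact sup_le_sup (mul_le_mul' hB le_rfl) (mul_le_mul' hB le_rfl)
    have hM1 : (1 : H) ∈ ⨆ j : ℕ, B * X ^ j ⊔ B * X' ^ j := by
      refine le_iSup (fun j : ℕ => B * X ^ j ⊔ B * X' ^ j) 0 (mem_sup_left ?_)
      rw [pow_zero, mul_one]
      exact hCB h.one
    have hMN : (⨆ j : ℕ, B * X ^ j ⊔ B * X' ^ j) ≤ B ⊔ ⨆ i, ⨆ (_ : i ≠ 0), P i := by
      refine iSup_le fun j => ?_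
      cases j with
      | zero =>
        rw [pow_zero, pow_zero, mul_one, sup_idem]
        exact le_sup_left
      | succ j =>
        refine le_sup_of_le_right (sup_le ?_ ?_)
        · exact le_iSup₂_of_le _ (by omega) ((mul_le_mul' hBP (hp _)).trans (hmul _ _))
        · exact le_iSup₂_of_le _ (by omega) ((mul_le_mul' hBP (hp' _)).trans (hmul _ _))
    generalize (⨆ j : ℕ, B * X ^ j ⊔ B * X' ^ j) = M at *
    have hVM : V * M ≤ M := by
      refine (mul_le_mul' hVW le_rfl).trans ?_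
      simp only [Submodule.iSup_mul]
      refine iSup₂_le fun i hi => ?_
      have hi2 : W i * (X' ^ i.toNat * X ^ (-i).toNat) ≤ B :=
        (le_iSup₂_of_le (f := fun i (_ : i ∈ F) => W i * (X' ^ i.toNat * X ^ (-i).toNat)) i hi
          le_rfl).trans (hD.trans hCB)
      rcases le_total 0 i with h0 | h0
      · rw [(by omega : (-i).toNat = 0), pow_zero, mul_one] at hi2
        exact mb_gen h.r _ hi2 hs hBM
      · rw [(by omega : i.toNat = 0), pow_zero, one_mul] at hi2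
        exact mb_gen h.l _ hi2 hs' hBM
    have hP : P 0 ≤ B ⊔ ⨆ i, ⨆ (_ : i ≠ 0), P i :=
      ((le_iSup P 0).trans (hg.ge.trans (gen_le_left hM1 hVM))).trans hMN
    refine le_antisymm ?_ hBP
    have h2 := sup_inf_assoc_of_le (⨆ i, ⨆ (_ : i ≠ 0), P i) hBP
    rw [inf_eq_right.2 hP, hind.symm.eq_bot, sup_bot_eq] at h2
    exact h2.le

end Pool.Agent.Lib.MP_ff61db_al.Cg
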