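import Pool.Agent.Lib.MP_ff61db_al.Cg.MB
import Pool.Agent.Lib.MP_ff61db_al.Cg.H4

/-! The quantum Milnor lemma. -/

namespace Pool.Agent.Lib.MP_ff61db_al.Cg

open Submodule TensorProduct

variable {k H : Type} [Field k] [Ring H] [HopfAlgebra k H]

theorem Sm_Bn {X C : Submodule k H} (h : Tri X (Sm X) C) (hl : Sm (Sm X) ≤ C * X)
    (hr : Sm (Sm X) ≤ X * C) {m : ℕ} (hm : Sm C ≤ Bn X (Sm X) C m) (n : ℕ) :
    Sm (Bn X (Sm X) C n) ≤ Bn X (Sm X) C (n + m) := by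
  rw [Bn, Sm_gen]
  refine gen_le (map_le_iff_le_comap.2 (iSup₂_le fun i hi => map_le_iff_le_comap.1 ?_))
    (one_mem_Bn _) (Bn_mul _)
  have e1 : Bn X (Sm X) C i ≤ Bn X (Sm X) C (n + m) := Bn_mono (by omega)
  have e2 : Bn X (Sm X) C (m + i) ≤ Bn X (Sm X) C (n + m) := Bn_mono (by omega)
  refine (Submodule.map_sup _ _ _).trans_le (sup_le ?_ ?_)
  · refine (Sm_mul _ _).trans_le ?_
    rw [Sm_mul, Sm_pow, Sm_pow]
    refine (mul_le_mul' ((pow_le_pow_left' hl i).trans (h.left_pow i))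
      (mul_le_mul' hm le_rfl)).trans ?_
    rw [mul_assoc, ← mul_assoc (X ^ i)]
    exact (mul_le_mul' e1 ((h.conj_pow m i).trans e2)).trans (Bn_mul _)
  · refine (Sm_mul _ _).trans_le ?_
    rw [Sm_mul, Sm_pow, Sm_pow]
    refine (mul_le_mul' le_rfl (mul_le_mul' hm
      ((pow_le_pow_left' hr i).trans (h.right_pow i)))).trans ?_
    have e3 := h.symm.conj_pow m i
    rw [Bn_symm (Sm X), Bn_symm (Sm X)] at e3
    rw [← mul_assoc, ← mul_assoc]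
    exact (mul_le_mul' (e3.trans e2) e1).trans (Bn_mul _)

theorem pow_Sm_Sm {X C : Submodule k H} (h : Tri X (Sm X) C) (hr : Sm (Sm X) ≤ X * C)
    (hc : Sm X * Sm (Sm X) ≤ C) (n : ℕ) :
    Sm X ^ (n + 1) * Sm (Sm X) ^ (n + 1) ≤ Bn X (Sm X) C n := by
  rw [pow_succ (Sm X), pow_succ' (Sm (Sm X)), mul_assoc, ← mul_assoc (Sm X)]
  refine (mul_le_mul' le_rfl (mul_le_mul' hc
    ((pow_le_pow_left' hr n).trans (h.right_pow n)))).trans ?_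
  rw [← mul_assoc, ← mul_assoc]
  exact (mul_le_mul' (b_le_Bn le_rfl) le_rfl).trans (Bn_mul _)

theorem milnor (hP : PG k H) {P : ℤ → Submodule k H} (h : GrZ P) (haff : Aff (⨆ i, P i)) :
    Aff (P 0) := by
  obtain ⟨X, hXP, hX, hXc, hne⟩ := exists_fd_ne (h.cl 1) (h.ne 1)
  have hX' : (Sm X).FG := hX.map _
  have hX'' : (Sm (Sm X)).FG := hX'.map _
  have hXP' : Sm X ≤ P (-1) := (map_mono hXP).trans (h.anti 1)
  have hXP'' : Sm (Sm X) ≤ P 1 := (map_mono hXP').trans (h.anti (-1))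
  obtain ⟨D, hDP, hD, hB⟩ := zero_eq_iSup h.ind h.one h.mul haff hX hX' hXP hXP'
  have m1 : P 1 * P (-1) ≤ P 0 := h.mul 1 (-1)
  have m2 : P (-1) * P 1 ≤ P 0 := h.mul (-1) 1
  obtain ⟨Z, hZ, hZc, hY, hZP⟩ := h.pre
    (D ⊔ 1 ⊔ X * Sm X ⊔ Sm X * X ⊔ Sm (Sm X) * Sm X ⊔ Sm X * Sm (Sm X))
    (sup_le (sup_le (sup_le (sup_le (sup_le hDP (one_le.2 h.one))
      ((mul_le_mul' hXP hXP').trans m1)) ((mul_le_mul' hXP' hXP).trans m2))
      ((mul_le_mul' hXP'' hXP').trans m1)) ((mul_le_mul' hXP' hXP'').trans m2))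
    (((((hD.sup (fg_unit 1)).sup (hX.mul hX')).sup (hX'.mul hX)).sup (hX''.mul hX')).sup
      (hX'.mul hX''))
  simp only [sup_le_iff] at hY
  obtain ⟨⟨⟨⟨⟨y1, y2⟩, y3⟩, y4⟩, y5⟩, y6⟩ := hY
  have t : Tri X (Sm X) (Sm Z) :=
    ⟨one_le.1 y2, one_mem_mul_Sm hXc hne, one_mem_Sm_mul hXc hne, y3, y4⟩
  have e := hB _ y1 hZP t
  have hl : Sm (Sm X) ≤ Sm Z * X := (le_mul_one t.r).trans (by
    rw [← mul_assoc]
    exact mul_le_mul' y5 le_rfl)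
  have hr : Sm (Sm X) ≤ X * Sm Z := (le_one_mul t.l).trans (by
    rw [mul_assoc]
    exact mul_le_mul' le_rfl y6)
  obtain ⟨m, hm⟩ := exists_le_of_mono (Bn_mono (X := X) (X' := Sm X) (C := Sm Z))
    ((hZ.map _).map _ : (Sm (Sm Z)).FG) (((map_mono hZP).trans (h.anti 0)).trans e.le)
  have c1 := cl_Sm hXc
  have c2 := cl_Sm hZc
  have hBc : ∀ n, Cl (Bn X (Sm X) (Sm Z) n) := fun n => cl_gen (cl_iSup fun i => cl_iSup fun _ =>
    cl_sup (cl_mul (cl_mul (cl_pow hXc i) c2) (cl_pow c1 i))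
      (cl_mul (cl_mul (cl_pow c1 i) c2) (cl_pow hXc i)))
  obtain ⟨x, hx, hx1⟩ := exists_counit hXc hne
  obtain ⟨a, ha⟩ := no_chain hP hX hXc hne t.r hZ hZc t.one one_mem_Bn Bn_mul Bn_mono hBc
    (Sm_Bn t hl hr hm) (fun _ => a_le_Bn le_rfl) t.pow_mul_pow t.pow_mul_pow
  obtain ⟨b, hb⟩ := no_chain hP hX' c1 (Sm_ne_bot hx hx1) t.l hZ hZc t.one one_mem_Bn Bn_mul
    Bn_mono hBc (Sm_Bn t hl hr hm) (fun _ => b_le_Bn le_rfl) (pow_Sm_Sm t hr y6)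
    fun n => (t.symm.pow_mul_pow n).trans_eq (Bn_symm _ _ _ _)
  obtain ⟨n, hn⟩ := t.stable ha hb
  rw [e, hn]
  exact Bn_aff hX hX' (hZ.map _) n

end Pool.Agent.Lib.MP_ff61db_al.Cg
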