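import Pool.Agent.Lib.MP_ff61db_al.Cg.Defs

/-! Algebras with a polynomial identity are stably finite. -/

namespace Pool.Agent.Lib.MP_ff61db_al.Cg

open Submodule TensorProduct

theorem sf_stair {A M : Type} [Ring A] [AddCommGroup M] [Module A M] {d : ℕ} {w : ℕ → M}
    {a : Fin d → A} (h : ∀ (i : Fin d), ∀ j ≤ d, a i • w j = if j = i + 1 then w i else 0)
    (n : ℕ) : ∀ (g : Fin n → Fin d) (s : ℕ), s + n ≤ d →
      (List.ofFn fun i => a (g i)).prod • w (s + n) =
        if ∀ i, (g i : ℕ) = s + i then w s else 0 := by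
  induction n with
  | zero => exact fun g s _ => by simp
  | succ n ih =>
    intro g s hs
    have e : s + (n + 1) = s + 1 + n := by omega
    rw [List.ofFn_succ, List.prod_cons, mul_smul, e, ih (fun i => g i.succ) (s + 1) (by omega)]
    simp only [Fin.forall_fin_succ, Fin.val_zero, Fin.val_succ, add_zero]
    by_cases h1 : ∀ i : Fin n, (g i.succ : ℕ) = s + 1 + i
    · have h2 : ∀ i : Fin n, (g i.succ : ℕ) = s + (i + 1) := fun i => by rw [h1 i]; omega
      rw [if_pos h1, h _ _ (by omega)]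
      by_cases h3 : (g 0 : ℕ) = s
      · rw [if_pos (by omega), if_pos ⟨h3, h2⟩, h3]
      · rw [if_neg (by omega), if_neg fun x => h3 x.1]
    · rw [if_neg h1, smul_zero, if_neg fun x => h1 fun i => by rw [x.2 i]; omega]

theorem sf_fin {k A M : Type} [Field k] [Ring A] [Algebra k A] {d : ℕ} (h : MPI k A d)
    [AddCommGroup M] [Module A M] [IsSimpleModule A M] : Module.Finite (Module.End A M) M := by
  classical
  by_contra h0
  rw [← Module.rank_lt_aleph0_iff, not_lt] at h0
  obtain ⟨v, hv⟩ := Module.le_rank_iff.1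
    ((Cardinal.natCast_lt_aleph0 (n := d + 1)).le.trans h0)
  obtain ⟨g, hg⟩ := LinearMap.exists_leftInverse_of_injective
    (Finsupp.linearCombination (Module.End A M) v) (LinearMap.ker_eq_bot.2 hv)
  have h1 : ∀ j, g (v j) = Finsupp.single j 1 := fun j => by
    simpa using LinearMap.congr_fun hg (Finsupp.single j 1)
  choose a ha using fun i : Fin d => jacobson_density (R := A)
    ((LinearMap.toSpanSingleton _ M (v i.castSucc)).comp ((Finsupp.lapply i.succ).comp g))
    (Finset.univ.image v)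
  obtain ⟨w, hw⟩ : ∃ w : ℕ → M, ∀ j : Fin (d + 1), w j = v j :=
    ⟨fun j => if e : j < d + 1 then v ⟨j, e⟩ else 0, fun j => dif_pos j.2⟩
  have h2 : ∀ (i : Fin d), ∀ j ≤ d, a i • w j = if j = i + 1 then w i else 0 := fun i j hj => by
    have e := ha i (v ⟨j, by omega⟩) (Finset.mem_image_of_mem _ (Finset.mem_univ _))
    rw [hw ⟨j, by omega⟩, ← e, show w i = v i.castSucc from hw i.castSucc]
    simp [h1, Finsupp.single_apply, Fin.ext_iff]
  obtain ⟨c, hc, hs⟩ := h
  have h3 := congrArg (· • w (0 + d)) (hs a)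
  simp only [Finset.sum_smul, Algebra.smul_def, mul_smul, sf_stair h2 d _ 0 (by omega),
    zero_smul] at h3
  rw [Finset.sum_eq_single 1 (fun σ _ e => by
    rw [if_neg fun x => e (Equiv.ext fun i => Fin.ext (by simpa using x i)), smul_zero])
    (by simp), if_pos (by simp), hc, map_one, one_smul] at h3
  exact hv.ne_zero 0 ((hw 0).symm.trans h3)

theorem stablyFinite_of_mpi {k A : Type} [Field k] [Ring A] [Algebra k A] {d : ℕ}
    (h : MPI k A d) : IsStablyFiniteRing A := by
  classical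
  refine ⟨fun n => ⟨fun {P Q} hPQ => ?_⟩⟩
  have h1 : 1 - Q * P ∈ (⊥ : Ideal A).jacobson.matrix (Fin n) := fun i j => by
    refine Ideal.mem_sInf.2 fun {m} hm => ?_
    have : IsSimpleModule A (A ⧸ m) := isSimpleModule_iff_isCoatom.2 hm.2.out
    have := sf_fin (M := A ⧸ m) h
    let φ := (Module.toModuleEnd (Module.End A (A ⧸ m)) (S := A) (A ⧸ m)).mapMatrix (m := Fin n)
    have h2 : φ Q * φ P = 1 := mul_eq_one_comm.1 (by rw [← map_mul, hPQ, map_one])
    have h3 : φ (1 - Q * P) = 0 := by rw [map_sub, map_mul, h2, map_one, sub_self]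
    have h4 : (1 - Q * P) i j • (Submodule.Quotient.mk 1 : A ⧸ m) = 0 :=
      LinearMap.congr_fun (congrFun (congrFun h3 i) j) _
    rwa [← Submodule.Quotient.mk_smul, smul_eq_mul, mul_one, Submodule.Quotient.mk_eq_zero] at h4
  obtain ⟨z, hz⟩ := Ideal.mem_jacobson_iff.1 (Ideal.matrix_jacobson_le _ h1) (-1)
  rw [Ideal.matrix_bot, Ideal.mem_bot] at hz
  have h5 : z * (Q * P) = 1 := by rw [← sub_eq_zero, ← hz]; noncomm_ring
  calc Q * P = z * (Q * P) * (Q * P) := by rw [h5, one_mul]
    _ = z * (Q * (P * Q) * P) := by simp only [mul_assoc]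
    _ = 1 := by rw [hPQ, mul_one, h5]

end Pool.Agent.Lib.MP_ff61db_al.Cg
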