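import Pool.Agent.Lib.MP_ff61db_al.Cg.HA
import Pool.Agent.Lib.MP_ff61db_al.Cg.Sub
import Pool.Agent.Lib.MP_ff61db_al.PField

/-! Transfer along the antipode. -/

namespace Pool.Agent.Lib.MP_ff61db_al.Cg

open Submodule TensorProduct

variable {k H : Type} [Field k] [Ring H] [HopfAlgebra k H]

theorem topc_equiv (hinj : Function.Injective (HopfAlgebra.antipode k : H →ₗ[k] H))
    (R : Subring H) (hR : (R : Set H) = (Sm (⊤ : Submodule k H) : Submodule k H)) :
    Nonempty (Hᵐᵒᵖ ≃+* R) := by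
  have hmem : ∀ x : H, HopfAlgebra.antipode k x ∈ R := fun x => by
    rw [← SetLike.mem_coe, hR]
    exact mem_map_of_mem mem_top
  let φ : Hᵐᵒᵖ →+* R :=
    { toFun := fun x => ⟨HopfAlgebra.antipode k x.unop, hmem _⟩
      map_one' := Subtype.ext (by simp)
      map_mul' := fun x y => Subtype.ext (by simp [HopfAlgebra.antipode_mul_antidistrib])
      map_zero' := Subtype.ext (by simp)
      map_add' := fun x y => Subtype.ext (by simp) }
  refine ⟨RingEquiv.ofBijective φ ⟨fun x y hxy => ?_, fun y => ?_⟩⟩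
  · exact MulOpposite.unop_injective (hinj (congrArg Subtype.val hxy))
  · have hy : (y : H) ∈ (Sm (⊤ : Submodule k H) : Set H) := hR ▸ y.2
    obtain ⟨x, -, hx⟩ := hy
    exact ⟨MulOpposite.op x, Subtype.ext hx⟩

theorem noeth_of_range (hinj : Function.Injective (HopfAlgebra.antipode k : H →ₗ[k] H))
    (hl : LN (Sm (⊤ : Submodule k H))) (hr : RN (Sm (⊤ : Submodule k H))) :
    IsNoetherianRing H ∧ IsNoetherianRing Hᵐᵒᵖ := by
  obtain ⟨R, hR, hn⟩ := hl
  obtain ⟨R', hR', hn'⟩ := hr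
  obtain ⟨e⟩ := topc_equiv hinj R hR
  obtain ⟨e'⟩ := topc_equiv hinj R' hR'
  exact ⟨isNoetherianRing_of_ringEquiv _ ((RingEquiv.opOp H).trans (RingEquiv.op e')).symm,
    isNoetherianRing_of_ringEquiv _ e.symm⟩

theorem topc_noeth (k H : Type) [Field k] [Ring H] [HopfAlgebra k H]
    (hft : Algebra.FiniteType k H) {d : ℕ} (hd : MPI k H d) :
    IsNoetherianRing H ∧ IsNoetherianRing Hᵐᵒᵖ := by
  obtain ⟨g, x, hx⟩ := exists_gen (k := k) (H := H)
  refine ⟨noeth_left' hx hd, ?_⟩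
  obtain ⟨inst, hinst⟩ := exists_hopf_op k H
  have h0 : @MPI k Hᵐᵒᵖ _ _ inst.toAlgebra d := by rw [hinst]; exact hd.op
  have h1 : @Gen k _ Hᵐᵒᵖ _ inst.toAlgebra g (fun i => MulOpposite.op (x i)) := by
    rw [hinst]; exact hx.op
  exact @noeth_left' k Hᵐᵒᵖ _ _ inst g d _ h1 h0

/-- The image under the antipode of a PI Hopf subalgebra is noetherian if it is affine. -/
theorem noeth_Sm (A : Subalgebra k H) (hc : Cl (Subalgebra.toSubmodule A))
    (hS : Sm (Subalgebra.toSubmodule A) ≤ Subalgebra.toSubmodule A) {d : ℕ} (hd : MPI k A d)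
    (haff : Aff (Sm (Subalgebra.toSubmodule A))) :
    LN (Sm (Subalgebra.toSubmodule A)) ∧ RN (Sm (Subalgebra.toSubmodule A)) := by
  obtain ⟨V, hV, hgen⟩ := haff
  obtain ⟨A', hA', hfg⟩ : ∃ A' : Subalgebra k H,
      Subalgebra.toSubmodule A' = Sm (Subalgebra.toSubmodule A) ∧ A'.FG := by
    refine ⟨Algebra.adjoin k (V : Set H), hgen, ?_⟩
    obtain ⟨s, rfl⟩ := hV
    exact ⟨s, (Algebra.adjoin_span (R := k) (s := (s : Set H))).symm⟩
  have hmem : ∀ x : A, HopfAlgebra.antipode k (x : H) ∈ A' := fun x => by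
    rw [← Subalgebra.mem_toSubmodule, hA']
    exact mem_map_of_mem x.2
  let φ : Aᵐᵒᵖ →ₐ[k] A' :=
    { toFun := fun x => ⟨HopfAlgebra.antipode k (x.unop : H), hmem _⟩
      map_one' := Subtype.ext (by simp)
      map_mul' := fun x y => Subtype.ext (by simp [HopfAlgebra.antipode_mul_antidistrib])
      map_zero' := Subtype.ext (by simp)
      map_add' := fun x y => Subtype.ext (by simp)
      commutes' := fun r => Subtype.ext (by simp [Algebra.algebraMap_eq_smul_one]) }
  have hφ : Function.Surjective φ := fun y => by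
    have hy : (y : H) ∈ Sm (Subalgebra.toSubmodule A) := hA' ▸ y.2
    obtain ⟨x, hx, hxy⟩ := hy
    exact ⟨MulOpposite.op ⟨x, hx⟩, Subtype.ext hxy⟩
  have hd' : MPI k A' d := hd.op.map φ hφ
  have hft : Algebra.FiniteType k A' := (Subalgebra.fg_iff_finiteType A').1 hfg
  have hc' : Cl (Subalgebra.toSubmodule A') := hA' ▸ cl_Sm hc
  have hS' : Sm (Subalgebra.toSubmodule A') ≤ Subalgebra.toSubmodule A' := by
    rw [hA']
    exact map_mono hS
  obtain ⟨inst, hinst⟩ := exists_hopf_sub A' hc' hS'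
  have h0 : @MPI k A' _ _ inst.toAlgebra d := by rw [hinst]; exact hd'
  have h1 : @Algebra.FiniteType k A' _ _ inst.toAlgebra := by rw [hinst]; exact hft
  obtain ⟨hl, hr⟩ := @topc_noeth k A' _ _ inst h1 d h0
  have hset : (A'.toSubring : Set H) = (Sm (Subalgebra.toSubmodule A) : Submodule k H) := by
    rw [← hA']
    rfl
  exact ⟨⟨A'.toSubring, hset, hl⟩, ⟨A'.toSubring, hset, hr⟩⟩

end Pool.Agent.Lib.MP_ff61db_al.Cg
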