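import Pool.Agent.Lib.MP_ff61db_al.Cg.TopB
import Pool.Agent.Lib.MP_ff61db_al.Cg.TopC
import Pool.Agent.Lib.MP_ff61db_al.Cg.Down
import Pool.Agent.Lib.MP_ff61db_al.Cg.Up
import Pool.Agent.Lib.MP_ff61db_al.Cg.SF
import Pool.Agent.Lib.MP_ff61db_al.Cg.Sk

/-! The main theorem. -/

namespace Pool.Agent.Lib.MP_ff61db_al.Cg

open Submodule TensorProduct

variable {k H : Type} [Field k] [Ring H] [HopfAlgebra k H] {Γ : Type} [Group Γ]

theorem main {V : Submodule k H} (hV : Growth V) (hgen : Algebra.adjoin k (V : Set H) = ⊤)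
    {A : Γ → Submodule k H} (h : Co A)
    (hPI : ∃ (m : ℕ) (f : FreeAlgebra k (Fin m)), f ≠ 0 ∧
      ∀ a : Fin m → H, (∀ i, a i ∈ A 1) → FreeAlgebra.lift k a f = 0) :
    IsNoetherianRing H ∧ IsNoetherianRing Hᵐᵒᵖ := by
  let A₁ : Subalgebra k H := (A 1).toSubalgebra h.one fun x y hx hy => by
    simpa using h.mul 1 1 (mul_mem_mul hx hy)
  have e : Subalgebra.toSubmodule A₁ = A 1 := rfl
  obtain ⟨m, f, hf, hz⟩ := hPI
  obtain ⟨d, hd⟩ : ∃ d, MPI k A₁ d := mpi_of_pi f hf fun a => by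
    apply Subtype.val_injective
    have h1 := hz (fun i => (a i : H)) fun i => (a i).2
    have h2 : A₁.val.comp (FreeAlgebra.lift k a) = FreeAlgebra.lift k fun i => (a i : H) := by
      ext i; simp
    rw [← h2] at h1
    exact h1
  have hc : Cl (Subalgebra.toSubmodule A₁) := h.cl 1
  have hS : Sm (Subalgebra.toSubmodule A₁) ≤ Subalgebra.toSubmodule A₁ := by
    simpa [e] using h.anti 1
  have := stablyFinite_of_mpi hd
  have hinj := h.inj fun x hx => antipode_inj A₁ hc hS hx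
  obtain ⟨K, B, hB, h1, h2⟩ := h.exists_gr
  have hP := pg_of_gk hV hgen
  have haff : Aff (⨆ g, B g) := by
    refine ⟨Sm V, hV.fg.map _, ?_⟩
    rw [h1, ← Sm_gen, gen, hgen]
    rfl
  have := hB.fg haff
  obtain ⟨h3, h4⟩ := noeth_Sm A₁ hc hS hd (by rw [e, ← h2]; exact hB.down hP haff)
  rw [e, ← h2] at h3 h4
  exact noeth_of_range hinj (h1 ▸ up_left (hB.vn hP) hB.sg h3) (h1 ▸ up_right (hB.vn hP) hB.sg h4)

end Pool.Agent.Lib.MP_ff61db_al.Cg
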