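import Pool.Agent.Lib.MP_ff61db_al.Cg.Main
import Pool.Agent.Lib.MP_ff61db_al.Cg.BP1
import Pool.Agent.Lib.MP_ff61db_al.Cg.BP2
import Pool.Agent.Lib.MP_ff61db_al.Cg.BE1
import Pool.Agent.Lib.MP_ff61db_al.Cg.BG
import Pool.Agent.Lib.MP_ff61db_al.Cg.BQ
import Pool.Agent.Lib.MP_ff61db_al.Cg.BT

/-! All extensions of a group algebra by a PI Hopf algebra. -/

namespace Pool.Agent.Lib.MP_ff61db_al.Cg

open Submodule TensorProduct

variable {k H : Type} [Field k] [Ring H] [HopfAlgebra k H] {Γ : Type} [Group Γ]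

theorem Co.aff {V : Submodule k H} (hV : Growth V) (hgen : Algebra.adjoin k (V : Set H) = ⊤)
    {A : Γ → Submodule k H} (h : Co A) : Aff (Sm (A 1)) := by
  obtain ⟨K, B, hB, h1, h2⟩ := h.exists_gr
  rw [← h2]
  refine hB.down (pg_of_gk hV hgen) ⟨Sm V, hV.fg.map _, ?_⟩
  rw [h1, ← Sm_gen, gen, hgen]
  rfl

theorem exists_len [hG : Group.FG Γ] : ∃ F : Set Γ, F.Finite ∧ ∀ γ, ∃ n, Len F n γ := by
  obtain ⟨S, h1, h2⟩ := Group.fg_iff.1 hG
  refine ⟨S ∪ S⁻¹, h2.union h2.inv, fun γ => ?_⟩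
  have h3 : γ ∈ Submonoid.closure (S ∪ S⁻¹) := by
    rw [← Subgroup.closure_toSubmonoid, h1]
    trivial
  obtain ⟨l, h4, h5⟩ := Submonoid.exists_list_of_mem_closure h3
  exact ⟨_, l, le_rfl, h4, h5⟩

theorem Bi.fg {V : Submodule k H} (hV : Growth V) (hgen : Algebra.adjoin k (V : Set H) = ⊤)
    {δ : Γ → Du k H} (h : Bi δ) : Group.FG Γ :=
  h.sgR.fg h.indR (fun g => (h.ne g).elim fun _ hu => topB_ne hu.1 hu.2.2)
    ⟨V, hV.fg, by rw [h.topR, gen, hgen]; rfl⟩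

theorem Bi.aff {V : Submodule k H} (hV : Growth V) (hgen : Algebra.adjoin k (V : Set H) = ⊤)
    {δ : Γ → Du k H} (h : Bi δ) : Aff (Sm (Rt δ 1)) := by
  have := h.fg hV hgen
  obtain ⟨F, f1, f2⟩ := exists_len (Γ := Γ)
  obtain ⟨e, m⟩ := h.exists_mg
  obtain ⟨l, n, l1, l2⟩ := m.exists_stable h (pg_of_gk hV hgen) f1
  have p := m.pj h f2 l1 l2
  obtain ⟨Q, _, _, π, q1, q2, q3⟩ := p.exists_quot
  obtain ⟨g1, g2⟩ := growth_map π q1 hV hgen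
  exact p.aff h π q2 q3 (Co.aff g1 g2 (p.co h π q1 q2))

theorem Bi.main {V : Submodule k H} (hV : Growth V) (hgen : Algebra.adjoin k (V : Set H) = ⊤)
    {δ : Γ → Du k H} (h : Bi δ)
    (hPI : ∃ (m : ℕ) (f : FreeAlgebra k (Fin m)), f ≠ 0 ∧
      ∀ a : Fin m → H, (∀ i, a i ∈ Rt δ 1) → FreeAlgebra.lift k a f = 0) :
    IsNoetherianRing H ∧ IsNoetherianRing Hᵐᵒᵖ := by
  let A₁ : Subalgebra k H := (Rt δ 1).toSubalgebra h.one fun x y hx hy => by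
    simpa using h.mulR 1 1 (mul_mem_mul hx hy)
  have e : Subalgebra.toSubmodule A₁ = Rt δ 1 := rfl
  obtain ⟨m, f, hf, hz⟩ := hPI
  obtain ⟨d, hd⟩ : ∃ d, MPI k A₁ d := mpi_of_pi f hf fun a => by
    apply Subtype.val_injective
    have h1 := hz (fun i => (a i : H)) fun i => (a i).2
    have h2 : A₁.val.comp (FreeAlgebra.lift k a) = FreeAlgebra.lift k fun i => (a i : H) := by
      ext i; simp
    rw [← h2] at h1
    exact h1
  have hc : Cl (Subalgebra.toSubmodule A₁) := h.cl_one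
  have hS : Sm (Subalgebra.toSubmodule A₁) ≤ Subalgebra.toSubmodule A₁ := h.anti_one
  have := stablyFinite_of_mpi hd
  have hinj := h.inj fun x hx => antipode_inj A₁ hc hS hx
  have := h.fg hV hgen
  have hv := h.sgR.vn h.indR (fun g => (h.ne g).imp fun _ hu => ⟨hu.1, hu.2.2⟩) (pg_of_gk hV hgen)
  obtain ⟨h3, h4⟩ := noeth_Sm A₁ hc hS hd (h.aff hV hgen)
  have e' : Sm (Subalgebra.toSubmodule A₁) = Sm (Lt δ (1 : Γ)⁻¹) := by rw [e, inv_one, h.eq]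
  rw [e'] at h3 h4
  exact noeth_of_range hinj (h.topS ▸ up_left hv h.sgS h3) (h.topS ▸ up_right hv h.sgS h4)

theorem main2 {V : Submodule k H} (hV : Growth V) (hgen : Algebra.adjoin k (V : Set H) = ⊤)
    (π : H →ₐc[k] MonoidAlgebra k Γ)
    (hn : ∀ x : H, LinearMap.lTensor H π.toLinearMap (Coalgebra.comul x) = x ⊗ₜ[k] 1 ↔
      LinearMap.rTensor H π.toLinearMap (Coalgebra.comul x) = 1 ⊗ₜ[k] x)
    (hPI : ∃ (m : ℕ) (f : FreeAlgebra k (Fin m)), f ≠ 0 ∧ ∀ a : Fin m → H,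
      (∀ i, LinearMap.lTensor H π.toLinearMap (Coalgebra.comul (a i)) = a i ⊗ₜ[k] 1) →
        FreeAlgebra.lift k a f = 0) :
    IsNoetherianRing H ∧ IsNoetherianRing Hᵐᵒᵖ := by
  obtain ⟨δ, d1, d2, d3⟩ := exists_de π
  obtain ⟨K, k1, k2⟩ := d1.supp
  have he : Rt δ 1 = Lt δ 1 := Submodule.ext fun x => by rw [d2, d3, hn]
  obtain ⟨m, f, hf, hz⟩ := hPI
  exact (k1.bi he k2).main hV hgen ⟨m, f, hf, fun a ha => hz a fun i => (d2 _).1 (ha i)⟩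

end Pool.Agent.Lib.MP_ff61db_al.Cg
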