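import Pool.Agent.Lib.MP_ff61db_al.Cg.Main2
import Pool.Agent.Lib.MP_ff61db_al.Cg.DG3
import Pool.Agent.Lib.MP_ff61db_al.Cg.DH5
import Pool.Agent.Lib.MP_ff61db_al.Cg.DH6
import Pool.Agent.Lib.MP_ff61db_al.Cg.DL1
import Pool.Agent.Lib.MP_ff61db_al.Cg.DA4

/-! Extensions of a connected-by-group Hopf algebra by a PI Hopf algebra. -/

namespace Pool.Agent.Lib.MP_ff61db_al.Cg

open Submodule TensorProduct

variable {k H U : Type} [Field k] [Ring H] [HopfAlgebra k H] [Ring U] [HopfAlgebra k U]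
  {π : H →ₐc[k] U}

theorem aff_of_Sm {P : Submodule k H} (h1 : (1 : H) ∈ P) (hm : P * P ≤ P)
    (hi : ∀ x ∈ P, HopfAlgebra.antipode k x = 0 → x = 0) (h : Aff (Sm P)) : Aff P := by
  obtain ⟨V, hV, e⟩ := h
  obtain ⟨W, w1, w2, w3⟩ := topB_pre (P := P) (Y := V) (e ▸ le_gen V) hV
  have h2 : gen W ≤ P := gen_le w2 h1 hm
  refine ⟨W, w1, le_antisymm h2 fun x hx => ?_⟩
  have h3 : HopfAlgebra.antipode k x ∈ Sm (gen W) := by
    rw [Sm_gen]
    exact gen_mono w3 (e ▸ mem_map_of_mem hx)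
  obtain ⟨y, hy, h4⟩ := h3
  have h5 := hi (x - y) (sub_mem hx (h2 hy)) (by rw [map_sub, h4, sub_self])
  rwa [sub_eq_zero.1 h5]

theorem noeth_aff (A : Subalgebra k H) (hc : Cl (Subalgebra.toSubmodule A))
    (hS : Sm (Subalgebra.toSubmodule A) ≤ Subalgebra.toSubmodule A) {d : ℕ} (hd : MPI k A d)
    (haff : Aff (Subalgebra.toSubmodule A)) :
    LN (Subalgebra.toSubmodule A) ∧ RN (Subalgebra.toSubmodule A) := by
  obtain ⟨V, ⟨s, rfl⟩, hgen⟩ := haff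
  have hfg : A.FG := ⟨s, by
    rw [← Algebra.adjoin_span (R := k) (s := (s : Set H))]
    exact Subalgebra.toSubmodule_injective hgen⟩
  have hft : Algebra.FiniteType k A := (Subalgebra.fg_iff_finiteType A).1 hfg
  obtain ⟨inst, hinst⟩ := exists_hopf_sub A hc hS
  have h0 : @MPI k A _ _ inst.toAlgebra d := by rw [hinst]; exact hd
  have h1 : @Algebra.FiniteType k A _ _ inst.toAlgebra := by rw [hinst]; exact hft
  obtain ⟨hl, hr⟩ := @topc_noeth k A _ _ inst h1 d h0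
  exact ⟨⟨A.toSubring, rfl, hl⟩, ⟨A.toSubring, rfl, hr⟩⟩

theorem Cn.conn {V : Submodule k H} (hV : Growth V) (hgen : Algebra.adjoin k (V : Set H) = ⊤)
    (hc : Cn π) {T : Submodule k H} (hT : Cl T) (haff : Aff T)
    (hU : ∀ x, x ∈ T ↔ ∃ a, x ∈ Uw (Rw π 1) a)
    (hi : ∀ z ∈ Rw π 1, HopfAlgebra.antipode k z = 0 → z = 0) :
    Aff (Rw π 1) ∧ (LN (Rw π 1) → LN T) ∧ (RN (Rw π 1) → RN T) := by
  obtain ⟨L, D, hL, e1⟩ := exists_lay hc.sb.cl hc.sb.one hT haff fun x => (hU x).1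
  obtain ⟨ι, _, y, e, hD⟩ := exists_dn hV hgen hL
  let _ : LinearOrder ι := @linearOrderOfSTO ι WellOrderingRel _ (Classical.decRel _)
  obtain ⟨x, hx, hx'⟩ := exists_lf hc hL hD
  have hA : Rw π 1 ≤ gen (L D) := fun z hz => e1 ▸ (hU z).2 ⟨1, le_Uw_one hc.sb.cl hz⟩
  have hg := hx.gd hc hD
  have e2 : Tt (Rw π 1) x e = T := by
    rw [← e1]
    refine le_antisymm (iSup_le fun d => ?_) ((gen_le_LW D).trans (iSup_le fun d => ?_))
    · refine (mul_le_mul' hA (span_le.2 ?_)).trans (gen_mul_gen _)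
      rintro _ ⟨l, rfl, -⟩
      refine Subalgebra.list_prod_mem (Algebra.adjoin k (L D : Set H)) fun z hz => ?_
      obtain ⟨i, -, rfl⟩ := List.mem_map.1 hz
      exact (mul_le_mul' hA (LW_le_gen hL.top _)).trans (gen_mul_gen _) (hx' i)
    · refine (le_Rw_map (π := π) (LW_cl hL.cl d)).trans ?_
      rw [hD.map]
      exact (hx.span hD _).trans (le_iSup (fun d => Rw π 1 * Wq k x e d 0) (d + 1))
  exact ⟨aff_coinv (pg_of_gk hV hgen) hc hL hD hx hx' hA hi, fun h => e2 ▸ hg.ln h,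
    fun h => e2 ▸ hg.rn h⟩

theorem noeth_top (hl : LN (⊤ : Submodule k H)) (hr : RN (⊤ : Submodule k H)) :
    IsNoetherianRing H ∧ IsNoetherianRing Hᵐᵒᵖ := by
  obtain ⟨R, hR, hn⟩ := hl
  obtain ⟨R', hR', hn'⟩ := hr
  obtain rfl : R = ⊤ := SetLike.coe_injective hR
  obtain rfl : R' = ⊤ := SetLike.coe_injective hR'
  exact ⟨isNoetherianRing_of_ringEquiv _ Subring.topEquiv,
    isNoetherianRing_of_ringEquiv _ (RingEquiv.op Subring.topEquiv)⟩

theorem main3 {V : Submodule k H} (hV : Growth V) (hgen : Algebra.adjoin k (V : Set H) = ⊤)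
    (π : H →ₐc[k] U)
    (hn : ∀ x : H, LinearMap.lTensor H π.toLinearMap (Coalgebra.comul x) = x ⊗ₜ[k] 1 ↔
      LinearMap.rTensor H π.toLinearMap (Coalgebra.comul x) = 1 ⊗ₜ[k] x)
    {G : Type} [Group G] (p : U →ₐc[k] MonoidAlgebra k G)
    (hp : ∀ u : U, LinearMap.lTensor U p.toLinearMap (Coalgebra.comul u) = u ⊗ₜ[k] 1 ↔
      LinearMap.rTensor U p.toLinearMap (Coalgebra.comul u) = 1 ⊗ₜ[k] u)
    (hc : ∀ u ∈ coradical k U, LinearMap.lTensor U p.toLinearMap (Coalgebra.comul u) = u ⊗ₜ[k] 1 →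
      ∃ c : k, u = algebraMap k U c)
    (hPI : ∃ (m : ℕ) (f : FreeAlgebra k (Fin m)), f ≠ 0 ∧ ∀ a : Fin m → H,
      (∀ i, LinearMap.lTensor H π.toLinearMap (Coalgebra.comul (a i)) = a i ⊗ₜ[k] 1) →
        FreeAlgebra.lift k a f = 0) :
    IsNoetherianRing H ∧ IsNoetherianRing Hᵐᵒᵖ := by
  have c1 := cn_of hn
  have c2 := cn_of hp
  have c3 : ∀ u ∈ coradical k U, u ∈ Rw p 1 → u ∈ (1 : Submodule k U) := fun u h1 h2 => by
    obtain ⟨c, rfl⟩ := hc u h1 (mem_A.1 h2)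
    exact algebraMap_mem c
  obtain ⟨δ, d1, d2, d3⟩ := exists_de (p.comp π)
  obtain ⟨K, k1, k2⟩ := d1.supp
  have eR : ∀ x, x ∈ Rt δ 1 ↔ ∃ a, x ∈ Uw (Rw π 1) a := fun x => by
    rw [d2, ← c1.right p c2 c3, mem_A, rho_apply]
  have he : Rt δ 1 = Lt δ 1 := Submodule.ext fun x => by
    rw [eR, d3, left_iff, c1.left p c2 c3]
  have h := k1.bi he k2
  let A₁ : Subalgebra k H := (Rw π 1).toSubalgebra c1.sb.one fun x y hx hy =>
    c1.sb.mul (mul_mem_mul hx hy)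
  obtain ⟨m, f, hf, hz⟩ := hPI
  obtain ⟨d, hd⟩ : ∃ d, MPI k A₁ d := mpi_of_pi f hf fun a => by
    apply Subtype.val_injective
    have h1 := hz (fun i => (a i : H)) fun i => mem_A.1 (a i).2
    have h2 : A₁.val.comp (FreeAlgebra.lift k a) = FreeAlgebra.lift k fun i => (a i : H) := by
      ext i; simp
    rw [← h2] at h1
    exact h1
  have hcl : Cl (Subalgebra.toSubmodule A₁) := c1.sb.cl
  have hS : Sm (Subalgebra.toSubmodule A₁) ≤ Subalgebra.toSubmodule A₁ := c1.anti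
  have := stablyFinite_of_mpi hd
  have hi : ∀ z ∈ Rw π 1, HopfAlgebra.antipode k z = 0 → z = 0 :=
    fun z hz => antipode_inj A₁ hcl hS hz
  have hT : Aff (Rt δ 1) := aff_of_Sm h.one (mul_one (1 : K) ▸ h.mulR 1 1 :)
    (fun x hx h0 => ((eR x).1 hx).elim fun a ha => c1.inj hi a ha h0) (h.aff hV hgen)
  obtain ⟨t1, t2, t3⟩ := c1.conn hV hgen h.cl_one hT eR hi
  obtain ⟨h3, h4⟩ := noeth_aff A₁ hcl hS hd t1
  have := h.fg hV hgen
  have hv := h.sgR.vn h.indR (fun g => (h.ne g).imp fun _ hu => ⟨hu.1, hu.2.2⟩) (pg_of_gk hV hgen)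
  exact noeth_top (h.topR ▸ up_left hv h.sgR (t2 h3)) (h.topR ▸ up_right hv h.sgR (t3 h4))

end Pool.Agent.Lib.MP_ff61db_al.Cg
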