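import Pool.Agent.Lib.MP_ff61db_al.Cg.HA
import Pool.Agent.Lib.MP_ff61db_al.Cg.HB

/-! The unit and the antipode respect the grading. -/

namespace Pool.Agent.Lib.MP_ff61db_al.Cg

open Submodule TensorProduct

variable {k H : Type} [Field k] [Ring H] [HopfAlgebra k H] {Γ : Type} [Group Γ]

theorem ta_proj {A : Γ → Submodule k H} (h : Co A) (g : Γ) :
    ∃ p : H →ₗ[k] H, (∀ x, p x ∈ A g) ∧ (∀ x ∈ A g, p x = x) ∧
      ∀ a, a ≠ g → ∀ x ∈ A a, p x = 0 := by
  have hc : IsCompl (A g) (⨆ a, ⨆ (_ : a ≠ g), A a) := by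
    refine ⟨h.ind g, codisjoint_iff.2 (top_le_iff.1 ?_)⟩
    rw [← h.top]
    refine iSup_le fun a => ?_
    by_cases e : a = g
    · exact e ▸ le_sup_left
    · exact le_sup_of_le_right (le_iSup₂_of_le (f := fun a (_ : a ≠ g) => A a) a e le_rfl)
  refine ⟨(A g).subtype ∘ₗ Submodule.projectionOnto _ _ hc, fun x => Subtype.property _,
    fun x hx => ?_, fun a e x hx => ?_⟩
  · exact congrArg Subtype.val (Submodule.projectionOnto_apply_left hc ⟨x, hx⟩)
  · exact congrArg Subtype.val (Submodule.projectionOnto_apply_right hc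
      ⟨x, le_iSup₂_of_le (f := fun a (_ : a ≠ g) => A a) a e le_rfl hx⟩)

theorem ta_ext {A : Γ → Submodule k H} (h : Co A) {f f' : H →ₗ[k] H}
    (e : ∀ a, ∀ x ∈ A a, f x = f' x) (x : H) : f x = f' x := by
  have : (⊤ : Submodule k H) ≤ LinearMap.eqLocus f f' := by
    rw [← h.top]
    exact iSup_le fun a y hy => e a y hy
  exact this mem_top

theorem ta_mul {A : Γ → Submodule k H} (h : Co A) {g c : Γ} {p q : H →ₗ[k] H}
    (p1 : ∀ x ∈ A g, p x = x) (p2 : ∀ a, a ≠ g → ∀ x ∈ A a, p x = 0)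
    (q1 : ∀ x ∈ A (g * c), q x = x) (q2 : ∀ a, a ≠ g * c → ∀ x ∈ A a, q x = 0)
    {y : H} (hy : y ∈ A c) (x : H) : q (x * y) = p x * y := by
  refine ta_ext h (f := q ∘ₗ LinearMap.mulRight k y) (f' := LinearMap.mulRight k y ∘ₗ p)
    (fun a z hz => ?_) x
  change q (z * y) = p z * y
  have hm := h.mul a c (mul_mem_mul hz hy)
  by_cases e : a = g
  · subst e
    rw [p1 z hz, q1 _ hm]
  · rw [p2 a e z hz, q2 _ (fun e' => e (mul_right_cancel e')) _ hm, zero_mul]

theorem Co.one {A : Γ → Submodule k H} (h : Co A) : (1 : H) ∈ A 1 := by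
  obtain ⟨p, p0, p1, p2⟩ := ta_proj h 1
  have key : ∀ y : H, y = p 1 * y := by
    refine ta_ext h (f := LinearMap.id) (f' := LinearMap.mulLeft k (p 1)) fun c y hy => ?_
    obtain ⟨q, -, q1, q2⟩ := ta_proj h (1 * c)
    have := ta_mul h p1 p2 q1 q2 hy 1
    rwa [one_mul, q1 y (by rwa [one_mul])] at this
  have := key 1
  rw [mul_one] at this
  exact this ▸ p0 1

theorem ta_conv {C : Submodule k H} (hC : Cl C) {f f' : WithConv (H →ₗ[k] H)}
    (e : ∀ x ∈ C, f.ofConv x = f'.ofConv x) (u : WithConv (H →ₗ[k] H)) {x : H} (hx : x ∈ C) :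
    (f * u).ofConv x = (f' * u).ofConv x := by
  obtain ⟨t, ht⟩ := hC.isSub x hx
  rw [LinearMap.convMul_apply, LinearMap.convMul_apply, ← ht]
  clear ht
  induction t with
  | zero => simp
  | tmul a b => simp [e a a.2]
  | add s t hs ht => simp only [map_add, hs, ht]

theorem Co.anti {A : Γ → Submodule k H} (h : Co A) (g : Γ) : Sm (A g) ≤ A g⁻¹ := by
  obtain ⟨p, p0, p1, p2⟩ := ta_proj h g⁻¹
  obtain ⟨q, -, q1, q2⟩ := ta_proj h (g⁻¹ * g)
  have hq : q 1 = 1 := q1 1 (by rw [inv_mul_cancel]; exact h.one)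
  let S : WithConv (H →ₗ[k] H) := WithConv.toConv (HopfAlgebra.antipode k)
  let T : WithConv (H →ₗ[k] H) := WithConv.toConv (p ∘ₗ HopfAlgebra.antipode k)
  let I : WithConv (H →ₗ[k] H) := WithConv.toConv LinearMap.id
  have h1 : ∀ x ∈ A g, (T * I).ofConv x = (1 : WithConv (H →ₗ[k] H)).ofConv x := by
    intro x hx
    have h2 : (T * I).ofConv x = q ((S * I).ofConv x) := by
      obtain ⟨t, ht⟩ := (h.cl g).isSub x hx
      rw [LinearMap.convMul_apply, LinearMap.convMul_apply, ← ht]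
      clear ht
      induction t with
      | zero => simp
      | tmul a b => simpa [S, T, I] using (ta_mul h p1 p2 q1 q2 b.2 _).symm
      | add s t hs ht => simp only [map_add, hs, ht]
    rw [h2, LinearMap.antipode_mul_id, LinearMap.convOne_apply, Algebra.algebraMap_eq_smul_one,
      map_smul, hq]
  rintro _ ⟨x, hx, rfl⟩
  have h3 := ta_conv (h.cl g) h1 S hx
  rw [mul_assoc, LinearMap.id_mul_antipode, mul_one, one_mul] at h3
  have h4 : p (HopfAlgebra.antipode k x) = HopfAlgebra.antipode k x := h3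
  exact h4 ▸ p0 _

end Pool.Agent.Lib.MP_ff61db_al.Cg
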