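import Pool.Agent.Lib.MP_ff61db_al.Cg.HC
import Pool.Agent.Lib.MP_ff61db_al.Pt.Skew

/-! Hilbert's basis theorem for strongly `ℤ`-graded rings. -/

namespace Pool.Agent.Lib.MP_ff61db_al.Cg

open Submodule TensorProduct

section core
variable {S : Type} [Ring S] {R : Subring S}

/-- The sum of the components of degree `0 ≤ i < n`. -/
def upzF (P : ℤ → Submodule R S) : ℕ → Submodule R S
  | 0 => ⊥
  | n + 1 => upzF P n ⊔ P n

theorem upzF_mono (P : ℤ → Submodule R S) : Monotone (upzF P) :=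
  monotone_nat_of_le_succ fun _ => le_sup_left

theorem upzF_le (P : ℤ → Submodule R S) (n : ℕ) : P n ≤ upzF P (n + 1) := le_sup_right

theorem upzF_mul {P : ℤ → Submodule R S}
    (hmul : ∀ i j x y, x ∈ P i → y ∈ P j → x * y ∈ P (i + j)) {u : S} (hu : u ∈ P 1) (n : ℕ) :
    ∀ x ∈ upzF P n, u * x ∈ upzF P (n + 1) := by
  induction n with
  | zero =>
    intro x hx
    rw [(mem_bot _).1 hx, mul_zero]
    exact zero_mem _
  | succ n ih =>
    intro x hx
    obtain ⟨y, hy, z, hz, rfl⟩ := mem_sup.1 hx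
    rw [mul_add]
    refine add_mem (upzF_mono P (Nat.le_succ _) (ih y hy)) (upzF_le P (n + 1) ?_)
    have := hmul _ _ _ _ hu hz
    rwa [show (1 : ℤ) + n = ((n + 1 : ℕ) : ℤ) by push_cast; ring] at this

theorem upz_core [IsNoetherianRing R] (P : ℤ → Submodule R S) (h0 : ∀ x, x ∈ P 0 ↔ x ∈ R)
    (hmul : ∀ i j x y, x ∈ P i → y ∈ P j → x * y ∈ P (i + j))
    (hs : ∀ i, ∃ l : List (S × S), (∀ a ∈ l, a.1 ∈ P i ∧ a.2 ∈ P (-i)) ∧
      (l.map fun a => a.1 * a.2).sum = 1) (htop : ∀ x, x ∈ ⨆ i, P i) : IsNoetherianRing S := by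
  have hm : ∀ {i j n : ℤ} {x y : S}, x ∈ P i → y ∈ P j → i + j = n → x * y ∈ P n :=
    fun hx hy e => e ▸ hmul _ _ _ _ hx hy
  have ind : ∀ (i : ℤ) (M : Submodule R S) (x : S),
      (∀ p ∈ P i, ∀ q ∈ P (-i), p * (q * x) ∈ M) → x ∈ M := by
    intro i M x h
    obtain ⟨l, hl, e⟩ := hs i
    rw [← one_mul x, ← e, ← List.sum_map_mul_right]
    refine list_sum_mem fun y hy => ?_
    obtain ⟨a, ha, rfl⟩ := List.mem_map.1 hy
    rw [mul_assoc]
    exact h _ (hl a ha).1 _ (hl a ha).2
  have hPfg : ∀ i, (P i).FG := by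
    intro i
    obtain ⟨l, hl, e⟩ := hs (-i)
    rw [neg_neg] at hl
    refine fg_def.2 ⟨Prod.snd '' {a | a ∈ l}, (List.finite_toSet l).image _,
      le_antisymm (span_le.2 ?_) fun x hx => ?_⟩
    · rintro _ ⟨a, ha, rfl⟩
      exact (hl a ha).2
    · rw [← mul_one x, ← e, ← List.sum_map_mul_left]
      refine list_sum_mem fun y hy => ?_
      obtain ⟨a, ha, rfl⟩ := List.mem_map.1 hy
      rw [← mul_assoc]
      exact smul_mem _ (⟨x * a.1, (h0 _).1 (hm hx (hl a ha).1 (by ring))⟩ : R)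
        (subset_span ⟨a, ha, rfl⟩)
  have hFfg : ∀ n, (upzF P n).FG := by
    intro n
    induction n with
    | zero => exact fg_bot
    | succ n ih => exact ih.sup (hPfg _)
  have hsup : ∀ (J : Ideal S) (n : ℕ), ∀ u ∈ P 1, ∀ z ∈ J.restrictScalars R ⊔ upzF P n,
      u * z ∈ J.restrictScalars R ⊔ upzF P (n + 1) := by
    intro J n u hu z hz
    obtain ⟨y, hy, w, hw, rfl⟩ := mem_sup.1 hz
    rw [mul_add]
    exact add_mem (mem_sup_left (J.mul_mem_left u hy)) (mem_sup_right (upzF_mul hmul hu n w hw))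
  refine (isNoetherianRing_iff_ideal_fg S).2 fun I => ?_
  let L : ℕ → Ideal R := fun n =>
    { carrier := {r | ∀ p ∈ P n, p * r ∈ I.restrictScalars R ⊔ upzF P n}
      add_mem' := fun {a b} ha hb p hp => by
        rw [Subring.coe_add, mul_add]
        exact add_mem (ha p hp) (hb p hp)
      zero_mem' := fun p _ => by
        rw [Subring.coe_zero, mul_zero]
        exact zero_mem _
      smul_mem' := fun c a ha p hp => by
        have := ha _ (hm hp ((h0 _).2 c.2) (add_zero _))
        rwa [mul_assoc] at this }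
  have hL : Monotone L := by
    refine monotone_nat_of_le_succ fun n a ha p hp => ind 1 _ _ fun u hu v hv => ?_
    rw [← mul_assoc v]
    exact hsup I n u hu _ (ha _ (hm hv hp (by push_cast; ring)))
  obtain ⟨N, hN⟩ := monotone_stabilizes_iff_noetherian.2
    (inferInstance : IsNoetherian R R) ⟨L, hL⟩
  have hfg : (I.restrictScalars R ⊓ upzF P (N + 1)).FG := by
    have : IsNoetherian R (upzF P (N + 1)) := isNoetherian_of_fg_of_noetherian _ (hFfg _)
    exact (isNoetherian_submodule.1 this) _ inf_le_right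
  obtain ⟨t, ht⟩ := hfg
  have hJI : span S (t : Set S) ≤ I := span_le.2 fun x hx => by
    have : x ∈ span R (t : Set S) := subset_span hx
    rw [ht] at this
    exact this.1
  have key : ∀ m, ∀ x ∈ I, x ∈ upzF P (N + m + 1) → x ∈ span S (t : Set S) := by
    intro m
    induction m with
    | zero =>
      intro x h1 h2
      have : x ∈ span R (t : Set S) := ht ▸ ⟨h1, h2⟩
      exact span_le_restrictScalars R S _ this
    | succ m ih =>
      intro x h1 h2
      obtain ⟨z, hz, a, ha, rfl⟩ := mem_sup.1 h2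
      have h3 : a ∈ I.restrictScalars R ⊔ upzF P (N + m + 1) := by
        have := sub_mem (mem_sup_left (S := I.restrictScalars R) h1) (mem_sup_right hz)
        rwa [add_sub_cancel_left] at this
      have h4 : a ∈ (span S (t : Set S)).restrictScalars R ⊔ upzF P (N + m + 1) := by
        refine ind ((N + m + 1 : ℕ) : ℤ) _ _ fun p hp q hq => ?_
        have hr : q * a ∈ R := (h0 _).1 (hm hq ha (neg_add_cancel _))
        have h5 : (⟨q * a, hr⟩ : R) ∈ L (N + m + 1) := fun p' hp' => by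
          have := smul_mem _ (⟨p' * q, (h0 _).1 (hm hp' hq (add_neg_cancel _))⟩ : R) h3
          rw [← mul_assoc]
          exact this
        have e : L (N + m + 1) = L (N + m) := (hN _ (by omega)).symm.trans (hN _ (by omega))
        rw [e] at h5
        refine ind 1 _ _ fun u hu v hv => hsup _ _ u hu _ ?_
        have h6 : v * p ∈ P ((N + m : ℕ) : ℤ) := hm hv hp (by push_cast; ring)
        obtain ⟨y, hy, w, hw, e'⟩ := mem_sup.1 (h5 _ h6)
        have h7 : y ∈ upzF P (N + m + 1) := by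
          rw [eq_sub_of_add_eq e']
          exact sub_mem (upzF_le P _ (hm h6 ((h0 _).2 hr) (add_zero _)))
            (upzF_mono P (Nat.le_succ _) hw)
        rw [← mul_assoc v]
        exact e' ▸ add_mem (mem_sup_left (ih y hy h7)) (mem_sup_right hw)
      obtain ⟨j, hj, f, hf, rfl⟩ := mem_sup.1 h4
      have h8 : z + f ∈ I := by
        have := sub_mem h1 (hJI hj)
        rwa [show z + (j + f) - j = z + f by abel] at this
      rw [show z + (j + f) = z + f + j by abel]
      exact add_mem (ih _ h8 (add_mem hz hf)) hj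
  have hx : ∀ x, ∃ b : ℕ, ∀ a : ℕ, b ≤ a → ∃ n, ∀ p ∈ P a, p * x ∈ upzF P n := by
    intro x
    induction htop x using iSup_induction' with
    | mem i x hx =>
      refine ⟨(-i).toNat, fun a ha => ⟨(a + i).toNat + 1, fun p hp => upzF_le P _ ?_⟩⟩
      exact hm hp hx (by omega)
    | zero => exact ⟨0, fun a _ => ⟨0, fun p _ => by rw [mul_zero]; exact zero_mem _⟩⟩
    | add x y _ _ hx hy =>
      obtain ⟨b, hb⟩ := hx
      obtain ⟨c, hc⟩ := hy
      refine ⟨max b c, fun a ha => ?_⟩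
      obtain ⟨n, hn⟩ := hb a (le_of_max_le_left ha)
      obtain ⟨m, hm'⟩ := hc a (le_of_max_le_right ha)
      refine ⟨max n m, fun p hp => ?_⟩
      rw [mul_add]
      exact add_mem (upzF_mono P (le_max_left _ _) (hn p hp))
        (upzF_mono P (le_max_right _ _) (hm' p hp))
  refine ⟨t, le_antisymm hJI fun x hxI => ?_⟩
  obtain ⟨a, ha⟩ := hx x
  obtain ⟨n, hn⟩ := ha a le_rfl
  refine ind (-(a : ℤ)) ((span S (t : Set S)).restrictScalars R) x fun q _ p hp => ?_
  rw [neg_neg] at hp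
  exact smul_mem (span S (t : Set S)) q
    (key n _ (I.mul_mem_left _ hxI) (upzF_mono P (by omega) (hn p hp)))

end core

variable {k H : Type} [Field k] [Ring H] [Algebra k H]

theorem upz_list {S : Subring H} {P Q : Submodule k H} (hP : ∀ x ∈ P, x ∈ S) (hQ : ∀ x ∈ Q, x ∈ S)
    {x : H} (h : x ∈ P * Q) : ∃ l : List (S × S), (∀ a ∈ l, (a.1 : H) ∈ P ∧ (a.2 : H) ∈ Q) ∧
      (((l.map fun a => a.1 * a.2).sum : S) : H) = x := by
  refine Submodule.mul_induction_on h (fun p hp q hq => ⟨[(⟨p, hP p hp⟩, ⟨q, hQ q hq⟩)], ?_, by simp⟩) ?_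
  · intro a ha
    rw [List.mem_singleton.1 ha]
    exact ⟨hp, hq⟩
  · rintro _ _ ⟨l, hl, rfl⟩ ⟨m, hm, rfl⟩
    refine ⟨l ++ m, fun a ha => (List.mem_append.1 ha).elim (hl a) (hm a), ?_⟩
    rw [List.map_append, List.sum_append, Subring.coe_add]

theorem up_int {P : ℤ → Submodule k H} (h1 : (1 : H) ∈ P 0) (hmul : ∀ i j, P i * P j ≤ P (i + j))
    (hs : ∀ i, (1 : H) ∈ P i * P (-i)) (h : LN (P 0)) : LN (⨆ i, P i) := by
  obtain ⟨R, hR, hN⟩ := h
  have hR' : ∀ x, x ∈ R ↔ x ∈ P 0 := fun x => Set.ext_iff.1 hR x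
  have hT : (⨆ i, P i) * (⨆ i, P i) ≤ ⨆ i, P i := by
    simp only [Submodule.iSup_mul, Submodule.mul_iSup]
    exact iSup_le fun j => iSup_le fun i => (hmul i j).trans (le_iSup P _)
  let S : Subring H :=
    { carrier := ((⨆ i, P i : Submodule k H) : Set H)
      mul_mem' := fun ha hb => hT (mul_mem_mul ha hb)
      one_mem' := le_iSup P 0 h1
      add_mem' := fun ha hb => add_mem ha hb
      zero_mem' := zero_mem _
      neg_mem' := fun ha => neg_mem ha }
  have hPS : ∀ i, ∀ x ∈ P i, x ∈ S := fun i x hx => le_iSup P i hx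
  have hRS : R ≤ S := fun x hx => hPS 0 x ((hR' x).1 hx)
  have := Pt.B9.noeth_comap hRS
  let Q : ℤ → Submodule (R.comap S.subtype) S := fun i =>
    { carrier := {x | (x : H) ∈ P i}
      add_mem' := fun ha hb => (P i).add_mem ha hb
      zero_mem' := zero_mem (P i)
      smul_mem' := fun c x hx => by
        have := hmul 0 i (mul_mem_mul ((hR' _).1 c.2) hx)
        rwa [zero_add] at this }
  refine ⟨S, rfl, upz_core Q (fun x => (hR' x).symm)
    (fun i j x y hx hy => hmul i j (mul_mem_mul hx hy)) (fun i => ?_) ?_⟩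
  · obtain ⟨l, hl, e⟩ := upz_list (hPS i) (hPS (-i)) (hs i)
    exact ⟨l, hl, Subtype.ext e⟩
  · rintro ⟨x, hx⟩
    change x ∈ ⨆ i, P i at hx
    induction hx using iSup_induction' with
    | mem i x hx => exact le_iSup Q i hx
    | zero => exact zero_mem _
    | add x y _ _ hx hy => exact add_mem hx hy

end Pool.Agent.Lib.MP_ff61db_al.Cg
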